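import Pool.Agent.H679.DC.Main

/-!
# Almost prime tuples among the integers obtained by permuting the digits in a window
-/

set_option autoImplicit false

namespace Pool.Agent.H679.DC

open Finset Filter

/-- the number of the places `t ≤ i < t + L` at which the digit of `N` in base `b` is `c` -/
def cw (b t L N c : ℕ) : ℕ := ((range L).filter (fun i => N / b ^ (t + i) % b = c)).card

/-- the integers which arise from `N` by permuting the digits at the places `t ≤ i < t + L` -/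
def Ana (b t L N : ℕ) : Set ℕ :=
  {m | m % b ^ t = N % b ^ t ∧ m / b ^ (t + L) = N / b ^ (t + L) ∧ ∀ c, cw b t L m c = cw b t L N c}

/-- two consecutive digits occur at least `ε L` times in the window -/
def Rich (b : ℕ) (ε : ℝ) (t L N : ℕ) : Prop := ∃ d : ℕ, d + 1 < b ∧ ε * L ≤ cw b t L N d ∧ ε * L ≤ cw b t L N (d + 1)

/-- the part of `N` outside of the window -/
def out (b t L N : ℕ) : ℕ := N / b ^ (t + L) * b ^ (t + L) + N % b ^ t

lemma cw_eq {b t L m : ℕ} (hb : 0 < b) (c : ℕ) : cw b t L m c = dc b L (m / b ^ t % b ^ L) c := by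
  unfold cw dc
  congr 1
  apply filter_congr
  intro i hi
  rw [mem_range] at hi
  have h1 : m / b ^ t % b ^ L / b ^ i % b = m / b ^ (t + i) % b := by
    obtain ⟨s, hs⟩ := Nat.exists_eq_add_of_lt hi
    have h2 : m / b ^ t = m / b ^ t % b ^ L + (m / b ^ t / b ^ L) * b ^ L := by
      rw [mul_comm]; exact (Nat.mod_add_div _ _).symm
    rw [pow_add, ← Nat.div_div_eq_div_mul]
    conv_rhs => rw [h2]
    rw [Pool.Agent.Y816.PD.digit_low hb hi]
  rw [h1]

lemma split {b t L : ℕ} (m : ℕ) : m = b ^ t * (m / b ^ t % b ^ L) + out b t L m := by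
  unfold out
  have h1 := Nat.div_add_mod m (b ^ t)
  have h2 := Nat.div_add_mod (m / b ^ t) (b ^ L)
  rw [Nat.div_div_eq_div_mul, ← pow_add] at h2
  calc m = b ^ t * (m / b ^ t) + m % b ^ t := h1.symm
    _ = b ^ t * (b ^ L * (m / b ^ (t + L)) + m / b ^ t % b ^ L) + m % b ^ t := by rw [h2]
    _ = _ := by rw [pow_add]; ring

lemma out_parts {b t L N x : ℕ} (hb : 0 < b) (hx : x < b ^ L) :
    (b ^ t * x + out b t L N) % b ^ t = N % b ^ t ∧
    (b ^ t * x + out b t L N) / b ^ (t + L) = N / b ^ (t + L) ∧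
    (b ^ t * x + out b t L N) / b ^ t % b ^ L = x := by
  have hbt : 0 < b ^ t := Nat.pow_pos hb
  have hbL : 0 < b ^ L := Nat.pow_pos hb
  obtain ⟨r, hr⟩ : ∃ r, r = N % b ^ t := ⟨_, rfl⟩
  obtain ⟨q, hq⟩ : ∃ q, q = N / b ^ (t + L) := ⟨_, rfl⟩
  have hrt : r < b ^ t := by rw [hr]; exact Nat.mod_lt _ hbt
  have h1 : b ^ t * x + out b t L N = b ^ t * (x + b ^ L * q) + r := by
    unfold out
    rw [← hr, ← hq, pow_add]
    ring
  have h2 : (b ^ t * x + out b t L N) / b ^ t = x + b ^ L * q := by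
    rw [h1, Nat.mul_add_div hbt, Nat.div_eq_of_lt hrt, Nat.add_zero]
  refine ⟨?_, ?_, ?_⟩
  · rw [h1, Nat.mul_add_mod, Nat.mod_eq_of_lt hrt, hr]
  · rw [pow_add, ← Nat.div_div_eq_div_mul, h2, Nat.add_mul_div_left _ _ hbL, Nat.div_eq_of_lt hx, Nat.zero_add,
      ← pow_add, ← hq]
  · rw [h2, Nat.add_mul_mod_self_left, Nat.mod_eq_of_lt hx]

lemma mem_Ana {b t L N : ℕ} (hb : 0 < b) (m : ℕ) :
    m ∈ Ana b t L N ↔ ∃ x ∈ tc b L (cw b t L N), m = b ^ t * x + out b t L N := by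
  constructor
  · rintro ⟨h1, h2, h3⟩
    refine ⟨m / b ^ t % b ^ L, ?_, ?_⟩
    · unfold tc
      rw [mem_filter, mem_range]
      refine ⟨Nat.mod_lt _ (Nat.pow_pos hb), fun c _ => ?_⟩
      rw [← cw_eq hb, h3]
    · have h4 : out b t L m = out b t L N := by
        unfold out
        rw [h1, h2]
      rw [← h4]
      exact split m
  · rintro ⟨x, hx, rfl⟩
    unfold tc at hx
    rw [mem_filter, mem_range] at hx
    obtain ⟨h1, h2, h3⟩ := out_parts (t := t) (N := N) hb hx.1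
    refine ⟨h1, h2, fun c => ?_⟩
    rw [cw_eq hb, h3]
    by_cases hc : c < b
    · exact hx.2 c hc
    · have h4 : ∀ y : ℕ, dc b L y c = 0 := by
        intro y
        unfold dc
        rw [card_eq_zero, filter_eq_empty_iff]
        intro i _ h5
        have := Nat.mod_lt (y / b ^ i) hb
        omega
      rw [h4, cw_eq hb, h4]

lemma cnt_of_rich {b : ℕ} (hb : 0 < b) {ε : ℝ} {t L N : ℕ} (h : Rich b ε t L N) : Cnt b ε L (cw b t L N) := by
  refine ⟨?_, h⟩
  have h1 := sum_dc (b := b) L (N / b ^ t % b ^ L) hb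
  refine Eq.trans ?_ h1
  apply sum_congr rfl
  intro c _
  exact cw_eq hb c

lemma ncard_eq {b t L N : ℕ} (hb : 0 < b) (P : ℕ → Prop) [DecidablePred (fun x => P (b ^ t * x + out b t L N))] :
    Set.ncard {m | m ∈ Ana b t L N ∧ P m} =
      ((tc b L (cw b t L N)).filter (fun x => P (b ^ t * x + out b t L N))).card := by
  have hbt : 0 < b ^ t := Nat.pow_pos hb
  have hinj : Function.Injective (fun x : ℕ => b ^ t * x + out b t L N) := by
    intro x y hxy
    simp only at hxy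
    exact Nat.eq_of_mul_eq_mul_left hbt (by omega)
  rw [← card_image_of_injective _ hinj, ← Set.ncard_coe_finset]
  congr 1
  ext m
  rw [Set.mem_ofPred_eq, mem_Ana hb, mem_coe, mem_image]
  constructor
  · rintro ⟨⟨x, hx, rfl⟩, hP⟩
    exact ⟨x, mem_filter.2 ⟨hx, hP⟩, rfl⟩
  · rintro ⟨x, hx, rfl⟩
    rw [mem_filter] at hx
    exact ⟨⟨x, hx.1, rfl⟩, hx.2⟩

lemma ncard_Ana {b t L N : ℕ} (hb : 0 < b) : (Ana b t L N).ncard = (tc b L (cw b t L N)).card := by
  have h := ncard_eq (t := t) (L := L) (N := N) hb (fun _ => True)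
  rw [filter_true_of_mem (fun _ _ => trivial)] at h
  rw [← h]
  congr 1
  ext m
  rw [Set.mem_ofPred_eq]
  exact ⟨fun h => ⟨h, trivial⟩, fun h => h.1⟩

lemma out_le {b t L N : ℕ} : out b t L N ≤ N := by
  have := split (b := b) (t := t) (L := L) N
  omega

/-- the local conditions outside of the window -/
lemma loc_out {b t L N h : ℕ} (hb : 2 ≤ b) (ht : 1 ≤ t) (hc : (N + h).Coprime (b * (b - 1))) :
    (out b t L N + h).Coprime b ∧
      (∑ i ∈ range b, i * cw b t L N i + out b t L N + h).Coprime (b - 1) := by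
  have hs := split (b := b) (t := t) (L := L) N
  constructor
  · have h1 : (N + h).Coprime b := Nat.Coprime.coprime_dvd_right (Dvd.intro _ rfl) hc
    rw [hs, add_assoc] at h1
    obtain ⟨s, rfl⟩ := Nat.exists_eq_add_of_le ht
    rw [pow_add, pow_one, mul_assoc, Nat.coprime_mul_left_add_left] at h1
    exact h1
  · have h1 : (N + h).Coprime (b - 1) := Nat.Coprime.coprime_dvd_right (Dvd.intro_left _ rfl) hc
    have hx : N / b ^ t % b ^ L ∈ tc b L (cw b t L N) := by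
      unfold tc
      rw [mem_filter, mem_range]
      exact ⟨Nat.mod_lt _ (Nat.pow_pos (by omega)), fun c _ => (cw_eq (by omega) c).symm⟩
    have h2 : N + h ≡ ∑ i ∈ range b, i * cw b t L N i + out b t L N + h [MOD b - 1] := by
      apply Nat.ModEq.add_right
      have h3 := (pow_mod_one (by omega) (dvd_refl (b - 1)) t).mul
        (mem_tc_mod (L := L) (by omega) (dvd_refl (b - 1)) hx)
      rw [one_mul] at h3
      have h4 := h3.add_right (out b t L N)
      rwa [← hs] at h4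
    unfold Nat.Coprime at h1 ⊢
    rw [← h2.gcd_eq]
    exact h1

open Classical in
/-- **Lower bound** -/
theorem ana_lower {b : ℕ} {ε : ℝ} (hb : 2 ≤ b) (hε : 0 < ε) (hε1 : ε ≤ 1) (H : Finset ℕ) (hH : 1 ≤ H.card)
    (hadm : ∀ p : ℕ, p.Prime → ∃ m : ℕ, ∀ h ∈ H, ¬ p ∣ m + h) (D : ℕ) :
    ∃ r : ℕ, 2 ≤ r ∧ ∃ κ : ℝ, 0 < κ ∧ ∀ᶠ L : ℕ in atTop, ∀ t N : ℕ, 1 ≤ t → t ≤ D * L → N ≤ b ^ (D * L) →
      Rich b ε t L N → (∀ h ∈ H, (N + h).Coprime (b * (b - 1))) →
      κ * (Ana b t L N).ncard / (L : ℝ) ^ H.card ≤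
        (Set.ncard {m | m ∈ Ana b t L N ∧ ∀ h ∈ H, (∀ p : ℕ, p.Prime → p ∣ m + h → b ^ L < p ^ r) ∧
          (m + h).primeFactorsList.length ≤ r} : ℝ) := by
  obtain ⟨r, hr, κ, hκ, hlow⟩ := tuple_lower hb hε hε1 H hH hadm D
  refine ⟨r, hr, κ, hκ, ?_⟩
  filter_upwards [hlow] with L hL
  intro t N ht htD hN hrich hcop
  have h1 := hL (cw b t L N) (cnt_of_rich (by omega) hrich) t (out b t L N) ht htD (out_le.trans hN)
    (fun h hh => (loc_out hb ht (hcop h hh)).1) (fun h hh => (loc_out hb ht (hcop h hh)).2)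
  rw [ncard_eq (by omega : 0 < b), ncard_Ana (by omega : 0 < b)]
  exact h1

/-- few small elements -/
lemma few_small {b : ℕ} {ε : ℝ} (hb : 2 ≤ b) (hε : 0 < ε) (h : ℕ) : ∃ r : ℕ, 1 ≤ r ∧ ∀ᶠ L : ℕ in atTop,
    ∀ k : ℕ → ℕ, Cnt b ε L k → ((b ^ (L / r) : ℕ) : ℝ) ≤ (tc b L k).card / (L : ℝ) ^ h := by
  have hb1 : (1 : ℝ) < b := by exact_mod_cast (by omega : 1 < b)
  have hb0 : (0 : ℝ) < b := by linarith
  have hlb : 0 < Real.log b := Real.log_pos hb1
  obtain ⟨r, hr⟩ := exists_nat_ge (2 * Real.log b / ε ^ 2 + 1)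
  have hr1 : (1 : ℝ) ≤ r := le_trans (by
    have : 0 ≤ 2 * Real.log b / ε ^ 2 := by positivity
    linarith) hr
  have hr1' : 1 ≤ r := by exact_mod_cast hr1
  refine ⟨r, hr1', ?_⟩
  have hlim : Tendsto (fun L : ℕ => ((L + 1 : ℕ) : ℝ) ^ (h + b) * Real.exp (-(ε ^ 2 / 2 * ((L + 1 : ℕ) : ℝ))))
      atTop (nhds 0) := by
    have h1 := Real.tendsto_pow_mul_exp_neg_atTop_nhds_zero (h + b)
    have h2 : Tendsto (fun L : ℕ => ε ^ 2 / 2 * ((L + 1 : ℕ) : ℝ)) atTop atTop := by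
      apply Tendsto.const_mul_atTop (by positivity)
      exact tendsto_natCast_atTop_atTop.comp (tendsto_add_atTop_nat 1)
    have h3 := h1.comp h2
    have h4 := h3.const_mul ((2 / ε ^ 2) ^ (h + b))
    rw [mul_zero] at h4
    refine h4.congr fun L => ?_
    simp only [Function.comp]
    rw [← mul_assoc, ← mul_pow]
    congr 2
    field_simp
  have h5 := hlim.eventually (gt_mem_nhds (show (0 : ℝ) < Real.exp (-(ε ^ 2 / 2)) by positivity))
  filter_upwards [h5, eventually_ge_atTop 1] with L hL hL1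
  intro k hk
  have hLr : (1 : ℝ) ≤ L := by exact_mod_cast hL1
  have h6 := tc_big hb hε (by omega : 0 < L) hk
  have h7 : ((b ^ (L / r) : ℕ) : ℝ) ≤ Real.exp (ε ^ 2 / 2 * L) := by
    push_cast
    have h8 : (b : ℝ) ^ (L / r) = Real.exp (Real.log b * ((L / r : ℕ) : ℝ)) := by
      rw [mul_comm, Real.exp_nat_mul, Real.exp_log hb0]
    rw [h8]
    apply Real.exp_le_exp.2
    have h9 : ((L / r : ℕ) : ℝ) ≤ L / r := Nat.cast_div_le
    have h10 : Real.log b ≤ ε ^ 2 / 2 * r := by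
      have h11 : 2 * Real.log b / ε ^ 2 ≤ r := by linarith
      rw [div_le_iff₀ (by positivity)] at h11
      linarith
    calc Real.log b * ((L / r : ℕ) : ℝ) ≤ Real.log b * (L / r) := mul_le_mul_of_nonneg_left h9 hlb.le
      _ ≤ (ε ^ 2 / 2 * r) * (L / r) := mul_le_mul_of_nonneg_right h10 (by positivity)
      _ = _ := by field_simp
  rw [le_div_iff₀ (by positivity)]
  have hE : Real.exp (ε ^ 2 * L) = Real.exp (ε ^ 2 / 2 * L) * Real.exp (ε ^ 2 / 2 * L) := by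
    rw [← Real.exp_add]; congr 1; ring
  have h12 : ((L + 1 : ℕ) : ℝ) ^ (h + b) ≤ Real.exp (ε ^ 2 / 2 * L) := by
    have h13 : Real.exp (-(ε ^ 2 / 2 * ((L + 1 : ℕ) : ℝ))) = Real.exp (-(ε ^ 2 / 2)) / Real.exp (ε ^ 2 / 2 * L) := by
      rw [← Real.exp_sub]; congr 1; push_cast; ring
    rw [h13, ← mul_div_assoc, div_lt_iff₀ (Real.exp_pos _)] at hL
    have h14 := Real.exp_pos (-(ε ^ 2 / 2))
    rw [mul_comm] at hL
    exact (lt_of_mul_lt_mul_left hL h14.le).le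
  have h15 : (L : ℝ) ≤ ((L + 1 : ℕ) : ℝ) := by push_cast; linarith
  have h16 : ((L + 1 : ℕ) : ℝ) ^ b * (((b ^ (L / r) : ℕ) : ℝ) * (L : ℝ) ^ h) ≤
      ((L + 1 : ℕ) : ℝ) ^ b * (tc b L k).card := by
    calc ((L + 1 : ℕ) : ℝ) ^ b * (((b ^ (L / r) : ℕ) : ℝ) * (L : ℝ) ^ h) ≤
        ((L + 1 : ℕ) : ℝ) ^ b * (Real.exp (ε ^ 2 / 2 * L) * ((L + 1 : ℕ) : ℝ) ^ h) := by gcongr
      _ = ((L + 1 : ℕ) : ℝ) ^ (h + b) * Real.exp (ε ^ 2 / 2 * L) := by rw [pow_add]; ring
      _ ≤ Real.exp (ε ^ 2 / 2 * L) * Real.exp (ε ^ 2 / 2 * L) :=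
          mul_le_mul_of_nonneg_right h12 (Real.exp_pos _).le
      _ ≤ _ := by rw [← hE]; exact h6
  exact le_of_mul_le_mul_left h16 (by positivity)

open Classical in
/-- **Upper bound** for the tuples whose prime factors are large compared to their size; in particular for the
prime tuples -/
theorem ana_upper {b : ℕ} {ε : ℝ} (hb : 2 ≤ b) (hε : 0 < ε) (hε1 : ε ≤ 1) (H : Finset ℕ) (hH : 1 ≤ H.card)
    (hadm : ∀ p : ℕ, p.Prime → ∃ m : ℕ, ∀ h ∈ H, ¬ p ∣ m + h) (r : ℕ) :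
    ∃ C : ℝ, 0 < C ∧ ∀ᶠ L : ℕ in atTop, ∀ t N : ℕ, Rich b ε t L N →
      (Set.ncard {m | m ∈ Ana b t L N ∧ ∀ h ∈ H, ∀ p : ℕ, p.Prime → p ∣ m + h → m + h ≤ p ^ r} : ℝ) ≤
        C * (Ana b t L N).ncard / (L : ℝ) ^ H.card := by
  obtain ⟨r1, hr1, hfew⟩ := few_small hb hε H.card
  obtain ⟨C, hC, hup⟩ := tuple_upper hb hε hε1 H hH hadm (r * (2 * r1) + 1) (by omega)
  refine ⟨C + 1, by positivity, ?_⟩
  filter_upwards [hup, hfew, eventually_ge_atTop (2 * r1)] with L hL1 hL2 hL3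
  intro t N hrich
  have hk := cnt_of_rich (by omega) hrich
  have h1 := hL1 (cw b t L N) hk t (out b t L N)
  have h2 := hL2 (cw b t L N) hk
  rw [ncard_eq (by omega : 0 < b), ncard_Ana (by omega : 0 < b)]
  obtain ⟨S, hS⟩ : ∃ S, S = tc b L (cw b t L N) := ⟨_, rfl⟩
  rw [← hS] at h1 h2 ⊢
  obtain ⟨T, hT⟩ : ∃ T, T = S.filter (fun x => ∀ h ∈ H, ∀ p : ℕ, p.Prime → ¬ p ∣ b →
    p ∣ b ^ t * x + out b t L N + h → b ^ L < p ^ (r * (2 * r1) + 1)) := ⟨_, rfl⟩
  rw [← hT] at h1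
  have hcov : S.filter (fun x => ∀ h ∈ H, ∀ p : ℕ, p.Prime → p ∣ b ^ t * x + out b t L N + h →
      b ^ t * x + out b t L N + h ≤ p ^ r) ⊆ range (b ^ (L / r1)) ∪ T := by
    intro x hx
    rw [mem_filter] at hx
    rw [mem_union]
    by_cases hsmall : x < b ^ (L / r1)
    · exact Or.inl (mem_range.2 hsmall)
    · right
      push Not at hsmall
      rw [hT, mem_filter]
      refine ⟨hx.1, fun h hh p hp _ hd => ?_⟩
      have h3 := hx.2 h hh p hp hd
      have h4 : b ^ (L / r1) ≤ p ^ r := by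
        have h5 : x ≤ b ^ t * x := Nat.le_mul_of_pos_left _ (Nat.pow_pos (by omega))
        omega
      have h5 : L ≤ L / r1 * (2 * r1) := by
        have h6 := Nat.lt_div_mul_add (a := L) (show 0 < r1 by omega)
        have h7 : L / r1 * (2 * r1) = L / r1 * r1 + L / r1 * r1 := by ring
        have h8 : r1 ≤ L / r1 * r1 := by
          have h9 : 1 ≤ L / r1 := by rw [Nat.le_div_iff_mul_le (by omega)]; omega
          exact Nat.le_mul_of_pos_left _ h9
        omega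
      calc b ^ L ≤ b ^ (L / r1 * (2 * r1)) := Nat.pow_le_pow_right (by omega) h5
        _ = (b ^ (L / r1)) ^ (2 * r1) := pow_mul _ _ _
        _ ≤ (p ^ r) ^ (2 * r1) := Nat.pow_le_pow_left h4 _
        _ = p ^ (r * (2 * r1)) := (pow_mul _ _ _).symm
        _ < p ^ (r * (2 * r1) + 1) := Nat.pow_lt_pow_right hp.one_lt (by omega)
  have h3 := (card_le_card hcov).trans (card_union_le _ _)
  rw [card_range] at h3
  have h4 : ((S.filter (fun x => ∀ h ∈ H, ∀ p : ℕ, p.Prime → p ∣ b ^ t * x + out b t L N + h →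
      b ^ t * x + out b t L N + h ≤ p ^ r)).card : ℝ) ≤ ((b ^ (L / r1) : ℕ) : ℝ) + T.card := by exact_mod_cast h3
  refine h4.trans ?_
  calc ((b ^ (L / r1) : ℕ) : ℝ) + T.card ≤ S.card / (L : ℝ) ^ H.card + C * S.card / (L : ℝ) ^ H.card :=
        add_le_add h2 h1
    _ = _ := by ring

end Pool.Agent.H679.DC
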