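import Pool.Agent.H679.DC.Gen

/-!
# Bounds for the generating polynomial of one digit
-/

set_option autoImplicit false

namespace Pool.Agent.H679.DC

open Finset Pool.Agent.Helper112

/-- weights of the digits: total mass one, two consecutive digits of mass at least `ε` -/
structure WS (b : ℕ) (ε : ℝ) (W : ℕ → ℂ) : Prop where
  mass : ∑ c ∈ range b, ‖W c‖ = 1
  two : ∃ d : ℕ, d + 1 < b ∧ ε ≤ ‖W d‖ ∧ ε ≤ ‖W (d + 1)‖

lemma ph_nonneg (b : ℕ) (W : ℕ → ℂ) (β : ℝ) : 0 ≤ ph b W β := norm_nonneg _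

lemma ph_le_one {b : ℕ} {ε : ℝ} {W : ℕ → ℂ} (h : WS b ε W) (β : ℝ) : ph b W β ≤ 1 := by
  unfold ph
  refine (norm_sum_le _ _).trans ?_
  rw [← h.mass]
  apply le_of_eq
  apply sum_congr rfl
  intro c _
  rw [norm_mul, ls_norm_ee, mul_one]

lemma ph_add_int (b : ℕ) (W : ℕ → ℂ) (β : ℝ) (m : ℤ) : ph b W (β + m) = ph b W β := by
  unfold ph
  congr 1
  apply sum_congr rfl
  intro c _
  have : (c : ℝ) * (β + m) = c * β + ((c * m : ℤ) : ℝ) := by push_cast; ring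
  rw [this, ls_ee_add, ls_ee_int, mul_one]

lemma sq_id (p q : ℝ) (v : ℂ) (hv : ‖v‖ = 1) :
    ‖(p : ℂ) + q * v‖ ^ 2 = (p + q) ^ 2 - p * q * ‖1 - v‖ ^ 2 := by
  have h1 : v.re ^ 2 + v.im ^ 2 = 1 := by
    have := Complex.sq_norm v
    rw [hv, Complex.normSq_apply] at this
    nlinarith
  rw [Complex.sq_norm, Complex.sq_norm, Complex.normSq_apply, Complex.normSq_apply]
  simp only [Complex.add_re, Complex.add_im, Complex.mul_re, Complex.mul_im, Complex.ofReal_re,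
    Complex.ofReal_im, Complex.sub_re, Complex.sub_im, Complex.one_re, Complex.one_im]
  linear_combination (q ^ 2 + p * q) * h1

lemma two_le {ε p q : ℝ} (hε : 0 < ε) (hp : ε ≤ p) (hq : ε ≤ q) (hpq : p + q ≤ 1) (v : ℂ) (hv : ‖v‖ = 1) :
    ‖(p : ℂ) + q * v‖ ≤ p + q - ε ^ 2 / 2 * ‖1 - v‖ ^ 2 := by
  have h1 := sq_id p q v hv
  have h2 : ‖1 - v‖ ≤ 2 := by
    refine (norm_sub_le _ _).trans ?_
    rw [hv, norm_one]
    norm_num
  have h3 : 0 ≤ ‖1 - v‖ := norm_nonneg _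
  obtain ⟨s, hs⟩ : ∃ s, s = ‖1 - v‖ ^ 2 := ⟨_, rfl⟩
  have hs0 : 0 ≤ s := by rw [hs]; positivity
  have hs4 : s ≤ 4 := by rw [hs]; nlinarith
  rw [← hs] at h1 ⊢
  have h4 : ε ^ 2 ≤ p * q := by nlinarith
  have h5 : 0 ≤ p + q - ε ^ 2 / 2 * s := by nlinarith
  apply le_of_sq_le_sq _ h5
  rw [h1]
  nlinarith [mul_nonneg hs0 (sub_nonneg.2 h4), mul_nonneg hs0 (sub_nonneg.2 hpq), sq_nonneg (ε ^ 2 / 2 * s),
    mul_nonneg (mul_nonneg hs0 (sub_nonneg.2 hpq)) (sq_nonneg ε)]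

/-- the key bound -/
lemma ph_key {b : ℕ} {ε : ℝ} (hε : 0 < ε) {W : ℕ → ℂ} (h : WS b ε W) :
    ∃ ω : ℂ, ‖ω‖ = 1 ∧ ∀ β : ℝ, ph b W β ≤ 1 - ε ^ 2 / 2 * ‖1 - ω * ee β‖ ^ 2 := by
  obtain ⟨d, hd, h1, h2⟩ := h.two
  have hp0 : 0 < ‖W d‖ := lt_of_lt_of_le hε h1
  have hq0 : 0 < ‖W (d + 1)‖ := lt_of_lt_of_le hε h2
  have hW0 : W d ≠ 0 := norm_pos_iff.1 hp0
  have hW1 : W (d + 1) ≠ 0 := norm_pos_iff.1 hq0
  refine ⟨W (d + 1) / ‖W (d + 1)‖ / (W d / ‖W d‖), ?_, fun β => ?_⟩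
  · rw [norm_div, norm_div, norm_div, Complex.norm_real, Complex.norm_real, norm_norm, norm_norm,
      div_self hp0.ne', div_self hq0.ne', div_one]
  · obtain ⟨ω, hω⟩ : ∃ ω, ω = W (d + 1) / ‖W (d + 1)‖ / (W d / ‖W d‖) := ⟨_, rfl⟩
    rw [← hω]
    have hωn : ‖ω‖ = 1 := by
      rw [hω, norm_div, norm_div, norm_div, Complex.norm_real, Complex.norm_real, norm_norm, norm_norm,
        div_self hp0.ne', div_self hq0.ne', div_one]
    have hv : ‖ω * ee β‖ = 1 := by rw [norm_mul, hωn, ls_norm_ee, one_mul]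
    have hpc : ((‖W d‖ : ℝ) : ℂ) ≠ 0 := by exact_mod_cast hp0.ne'
    have hqc : ((‖W (d + 1)‖ : ℝ) : ℂ) ≠ 0 := by exact_mod_cast hq0.ne'
    have h3 : W d * ee (d * β) + W (d + 1) * ee ((d + 1 : ℕ) * β) =
        (W d / ‖W d‖) * ee (d * β) * ((‖W d‖ : ℝ) + (‖W (d + 1)‖ : ℝ) * (ω * ee β)) := by
      have h4 : ee (((d + 1 : ℕ) : ℝ) * β) = ee (d * β) * ee β := by
        rw [← ls_ee_add]
        congr 1
        push_cast
        ring
      rw [h4, hω]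
      field_simp
    have hne : d ≠ d + 1 := by omega
    have hsub : ({d, d + 1} : Finset ℕ) ⊆ range b := by
      intro x hx
      rw [mem_insert, mem_singleton] at hx
      rw [mem_range]
      omega
    have hm := h.mass
    rw [← sum_sdiff hsub, sum_pair hne] at hm
    have hpq : ‖W d‖ + ‖W (d + 1)‖ ≤ 1 := by
      have : 0 ≤ ∑ x ∈ range b \ {d, d + 1}, ‖W x‖ := sum_nonneg fun _ _ => norm_nonneg _
      linarith
    have h5 := two_le hε h1 h2 hpq (ω * ee β) hv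
    unfold ph
    rw [← sum_sdiff hsub, sum_pair hne, h3]
    refine (norm_add_le _ _).trans ?_
    have h6 : ‖(W d / ‖W d‖) * ee (d * β) * ((‖W d‖ : ℝ) + (‖W (d + 1)‖ : ℝ) * (ω * ee β))‖ =
        ‖((‖W d‖ : ℝ) : ℂ) + (‖W (d + 1)‖ : ℝ) * (ω * ee β)‖ := by
      rw [norm_mul, norm_mul, ls_norm_ee, norm_div, Complex.norm_real, norm_norm, div_self hp0.ne',
        one_mul, one_mul]
    have h7 : ‖∑ x ∈ range b \ {d, d + 1}, W x * ee (x * β)‖ ≤ ∑ x ∈ range b \ {d, d + 1}, ‖W x‖ := by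
      refine (norm_sum_le _ _).trans (le_of_eq ?_)
      apply sum_congr rfl
      intro c _
      rw [norm_mul, ls_norm_ee, mul_one]
    rw [h6]
    linarith

/-- `1 / e ≤ |1 - e(m / e)|` -/
lemma low {e : ℕ} (he : 0 < e) {m : ℤ} (h : ¬ (e : ℤ) ∣ m) : 1 / (e : ℝ) ≤ ‖1 - ee ((m : ℝ) / e)‖ := by
  have he0 : (0 : ℝ) < e := by exact_mod_cast he
  have hez : (0 : ℤ) < e := by exact_mod_cast he
  obtain ⟨r, hr⟩ : ∃ r, r = m % e := ⟨_, rfl⟩
  have hr0 : 0 ≤ r := by rw [hr]; exact Int.emod_nonneg _ hez.ne'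
  have hr1 : r < e := by rw [hr]; exact Int.emod_lt_of_pos _ hez
  have hrne : r ≠ 0 := fun h0 => h (Int.dvd_of_emod_eq_zero (by rw [← hr, h0]))
  have h1 : ee ((m : ℝ) / e) = ee ((r : ℝ) / e) := by
    have h2 : m = r + e * (m / e) := by rw [hr]; exact (Int.emod_add_mul_ediv m e).symm
    have h3 : (m : ℝ) / e = (r : ℝ) / e + ((m / e : ℤ) : ℝ) := by
      rw [div_add' _ _ _ he0.ne']
      congr 1
      rw [mul_comm]
      exact_mod_cast h2
    rw [h3, ls_ee_add, ls_ee_int, mul_one]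
  have hr1' : (1 : ℝ) ≤ r := by exact_mod_cast (by omega : (1 : ℤ) ≤ r)
  have hr2' : (r : ℝ) ≤ e - 1 := by
    have : r ≤ (e : ℤ) - 1 := by omega
    exact_mod_cast this
  rw [h1, norm_sub_rev, ls_norm_ee_sub_one]
  obtain ⟨t, ht⟩ : ∃ t, t = (r : ℝ) / e := ⟨_, rfl⟩
  have ht1 : 1 / (e : ℝ) ≤ t := by rw [ht]; exact div_le_div_of_nonneg_right hr1' he0.le
  have ht2 : t ≤ 1 - 1 / e := by
    rw [ht, div_le_iff₀ he0, sub_mul, one_div_mul_cancel he0.ne']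
    linarith
  have hinv : 0 < 1 / (e : ℝ) := by positivity
  rw [← ht]
  have hpi := Real.pi_pos
  rcases le_total t (1 / 2) with h4 | h4
  · have h5 := Real.mul_le_sin (x := Real.pi * t) (mul_nonneg hpi.le (by linarith)) (by nlinarith)
    have h6 : 2 / Real.pi * (Real.pi * t) = 2 * t := by field_simp
    rw [h6] at h5
    rw [abs_of_nonneg (by linarith)]
    linarith
  · have h5 := Real.mul_le_sin (x := Real.pi * (1 - t)) (by nlinarith) (by nlinarith)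
    have h6 : 2 / Real.pi * (Real.pi * (1 - t)) = 2 * (1 - t) := by field_simp
    have h7 : Real.sin (Real.pi * (1 - t)) = Real.sin (Real.pi * t) := by
      rw [mul_sub, mul_one, Real.sin_pi_sub]
    rw [h6, h7] at h5
    rw [abs_of_nonneg (by linarith)]
    linarith

/-- the saving -/
noncomputable def et (b : ℕ) (ε : ℝ) : ℝ := ε ^ 2 / (8 * b ^ 2)

lemma WS.le_one {b : ℕ} {ε : ℝ} {W : ℕ → ℂ} (h : WS b ε W) : ε ≤ 1 := by
  obtain ⟨d, hd, h1, _⟩ := h.two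
  refine h1.trans ?_
  rw [← h.mass]
  exact single_le_sum (f := fun c => ‖W c‖) (fun _ _ => norm_nonneg _) (mem_range.2 (by omega))

lemma et_pos {b : ℕ} {ε : ℝ} (hb : 2 ≤ b) (hε : 0 < ε) : 0 < et b ε := by
  have : (0 : ℝ) < b := by exact_mod_cast (by omega : 0 < b)
  unfold et; positivity

lemma et_le {b : ℕ} {ε : ℝ} (hb : 2 ≤ b) (hε : 0 < ε) (hε1 : ε ≤ 1) : et b ε ≤ 1 / 32 := by
  have hb2 : (2 : ℝ) ≤ b := by exact_mod_cast hb
  unfold et
  rw [div_le_div_iff₀ (by positivity) (by norm_num)]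
  nlinarith

/-- two consecutive places -/
lemma ph_pair {b : ℕ} {ε : ℝ} (hb : 2 ≤ b) (hε : 0 < ε) {W : ℕ → ℂ} (h : WS b ε W) (β : ℝ)
    (hβ : 1 / (b : ℝ) < ‖1 - ee (((b : ℝ) - 1) * β)‖) : ph b W β * ph b W (b * β) ≤ 1 - et b ε := by
  obtain ⟨ω, hω, hk⟩ := ph_key hε h
  have hb2 : (2 : ℝ) ≤ b := by exact_mod_cast hb
  have hb0 : (0 : ℝ) < b := by linarith
  have h1 : ‖1 - ee (((b : ℝ) - 1) * β)‖ ≤ ‖1 - ω * ee β‖ + ‖1 - ω * ee (b * β)‖ := by
    have h2 : ee (b * β) = ee β * ee (((b : ℝ) - 1) * β) := by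
      rw [← ls_ee_add]; congr 1; ring
    have h3 : ‖1 - ee (((b : ℝ) - 1) * β)‖ = ‖ω * ee β - ω * ee (b * β)‖ := by
      rw [h2]
      have : ω * ee β - ω * (ee β * ee (((b : ℝ) - 1) * β)) = (ω * ee β) * (1 - ee (((b : ℝ) - 1) * β)) := by
        ring
      rw [this, norm_mul, norm_mul, hω, ls_norm_ee, one_mul, one_mul]
    rw [h3]
    have h4 : ω * ee β - ω * ee (b * β) = (1 - ω * ee (b * β)) - (1 - ω * ee β) := by ring
    rw [h4]
    refine (norm_sub_le _ _).trans ?_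
    linarith
  have h5 := ph_nonneg b W β
  have h6 := ph_nonneg b W (b * β)
  have h7 := ph_le_one h β
  have h8 := ph_le_one h (b * β)
  have h9 : ∀ x : ℝ, 1 / (2 * (b : ℝ)) ≤ x → et b ε ≤ ε ^ 2 / 2 * x ^ 2 := by
    intro x hx
    have h10 : (1 / (2 * (b : ℝ))) ^ 2 ≤ x ^ 2 := pow_le_pow_left₀ (by positivity) hx 2
    have h11 : et b ε = ε ^ 2 / 2 * (1 / (2 * (b : ℝ))) ^ 2 := by
      unfold et
      field_simp
      norm_num
    rw [h11]
    exact mul_le_mul_of_nonneg_left h10 (by positivity)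
  have h12 : 1 / (2 * (b : ℝ)) = 1 / b / 2 := by field_simp
  rcases le_total (1 / (2 * (b : ℝ))) ‖1 - ω * ee β‖ with hc | hc
  · have h13 := h9 _ hc
    have h14 := hk β
    calc ph b W β * ph b W (b * β) ≤ ph b W β * 1 := mul_le_mul_of_nonneg_left h8 h5
      _ ≤ 1 - et b ε := by linarith
  · have h15 : 1 / (2 * (b : ℝ)) ≤ ‖1 - ω * ee (b * β)‖ := by
      rw [h12] at hc ⊢
      linarith
    have h13 := h9 _ h15
    have h14 := hk (b * β)
    calc ph b W β * ph b W (b * β) ≤ 1 * ph b W (b * β) := mul_le_mul_of_nonneg_right h7 h6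
      _ ≤ 1 - et b ε := by linarith

/-- the points `x + c / b` -/
lemma ph_fibre {b : ℕ} {ε : ℝ} (hb : 2 ≤ b) (hε : 0 < ε) {W : ℕ → ℂ} (h : WS b ε W) (u : ℕ) (x : ℝ) :
    ∑ c ∈ range b, ph b W (x + (c : ℝ) / b) ^ u ≤ 1 + b * (1 - et b ε) ^ u := by
  classical
  obtain ⟨ω, hω, hk⟩ := ph_key hε h
  have hb2 : (2 : ℝ) ≤ b := by exact_mod_cast hb
  have hb0 : (0 : ℝ) < b := by linarith
  have het := et_le hb hε h.le_one
  have het0 := et_pos hb hε
  obtain ⟨Bad, hBad⟩ : ∃ Bad, Bad = (range b).filter (fun c : ℕ => ‖1 - ω * ee (x + (c : ℝ) / b)‖ < 1 / (2 * (b : ℝ))) :=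
    ⟨_, rfl⟩
  have hcard : Bad.card ≤ 1 := by
    rw [card_le_one]
    intro c hc c' hc'
    by_contra hne
    rw [hBad, mem_filter, mem_range] at hc hc'
    have h1 : ‖1 - ee ((((c' : ℤ) - c : ℤ) : ℝ) / b)‖ ≤
        ‖1 - ω * ee (x + (c : ℝ) / b)‖ + ‖1 - ω * ee (x + (c' : ℝ) / b)‖ := by
      have h2 : ee (x + (c' : ℝ) / b) = ee (x + (c : ℝ) / b) * ee ((((c' : ℤ) - c : ℤ) : ℝ) / b) := by
        rw [← ls_ee_add]; congr 1; push_cast; ring
      have h3 : ‖1 - ee ((((c' : ℤ) - c : ℤ) : ℝ) / b)‖ =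
          ‖ω * ee (x + (c : ℝ) / b) - ω * ee (x + (c' : ℝ) / b)‖ := by
        rw [h2]
        have : ω * ee (x + (c : ℝ) / b) - ω * (ee (x + (c : ℝ) / b) * ee ((((c' : ℤ) - c : ℤ) : ℝ) / b)) =
            (ω * ee (x + (c : ℝ) / b)) * (1 - ee ((((c' : ℤ) - c : ℤ) : ℝ) / b)) := by ring
        rw [this, norm_mul, norm_mul, hω, ls_norm_ee, one_mul, one_mul]
      rw [h3]
      have h4 : ω * ee (x + (c : ℝ) / b) - ω * ee (x + (c' : ℝ) / b) =
          (1 - ω * ee (x + (c' : ℝ) / b)) - (1 - ω * ee (x + (c : ℝ) / b)) := by ring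
      rw [h4]
      refine (norm_sub_le _ _).trans ?_
      linarith
    have h5 : ¬ (b : ℤ) ∣ ((c' : ℤ) - c) := by
      intro hd
      obtain ⟨k, hk⟩ := hd
      have : k = 0 := by
        by_contra hk0
        have h6 : (1 : ℤ) ≤ |k| := Int.one_le_abs hk0
        have h7 : |(c' : ℤ) - c| = b * |k| := by rw [hk, abs_mul, Nat.abs_cast]
        have h8 : |(c' : ℤ) - c| < b := by rw [abs_lt]; omega
        have h9 : (b : ℤ) ≤ b * |k| := le_mul_of_one_le_right (by positivity) h6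
        linarith
      rw [this, mul_zero] at hk
      omega
    have h6 := low (by omega : 0 < b) h5
    have h7 : 1 / (2 * (b : ℝ)) = 1 / b / 2 := by field_simp
    rw [h7] at hc hc'
    linarith [hc.2, hc'.2]
  have hbadsub : Bad ⊆ range b := by rw [hBad]; exact filter_subset _ _
  rw [← sum_sdiff hbadsub]
  have h1 : ∑ c ∈ Bad, ph b W (x + (c : ℝ) / b) ^ u ≤ 1 := by
    calc ∑ c ∈ Bad, ph b W (x + (c : ℝ) / b) ^ u ≤ ∑ c ∈ Bad, (1 : ℝ) :=
          sum_le_sum fun c _ => pow_le_one₀ (ph_nonneg _ _ _) (ph_le_one h _)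
      _ = Bad.card := by simp
      _ ≤ 1 := by exact_mod_cast hcard
  have h2 : ∑ c ∈ range b \ Bad, ph b W (x + (c : ℝ) / b) ^ u ≤ b * (1 - et b ε) ^ u := by
    calc ∑ c ∈ range b \ Bad, ph b W (x + (c : ℝ) / b) ^ u ≤ ∑ c ∈ range b \ Bad, (1 - et b ε) ^ u := by
          apply sum_le_sum
          intro c hc
          rw [Finset.mem_sdiff, hBad, mem_filter, not_and, not_lt] at hc
          have h3 := hc.2 hc.1
          apply pow_le_pow_left₀ (ph_nonneg _ _ _)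
          refine (hk _).trans ?_
          have h10 : (1 / (2 * (b : ℝ))) ^ 2 ≤ ‖1 - ω * ee (x + (c : ℝ) / b)‖ ^ 2 :=
            pow_le_pow_left₀ (by positivity) h3 2
          have h11 : et b ε = ε ^ 2 / 2 * (1 / (2 * (b : ℝ))) ^ 2 := by
            unfold et
            field_simp
            norm_num
          rw [h11]
          have := mul_le_mul_of_nonneg_left h10 (show 0 ≤ ε ^ 2 / 2 by positivity)
          linarith
      _ = ((range b \ Bad).card : ℝ) * (1 - et b ε) ^ u := by rw [sum_const, nsmul_eq_mul]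
      _ ≤ b * (1 - et b ε) ^ u := by
          apply mul_le_mul_of_nonneg_right _ (pow_nonneg (by linarith) _)
          have := card_le_card (sdiff_subset : range b \ Bad ⊆ range b)
          rw [card_range] at this
          exact_mod_cast this
  linarith

end Pool.Agent.H679.DC
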