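import Pool.Agent.H679.DC.Ana

/-!
# Binary digit sums of `m` and `m + 2`
-/

set_option autoImplicit false

namespace Pool.Agent.H679.DC

open Finset Filter

/-- the sum of the binary digits -/
def s2 (m : ℕ) : ℕ := (Nat.digits 2 m).sum

lemma s2_add {m e : ℕ} (he : e < 2) : s2 (2 * m + e) = s2 m + e := by
  unfold s2
  rcases Nat.eq_zero_or_pos (2 * m + e) with h | h
  · have : m = 0 ∧ e = 0 := by omega
    rw [this.1, this.2]
    simp
  · rw [Nat.digits_def' (by norm_num) h]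
    have h1 : (2 * m + e) % 2 = e := by omega
    have h2 : (2 * m + e) / 2 = m := by omega
    rw [h1, h2, List.sum_cons, add_comm]

lemma dc_one (L m : ℕ) : dc 2 L m 1 = ∑ i ∈ range L, m / 2 ^ i % 2 := by
  unfold dc
  rw [card_filter]
  apply sum_congr rfl
  intro i _
  have := Nat.mod_lt (m / 2 ^ i) (show 2 > 0 by norm_num)
  split_ifs with h
  · exact h.symm
  · omega

lemma s2_eq (L : ℕ) : ∀ m : ℕ, m < 2 ^ L → s2 m = dc 2 L m 1 := by
  induction L with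
  | zero =>
    intro m hm
    have : m = 0 := by rw [pow_zero] at hm; omega
    subst this
    simp [s2, dc]
  | succ L ih =>
    intro m hm
    have h1 : m = 2 * (m / 2) + m % 2 := (Nat.div_add_mod m 2).symm
    have h2 : m / 2 < 2 ^ L := by rw [pow_succ] at hm; omega
    have h3 : s2 m = s2 (m / 2) + m % 2 := by
      conv_lhs => rw [h1]
      exact s2_add (Nat.mod_lt _ (by norm_num))
    rw [h3, ih _ h2, dc_one, dc_one, sum_range_succ', pow_zero, Nat.div_one]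
    congr 1
    apply sum_congr rfl
    intro i _
    rw [Nat.div_div_eq_div_mul, pow_succ, mul_comm 2]

lemma carry (j : ℕ) : ∀ q : ℕ, q % 2 ^ (j + 1) = 2 ^ j - 1 → s2 (q + 1) + j = s2 q + 1 := by
  induction j with
  | zero =>
    intro q hq
    have h1 : q = 2 * (q / 2) + 0 := by simp at hq; omega
    have h2 : q + 1 = 2 * (q / 2) + 1 := by omega
    have h3 : s2 (q + 1) = s2 (q / 2) + 1 := by rw [h2]; exact s2_add (by norm_num)
    have h4 : s2 q = s2 (q / 2) + 0 := by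
      conv_lhs => rw [h1]
      exact s2_add (by norm_num)
    omega
  | succ j ih =>
    intro q hq
    have hp : 0 < 2 ^ j := by positivity
    have h0 : 2 ^ (j + 1) = 2 * 2 ^ j := by ring
    have h00 : 2 ^ (j + 1 + 1) = 2 * 2 ^ (j + 1) := by ring
    have hodd : q % 2 = 1 := by
      have h1 : q % 2 ^ (j + 1 + 1) % 2 = q % 2 := Nat.mod_mod_of_dvd q (Dvd.intro _ h00.symm)
      rw [hq] at h1
      omega
    have hq' : (q / 2) % 2 ^ (j + 1) = 2 ^ j - 1 := by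
      have h1 := Nat.mod_mul_right_div_self q 2 (2 ^ (j + 1))
      rw [← h00, hq] at h1
      omega
    have h2 : q = 2 * (q / 2) + 1 := by omega
    have h3 : q + 1 = 2 * (q / 2 + 1) + 0 := by omega
    have h4 : s2 q = s2 (q / 2) + 1 := by
      conv_lhs => rw [h2]
      exact s2_add (by norm_num)
    have h5 : s2 (q + 1) = s2 (q / 2 + 1) + 0 := by
      rw [h3]
      exact s2_add (by norm_num)
    have h6 := ih _ hq'
    omega

lemma exists_j (q : ℕ) : ∃ j, q % 2 ^ (j + 1) = 2 ^ j - 1 := by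
  induction q using Nat.strong_induction_on with
  | _ q ih =>
    by_cases h : q % 2 = 0
    · exact ⟨0, by simpa using h⟩
    · obtain ⟨j, hj⟩ := ih (q / 2) (by omega)
      refine ⟨j + 1, ?_⟩
      have h00 : 2 ^ (j + 1 + 1) = 2 * 2 ^ (j + 1) := by ring
      have h0 : 2 ^ (j + 1) = 2 * 2 ^ j := by ring
      have hp : 0 < 2 ^ j := by positivity
      rw [h00, Nat.mod_mul, hj]
      omega

/-- for odd `m` with `m + 1 = 2 ^ (w + 1) * odd` -/
lemma s2_two {m w : ℕ} (h : m % 2 ^ (w + 2) = 2 ^ (w + 1) - 1) : s2 (m + 2) + w = s2 m + 1 := by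
  have hp : 0 < 2 ^ w := by positivity
  have h0 : 2 ^ (w + 1) = 2 * 2 ^ w := by ring
  have h00 : 2 ^ (w + 2) = 2 * 2 ^ (w + 1) := by ring
  have hodd : m % 2 = 1 := by
    have h1 : m % 2 ^ (w + 2) % 2 = m % 2 := Nat.mod_mod_of_dvd m (Dvd.intro _ h00.symm)
    rw [h] at h1
    omega
  have hm' : (m / 2) % 2 ^ (w + 1) = 2 ^ w - 1 := by
    have h1 := Nat.mod_mul_right_div_self m 2 (2 ^ (w + 1))
    rw [← h00, h] at h1
    omega
  have h2 : m = 2 * (m / 2) + 1 := by omega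
  have h3 : m + 2 = 2 * (m / 2 + 1) + 1 := by omega
  have h4 : s2 m = s2 (m / 2) + 1 := by
    conv_lhs => rw [h2]
    exact s2_add (by norm_num)
  have h5 : s2 (m + 2) = s2 (m / 2 + 1) + 1 := by
    rw [h3]
    exact s2_add (by norm_num)
  have h6 := carry w _ hm'
  omega

lemma exists_w {m : ℕ} (h : Odd m) : ∃ w, m % 2 ^ (w + 2) = 2 ^ (w + 1) - 1 := by
  obtain ⟨w, hw⟩ := exists_j (m / 2)
  refine ⟨w, ?_⟩
  have h1 : m % 2 = 1 := Nat.odd_iff.1 h
  have hp : 0 < 2 ^ w := by positivity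
  have h0 : 2 ^ (w + 1) = 2 * 2 ^ w := by ring
  have h00 : 2 ^ (w + 2) = 2 * 2 ^ (w + 1) := by ring
  rw [h00, Nat.mod_mul, hw, h1]
  omega

/-- the odd `m < 2 ^ K` with digit sum `k` for which the digit sum of `m + 2` is `l` -/
def DS2 (K k l : ℕ) : Set ℕ := {m | Odd m ∧ m < 2 ^ K ∧ s2 m = k ∧ s2 (m + 2) = l}

lemma mem_DS2 {K k l w : ℕ} (hw : l + w = k + 1) (m : ℕ) :
    m ∈ DS2 K k l ↔ m % 2 ^ (w + 2) = 2 ^ (w + 1) - 1 ∧ m < 2 ^ K ∧ s2 m = k := by
  constructor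
  · rintro ⟨h1, h2, h3, h4⟩
    obtain ⟨w', hw'⟩ := exists_w h1
    have h5 := s2_two hw'
    have h6 : w' = w := by omega
    subst h6
    exact ⟨hw', h2, h3⟩
  · rintro ⟨h1, h2, h3⟩
    have h5 := s2_two h1
    have hp : 0 < 2 ^ w := by positivity
    have h0 : 2 ^ (w + 1) = 2 * 2 ^ w := by ring
    have h00 : 2 ^ (w + 2) = 2 * 2 ^ (w + 1) := by ring
    refine ⟨?_, h2, h3, by omega⟩
    rw [Nat.odd_iff]
    have h6 : m % 2 ^ (w + 2) % 2 = m % 2 := Nat.mod_mod_of_dvd m (Dvd.intro _ h00.symm)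
    rw [h1] at h6
    omega

lemma dc_split (t L m : ℕ) : dc 2 (t + L) m 1 = dc 2 t m 1 + cw 2 t L m 1 := by
  unfold dc cw
  rw [card_filter, card_filter, card_filter, sum_range_add]

lemma dc_mod (t m : ℕ) : dc 2 t (m % 2 ^ t) 1 = dc 2 t m 1 := by
  unfold dc
  congr 1
  apply filter_congr
  intro i hi
  rw [mem_range] at hi
  have h2 : m = m % 2 ^ t + (m / 2 ^ t) * 2 ^ t := by
    rw [mul_comm]; exact (Nat.mod_add_div _ _).symm
  have h3 : m / 2 ^ i % 2 = m % 2 ^ t / 2 ^ i % 2 := by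
    conv_lhs => rw [h2]
    exact Pool.Agent.Y816.PD.digit_low (by norm_num) hi
  rw [h3]

lemma cw_two {t L m m' : ℕ} (h : cw 2 t L m 1 = cw 2 t L m' 1) (c : ℕ) : cw 2 t L m c = cw 2 t L m' c := by
  have hsum : ∀ y, cw 2 t L y 0 + cw 2 t L y 1 = L := by
    intro y
    have h1 := sum_dc (b := 2) L (y / 2 ^ t % 2 ^ L) (by norm_num)
    rw [sum_range_succ, sum_range_one] at h1
    rw [cw_eq (by norm_num), cw_eq (by norm_num)]
    exact h1
  rcases Nat.lt_or_ge c 2 with hc | hc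
  · interval_cases c
    · have := hsum m
      have := hsum m'
      omega
    · exact h
  · have h0 : ∀ y, cw 2 t L y c = 0 := by
      intro y
      unfold cw
      rw [card_eq_zero, filter_eq_empty_iff]
      intro i _ h5
      have := Nat.mod_lt (y / 2 ^ (t + i)) (show 2 > 0 by norm_num)
      omega
    rw [h0, h0]

lemma DS2_eq {K k l w L : ℕ} (hw : l + w = k + 1) (hL : w + 2 + L = K) {N : ℕ} (hN : N ∈ DS2 K k l) :
    DS2 K k l = Ana 2 (w + 2) L N := by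
  have hN' := (mem_DS2 hw N).1 hN
  ext m
  rw [mem_DS2 hw]
  unfold Ana
  rw [Set.mem_ofPred_eq, hL]
  have hN0 : N / 2 ^ K = 0 := Nat.div_eq_of_lt hN'.2.1
  have key : ∀ m : ℕ, m % 2 ^ (w + 2) = 2 ^ (w + 1) - 1 → m < 2 ^ K →
      s2 m = dc 2 (w + 2) (2 ^ (w + 1) - 1) 1 + cw 2 (w + 2) L m 1 := by
    intro m h1 h2
    rw [s2_eq K m h2, ← hL, dc_split, ← dc_mod (w + 2) m, h1]
  constructor
  · rintro ⟨h1, h2, h3⟩
    refine ⟨h1.trans hN'.1.symm, ?_, ?_⟩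
    · rw [hN0, Nat.div_eq_of_lt h2]
    · apply cw_two
      have h4 := key m h1 h2
      have h5 := key N hN'.1 hN'.2.1
      omega
  · rintro ⟨h1, h2, h3⟩
    have h4 : m < 2 ^ K := by
      rw [hN0] at h2
      by_contra hcon
      push Not at hcon
      have := Nat.div_pos hcon (by positivity)
      omega
    have h5 := h1.trans hN'.1
    refine ⟨h5, h4, ?_⟩
    have h6 := key m h5 h4
    have h7 := key N hN'.1 hN'.2.1
    have h8 := h3 1
    omega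

/-- the sets are not empty -/
lemma DS2_ne {K k l w L : ℕ} {ε : ℝ} (hε : 0 ≤ ε) (hw : l + w = k + 1) (hL : w + 2 + L = K) (hL0 : 0 < L)
    (h1 : ε * L + (w + 2) ≤ k) (h2 : (k : ℝ) + ε * L ≤ L) :
    ∃ N, N ∈ DS2 K k l ∧ Rich 2 ε (w + 2) L N := by
  obtain ⟨e, he⟩ : ∃ e, e = dc 2 (w + 2) (2 ^ (w + 1) - 1) 1 := ⟨_, rfl⟩
  have hle : e ≤ w + 2 := by rw [he]; exact dc_le _ _ _ _
  have hler : (e : ℝ) ≤ w + 2 := by exact_mod_cast hle
  have hL0r : (0 : ℝ) ≤ ε * L := by positivity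
  have hek : e ≤ k := by
    have : (e : ℝ) ≤ k := by linarith
    exact_mod_cast this
  have hkL : k ≤ L := by
    have : (k : ℝ) ≤ L := by linarith
    exact_mod_cast this
  obtain ⟨k', hk'⟩ : ∃ k' : ℕ → ℕ, k' = fun c => if c = 1 then k - e else L - (k - e) := ⟨_, rfl⟩
  have hk0 : k' 0 = L - (k - e) := by rw [hk']; simp
  have hk1 : k' 1 = k - e := by rw [hk']; simp
  have hcnt : Cnt 2 ε L k' := by
    constructor
    · rw [sum_range_succ, sum_range_one, hk0, hk1]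
      omega
    · refine ⟨0, by norm_num, ?_, ?_⟩
      · rw [hk0, Nat.cast_sub (by omega), Nat.cast_sub hek]
        have : (0 : ℝ) ≤ e := Nat.cast_nonneg _
        linarith
      · rw [Nat.zero_add, hk1, Nat.cast_sub hek]
        linarith
  obtain ⟨x, hx⟩ := card_pos.1 (tc_pos (by norm_num) hL0 hcnt)
  have hx' := hx
  unfold tc at hx'
  rw [mem_filter, mem_range] at hx'
  obtain ⟨hxL, hxc⟩ := hx'
  obtain ⟨N, hN⟩ : ∃ N, N = 2 ^ (w + 2) * x + (2 ^ (w + 1) - 1) := ⟨_, rfl⟩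
  have hp : 0 < 2 ^ (w + 1) := by positivity
  have h00 : 2 ^ (w + 2) = 2 * 2 ^ (w + 1) := by ring
  have hN1 : N % 2 ^ (w + 2) = 2 ^ (w + 1) - 1 := by
    rw [hN, Nat.mul_add_mod, Nat.mod_eq_of_lt (by omega)]
  have hN2 : N / 2 ^ (w + 2) = x := by
    rw [hN, Nat.mul_add_div (by positivity), Nat.div_eq_of_lt (by omega), Nat.add_zero]
  have hN3 : N < 2 ^ K := by
    rw [← hL, pow_add]
    have h3 : 2 ^ (w + 2) * x + 2 ^ (w + 2) ≤ 2 ^ (w + 2) * 2 ^ L := by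
      calc 2 ^ (w + 2) * x + 2 ^ (w + 2) = 2 ^ (w + 2) * (x + 1) := by ring
        _ ≤ _ := Nat.mul_le_mul_left _ hxL
    omega
  have hcw : ∀ c, cw 2 (w + 2) L N c = dc 2 L x c := by
    intro c
    rw [cw_eq (by norm_num), hN2, Nat.mod_eq_of_lt hxL]
  refine ⟨N, (mem_DS2 hw N).2 ⟨hN1, hN3, ?_⟩, 0, by norm_num, ?_, ?_⟩
  · rw [s2_eq K N hN3, ← hL, dc_split, ← dc_mod (w + 2) N, hN1, ← he, hcw, hxc 1 (by norm_num), hk1]
    omega
  · rw [hcw, hxc 0 (by norm_num)]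
    obtain ⟨d, hd, h3, _⟩ := hcnt.two
    have : d = 0 := by omega
    subst this
    exact h3
  · rw [hcw, Nat.zero_add, hxc 1 (by norm_num)]
    obtain ⟨d, hd, _, h3⟩ := hcnt.two
    have : d = 0 := by omega
    subst this
    exact h3

/-- `m`, `m + 2` have at most `r` prime factors, all of them greater than `2 ^ (K / r)` -/
def AP2 (K r m : ℕ) : Prop := (∀ p : ℕ, p.Prime → p ∣ m ∨ p ∣ m + 2 → 2 ^ K < p ^ r) ∧
  m.primeFactorsList.length ≤ r ∧ (m + 2).primeFactorsList.length ≤ r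

lemma adm02 : ∀ p : ℕ, p.Prime → ∃ m : ℕ, ∀ h ∈ ({0, 2} : Finset ℕ), ¬ p ∣ m + h :=
  Pool.Agent.Y816.PD.adm2 {0, 2} 3 11 (by decide) (by decide) (by decide)

/-- **Almost prime twins with prescribed digit sums** -/
theorem bin_twins (ε : ℝ) (hε : 0 < ε) (hε1 : ε ≤ 1) : ∃ r : ℕ, 2 ≤ r ∧ ∃ κ C : ℝ, 0 < κ ∧ 0 < C ∧
    ∀ᶠ n : ℕ in atTop, ∀ k l : ℕ, ε * n ≤ k → (k : ℝ) ≤ (1 - ε) * n → l ≤ k + 1 → (k : ℝ) ≤ l + ε / 4 * n →
      0 < (DS2 (n + 4) k l).ncard ∧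
      κ * (DS2 (n + 4) k l).ncard / (n : ℝ) ^ 2 ≤
        (Set.ncard {m | (n + 4 < m ∧ m < 2 ^ (n + 4)) ∧ s2 m = k ∧ s2 (m + 2) = l ∧ AP2 (n + 4) r m} : ℝ) ∧
      (Set.ncard {m | (n + 4 < m ∧ m < 2 ^ (n + 4)) ∧ s2 m = k ∧ s2 (m + 2) = l ∧ m.Prime ∧ (m + 2).Prime} : ℝ) ≤
        C * (DS2 (n + 4) k l).ncard / (n : ℝ) ^ 2 := by
  classical
  have hcard : ({0, 2} : Finset ℕ).card = 2 := by decide
  have hε2 : 0 < ε / 4 := by positivity
  obtain ⟨r1, hr1, κ, hκ, hlow⟩ := ana_lower (b := 2) (le_refl 2) hε2 (by linarith) {0, 2} (by rw [hcard]; norm_num)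
    adm02 2
  obtain ⟨C, hC, hup⟩ := ana_upper (b := 2) (le_refl 2) hε2 (by linarith) {0, 2} (by rw [hcard]; norm_num)
    adm02 1
  rw [hcard] at hlow hup
  obtain ⟨L0, hL0⟩ := eventually_atTop.1 (hlow.and hup)
  obtain ⟨r, hr⟩ : ∃ r, r = 2 * r1 := ⟨_, rfl⟩
  refine ⟨r, by omega, κ / 4, 4 * C, by positivity, by positivity, ?_⟩
  have hpow : ∀ᶠ n : ℕ in atTop, (n + 4) ^ r ≤ 2 ^ (n + 4) := by
    have h1 : Tendsto (fun n : ℕ => ((n + 4 : ℕ) : ℝ) ^ r / (2 : ℝ) ^ (n + 4)) atTop (nhds 0) :=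
      (tendsto_pow_const_div_const_pow_of_one_lt r (by norm_num : (1 : ℝ) < 2)).comp (tendsto_add_atTop_nat 4)
    filter_upwards [h1.eventually (gt_mem_nhds (show (0 : ℝ) < 1 by norm_num))] with n hn
    rw [div_lt_one (by positivity)] at hn
    exact_mod_cast hn.le
  filter_upwards [hpow, eventually_ge_atTop (2 * L0 + 10),
    tendsto_natCast_atTop_atTop.eventually_ge_atTop (20 / ε)] with n hn1 hn2 hn3
  intro k l hk1 hk2 hlk hkl
  have hn3' : 20 ≤ ε * n := by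
    rw [div_le_iff₀ hε] at hn3
    linarith
  have hnr : (10 : ℝ) ≤ n := by exact_mod_cast (by omega : 10 ≤ n)
  obtain ⟨w, hw⟩ : ∃ w, l + w = k + 1 := ⟨k + 1 - l, by omega⟩
  have hwr : (w : ℝ) = k + 1 - l := by
    have : (l : ℝ) + w = k + 1 := by exact_mod_cast hw
    linarith
  have hwle : (w : ℝ) ≤ ε / 4 * n + 1 := by linarith
  have hwn : 2 * (w + 2) ≤ n := by
    have : 2 * ((w : ℝ) + 2) ≤ n := by nlinarith
    exact_mod_cast this
  obtain ⟨L, hL⟩ : ∃ L, w + 2 + L = n + 4 := ⟨n + 2 - w, by omega⟩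
  have hLn : L ≤ n + 2 := by omega
  have hLn2 : n ≤ 2 * L := by omega
  have hLL0 : L0 ≤ L := by omega
  have hLr : (L : ℝ) = n + 2 - w := by
    have : (w : ℝ) + 2 + L = n + 4 := by exact_mod_cast hL
    linarith
  have hw0 : (0 : ℝ) ≤ w := Nat.cast_nonneg _
  obtain ⟨N, hN, hrich⟩ := DS2_ne (ε := ε / 4) hε2.le hw hL (by omega)
    (by rw [hLr]; nlinarith) (by rw [hLr]; nlinarith)
  have hEq := DS2_eq hw hL hN
  obtain ⟨h1, h2⟩ := hL0 L hLL0
  have hNK : N < 2 ^ (n + 4) := hN.2.1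
  have hK2 : n + 4 ≤ 2 * L := by omega
  have hNodd : N % 2 = 1 := Nat.odd_iff.1 hN.1
  have h3 := h1 (w + 2) N (by omega) (by omega)
    (hNK.le.trans (Nat.pow_le_pow_right (by norm_num) hK2)) hrich (by
      intro h hh
      rw [mem_insert, mem_singleton] at hh
      have h5 : (N + h) % 2 = 1 := by
        rcases hh with rfl | rfl <;> omega
      have h6 : Odd (N + h) := Nat.odd_iff.2 h5
      have h7 : 2 * (2 - 1) = 2 := by norm_num
      rw [h7]
      exact Nat.Coprime.symm (Nat.coprime_two_left.2 h6))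
  have h4 := h2 (w + 2) N hrich
  rw [← hEq] at h3 h4
  have hfin : (DS2 (n + 4) k l).Finite := (Set.finite_lt_nat (2 ^ (n + 4))).subset (fun m hm => hm.2.1)
  have hpos : 0 < (DS2 (n + 4) k l).ncard := (Set.ncard_pos hfin).2 ⟨N, hN⟩
  have hposr : (0 : ℝ) < (DS2 (n + 4) k l).ncard := by exact_mod_cast hpos
  have hLpos : (0 : ℝ) < L := by
    have : 0 < L := by omega
    exact_mod_cast this
  have hLle : (L : ℝ) ≤ 2 * n := by
    have : L ≤ 2 * n := by omega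
    exact_mod_cast this
  have hLge : (n : ℝ) ≤ 2 * L := by exact_mod_cast hLn2
  have hnpos : (0 : ℝ) < n := by linarith
  refine ⟨hpos, ?_, ?_⟩
  · have hsub : {m | m ∈ DS2 (n + 4) k l ∧ ∀ h ∈ ({0, 2} : Finset ℕ), (∀ p : ℕ, p.Prime → p ∣ m + h → 2 ^ L < p ^ r1) ∧
          (m + h).primeFactorsList.length ≤ r1} ⊆
        {m | (n + 4 < m ∧ m < 2 ^ (n + 4)) ∧ s2 m = k ∧ s2 (m + 2) = l ∧ AP2 (n + 4) r m} := by
      rintro m ⟨hm, hm2⟩
      have e0 := hm2 0 (by simp)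
      have e2 := hm2 2 (by simp)
      rw [Nat.add_zero] at e0
      have hbig : ∀ p : ℕ, 2 ^ L < p ^ r1 → 2 ^ (n + 4) < p ^ r := by
        intro p hp
        calc 2 ^ (n + 4) ≤ 2 ^ (2 * L) := Nat.pow_le_pow_right (by norm_num) hK2
          _ = (2 ^ L) ^ 2 := by rw [← pow_mul, mul_comm]
          _ < (p ^ r1) ^ 2 := Nat.pow_lt_pow_left hp (by norm_num)
          _ = p ^ r := by rw [← pow_mul, hr, mul_comm]
      refine ⟨⟨?_, hm.2.1⟩, hm.2.2.1, hm.2.2.2, ?_, ?_, ?_⟩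
      · have hm1 : m ≠ 1 := by
          rintro rfl
          have h5 : s2 1 = 1 := by simp [s2]
          rw [hm.2.2.1] at h5
          rw [h5] at hk1
          push_cast at hk1
          linarith
        have h6 := hbig _ (e0.1 m.minFac (Nat.minFac_prime hm1) (Nat.minFac_dvd m))
        have h7 : n + 4 < m.minFac := lt_of_pow_lt_pow_left₀ r (Nat.zero_le _) (lt_of_le_of_lt hn1 h6)
        have hm0 : 0 < m := hm.1.pos
        exact lt_of_lt_of_le h7 (Nat.minFac_le hm0)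
      · intro p hp hd
        rcases hd with hd | hd
        · exact hbig p (e0.1 p hp hd)
        · exact hbig p (e2.1 p hp hd)
      · exact e0.2.trans (by omega)
      · exact e2.2.trans (by omega)
    have hle := Set.ncard_le_ncard hsub ((Set.finite_lt_nat (2 ^ (n + 4))).subset (fun m hm => hm.1.2))
    have hle' : (Set.ncard {m | m ∈ DS2 (n + 4) k l ∧ ∀ h ∈ ({0, 2} : Finset ℕ),
          (∀ p : ℕ, p.Prime → p ∣ m + h → 2 ^ L < p ^ r1) ∧ (m + h).primeFactorsList.length ≤ r1} : ℝ) ≤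
        (Set.ncard {m | (n + 4 < m ∧ m < 2 ^ (n + 4)) ∧ s2 m = k ∧ s2 (m + 2) = l ∧ AP2 (n + 4) r m} : ℝ) := by
      exact_mod_cast hle
    refine le_trans ?_ (h3.trans hle')
    rw [div_le_div_iff₀ (by positivity) (by positivity)]
    have h8 : (L : ℝ) ^ 2 ≤ 4 * (n : ℝ) ^ 2 := by nlinarith
    calc κ / 4 * (DS2 (n + 4) k l).ncard * (L : ℝ) ^ 2 ≤ κ / 4 * (DS2 (n + 4) k l).ncard * (4 * (n : ℝ) ^ 2) :=
          mul_le_mul_of_nonneg_left h8 (by positivity)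
      _ = _ := by ring
  · have hsub : {m | (n + 4 < m ∧ m < 2 ^ (n + 4)) ∧ s2 m = k ∧ s2 (m + 2) = l ∧ m.Prime ∧ (m + 2).Prime} ⊆
        {m | m ∈ DS2 (n + 4) k l ∧ ∀ h ∈ ({0, 2} : Finset ℕ), ∀ p : ℕ, p.Prime → p ∣ m + h → m + h ≤ p ^ 1} := by
      rintro m ⟨⟨hm1, hm2⟩, hm3, hm4, hm5, hm6⟩
      refine ⟨⟨hm5.odd_of_ne_two (by omega), hm2, hm3, hm4⟩, fun h hh p hp hd => ?_⟩
      rw [mem_insert, mem_singleton] at hh
      rw [pow_one]
      rcases hh with rfl | rfl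
      · rw [Nat.add_zero] at hd ⊢
        exact ((Nat.prime_dvd_prime_iff_eq hp hm5).1 hd).ge
      · exact ((Nat.prime_dvd_prime_iff_eq hp hm6).1 hd).ge
    have hle := Set.ncard_le_ncard hsub (hfin.subset (fun m hm => hm.1))
    have hle' : (Set.ncard {m | (n + 4 < m ∧ m < 2 ^ (n + 4)) ∧ s2 m = k ∧ s2 (m + 2) = l ∧ m.Prime ∧
          (m + 2).Prime} : ℝ) ≤ (Set.ncard {m | m ∈ DS2 (n + 4) k l ∧ ∀ h ∈ ({0, 2} : Finset ℕ),
          ∀ p : ℕ, p.Prime → p ∣ m + h → m + h ≤ p ^ 1} : ℝ) := by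
      exact_mod_cast hle
    refine hle'.trans (h4.trans ?_)
    rw [div_le_div_iff₀ (by positivity) (by positivity)]
    have h8 : (n : ℝ) ^ 2 ≤ 4 * (L : ℝ) ^ 2 := by nlinarith
    calc C * (DS2 (n + 4) k l).ncard * (n : ℝ) ^ 2 ≤ C * (DS2 (n + 4) k l).ncard * (4 * (L : ℝ) ^ 2) :=
          mul_le_mul_of_nonneg_left h8 (by positivity)
      _ = _ := by ring

end Pool.Agent.H679.DC
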