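import Pool.Agent.H679.DC.Mom

/-!
# Blocks; small denominators
-/

set_option autoImplicit false

namespace Pool.Agent.H679.DC

open Finset Pool.Agent.Helper112

lemma GW_nonneg (b : ℕ) (W : ℕ → ℂ) (u L : ℕ) (θ : ℝ) : 0 ≤ GW b W u L θ :=
  prod_nonneg fun _ _ => ph_nonneg _ _ _

lemma GW_le_one {b : ℕ} {ε : ℝ} {W : ℕ → ℂ} (h : WS b ε W) (u L : ℕ) (θ : ℝ) : GW b W u L θ ≤ 1 :=
  prod_le_one (fun _ _ => ph_nonneg _ _ _) (fun _ _ => ph_le_one h _)

lemma GW_add (b : ℕ) (W : ℕ → ℂ) (u L L' : ℕ) (θ : ℝ) :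
    GW b W u (L + L') θ = GW b W u L θ * GW b W (u + L) L' θ := by
  unfold GW
  rw [prod_range_add]
  simp only [add_assoc]

lemma GW_shift (b : ℕ) (W : ℕ → ℂ) (u L : ℕ) (θ : ℝ) : GW b W u L θ = GW b W 0 L ((b : ℝ) ^ u * θ) := by
  unfold GW
  apply prod_congr rfl
  intro i _
  rw [Nat.zero_add, pow_add]
  congr 1
  ring

lemma GW_add_int (b : ℕ) (W : ℕ → ℂ) (u L : ℕ) (θ : ℝ) (m : ℤ) : GW b W u L (θ + m) = GW b W u L θ := by
  unfold GW
  apply prod_congr rfl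
  intro i _
  have : (b : ℝ) ^ (u + i) * (θ + m) = (b : ℝ) ^ (u + i) * θ + (((b : ℤ) ^ (u + i) * m : ℤ) : ℝ) := by
    push_cast; ring
  rw [this, ph_add_int]

lemma GW_mul {b : ℕ} (W : ℕ → ℂ) (q N : ℕ) (θ : ℝ) :
    GW b W 0 (q * N) θ = ∏ v ∈ range q, GW b W (v * N) N θ := by
  induction q with
  | zero => simp [GW]
  | succ q ih => rw [Nat.succ_mul, GW_add, ih, prod_range_succ, Nat.zero_add]

lemma GW_blocks {b : ℕ} {ε : ℝ} {W : ℕ → ℂ} (h : WS b ε W) {q N L : ℕ} (hq : q * N ≤ L) (θ : ℝ) :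
    GW b W 0 L θ ≤ ∏ v ∈ range q, GW b W (v * N) N θ := by
  obtain ⟨r, rfl⟩ := Nat.exists_eq_add_of_le hq
  rw [GW_add, GW_mul]
  exact mul_le_of_le_one_right (prod_nonneg fun _ _ => GW_nonneg _ _ _ _ _) (GW_le_one h _ _ _)

lemma prod_le_sum_pow {u : ℕ} (hu : 1 ≤ u) (x : ℕ → ℝ) (hx : ∀ v, 0 ≤ x v) :
    ∏ v ∈ range u, x v ≤ ∑ v ∈ range u, x v ^ u := by
  obtain ⟨w, hw, hmax⟩ := exists_max_image (range u) x ⟨0, mem_range.2 (by omega)⟩
  calc ∏ v ∈ range u, x v ≤ ∏ v ∈ range u, x w := prod_le_prod (fun v _ => hx v) (fun v hv => hmax v hv)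
    _ = x w ^ u := by rw [prod_const, card_range]
    _ ≤ _ := single_le_sum (f := fun v => x v ^ u) (fun v _ => pow_nonneg (hx v) _) hw

/-- the sum over the reduced fractions with denominator `e` -/
noncomputable def PG (b : ℕ) (W : ℕ → ℂ) (L e : ℕ) : ℝ :=
  ∑ a ∈ (range e).filter (fun a => a.Coprime e), GW b W 0 L ((a : ℝ) / e)

lemma PG_nonneg (b : ℕ) (W : ℕ → ℂ) (L e : ℕ) : 0 ≤ PG b W L e := sum_nonneg fun _ _ => GW_nonneg _ _ _ _ _

theorem mom {b : ℕ} {ε : ℝ} (hb : 2 ≤ b) (hε : 0 < ε) {W : ℕ → ℂ} (h : WS b ε W) {u N F L : ℕ}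
    (hu : 1 ≤ u) (hF : F ^ 2 ≤ b ^ N) (hL : u * N ≤ L) :
    ∑ e ∈ (Icc 1 F).filter (fun e => e.Coprime b), PG b W L e ≤ u * (C1 b u * AA b ε u ^ N) := by
  have h1 : ∀ e ∈ (Icc 1 F).filter (fun e => e.Coprime b), PG b W L e ≤
      u * ∑ a ∈ (range e).filter (fun a => a.Coprime e), GW b W 0 N ((a : ℝ) / e) ^ u := by
    intro e he
    rw [mem_filter] at he
    unfold PG
    calc ∑ a ∈ (range e).filter (fun a => a.Coprime e), GW b W 0 L ((a : ℝ) / e) ≤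
        ∑ a ∈ (range e).filter (fun a => a.Coprime e), ∑ v ∈ range u, GW b W (v * N) N ((a : ℝ) / e) ^ u := by
          apply sum_le_sum
          intro a _
          exact (GW_blocks h hL _).trans (prod_le_sum_pow hu _ fun v => GW_nonneg _ _ _ _ _)
      _ = ∑ v ∈ range u, ∑ a ∈ (range e).filter (fun a => a.Coprime e),
          GW b W (v * N) N ((a : ℝ) / e) ^ u := sum_comm
      _ = ∑ v ∈ range u, ∑ a ∈ (range e).filter (fun a => a.Coprime e), GW b W 0 N ((a : ℝ) / e) ^ u := by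
          apply sum_congr rfl
          intro v _
          have h2 := Pool.Agent.Y816.PD.dilate he.2 (v * N) (fun x => GW b W 0 N x ^ u)
            (fun x n => by simp only [GW_add_int])
          rw [← h2]
          apply sum_congr rfl
          intro a _
          rw [GW_shift]
      _ = _ := by rw [sum_const, card_range, nsmul_eq_mul]
  refine (sum_le_sum h1).trans ?_
  rw [← mul_sum]
  apply mul_le_mul_of_nonneg_left _ (Nat.cast_nonneg _)
  refine le_trans ?_ (farey hb hε h u N F hF)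
  apply sum_le_sum_of_subset_of_nonneg (filter_subset _ _)
  intro e _ _
  exact sum_nonneg fun a _ => pow_nonneg (GW_nonneg _ _ _ _ _) _

/-! ### small denominators -/

lemma grow {b : ℕ} (hb : 2 ≤ b) (y : ℝ) (hy : ‖1 - ee y‖ ≤ 1 / (b : ℝ)) :
    3 / 2 * ‖1 - ee y‖ ≤ ‖1 - ee (b * y)‖ := by
  have hb2 : (2 : ℝ) ≤ b := by exact_mod_cast hb
  have hb0 : (0 : ℝ) < b := by linarith
  obtain ⟨z, hz⟩ : ∃ z, z = ee y := ⟨_, rfl⟩
  have hzn : ‖z‖ = 1 := by rw [hz, ls_norm_ee]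
  have h1 : ee (b * y) = z ^ b := by rw [ls_ee_nat_mul, hz]
  rw [h1]
  rw [← hz] at hy ⊢
  have h2 : 1 - z ^ b = (∑ j ∈ range b, z ^ j) * (1 - z) := by
    have := geom_sum_mul z b
    linear_combination this
  have h3 : ∀ j : ℕ, ‖1 - z ^ j‖ ≤ j * ‖1 - z‖ := by
    intro j
    have h4 : 1 - z ^ j = (∑ i ∈ range j, z ^ i) * (1 - z) := by
      have := geom_sum_mul z j
      linear_combination this
    rw [h4, norm_mul]
    apply mul_le_mul_of_nonneg_right _ (norm_nonneg _)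
    refine (norm_sum_le _ _).trans ?_
    simp [hzn]
  have h5 : (3 : ℝ) / 2 ≤ ‖∑ j ∈ range b, z ^ j‖ := by
    have h6 : ∑ j ∈ range b, z ^ j = (b : ℂ) - ∑ j ∈ range b, (1 - z ^ j) := by
      rw [sum_sub_distrib, sum_const, card_range, nsmul_eq_mul, mul_one]
      ring
    have h7 : ‖∑ j ∈ range b, (1 - z ^ j)‖ ≤ ((b : ℝ) - 1) / 2 := by
      calc ‖∑ j ∈ range b, (1 - z ^ j)‖ ≤ ∑ j ∈ range b, ‖1 - z ^ j‖ := norm_sum_le _ _
        _ ≤ ∑ j ∈ range b, (j : ℝ) * ‖1 - z‖ := sum_le_sum fun j _ => h3 j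
        _ = (∑ j ∈ range b, (j : ℝ)) * ‖1 - z‖ := by rw [sum_mul]
        _ ≤ (∑ j ∈ range b, (j : ℝ)) * (1 / b) :=
            mul_le_mul_of_nonneg_left hy (sum_nonneg fun _ _ => Nat.cast_nonneg _)
        _ = ((b : ℝ) - 1) / 2 := by
            have h8 := Finset.sum_range_id_mul_two b
            have h9 : (∑ j ∈ range b, (j : ℝ)) * 2 = b * ((b : ℝ) - 1) := by
              have : ((∑ j ∈ range b, j : ℕ) : ℝ) * 2 = ((b * (b - 1) : ℕ) : ℝ) := by exact_mod_cast h8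
              rw [Nat.cast_mul, Nat.cast_sub (by omega)] at this
              push_cast at this
              exact this
            field_simp
            linarith
    rw [h6]
    have h8 := norm_sub_norm_le (b : ℂ) (∑ j ∈ range b, (1 - z ^ j))
    rw [Complex.norm_natCast] at h8
    linarith
  rw [h2, norm_mul]
  exact mul_le_mul_of_nonneg_right h5 (norm_nonneg _)

/-- in every window there is a good place -/
lemma window {b : ℕ} (hb : 2 ≤ b) {e a T : ℕ} (he : 1 < e) (heb : e.Coprime (b * (b - 1))) (ha : a.Coprime e)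
    (hT : (e : ℝ) ≤ (3 / 2) ^ T) (s : ℕ) :
    ∃ i ≤ T, 1 / (b : ℝ) < ‖1 - ee (((b : ℝ) - 1) * ((b : ℝ) ^ (s + i) * ((a : ℝ) / e)))‖ := by
  by_contra hcon
  push Not at hcon
  have hb2 : (2 : ℝ) ≤ b := by exact_mod_cast hb
  have he0 : (0 : ℝ) < e := by exact_mod_cast (by omega : 0 < e)
  have h1 : ∀ i ≤ T, (3 / 2 : ℝ) ^ i * (1 / e) ≤
      ‖1 - ee (((b : ℝ) - 1) * ((b : ℝ) ^ (s + i) * ((a : ℝ) / e)))‖ := by
    intro i
    induction i with
    | zero =>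
      intro _
      have h2 : ((b : ℝ) - 1) * ((b : ℝ) ^ (s + 0) * ((a : ℝ) / e)) =
          (((((b - 1) * b ^ s * a : ℕ) : ℤ)) : ℝ) / e := by
        push_cast [Nat.cast_sub (by omega : 1 ≤ b)]
        rw [Nat.add_zero]
        ring
      rw [h2, pow_zero, one_mul]
      apply low (by omega)
      intro hd
      have h3 : e ∣ (b - 1) * b ^ s * a := by exact_mod_cast hd
      have h4 : e.Coprime ((b - 1) * b ^ s * a) := by
        apply Nat.Coprime.mul_right _ ha.symm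
        apply Nat.Coprime.mul_right
        · exact Nat.Coprime.coprime_dvd_right (Dvd.intro_left _ rfl) heb
        · exact Nat.Coprime.pow_right _ (Nat.Coprime.coprime_dvd_right (Dvd.intro _ rfl) heb)
      have h5 := Nat.eq_one_of_dvd_coprimes h4 dvd_rfl h3
      omega
    | succ i ih =>
      intro hi
      have h2 := ih (by omega)
      have h3 := hcon i (by omega)
      have h4 := grow hb _ h3
      have h5 : (b : ℝ) * (((b : ℝ) - 1) * ((b : ℝ) ^ (s + i) * ((a : ℝ) / e))) =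
          ((b : ℝ) - 1) * ((b : ℝ) ^ (s + (i + 1)) * ((a : ℝ) / e)) := by
        rw [← add_assoc, pow_succ]
        ring
      rw [h5] at h4
      refine le_trans ?_ h4
      rw [pow_succ]
      linarith
  have h6 := h1 T le_rfl
  have h7 := hcon T le_rfl
  have h8 : 1 ≤ (3 / 2 : ℝ) ^ T * (1 / e) := by
    rw [mul_one_div, le_div_iff₀ he0, one_mul]
    exact hT
  have h9 : 1 / (b : ℝ) ≤ 1 / 2 := one_div_le_one_div_of_le (by norm_num) hb2
  linarith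

lemma GW_window {b : ℕ} {ε : ℝ} (hb : 2 ≤ b) (hε : 0 < ε) {W : ℕ → ℂ} (h : WS b ε W) {e a T : ℕ}
    (he : 1 < e) (heb : e.Coprime (b * (b - 1))) (ha : a.Coprime e) (hT : (e : ℝ) ≤ (3 / 2) ^ T) (s : ℕ) :
    GW b W s (T + 2) ((a : ℝ) / e) ≤ 1 - et b ε := by
  obtain ⟨i, hi, h1⟩ := window hb he heb ha hT s
  have h2 := ph_pair hb hε h _ h1
  have h3 : (b : ℝ) * ((b : ℝ) ^ (s + i) * ((a : ℝ) / e)) = (b : ℝ) ^ (s + (i + 1)) * ((a : ℝ) / e) := by
    rw [← add_assoc, pow_succ]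
    ring
  rw [h3] at h2
  refine le_trans ?_ h2
  unfold GW
  have hsub : ({i, i + 1} : Finset ℕ) ⊆ range (T + 2) := by
    intro x hx
    rw [mem_insert, mem_singleton] at hx
    rw [mem_range]
    omega
  rw [← prod_sdiff hsub, prod_pair (by omega : i ≠ i + 1)]
  apply mul_le_of_le_one_left (mul_nonneg (ph_nonneg _ _ _) (ph_nonneg _ _ _))
  exact prod_le_one (fun _ _ => ph_nonneg _ _ _) (fun _ _ => ph_le_one h _)

lemma GW_small {b : ℕ} {ε : ℝ} (hb : 2 ≤ b) (hε : 0 < ε) {W : ℕ → ℂ} (h : WS b ε W) {e a T : ℕ}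
    (he : 1 < e) (heb : e.Coprime (b * (b - 1))) (ha : a.Coprime e) (hT : (e : ℝ) ≤ (3 / 2) ^ T) (L : ℕ) :
    GW b W 0 L ((a : ℝ) / e) ≤ (1 - et b ε) ^ (L / (T + 2)) := by
  refine (GW_blocks h (Nat.div_mul_le_self L (T + 2)) _).trans ?_
  calc ∏ v ∈ range (L / (T + 2)), GW b W (v * (T + 2)) (T + 2) ((a : ℝ) / e) ≤
      ∏ v ∈ range (L / (T + 2)), (1 - et b ε) :=
        prod_le_prod (fun _ _ => GW_nonneg _ _ _ _ _) (fun v _ => GW_window hb hε h he heb ha hT _)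
    _ = _ := by rw [prod_const, card_range]

/-- a power of the logarithm -/
theorem small {b : ℕ} {ε : ℝ} (hb : 2 ≤ b) (hε : 0 < ε) (A : ℕ) : ∃ L0 : ℕ, ∀ L : ℕ, L0 ≤ L →
    ∀ W : ℕ → ℂ, WS b ε W → ∀ e a : ℕ, 1 < e → e.Coprime (b * (b - 1)) → (e : ℝ) ≤ ((b : ℝ) * L) ^ A →
    a.Coprime e → GW b W 0 L ((a : ℝ) / e) ≤ Real.exp (-Real.sqrt L) := by
  have hb2 : (2 : ℝ) ≤ b := by exact_mod_cast hb
  have hb0 : (0 : ℝ) < b := by linarith
  have het0 := et_pos hb hε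
  -- thresholds in `n`
  have hx1 : ∀ᶠ n : ℕ in Filter.atTop, ((b : ℝ) * ((n : ℝ) + 1) ^ 4) ^ A ≤ (3 / 2 : ℝ) ^ n := by
    have h1 : Filter.Tendsto (fun n : ℕ => ((n + 1 : ℕ) : ℝ) ^ (4 * A) / (3 / 2 : ℝ) ^ (n + 1)) Filter.atTop
        (nhds 0) :=
      (tendsto_pow_const_div_const_pow_of_one_lt (4 * A) (by norm_num : (1 : ℝ) < 3 / 2)).comp
        (Filter.tendsto_add_atTop_nat 1)
    have h2 := h1.eventually (gt_mem_nhds (show (0 : ℝ) < 1 / ((b : ℝ) ^ A * (3 / 2)) by positivity))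
    filter_upwards [h2] with n hn
    rw [div_lt_div_iff₀ (by positivity) (by positivity), one_mul] at hn
    push_cast at hn
    rw [mul_pow, ← pow_mul]
    rw [pow_succ (3 / 2 : ℝ) n] at hn
    have h3 : ((n : ℝ) + 1) ^ (4 * A) * ((b : ℝ) ^ A) * (3 / 2) ≤ (3 / 2 : ℝ) ^ n * (3 / 2) := by
      calc _ = ((n : ℝ) + 1) ^ (4 * A) * ((b : ℝ) ^ A * (3 / 2)) := by ring
        _ ≤ _ := hn.le
    have h4 := le_of_mul_le_mul_right h3 (by norm_num)
    linarith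
  have hx2 : ∀ᶠ n : ℕ in Filter.atTop, 4 / et b ε ≤ (n : ℝ) :=
    tendsto_natCast_atTop_atTop.eventually_ge_atTop _
  obtain ⟨n0, hn0⟩ := Filter.eventually_atTop.1 (hx1.and hx2)
  refine ⟨(max n0 1000) ^ 4, ?_⟩
  intro L hL W h e a he heb heL ha
  obtain ⟨n, hn⟩ : ∃ n, n = Nat.sqrt (Nat.sqrt L) := ⟨_, rfl⟩
  have h1 : n ^ 4 ≤ L := by
    have h2 := Nat.sqrt_le' (Nat.sqrt L)
    have h3 := Nat.sqrt_le' L
    rw [← hn] at h2
    calc n ^ 4 = (n ^ 2) ^ 2 := by ring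
      _ ≤ (Nat.sqrt L) ^ 2 := Nat.pow_le_pow_left h2 2
      _ ≤ L := h3
  have h2 : L < (n + 1) ^ 4 := by
    have h3 := Nat.lt_succ_sqrt' (Nat.sqrt L)
    have h4 := Nat.lt_succ_sqrt' L
    rw [← hn] at h3
    calc L < (Nat.sqrt L + 1) ^ 2 := h4
      _ ≤ ((n + 1) ^ 2) ^ 2 := Nat.pow_le_pow_left h3 2
      _ = (n + 1) ^ 4 := by ring
  have h3 : max n0 1000 ≤ n := by
    by_contra hcon
    push Not at hcon
    have : (n + 1) ^ 4 ≤ (max n0 1000) ^ 4 := Nat.pow_le_pow_left hcon 4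
    omega
  have hnn0 : n0 ≤ n := (le_max_left _ _).trans h3
  have hn1000 : 1000 ≤ n := (le_max_right _ _).trans h3
  obtain ⟨h4, h5⟩ := hn0 n hnn0
  have hT : (e : ℝ) ≤ (3 / 2) ^ n := by
    refine heL.trans (le_trans ?_ h4)
    apply pow_le_pow_left₀ (by positivity)
    apply mul_le_mul_of_nonneg_left _ hb0.le
    exact_mod_cast h2.le
  refine (GW_small hb hε h he heb ha hT L).trans ?_
  have het1 := et_le hb hε h.le_one
  have h6 : (1 - et b ε) ^ (L / (n + 2)) ≤ Real.exp (-(et b ε) * (L / (n + 2) : ℕ)) := by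
    rw [mul_comm, Real.exp_nat_mul]
    apply pow_le_pow_left₀ (by linarith)
    have := Real.add_one_le_exp (-(et b ε))
    linarith
  refine h6.trans ?_
  apply Real.exp_le_exp.2
  rw [neg_mul, neg_le_neg_iff]
  have h7 : Real.sqrt L ≤ (n + 1) ^ 2 := by
    rw [Real.sqrt_le_left (by positivity)]
    have : (L : ℝ) ≤ ((n : ℝ) + 1) ^ 4 := by exact_mod_cast h2.le
    calc (L : ℝ) ≤ ((n : ℝ) + 1) ^ 4 := this
      _ = _ := by ring
  have h8 : n ^ 3 / 2 ≤ L / (n + 2) := by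
    rw [Nat.le_div_iff_mul_le (by omega)]
    have h9 : n ^ 3 / 2 * (n + 2) ≤ n ^ 3 / 2 * (2 * n) := Nat.mul_le_mul_left _ (by omega)
    have h10 : n ^ 3 / 2 * 2 ≤ n ^ 3 := Nat.div_mul_le_self _ _
    calc n ^ 3 / 2 * (n + 2) ≤ n ^ 3 / 2 * (2 * n) := h9
      _ = (n ^ 3 / 2 * 2) * n := by ring
      _ ≤ n ^ 3 * n := Nat.mul_le_mul_right _ h10
      _ = n ^ 4 := by ring
      _ ≤ L := h1
  have h9 : ((n : ℝ) ^ 3 / 2 - 1) ≤ ((L / (n + 2) : ℕ) : ℝ) := by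
    have h10 : n ^ 3 ≤ 2 * (n ^ 3 / 2) + 1 := by omega
    have h11 : (n : ℝ) ^ 3 ≤ 2 * ((n ^ 3 / 2 : ℕ) : ℝ) + 1 := by exact_mod_cast h10
    have h12 : ((n ^ 3 / 2 : ℕ) : ℝ) ≤ ((L / (n + 2) : ℕ) : ℝ) := by exact_mod_cast h8
    linarith
  have hnr : (1000 : ℝ) ≤ n := by exact_mod_cast hn1000
  have h10 : 4 ≤ et b ε * n := by
    rw [div_le_iff₀ het0] at h5
    linarith
  refine h7.trans (le_trans ?_ (mul_le_mul_of_nonneg_left h9 het0.le))
  have h11 : et b ε * ((n : ℝ) ^ 3 / 2 - 1) = (et b ε * n) * (n ^ 2 / 2) - et b ε := by ring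
  rw [h11]
  have h12 : 4 * ((n : ℝ) ^ 2 / 2) ≤ (et b ε * n) * ((n : ℝ) ^ 2 / 2) :=
    mul_le_mul_of_nonneg_right h10 (by positivity)
  nlinarith

end Pool.Agent.H679.DC
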