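import Pool.Agent.H679.DC.Gen

/-!
# The number of the integers with prescribed numbers of digits
-/

set_option autoImplicit false

namespace Pool.Agent.H679.DC

open Finset

lemma dc_succ {b L n d : ℕ} (hb : 0 < b) (hn : n < b ^ L) (hd : d < b) (c : ℕ) :
    dc b (L + 1) (n + d * b ^ L) c = dc b L n c + if d = c then 1 else 0 := by
  unfold dc
  rw [range_add_one, filter_insert, Pool.Agent.Y816.PD.digit_top hb hn hd]
  have h1 : (range L).filter (fun i => (n + d * b ^ L) / b ^ i % b = c) =
      (range L).filter (fun i => n / b ^ i % b = c) := by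
    apply filter_congr
    intro i hi
    rw [Pool.Agent.Y816.PD.digit_low hb (mem_range.1 hi)]
  rw [h1]
  split_ifs with h
  · rw [card_insert_of_notMem]
    intro hL
    exact absurd (mem_range.1 (mem_filter.1 hL).1) (lt_irrefl _)
  · rfl

/-- one digit `d` less -/
def less (m : ℕ → ℕ) (d : ℕ) : ℕ → ℕ := fun c => if c = d then m c - 1 else m c

lemma sum_less {b : ℕ} (m : ℕ → ℕ) {d : ℕ} (hd : d < b) (hm : 0 < m d) :
    ∑ c ∈ range b, less m d c + 1 = ∑ c ∈ range b, m c := by
  rw [← add_sum_erase _ _ (mem_range.2 hd), ← add_sum_erase (range b) m (mem_range.2 hd)]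
  have h1 : ∑ c ∈ (range b).erase d, less m d c = ∑ c ∈ (range b).erase d, m c := by
    apply sum_congr rfl
    intro c hc
    unfold less
    rw [if_neg (ne_of_mem_erase hc)]
  rw [h1]
  unfold less
  rw [if_pos rfl]
  omega

lemma prod_less {b : ℕ} (m : ℕ → ℕ) {d : ℕ} (hd : d < b) (hm : 0 < m d) :
    m d * ∏ c ∈ range b, (less m d c).factorial = ∏ c ∈ range b, (m c).factorial := by
  rw [← mul_prod_erase _ _ (mem_range.2 hd), ← mul_prod_erase (range b) (fun c => (m c).factorial)
    (mem_range.2 hd)]
  have h1 : ∏ c ∈ (range b).erase d, (less m d c).factorial = ∏ c ∈ (range b).erase d, (m c).factorial := by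
    apply prod_congr rfl
    intro c hc
    unfold less
    rw [if_neg (ne_of_mem_erase hc)]
  rw [h1]
  unfold less
  rw [if_pos rfl, ← mul_assoc, Nat.mul_factorial_pred hm.ne']

theorem card_tc {b : ℕ} (hb : 0 < b) (L : ℕ) : ∀ m : ℕ → ℕ, ∑ c ∈ range b, m c = L →
    (tc b L m).card * ∏ c ∈ range b, (m c).factorial = L.factorial := by
  induction L with
  | zero =>
    intro m hm
    rw [sum_eq_zero_iff] at hm
    have h1 : ∏ c ∈ range b, (m c).factorial = 1 := prod_eq_one fun c hc => by rw [hm c hc]; rfl
    have h2 : tc b 0 m = {0} := by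
      unfold tc
      rw [pow_zero, range_one, filter_eq_self.2]
      intro x _ c hc
      rw [hm c (mem_range.2 hc)]
      simp [dc]
    rw [h1, h2]
    rfl
  | succ L ih =>
    intro m hm
    have h1 : (tc b (L + 1) m).card = ∑ d ∈ range b, if m d = 0 then 0 else (tc b L (less m d)).card := by
      unfold tc
      rw [card_filter, sum_succ L hb, sum_comm]
      apply sum_congr rfl
      intro d hd
      rw [mem_range] at hd
      rw [← card_filter]
      split_ifs with h0
      · rw [card_eq_zero, filter_eq_empty_iff]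
        intro n hn h
        have h2 := h d hd
        rw [dc_succ hb (mem_range.1 hn) hd, if_pos rfl] at h2
        omega
      · congr 1
        apply filter_congr
        intro n hn
        apply forall_congr'
        intro c
        apply imp_congr_right
        intro hc
        rw [dc_succ hb (mem_range.1 hn) hd]
        unfold less
        by_cases hcd : c = d
        · subst hcd
          rw [if_pos rfl, if_pos rfl]
          omega
        · rw [if_neg (Ne.symm hcd), if_neg hcd, Nat.add_zero]
    rw [h1, sum_mul]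
    have h2 : ∀ d ∈ range b, (if m d = 0 then 0 else (tc b L (less m d)).card) *
        ∏ c ∈ range b, (m c).factorial = m d * L.factorial := by
      intro d hd
      rw [mem_range] at hd
      split_ifs with h0
      · rw [h0, Nat.zero_mul, Nat.zero_mul]
      · have h3 := sum_less m hd (Nat.pos_of_ne_zero h0)
        rw [← ih (less m d) (by omega), ← prod_less m hd (Nat.pos_of_ne_zero h0)]
        ring
    rw [sum_congr rfl h2, ← sum_mul, hm]
    rfl

lemma fact_le (k m : ℕ) : k.factorial * k ^ m ≤ m.factorial * k ^ k := by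
  rcases Nat.le_total k m with h | h
  · obtain ⟨t, rfl⟩ := Nat.exists_eq_add_of_le h
    have h1 := Nat.factorial_mul_pow_sub_le_factorial h
    rw [Nat.add_sub_cancel_left] at h1
    calc k.factorial * k ^ (k + t) = (k.factorial * k ^ t) * k ^ k := by rw [pow_add]; ring
      _ ≤ _ := Nat.mul_le_mul_right _ h1
  · obtain ⟨t, ht⟩ := Nat.exists_eq_add_of_le h
    have h1 := Nat.factorial_mul_descFactorial (n := k) (k := t) (by omega)
    have h2 := Nat.descFactorial_le_pow k t
    have h3 : k - t = m := by omega
    rw [h3] at h1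
    calc k.factorial * k ^ m = m.factorial * k.descFactorial t * k ^ m := by rw [h1]
      _ ≤ m.factorial * k ^ t * k ^ m := by gcongr
      _ = m.factorial * k ^ (m + t) := by rw [pow_add]; ring
      _ = _ := by rw [← ht]

/-- the class with the most probable numbers of digits -/
theorem size_le {b : ℕ} (hb : 0 < b) {L : ℕ} (hL : 0 < L) {k m : ℕ → ℕ} (hk : ∑ c ∈ range b, k c = L)
    (hm : ∑ c ∈ range b, m c = L) :
    (tc b L m).card * ∏ c ∈ range b, (((k c : ℝ) / L) ^ m c) ≤
      (tc b L k).card * ∏ c ∈ range b, (((k c : ℝ) / L) ^ k c) := by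
  have hLr : (0 : ℝ) < L := by exact_mod_cast hL
  have h1 : ∀ m : ℕ → ℕ, ∑ c ∈ range b, m c = L →
      ∏ c ∈ range b, (((k c : ℝ) / L) ^ m c) = (∏ c ∈ range b, (k c : ℝ) ^ m c) / (L : ℝ) ^ L := by
    intro m hm
    simp only [div_pow]
    rw [prod_div_distrib, prod_pow_eq_pow_sum, hm]
  rw [h1 m hm, h1 k hk, ← mul_div_assoc, ← mul_div_assoc]
  apply div_le_div_of_nonneg_right _ (by positivity)
  have h2 := card_tc hb L m hm
  have h3 := card_tc hb L k hk
  have h4 : (tc b L m).card * ∏ c ∈ range b, k c ^ m c ≤ (tc b L k).card * ∏ c ∈ range b, k c ^ k c := by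
    have hpos : 0 < (∏ c ∈ range b, (m c).factorial) * ∏ c ∈ range b, (k c).factorial :=
      Nat.mul_pos (prod_pos fun c _ => Nat.factorial_pos _) (prod_pos fun c _ => Nat.factorial_pos _)
    apply Nat.le_of_mul_le_mul_right _ hpos
    calc (tc b L m).card * (∏ c ∈ range b, k c ^ m c) *
        ((∏ c ∈ range b, (m c).factorial) * ∏ c ∈ range b, (k c).factorial) =
        ((tc b L m).card * ∏ c ∈ range b, (m c).factorial) *
          ((∏ c ∈ range b, (k c).factorial) * ∏ c ∈ range b, k c ^ m c) := by ring
      _ = L.factorial * ∏ c ∈ range b, ((k c).factorial * k c ^ m c) := by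
          rw [h2, prod_mul_distrib]
      _ ≤ L.factorial * ∏ c ∈ range b, ((m c).factorial * k c ^ k c) := by
          apply Nat.mul_le_mul_left
          exact prod_le_prod' fun c _ => fact_le _ _
      _ = ((tc b L k).card * ∏ c ∈ range b, (k c).factorial) *
          ((∏ c ∈ range b, (m c).factorial) * ∏ c ∈ range b, k c ^ k c) := by
          rw [h3, prod_mul_distrib]
      _ = _ := by ring
  exact_mod_cast h4

/-- **The number of the integers with prescribed numbers of digits** -/
theorem size {b : ℕ} (hb : 0 < b) {L : ℕ} (hL : 0 < L) {k : ℕ → ℕ} (hk : ∑ c ∈ range b, k c = L) :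
    1 ≤ ((L + 1 : ℕ) : ℝ) ^ b * (∏ c ∈ range b, (((k c : ℝ) / L) ^ k c)) * (tc b L k).card := by
  classical
  have hLr : (0 : ℝ) < L := by exact_mod_cast hL
  obtain ⟨p, hp⟩ : ∃ p : ℕ → ℝ, p = fun c => (k c : ℝ) / L := ⟨_, rfl⟩
  have hp0 : ∀ c, 0 ≤ p c := fun c => by rw [hp]; positivity
  have hps : ∑ c ∈ range b, p c = 1 := by
    rw [hp]
    simp only
    rw [← sum_div, ← Nat.cast_sum, hk, div_self hLr.ne']
  obtain ⟨T, hT⟩ : ∃ T, T = Fintype.piFinset (fun _ : Fin b => range (L + 1)) := ⟨_, rfl⟩
  -- the total mass is one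
  have h1 : (1 : ℝ) = ∑ x ∈ range (b ^ L), ∏ c ∈ range b, p c ^ dc b L x c := by
    have h := gen L hb (fun c => (p c : ℂ)) 0
    simp only [mul_zero, Pool.Agent.Helper112.ls_ee_zero, mul_one] at h
    rw [prod_const, card_range] at h
    have h2 : (∑ c ∈ range b, (p c : ℂ)) = 1 := by
      rw [← Complex.ofReal_sum, hps, Complex.ofReal_one]
    rw [h2, one_pow] at h
    have h3 : ((∑ x ∈ range (b ^ L), ∏ c ∈ range b, p c ^ dc b L x c : ℝ) : ℂ) = ((1 : ℝ) : ℂ) := by
      rw [Complex.ofReal_one, ← h]
      push_cast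
      apply sum_congr rfl
      intro x _
      exact (prod_dc L x hb (fun c => (p c : ℂ))).symm
    exact (Complex.ofReal_inj.1 h3).symm
  have hmaps : ∀ x ∈ range (b ^ L), (fun c : Fin b => dc b L x c) ∈ T := by
    intro x _
    rw [hT, Fintype.mem_piFinset]
    intro c
    exact mem_range.2 (Nat.lt_succ_of_le (dc_le b L x c))
  have h4 : ∑ x ∈ range (b ^ L), ∏ c ∈ range b, p c ^ dc b L x c ≤
      ∑ t ∈ T, ((tc b L k).card * ∏ c ∈ range b, p c ^ k c) := by
    rw [← sum_fiberwise_of_maps_to hmaps]
    apply sum_le_sum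
    intro t _
    have h5 : ∀ x ∈ (range (b ^ L)).filter (fun x => (fun c : Fin b => dc b L x c) = t),
        ∏ c ∈ range b, p c ^ dc b L x c = ∏ c ∈ range b, p c ^ ext t c := by
      intro x hx
      rw [mem_filter] at hx
      apply prod_congr rfl
      intro c hc
      rw [mem_range] at hc
      have := congrFun hx.2 ⟨c, hc⟩
      simp only at this
      unfold ext
      rw [dif_pos hc, this]
    rw [sum_congr rfl h5, sum_const, nsmul_eq_mul]
    have h6 : (range (b ^ L)).filter (fun x => (fun c : Fin b => dc b L x c) = t) = tc b L (ext t) := by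
      unfold tc
      apply filter_congr
      intro x _
      constructor
      · intro h c hc
        unfold ext
        rw [dif_pos hc]
        exact congrFun h ⟨c, hc⟩
      · intro h
        funext c
        rw [h c c.2, ext_fin]
    rw [h6]
    by_cases h7 : ∑ c ∈ range b, ext t c = L
    · rw [hp]
      exact size_le hb hL hk h7
    · have h8 : tc b L (ext t) = ∅ := by
        rw [eq_empty_iff_forall_notMem]
        intro x hx
        unfold tc at hx
        rw [mem_filter] at hx
        apply h7
        rw [← sum_dc (b := b) L x hb]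
        apply sum_congr rfl
        intro c hc
        exact (hx.2 c (mem_range.1 hc)).symm
      rw [h8, card_empty, Nat.cast_zero, zero_mul]
      exact mul_nonneg (Nat.cast_nonneg _) (prod_nonneg fun c _ => pow_nonneg (hp0 c) _)
  rw [← h1, sum_const, hT, Fintype.card_piFinset] at h4
  simp only [card_range, prod_const, card_univ, Fintype.card_fin, nsmul_eq_mul] at h4
  rw [hp] at h4
  push_cast at h4 ⊢
  linarith

end Pool.Agent.H679.DC
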