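import Pool.Agent.H679.DC.Lev
import Pool.Agent.H679.DC.Size

/-!
# Distribution in residue classes
-/

set_option autoImplicit false

namespace Pool.Agent.H679.DC

open Finset Pool.Agent.Helper112
open Pool.Agent.Y816.PD (sum_ee sum_frac)

/-- the normalised Fourier transform of a set -/
noncomputable def FS (S : Finset ℕ) (θ : ℝ) : ℝ := ‖∑ n ∈ S, ee (n * θ)‖ / S.card

/-- its sum over the reduced fractions with denominator `e` -/
noncomputable def PS (S : Finset ℕ) (e : ℕ) : ℝ :=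
  ∑ a ∈ (range e).filter (fun a => a.Coprime e), FS S ((a : ℝ) / e)

lemma FS_nonneg (S : Finset ℕ) (θ : ℝ) : 0 ≤ FS S θ := div_nonneg (norm_nonneg _) (Nat.cast_nonneg _)

lemma PS_nonneg (S : Finset ℕ) (e : ℕ) : 0 ≤ PS S e := sum_nonneg fun _ _ => FS_nonneg _ _

lemma norm_FS (S : Finset ℕ) (θ : ℝ) : ‖∑ n ∈ S, ee (n * θ)‖ = S.card * FS S θ := by
  unfold FS
  rcases S.eq_empty_or_nonempty with h | h
  · subst h; simp
  · have : (S.card : ℝ) ≠ 0 := by exact_mod_cast h.card_pos.ne'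
    rw [mul_comm, div_mul_cancel₀ _ this]

theorem orthS (S : Finset ℕ) (q h : ℕ) (hq : 0 < q) :
    |((S.filter (fun n => n % q = h % q)).card : ℝ) - (S.card : ℝ) / q| ≤
      (S.card : ℝ) / q * ∑ e ∈ q.divisors.erase 1, PS S e := by
  have hq0 : (q : ℝ) ≠ 0 := by exact_mod_cast hq.ne'
  have h1 : (q : ℂ) * ((S.filter (fun n => n % q = h % q)).card : ℂ) =
      ∑ a ∈ range q, ee (-((h : ℝ) * ((a : ℝ) / q))) * ∑ n ∈ S, ee (n * ((a : ℝ) / q)) := by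
    have h2 : ∀ n : ℕ, ∑ a ∈ range q, ee (-((h : ℝ) * ((a : ℝ) / q))) * ee (n * ((a : ℝ) / q)) =
        if n % q = h % q then (q : ℂ) else 0 := by
      intro n
      have h3 := sum_ee q hq ((n : ℤ) - h)
      have h4 : ∑ a ∈ range q, ee ((((n : ℤ) - h : ℤ) : ℝ) * ((a : ℝ) / q)) =
          ∑ a ∈ range q, ee (-((h : ℝ) * ((a : ℝ) / q))) * ee (n * ((a : ℝ) / q)) := by
        apply sum_congr rfl
        intro a _
        rw [← ls_ee_add]
        congr 1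
        push_cast
        ring
      rw [← h4, h3]
      have h5 : ((q : ℤ) ∣ (n : ℤ) - h) ↔ n % q = h % q :=
        (Nat.modEq_iff_dvd (a := h) (b := n)).symm.trans ⟨fun h6 => h6.symm, fun h6 => h6.symm⟩
      simp only [h5]
    simp only [mul_sum]
    rw [sum_comm]
    simp only [h2]
    rw [← sum_filter, sum_const, nsmul_eq_mul, mul_comm]
  obtain ⟨n, rfl⟩ : ∃ n, q = n + 1 := ⟨q - 1, by omega⟩
  have h6 : ((n + 1 : ℕ) : ℂ) *
      ((S.filter (fun m => m % (n + 1) = h % (n + 1))).card : ℂ) - S.card =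
      ∑ a ∈ Ico 1 (n + 1), ee (-((h : ℝ) * ((a : ℝ) / ((n + 1 : ℕ) : ℝ)))) *
        ∑ m ∈ S, ee (m * ((a : ℝ) / ((n + 1 : ℕ) : ℝ))) := by
    rw [h1, range_eq_Ico, sum_eq_sum_Ico_succ_bot (by omega)]
    have h7 : ∑ m ∈ S, ee (m * (((0 : ℕ) : ℝ) / ((n + 1 : ℕ) : ℝ))) = (S.card : ℂ) := by
      simp [ls_ee_zero]
    rw [h7]
    simp [ls_ee_zero]
  have h8 : ‖((n + 1 : ℕ) : ℂ) *
      ((S.filter (fun m => m % (n + 1) = h % (n + 1))).card : ℂ) - S.card‖ ≤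
      ∑ a ∈ Ico 1 (n + 1), (S.card : ℝ) * FS S ((a : ℝ) / ((n + 1 : ℕ) : ℝ)) := by
    rw [h6]
    refine (norm_sum_le _ _).trans (sum_le_sum fun a _ => ?_)
    rw [norm_mul, ls_norm_ee, one_mul, norm_FS]
  have h9 : ∑ a ∈ Ico 1 (n + 1), FS S ((a : ℝ) / ((n + 1 : ℕ) : ℝ)) =
      ∑ e ∈ (n + 1).divisors.erase 1, PS S e := by
    have h10 := sum_frac (n + 1) (by omega) (FS S)
    rw [← add_sum_erase _ _ (Nat.one_mem_divisors.2 (by omega : n + 1 ≠ 0)), range_eq_Ico,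
      sum_eq_sum_Ico_succ_bot (by omega)] at h10
    have h11 : ∑ a ∈ (range 1).filter (fun a => a.Coprime 1), FS S ((a : ℝ) / ((1 : ℕ) : ℝ)) =
        FS S (((0 : ℕ) : ℝ) / ((n + 1 : ℕ) : ℝ)) := by
      rw [filter_true_of_mem (fun a _ => Nat.coprime_one_right a), range_one, sum_singleton]
      simp
    rw [h11] at h10
    exact add_left_cancel h10
  rw [← mul_sum, h9] at h8
  have hn0 : (0 : ℝ) < ((n + 1 : ℕ) : ℝ) := by exact_mod_cast Nat.succ_pos n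
  have h12 : ‖((n + 1 : ℕ) : ℂ) *
      ((S.filter (fun m => m % (n + 1) = h % (n + 1))).card : ℂ) - S.card‖ =
      ((n + 1 : ℕ) : ℝ) * |((S.filter (fun m => m % (n + 1) = h % (n + 1))).card : ℝ) -
        S.card / ((n + 1 : ℕ) : ℝ)| := by
    have h13 : ((n + 1 : ℕ) : ℂ) *
        ((S.filter (fun m => m % (n + 1) = h % (n + 1))).card : ℂ) - S.card =
        ((((n + 1 : ℕ) : ℝ) * (((S.filter (fun m => m % (n + 1) = h % (n + 1))).card : ℝ) -
        S.card / ((n + 1 : ℕ) : ℝ)) : ℝ) : ℂ) := by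
      rw [mul_sub, mul_div_cancel₀ _ hn0.ne']
      push_cast
      ring
    rw [h13, Complex.norm_real, Real.norm_eq_abs, abs_mul, abs_of_pos hn0]
  rw [h12] at h8
  rw [div_mul_eq_mul_div, le_div_iff₀ hn0, mul_comm]
  exact h8

lemma dst (B : ℕ) (S : Finset ℕ) : Dst B S S.card (PS S) :=
  ⟨Nat.cast_nonneg _, PS_nonneg S, fun q h hq _ => orthS S q h hq⟩

/-- the numbers of digits: total `L`, two consecutive digits occur at least `ε L` times -/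
structure Cnt (b : ℕ) (ε : ℝ) (L : ℕ) (k : ℕ → ℕ) : Prop where
  sum : ∑ c ∈ range b, k c = L
  two : ∃ d : ℕ, d + 1 < b ∧ ε * L ≤ k d ∧ ε * L ≤ k (d + 1)

lemma Cnt.le {b : ℕ} {ε : ℝ} {L : ℕ} {k : ℕ → ℕ} (h : Cnt b ε L k) (c : ℕ) (hc : c < b) : k c ≤ L := by
  rw [← h.sum]
  exact single_le_sum (f := k) (fun _ _ => Nat.zero_le _) (mem_range.2 hc)

lemma ws_wt {b : ℕ} {ε : ℝ} {L : ℕ} (hL : 0 < L) {k : ℕ → ℕ} (h : Cnt b ε L k) (t : ℕ → ℕ) :
    WS b ε (wt L (fun c => (k c : ℝ) / L) t) := by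
  have hLr : (0 : ℝ) < L := by exact_mod_cast hL
  have h1 : ∀ c, ‖wt L (fun c => (k c : ℝ) / L) t c‖ = (k c : ℝ) / L := by
    intro c
    unfold wt
    rw [norm_mul, ls_norm_ee, mul_one, Complex.norm_real, Real.norm_eq_abs, abs_of_nonneg (by positivity)]
  constructor
  · simp only [h1]
    rw [← sum_div, ← Nat.cast_sum, h.sum, div_self hLr.ne']
  · obtain ⟨d, hd, h2, h3⟩ := h.two
    refine ⟨d, hd, ?_, ?_⟩
    · rw [h1, le_div_iff₀ hLr]; exact h2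
    · rw [h1, le_div_iff₀ hLr]; exact h3

lemma tc_pos {b : ℕ} (hb : 0 < b) {ε : ℝ} {L : ℕ} (hL : 0 < L) {k : ℕ → ℕ} (h : Cnt b ε L k) :
    0 < (tc b L k).card := by
  by_contra hcon
  have h0 : (tc b L k).card = 0 := by omega
  have h1 := size hb hL h.sum
  rw [h0, Nat.cast_zero, mul_zero] at h1
  linarith

lemma FS_le {b : ℕ} (hb : 2 ≤ b) {ε : ℝ} {L : ℕ} (hL : 0 < L) {k : ℕ → ℕ} (h : Cnt b ε L k) (θ : ℝ) :
    FS (tc b L k) θ ≤ ∑ t ∈ Fintype.piFinset (fun _ : Fin b => range (L + 1)),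
      GW b (wt L (fun c => (k c : ℝ) / L) (ext t)) 0 L θ := by
  have h1 := extract_norm L (by omega : 0 < b) k (h.le) (fun c => (k c : ℝ) / L) (fun c => by positivity) θ
  have h2 := size (by omega : 0 < b) hL h.sum
  have h3 : (0 : ℝ) < (tc b L k).card := by exact_mod_cast tc_pos (by omega) hL h
  refine le_trans ?_ h1
  unfold FS
  rw [div_le_iff₀ h3]
  have h4 : 0 ≤ ‖∑ x ∈ tc b L k, ee (x * θ)‖ := norm_nonneg _
  calc ‖∑ x ∈ tc b L k, ee (x * θ)‖ = 1 * ‖∑ x ∈ tc b L k, ee (x * θ)‖ := (one_mul _).symm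
    _ ≤ (((L + 1 : ℕ) : ℝ) ^ b * (∏ c ∈ range b, (((k c : ℝ) / L) ^ k c)) * (tc b L k).card) *
        ‖∑ x ∈ tc b L k, ee (x * θ)‖ := mul_le_mul_of_nonneg_right h2 h4
    _ = _ := by ring

lemma PS_le {b : ℕ} (hb : 2 ≤ b) {ε : ℝ} {L : ℕ} (hL : 0 < L) {k : ℕ → ℕ} (h : Cnt b ε L k) (e : ℕ) :
    PS (tc b L k) e ≤ ∑ t ∈ Fintype.piFinset (fun _ : Fin b => range (L + 1)),
      PG b (wt L (fun c => (k c : ℝ) / L) (ext t)) L e := by
  unfold PS PG
  rw [sum_comm]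
  exact sum_le_sum fun a _ => FS_le hb hL h _

/-- **Level of distribution of the integers with prescribed numbers of digits** -/
theorem lev_tc {b : ℕ} {ε : ℝ} (hb : 2 ≤ b) (hε : 0 < ε) (hε1 : ε ≤ 1) : ∃ u : ℕ, 1 ≤ u ∧ ∀ a : ℕ,
    ∃ C : ℝ, 0 < C ∧ ∃ L0 : ℕ, ∀ L : ℕ, L0 ≤ L → ∀ k : ℕ → ℕ, Cnt b ε L k →
    HP (b * (b - 1)) (b ^ (L / (2 * u))) (PS (tc b L k)) ≤ C / (L : ℝ) ^ a := by
  obtain ⟨u, hu, h⟩ := lev hb hε hε1
  refine ⟨u, hu, fun a => ?_⟩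
  obtain ⟨C, hC, L0, hL0⟩ := h (a + b)
  refine ⟨2 ^ b * C, by positivity, max L0 1, ?_⟩
  intro L hL k hk
  have hL1 : 1 ≤ L := (le_max_right _ _).trans hL
  have hLr : (1 : ℝ) ≤ L := by exact_mod_cast hL1
  have hLL0 : L0 ≤ L := (le_max_left _ _).trans hL
  have h1 : HP (b * (b - 1)) (b ^ (L / (2 * u))) (PS (tc b L k)) ≤
      ∑ t ∈ Fintype.piFinset (fun _ : Fin b => range (L + 1)),
        HP (b * (b - 1)) (b ^ (L / (2 * u))) (PG b (wt L (fun c => (k c : ℝ) / L) (ext t)) L) := by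
    unfold HP
    rw [sum_comm]
    apply sum_le_sum
    intro e _
    rw [← mul_sum]
    exact mul_le_mul_of_nonneg_left (PS_le hb (by omega) hk e) (Real.rpow_nonneg (Nat.cast_nonneg _) _)
  refine h1.trans ?_
  have h2 : ∀ t ∈ Fintype.piFinset (fun _ : Fin b => range (L + 1)),
      HP (b * (b - 1)) (b ^ (L / (2 * u))) (PG b (wt L (fun c => (k c : ℝ) / L) (ext t)) L) ≤
      C / (L : ℝ) ^ (a + b) := fun t _ => hL0 L hLL0 _ (ws_wt (by omega) hk _)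
  refine (sum_le_sum h2).trans ?_
  rw [sum_const, Fintype.card_piFinset]
  simp only [card_range, prod_const, card_univ, Fintype.card_fin, nsmul_eq_mul]
  have h3 : (((L + 1) ^ b : ℕ) : ℝ) ≤ 2 ^ b * (L : ℝ) ^ b := by
    push_cast
    rw [← mul_pow]
    apply pow_le_pow_left₀ (by positivity)
    linarith
  calc (((L + 1) ^ b : ℕ) : ℝ) * (C / (L : ℝ) ^ (a + b)) ≤ (2 ^ b * (L : ℝ) ^ b) * (C / (L : ℝ) ^ (a + b)) :=
        mul_le_mul_of_nonneg_right h3 (by positivity)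
    _ = _ := by rw [pow_add]; field_simp

end Pool.Agent.H679.DC
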