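import Pool.Agent.H679.DC.Sh
import Pool.Graph.R_seed8.H141R2.FS.Main1

/-!
# Four squares whose linear form `x + 2 y + 5 z` starts an almost prime quadruple and has a prescribed digit sum
-/

set_option autoImplicit false

namespace Pool.Agent.H679.DC

open Finset Filter

/-- `p = x + 2 y + 5 z` for a representation `n = x² + y² + z² + w²` with natural numbers -/
def Val (n p : ℕ) : Prop := ∃ x y z w : ℕ, n = x ^ 2 + y ^ 2 + z ^ 2 + w ^ 2 ∧ p = x + 2 * y + 5 * z

lemma val_le {n p : ℕ} (h : Val n p) : p ≤ 8 * n := by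
  obtain ⟨x, y, z, w, h1, h2⟩ := h
  have hx : x ≤ x ^ 2 := Nat.le_self_pow (by norm_num) x
  have hy : y ≤ y ^ 2 := Nat.le_self_pow (by norm_num) y
  have hz : z ≤ z ^ 2 := Nat.le_self_pow (by norm_num) z
  omega

lemma admq : ∀ p : ℕ, p.Prime → ∃ m : ℕ, ∀ h ∈ ({0, 2, 6, 12} : Finset ℕ), ¬ p ∣ m + h :=
  Pool.Agent.Y816.PD.adm2 {0, 2, 6, 12} 5 41 (by decide) (by decide) (by decide)

lemma s2_le {d A : ℕ} (h : A < 2 ^ d) : s2 A ≤ d := by
  rw [s2_eq d A h]
  exact dc_le _ _ _ _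

/-- the quadruple `p - 2, p, p + 4, p + 10` -/
def Quad (P : ℕ → Prop) (p : ℕ) : Prop := P (p - 2) ∧ P p ∧ P (p + 4) ∧ P (p + 10)

theorem four_sq (ε : ℝ) (hε : 0 < ε) (hε1 : ε ≤ 1) : ∃ r : ℕ, ∃ κ C : ℝ, 0 < κ ∧ 0 < C ∧
    ∀ᶠ n : ℕ in atTop, ¬ 4 ∣ n → ∀ K s : ℕ, K = Nat.log 2 (Nat.sqrt (30 * n)) + 1 → ε * K ≤ s → (s : ℝ) ≤ (1 - ε) * K →
      κ * K.choose s / (K : ℝ) ^ 4 ≤ (Set.ncard {p | Val n p ∧ s2 p = s ∧ 2 < p ∧ Quad (APr n r) p} : ℝ) ∧
      (Set.ncard {p | 29 * n ≤ p ^ 2 ∧ p ^ 2 ≤ 30 * n ∧ s2 p = s ∧ Quad Nat.Prime p} : ℝ) ≤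
        C * K.choose s / (K : ℝ) ^ 4 := by
  classical
  have hε2 : 0 < ε / 2 := by positivity
  have hcard : ({0, 2, 6, 12} : Finset ℕ).card = 4 := by decide
  obtain ⟨r1, hr1, κ, hκ, hlow⟩ := blk_lower hε2 (by linarith) {0, 2, 6, 12} (by rw [hcard]; norm_num) admq
    (by decide) 2
  obtain ⟨C, hC, hup⟩ := blk_upper hε2 (by linarith) {0, 2, 6, 12} (by rw [hcard]; norm_num) admq
  rw [hcard] at hlow hup
  obtain ⟨L0, hL0⟩ := eventually_atTop.1 (hlow.and hup)
  refine ⟨3 * r1, κ * (ε / 2) ^ 10, 512 * C * 16, by positivity, by positivity, ?_⟩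
  have hlog : Tendsto (fun n : ℕ => Nat.log 2 (Nat.sqrt (30 * n)) + 1) atTop atTop := by
    apply Filter.tendsto_atTop.2
    intro b
    filter_upwards [eventually_ge_atTop ((2 ^ b) ^ 2)] with n hn
    have h1 : 2 ^ b ≤ Nat.sqrt (30 * n) := Nat.le_sqrt'.2 (by omega)
    have h2 : b ≤ Nat.log 2 (Nat.sqrt (30 * n)) := (Nat.le_log_iff_pow_le (by norm_num) (by
      have : 0 < 2 ^ b := by positivity
      omega)).2 h1
    omega
  filter_upwards [hlog.eventually (eventually_ge_atTop (L0 + 40 + 3 * r1)),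
    (tendsto_natCast_atTop_atTop.comp hlog).eventually_ge_atTop (24 / ε)] with n hn1 hn2
  intro h4 K s hK hs1 hs2
  simp only [Function.comp] at hn2
  rw [← hK] at hn1 hn2
  have hn2' : 24 ≤ ε * K := by
    rw [div_le_iff₀ hε] at hn2
    linarith
  obtain ⟨S, hS⟩ : ∃ S, S = Nat.sqrt (30 * n) := ⟨_, rfl⟩
  rw [← hS] at hK
  have hS0 : S ≠ 0 := by
    rintro rfl
    simp at hK
    omega
  have hSlo : 2 ^ (K - 1) ≤ S := by
    have := Nat.pow_log_le_self 2 hS0
    rw [hK, Nat.add_sub_cancel]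
    exact this
  have hShi : S < 2 ^ K := by
    rw [hK]
    exact Nat.lt_pow_succ_log_self (by norm_num) S
  have hSn1 : S ^ 2 ≤ 30 * n := by rw [hS]; exact Nat.sqrt_le' _
  have hSn2 : 30 * n < (S + 1) ^ 2 := by rw [hS]; exact Nat.lt_succ_sqrt' _
  obtain ⟨L, hL⟩ : ∃ L, K = L + 10 := ⟨K - 10, by omega⟩
  obtain ⟨B, hB⟩ : ∃ B, B = 2 ^ (L + 1) := ⟨_, rfl⟩
  have hB1 : 2 ^ L * 2 = B := by rw [hB, pow_succ]
  have hSlo' : 256 * B ≤ S := by
    refine le_trans (le_of_eq ?_) hSlo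
    have : K - 1 = L + 1 + 8 := by omega
    rw [this, hB, pow_add]; ring
  have hShi' : S < 512 * B := by
    refine lt_of_lt_of_eq hShi ?_
    have : K = L + 1 + 9 := by omega
    rw [this, hB, pow_add]; ring
  have hBpos : 0 < B := by rw [hB]; positivity
  have hLbig : 1 ≤ 2 ^ L := Nat.one_le_two_pow
  have hKr : (K : ℝ) = L + 10 := by rw [hL]; push_cast; ring
  have hsK : s ≤ K := by
    have h1 : (s : ℝ) ≤ K := hs2.trans (by
      have : (0 : ℝ) ≤ K := Nat.cast_nonneg K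
      nlinarith)
    exact_mod_cast h1
  have hs12 : 12 ≤ s := by
    have h1 : (12 : ℝ) ≤ s := by linarith
    exact_mod_cast h1
  have hL30 : 30 ≤ L := by omega
  have hLpos : (0 : ℝ) < L := by
    have : 0 < L := by omega
    exact_mod_cast this
  -- the digit sum
  have hdig : ∀ A x : ℕ, x < 2 ^ L → s2 (B * A + (2 * x + 1)) = s2 A + (s2 x + 1) := by
    intro A x hx
    rw [hB, s2_split _ _ _ (by rw [← hB]; omega), s2_add (by norm_num)]
  have hrange : ∀ A : ℕ, A < 512 → 1 + s2 A ≤ 10 ∧ ε / 2 * L ≤ ((s - (1 + s2 A) : ℕ) : ℝ) ∧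
      ((s - (1 + s2 A) : ℕ) : ℝ) ≤ (1 - ε / 2) * L := by
    intro A hA
    have h1 : s2 A ≤ 9 := s2_le (d := 9) (by norm_num; exact hA)
    have h2 : ((s - (1 + s2 A) : ℕ) : ℝ) = s - (1 + s2 A) := by
      rw [Nat.cast_sub (by omega)]; push_cast; ring
    have h3 : (s2 A : ℝ) ≤ 9 := by exact_mod_cast h1
    have h4 : (0 : ℝ) ≤ s2 A := Nat.cast_nonneg _
    rw [hKr] at hs1 hs2 hn2'
    refine ⟨by omega, ?_, ?_⟩
    · rw [h2]; nlinarith
    · rw [h2]; nlinarith
  constructor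
  · obtain ⟨A, hA⟩ : ∃ A, S / B = A + 1 := ⟨S / B - 1, by
      have : 1 ≤ S / B := (Nat.one_le_div_iff hBpos).2 (by omega)
      omega⟩
    have hA1 : (A + 1) * B ≤ S := by rw [← hA]; exact Nat.div_mul_le_self S B
    have hA2 : S < (A + 2) * B := by
      have := Nat.lt_div_mul_add hBpos (a := S)
      rw [hA] at this
      calc S < (A + 1) * B + B := this
        _ = _ := by ring
    have hA512 : A < 512 := by
      by_contra hcon
      push Not at hcon
      have : 512 * B ≤ A * B := Nat.mul_le_mul_right B hcon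
      have : (A + 1) * B = A * B + B := by ring
      omega
    have hA1' : 1 ≤ A := by
      by_contra hcon
      have : A = 0 := by omega
      subst this
      omega
    obtain ⟨he, hk1, hk2⟩ := hrange A hA512
    have hAB : B ≤ B * A := Nat.le_mul_of_pos_right B (by omega)
    have hev : Even (B * A) := by rw [← hB1]; exact ⟨2 ^ L * A, by ring⟩
    have h3 := (hL0 L (by omega)).1 (s - (1 + s2 A)) (B * A - 1) hk1 hk2 (by
      have h5 : (A + 1) * B = B * A + B := by ring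
      have h6 : S < 2 ^ (2 * L) := hShi.trans_le (Nat.pow_le_pow_right (by norm_num) (by omega))
      omega) (by
      obtain ⟨q, hq⟩ := hev
      exact ⟨q - 1, by omega⟩)
    have hbin := choose_drop hε2 10 K s (1 + s2 A) he (by push_cast; linarith) (by push_cast; nlinarith)
    have hKL : K - 10 = L := by omega
    rw [hKL] at hbin
    obtain ⟨T, hT⟩ : ∃ T, T = (range (2 ^ L)).filter (fun x => s2 x = s - (1 + s2 A) ∧
        ∀ h ∈ ({0, 2, 6, 12} : Finset ℕ), (∀ p : ℕ, p.Prime → p ∣ 2 * x + (B * A - 1) + h → 2 ^ L < p ^ r1) ∧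
          (2 * x + (B * A - 1) + h).primeFactorsList.length ≤ r1) := ⟨_, rfl⟩
    rw [← hT] at h3
    have hsub : ((T.image (fun x => B * A + (2 * x + 1)) : Finset ℕ) : Set ℕ) ⊆
        {p | Val n p ∧ s2 p = s ∧ 2 < p ∧ Quad (APr n (3 * r1)) p} := by
      intro p hp
      rw [mem_coe, mem_image] at hp
      obtain ⟨x, hx, rfl⟩ := hp
      rw [hT, mem_filter, mem_range] at hx
      obtain ⟨hx1, hx2, hx3⟩ := hx
      obtain ⟨p, hp⟩ : ∃ p, p = B * A + (2 * x + 1) := ⟨_, rfl⟩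
      rw [← hp]
      have e0 : 2 * x + (B * A - 1) + 0 = p - 2 := by omega
      have e2 : 2 * x + (B * A - 1) + 2 = p := by omega
      have e6 : 2 * x + (B * A - 1) + 6 = p + 4 := by omega
      have e12 : 2 * x + (B * A - 1) + 12 = p + 10 := by omega
      have k0 := hx3 0 (by decide)
      have k2 := hx3 2 (by decide)
      have k6 := hx3 6 (by decide)
      have k12 := hx3 12 (by decide)
      rw [e0] at k0
      rw [e2] at k2
      rw [e6] at k6
      rw [e12] at k12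
      have hAB2 : (A + 1) * B = B * A + B := by ring
      have hAB3 : (A + 2) * B = B * A + 2 * B := by ring
      have hpS : p ≤ S := by omega
      have hpS2 : 127 * S ≤ 128 * p := by omega
      have hn22 : n < 2 ^ (2 * K) := by
        have h5 : (S + 1) ^ 2 ≤ (2 ^ K) ^ 2 := Nat.pow_le_pow_left hShi 2
        have h6 : (2 ^ K) ^ 2 = 2 ^ (2 * K) := by rw [← pow_mul]; congr 1; ring
        omega
      have hap : ∀ m : ℕ, ((∀ p : ℕ, p.Prime → p ∣ m → 2 ^ L < p ^ r1) ∧ m.primeFactorsList.length ≤ r1) →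
          APr n (3 * r1) m := by
        rintro m ⟨g1, g2⟩
        refine ⟨fun q hq hd => ?_, by omega⟩
        have g3 := g1 q hq hd
        calc n < 2 ^ (2 * K) := hn22
          _ ≤ 2 ^ (L * 3) := Nat.pow_le_pow_right (by norm_num) (by omega)
          _ = (2 ^ L) ^ 3 := pow_mul _ _ _
          _ ≤ (q ^ r1) ^ 3 := Nat.pow_le_pow_left g3.le 3
          _ = q ^ (3 * r1) := by rw [← pow_mul]; congr 1; ring
      have hcop : Nat.Coprime p 30 := by
        have h30 : (30 : ℕ) = 2 * (3 * 5) := by norm_num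
        have hsmall : ∀ q : ℕ, q.Prime → q ≤ 8 → Nat.Coprime p q := by
          intro q hq hq8
          refine (Nat.coprime_comm).1 ((hq.coprime_iff_not_dvd).2 fun hd => ?_)
          have g3 := k2.1 q hq hd
          have g4 : q ^ r1 ≤ 2 ^ (3 * r1) := by
            calc q ^ r1 ≤ 8 ^ r1 := Nat.pow_le_pow_left hq8 _
              _ = (2 ^ 3) ^ r1 := by norm_num
              _ = _ := by rw [← pow_mul]
          have g5 : 2 ^ (3 * r1) ≤ 2 ^ L := Nat.pow_le_pow_right (by norm_num) (by omega)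
          omega
        rw [h30]
        exact Nat.Coprime.mul_right (hsmall 2 (by norm_num) (by norm_num))
          (Nat.Coprime.mul_right (hsmall 3 (by norm_num) (by norm_num)) (hsmall 5 (by norm_num) (by norm_num)))
      have hp30 : p ^ 2 ≤ 30 * n := (Nat.pow_le_pow_left hpS 2).trans hSn1
      have hp29 : 29 * n ≤ p ^ 2 := by
        have hS1000 : 1000 ≤ S := by
          have : 2 ^ 10 ≤ B := by rw [hB]; exact Nat.pow_le_pow_right (by norm_num) (by omega)
          omega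
        have g1 : 16129 * S ^ 2 ≤ 16384 * p ^ 2 := by nlinarith
        have g2 : 475136 * (S + 1) ^ 2 ≤ 483870 * S ^ 2 := by nlinarith
        omega
      obtain ⟨X, Y, Z, W, hv1, hv2⟩ := Pool.Agent.H141R2.FS.rep h4 hcop hp29 hp30
      refine ⟨⟨X, Y, Z, W, hv1, hv2.symm⟩, ?_, by omega, hap _ k0, hap _ k2, hap _ k6, hap _ k12⟩
      rw [hp, hdig A x hx1, hx2]
      omega
    have hfin : {p | Val n p ∧ s2 p = s ∧ 2 < p ∧ Quad (APr n (3 * r1)) p}.Finite :=
      (finite_toSet (range (8 * n + 1))).subset (fun p hp => by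
        rw [mem_coe, mem_range]
        have := val_le hp.1
        omega)
    have hle := Set.ncard_le_ncard hsub hfin
    rw [Set.ncard_coe_finset, card_image_of_injective _ (fun x y h => by
      have h' : B * A + (2 * x + 1) = B * A + (2 * y + 1) := h
      omega)] at hle
    have hle' : (T.card : ℝ) ≤ _ := Nat.cast_le.2 hle
    refine le_trans ?_ (h3.trans hle')
    have h5 : (L : ℝ) ^ 4 ≤ (K : ℝ) ^ 4 := by
      apply pow_le_pow_left₀ hLpos.le
      rw [hKr]; linarith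
    calc κ * (ε / 2) ^ 10 * (K.choose s) / (K : ℝ) ^ 4 = κ * ((K.choose s : ℝ) * (ε / 2) ^ 10) / (K : ℝ) ^ 4 := by ring
      _ ≤ κ * (L.choose (s - (1 + s2 A)) : ℝ) / (K : ℝ) ^ 4 := by gcongr
      _ ≤ κ * (L.choose (s - (1 + s2 A)) : ℝ) / (L : ℝ) ^ 4 := by gcongr
  · -- upper bound
    obtain ⟨R, hR⟩ : ∃ R : ℕ, R = 511 := ⟨_, rfl⟩
    obtain ⟨T, hT⟩ : ∃ T : ℕ → Finset ℕ, T = fun A => ((range (2 ^ L)).filter (fun x => s2 x = s - (1 + s2 A) ∧
        ∀ h ∈ ({0, 2, 6, 12} : Finset ℕ), (2 * x + (B * A - 1) + h).Prime)) := ⟨_, rfl⟩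
    have hsub : {p | 29 * n ≤ p ^ 2 ∧ p ^ 2 ≤ 30 * n ∧ s2 p = s ∧ Quad Nat.Prime p} ⊆
        (((range R).biUnion (fun A => (T (A + 1)).image (fun x => B * (A + 1) + (2 * x + 1))) : Finset ℕ) : Set ℕ) := by
      rintro p ⟨hp1, hp2, hp3, hp4, hp5, hp6, hp7⟩
      have hpS : p ≤ S := by rw [hS]; exact Nat.le_sqrt'.2 hp2
      have hpB : B ≤ p := by
        by_contra hcon
        push Not at hcon
        have g1 : p ^ 2 ≤ B ^ 2 := Nat.pow_le_pow_left hcon.le 2
        have g2 : (256 * B) ^ 2 ≤ S ^ 2 := Nat.pow_le_pow_left hSlo' 2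
        have g3 : (256 * B) ^ 2 = 65536 * B ^ 2 := by ring
        have g4 : 0 < B ^ 2 := by positivity
        omega
      have hodd : p % 2 = 1 := by
        rcases hp5.eq_two_or_odd with h | h
        · exfalso
          rw [h] at hp4
          exact absurd hp4 (by norm_num)
        · exact h
      obtain ⟨A, hA⟩ : ∃ A, p / B = A + 1 := ⟨p / B - 1, by
        have : 1 ≤ p / B := (Nat.one_le_div_iff hBpos).2 hpB
        omega⟩
      have hA512 : A + 1 < 512 := by
        rw [← hA, Nat.div_lt_iff_lt_mul hBpos]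
        omega
      have hdm := Nat.div_add_mod p B
      rw [hA] at hdm
      have hmlt := Nat.mod_lt p hBpos
      have hB2 : B = 2 * 2 ^ L := by omega
      have hmod2 : p % B % 2 = 1 := by
        rw [Nat.mod_mod_of_dvd p ⟨2 ^ L, hB2⟩, hodd]
      obtain ⟨x, hx⟩ : ∃ x, p % B = 2 * x + 1 := ⟨p % B / 2, by omega⟩
      rw [hx] at hdm hmlt
      have hxL : x < 2 ^ L := by omega
      rw [mem_coe, mem_biUnion]
      refine ⟨A, by rw [mem_range]; omega, ?_⟩
      rw [mem_image]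
      refine ⟨x, ?_, hdm⟩
      have hds := hdig (A + 1) x hxL
      rw [hdm, hp3] at hds
      have hAB : B ≤ B * (A + 1) := Nat.le_mul_of_pos_right B (by omega)
      rw [hT]
      dsimp only
      rw [mem_filter, mem_range]
      refine ⟨hxL, by omega, fun h hh => ?_⟩
      have e0 : 2 * x + (B * (A + 1) - 1) + 0 = p - 2 := by omega
      have e2 : 2 * x + (B * (A + 1) - 1) + 2 = p := by omega
      have e6 : 2 * x + (B * (A + 1) - 1) + 6 = p + 4 := by omega
      have e12 : 2 * x + (B * (A + 1) - 1) + 12 = p + 10 := by omega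
      rw [mem_insert, mem_insert, mem_insert, mem_singleton] at hh
      rcases hh with rfl | rfl | rfl | rfl
      · rw [e0]; exact hp4
      · rw [e2]; exact hp5
      · rw [e6]; exact hp6
      · rw [e12]; exact hp7
    have hle := Set.ncard_le_ncard hsub (finite_toSet _)
    rw [Set.ncard_coe_finset] at hle
    have hle2 : (((range R).biUnion (fun A => (T (A + 1)).image (fun x => B * (A + 1) + (2 * x + 1)))).card : ℝ) ≤
        ∑ A ∈ range R, C * (K.choose s) / (L : ℝ) ^ 4 := by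
      refine (Nat.cast_le.2 card_biUnion_le).trans ?_
      rw [Nat.cast_sum]
      apply sum_le_sum
      intro A hA
      rw [mem_range] at hA
      refine (Nat.cast_le.2 card_image_le).trans ?_
      obtain ⟨he, hk1, hk2⟩ := hrange (A + 1) (by omega)
      have hAB : B ≤ B * (A + 1) := Nat.le_mul_of_pos_right B (by omega)
      have h3 := (hL0 L (by omega)).2 (s - (1 + s2 (A + 1))) (B * (A + 1) - 1) hk1 hk2 (by
        have : 2 ^ 1 ≤ 2 ^ L := Nat.pow_le_pow_right (by norm_num) (by omega)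
        omega)
      rw [hT]
      refine h3.trans ?_
      have h5 := choose_add L (s - (1 + s2 (A + 1))) 10 (1 + s2 (A + 1)) he
      have h6 : s - (1 + s2 (A + 1)) + (1 + s2 (A + 1)) = s := by omega
      rw [h6, ← hL] at h5
      have h7 : ((L.choose (s - (1 + s2 (A + 1))) : ℕ) : ℝ) ≤ (K.choose s : ℕ) := by exact_mod_cast h5
      gcongr
    rw [sum_const, card_range, nsmul_eq_mul] at hle2
    have hle1 : (Set.ncard {p | 29 * n ≤ p ^ 2 ∧ p ^ 2 ≤ 30 * n ∧ s2 p = s ∧ Quad Nat.Prime p} : ℝ) ≤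
      (((range R).biUnion (fun A => (T (A + 1)).image (fun x => B * (A + 1) + (2 * x + 1)))).card : ℝ) := Nat.cast_le.2 hle
    refine hle1.trans (hle2.trans ?_)
    have hKL : (K : ℝ) ≤ 2 * L := by
      rw [hKr]
      have : (10 : ℝ) ≤ L := by exact_mod_cast (by omega : 10 ≤ L)
      linarith
    have hKpos : (0 : ℝ) < K := by rw [hKr]; linarith
    have h8 : (K : ℝ) ^ 4 ≤ 16 * (L : ℝ) ^ 4 := by
      calc (K : ℝ) ^ 4 ≤ (2 * L) ^ 4 := pow_le_pow_left₀ hKpos.le hKL 4
        _ = _ := by ring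
    have hL4 : (0 : ℝ) < (L : ℝ) ^ 4 := by positivity
    have h9 : 1 / (L : ℝ) ^ 4 ≤ 16 / (K : ℝ) ^ 4 := by
      rw [div_le_div_iff₀ hL4 (by positivity)]
      linarith
    have hRr : (R : ℝ) ≤ 512 := by rw [hR]; norm_num
    calc (R : ℝ) * (C * (K.choose s) / (L : ℝ) ^ 4) ≤ 512 * (C * (K.choose s) / (L : ℝ) ^ 4) := by
          gcongr
      _ = 512 * C * (K.choose s) * (1 / (L : ℝ) ^ 4) := by ring
      _ ≤ 512 * C * (K.choose s) * (16 / (K : ℝ) ^ 4) := mul_le_mul_of_nonneg_left h9 (by positivity)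
      _ = _ := by ring

end Pool.Agent.H679.DC
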