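import Pool.Graph.R_seed8.Y816.PD.BH
import Pool.Graph.R_seed8.Y816.PD.Comb
import Pool.Graph.R_seed8.H373R2.T7.SysCount

/-!
# The sieve for a finite set of integers with a controlled Fourier transform
(after `Pool.Agent.Y816.PD.sv`)
-/

set_option autoImplicit false

namespace Pool.Agent.H679.DC

open Finset Pool.Agent.H373R2.T7 Pool.Agent.H410R2.ED Pool.Agent.Helper112.LP
open Pool.Agent.Helper112.LP.Kba Pool.Agent.Helper112.LP.Kbh Pool.Agent.H483R2.BHKD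
open Pool.Agent.Y816.PD

/-- the set `S` is equidistributed modulo the `q` prime to `B`, with errors given by `P` -/
structure Dst (B : ℕ) (S : Finset ℕ) (X : ℝ) (P : ℕ → ℝ) : Prop where
  pos : 0 ≤ X
  nonneg : ∀ e, 0 ≤ P e
  cls : ∀ q h : ℕ, 0 < q → q.Coprime B →
    |((S.filter (fun n => n % q = h % q)).card : ℝ) - X / q| ≤ X / q * ∑ e ∈ q.divisors.erase 1, P e

/-- the weighted sum of the errors -/
noncomputable def HP (B Y : ℕ) (P : ℕ → ℝ) : ℝ :=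
  ∑ e ∈ (Icc 2 Y).filter (fun e => e.Coprime B), (e : ℝ) ^ (-(3 / 4 : ℝ)) * P e

lemma HP_nonneg (B Y : ℕ) (P : ℕ → ℝ) (hP : ∀ e, 0 ≤ P e) : 0 ≤ HP B Y P :=
  sum_nonneg fun _ _ => mul_nonneg (Real.rpow_nonneg (Nat.cast_nonneg _) _) (hP _)

/-- the sum of the errors over the divisors `> 1` -/
noncomputable def UP (P : ℕ → ℝ) (q : ℕ) : ℝ := ∑ e ∈ q.divisors.erase 1, P e

lemma UP_nonneg (P : ℕ → ℝ) (hP : ∀ e, 0 ≤ P e) (q : ℕ) : 0 ≤ UP P q :=
  sum_nonneg fun _ _ => hP _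

open Classical in
/-- the local count -/
lemma local_count {B : ℕ} {S : Finset ℕ} {X : ℝ} {P : ℕ → ℝ} (hS : Dst B S X P) (M n0 : ℕ) (hM : 0 < M)
    (hMB : M.Coprime B)
    (Q : ℕ → ℕ → Prop) (hper : ∀ p n, Q p n ↔ Q p (n % p)) (D : Finset ℕ) (hD : ∀ l ∈ D, l.Prime)
    (hDM : ∀ l ∈ D, ¬ l ∣ M) (hDB : ∀ l ∈ D, ¬ l ∣ B) :
    |((S.filter (fun n => n % M = n0 % M ∧ ∀ l ∈ D, Q l n)).card : ℝ) -
      X / M * ∏ l ∈ D, ((nuB Q l : ℝ) / l)| ≤
      X / M * (∏ l ∈ D, ((nuB Q l : ℝ) / l)) * UP P (M * ∏ l ∈ D, l) := by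
  obtain ⟨x, hx⟩ : ∃ x, x = M * ∏ l ∈ D, l := ⟨_, rfl⟩
  have hx0 : 0 < x := by
    rw [hx]
    exact Nat.mul_pos hM (prod_pos fun l' h => (hD l' h).pos)
  obtain ⟨T, hT⟩ : ∃ T, T = (range x).filter (fun h => h % M = n0 % M ∧ ∀ l ∈ D, Q l (h % l)) := ⟨_, rfl⟩
  have hTc : T.card = ∏ l ∈ D, nuB Q l := by
    rw [hT, hx, crt_card Q M n0 hM D hD hDM]
    rfl
  have hMx : M ∣ x := ⟨_, hx⟩
  have hDx : ∀ l' ∈ D, l' ∣ x := fun l' h => by
    rw [hx]
    exact (dvd_prod_of_mem (fun l => l) h).mul_left _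
  have hxB : x.Coprime B := by
    rw [hx]
    apply Nat.Coprime.mul_left hMB
    apply Nat.Coprime.prod_left
    intro l hl
    exact ((hD l hl).coprime_iff_not_dvd).2 (hDB l hl)
  have hmaps : ∀ n ∈ S.filter (fun n => n % M = n0 % M ∧ ∀ l ∈ D, Q l n), n % x ∈ T := by
    intro n hn
    rw [mem_filter] at hn
    rw [hT, mem_filter, mem_range]
    refine ⟨Nat.mod_lt _ hx0, ?_, ?_⟩
    · rw [Nat.mod_mod_of_dvd _ hMx]
      exact hn.2.1
    · intro l hl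
      rw [Nat.mod_mod_of_dvd _ (hDx l hl), ← hper]
      exact hn.2.2 l hl
  have h1 : ((S.filter (fun n => n % M = n0 % M ∧ ∀ l ∈ D, Q l n)).card : ℝ) =
      ∑ h ∈ T, ((S.filter (fun n => n % x = h % x)).card : ℝ) := by
    rw [card_eq_sum_card_fiberwise hmaps]
    push_cast
    apply sum_congr rfl
    intro h hh
    rw [hT, mem_filter, mem_range] at hh
    rw [filter_filter]
    congr 2
    apply filter_congr
    intro n _
    rw [Nat.mod_eq_of_lt hh.1]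
    constructor
    · exact fun h6 => h6.2
    · intro h6
      refine ⟨⟨?_, ?_⟩, h6⟩
      · rw [← Nat.mod_mod_of_dvd n hMx, h6]
        exact hh.2.1
      · intro l hl
        rw [hper, ← Nat.mod_mod_of_dvd n (hDx l hl), h6]
        exact hh.2.2 l hl
  have h2 : X / M * ∏ l ∈ D, ((nuB Q l : ℝ) / l) = ∑ h ∈ T, X / x := by
    rw [sum_const, nsmul_eq_mul, hTc, hx, prod_div_distrib]
    push_cast
    field_simp
  rw [h1, h2, ← sum_sub_distrib, sum_mul]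
  refine (abs_sum_le_sum_abs _ _).trans (sum_le_sum fun h _ => ?_)
  rw [← hx]
  exact hS.cls x h hx0 hxB

/-- the sum of the errors -/
lemma err_sum (κ : ℕ) (hκ : 1 ≤ κ) {b : ℕ} (M : ℕ) (hM : 0 < M) (hMb : M.Coprime b)
    (J Y Y' : ℕ) (X : ℝ) (hX : 0 ≤ X) (P : ℕ → ℝ) (hP : ∀ e, 0 ≤ P e) (hY : M * Y ≤ Y') :
    ∑ D ∈ (Pr κ J).powerset.filter (fun D => ∏ l ∈ D, l ≤ Y),
      (if ∀ l ∈ D, ¬ l ∣ b then X / M * Wt (fun l => (κ : ℝ) / l) D *
        UP P (M * ∏ l ∈ D, l) else 0) ≤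
      (κ : ℝ) ^ (κ ^ 4) * M * X * (∏ l ∈ Pr κ J, (1 + (κ : ℝ) / l)) * HP b Y' P := by
  classical
  have hPp : ∀ l ∈ Pr κ J, l.Prime := fun l hl => (mem_filter.1 hl).2.1
  have hκ1 : (1 : ℝ) ≤ κ := by exact_mod_cast hκ
  have hM1 : (1 : ℝ) ≤ M := by exact_mod_cast hM
  obtain ⟨h, hh⟩ : ∃ h : ℕ → ℝ, h = fun l : ℕ => (κ : ℝ) / l := ⟨_, rfl⟩
  have hh0 : ∀ l, 0 ≤ h l := fun l => by rw [hh]; positivity
  have hW0 : ∀ D, 0 ≤ Wt h D := fun D => prod_nonneg fun l _ => hh0 l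
  obtain ⟨F, hF⟩ : ∃ F : ℕ → ℝ, F = fun e => if e = 1 then 0 else P e := ⟨_, rfl⟩
  have hF0 : ∀ e, 0 ≤ F e := fun e => by
    rw [hF]
    simp only
    split_ifs
    · exact le_rfl
    · exact hP _
  have hUF : ∀ q, 0 < q → UP P q = ∑ e ∈ q.divisors, F e := by
    intro q hq
    unfold UP
    rw [← add_sum_erase _ _ (Nat.one_mem_divisors.2 hq.ne'), hF]
    simp only [if_true, zero_add]
    apply sum_congr rfl
    intro e he
    rw [if_neg (ne_of_mem_erase he)]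
  obtain ⟨φ, hφ⟩ : ∃ φ : Finset ℕ → ℝ, φ = fun D' => if (∏ l ∈ D', l ≤ Y ∧ ∀ l ∈ D', ¬ l ∣ b) then
    ∑ u ∈ M.divisors, F (u * ∏ l ∈ D', l) else 0 := ⟨_, rfl⟩
  have hφ0 : ∀ D, 0 ≤ φ D := fun D => by
    rw [hφ]
    simp only
    split_ifs
    · exact sum_nonneg fun _ _ => hF0 _
    · exact le_rfl
  rw [← hh]
  have hZ0 : 0 ≤ ∏ l ∈ Pr κ J, (1 + h l) := prod_nonneg fun l _ => by have := hh0 l; linarith
  -- reduction to a convolution
  have h1 : ∀ D ∈ (Pr κ J).powerset.filter (fun D => ∏ l ∈ D, l ≤ Y),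
      (if ∀ l ∈ D, ¬ l ∣ b then X / M * Wt h D * UP P (M * ∏ l ∈ D, l) else 0) ≤
      X / M * (Wt h D * ∑ D' ∈ D.powerset, φ D') := by
    intro D hD
    rw [mem_filter, mem_powerset] at hD
    split_ifs with hDb
    · rw [mul_assoc]
      apply mul_le_mul_of_nonneg_left _ (by positivity)
      apply mul_le_mul_of_nonneg_left _ (hW0 D)
      have hDp : ∀ l ∈ D, l.Prime := fun l hl => hPp l (hD.1 hl)
      rw [hUF _ (Nat.mul_pos hM (prod_pos fun l' h => (hDp l' h).pos))]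
      refine (div_sum_le M hM D hDp F hF0).trans ?_
      rw [sum_comm]
      apply sum_le_sum
      intro D' hD'
      rw [mem_powerset] at hD'
      rw [hφ]
      simp only
      rw [if_pos]
      refine ⟨le_trans ?_ hD.2, fun l hl => hDb l (hD' hl)⟩
      exact Nat.le_of_dvd (prod_pos fun l' h => (hDp l' h).pos) (prod_dvd_prod_of_subset _ _ _ hD')
    · exact mul_nonneg (by positivity) (mul_nonneg (hW0 D) (sum_nonneg fun _ _ => hφ0 _))
  have h2 : ∑ D ∈ (Pr κ J).powerset.filter (fun D => ∏ l ∈ D, l ≤ Y),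
      (if ∀ l ∈ D, ¬ l ∣ b then X / M * Wt h D * UP P (M * ∏ l ∈ D, l) else 0) ≤
      X / M * ((∏ l ∈ Pr κ J, (1 + h l)) * ∑ D' ∈ (Pr κ J).powerset, Wt h D' * φ D') := by
    refine (sum_le_sum h1).trans ?_
    rw [← mul_sum]
    apply mul_le_mul_of_nonneg_left _ (by positivity)
    refine le_trans ?_ (conv_le (Pr κ J) h hh0 φ hφ0)
    apply sum_le_sum_of_subset_of_nonneg (filter_subset _ _)
    intro D _ _
    exact mul_nonneg (hW0 D) (sum_nonneg fun _ _ => hφ0 _)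
  -- the main sum
  have h3 : ∀ u ∈ M.divisors, ∑ D' ∈ (Pr κ J).powerset, (if (∏ l ∈ D', l ≤ Y ∧ ∀ l ∈ D', ¬ l ∣ b) then
      Wt h D' * F (u * ∏ l ∈ D', l) else 0) ≤ (κ : ℝ) ^ (κ ^ 4) * M * HP b Y' P := by
    intro u hu
    rw [Nat.mem_divisors] at hu
    have hu0 : 0 < u := Nat.pos_of_dvd_of_pos hu.1 hM
    have hur : (1 : ℝ) ≤ u := by exact_mod_cast hu0
    have huM : (u : ℝ) ≤ M := by exact_mod_cast Nat.le_of_dvd hM hu.1
    obtain ⟨R, hR⟩ : ∃ R, R = (Pr κ J).powerset.filter (fun D' =>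
      (∏ l ∈ D', l ≤ Y ∧ ∀ l ∈ D', ¬ l ∣ b) ∧ u * ∏ l ∈ D', l ≠ 1) := ⟨_, rfl⟩
    have h4 : ∑ D' ∈ (Pr κ J).powerset, (if (∏ l ∈ D', l ≤ Y ∧ ∀ l ∈ D', ¬ l ∣ b) then
        Wt h D' * F (u * ∏ l ∈ D', l) else 0) = ∑ D' ∈ R, Wt h D' * F (u * ∏ l ∈ D', l) := by
      rw [hR, sum_filter]
      apply sum_congr rfl
      intro D' _
      by_cases h5 : (∏ l ∈ D', l ≤ Y ∧ ∀ l ∈ D', ¬ l ∣ b)
      · by_cases h6 : u * ∏ l ∈ D', l = 1
        · rw [if_pos h5, if_neg (fun h7 => h7.2 h6), h6, hF]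
          simp
        · rw [if_pos h5, if_pos ⟨h5, h6⟩]
      · rw [if_neg h5, if_neg (fun h7 => h5 h7.1)]
    rw [h4]
    have hRp : ∀ D' ∈ R, ∀ l ∈ D', l.Prime := by
      intro D' hD' l hl
      rw [hR, mem_filter, mem_powerset] at hD'
      exact hPp l (hD'.1 hl)
    have h5 : ∀ D' ∈ R, Wt h D' * F (u * ∏ l ∈ D', l) ≤ (κ : ℝ) ^ (κ ^ 4) * M *
        (((u * ∏ l ∈ D', l : ℕ) : ℝ) ^ (-(3 / 4 : ℝ)) * P (u * ∏ l ∈ D', l)) := by
      intro D' hD'
      have hp := hRp D' hD'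
      have hq0 : 0 < ∏ l ∈ D', l := prod_pos fun l' h => (hp l' h).pos
      obtain ⟨q, hq⟩ : ∃ q, q = ∏ l ∈ D', l := ⟨_, rfl⟩
      rw [← hq] at hq0
      have hqr : (0 : ℝ) < q := by exact_mod_cast hq0
      rw [hR, mem_filter] at hD'
      rw [← hq]
      rw [← hq] at hD'
      have h6 : F (u * q) = P (u * q) := by
        rw [hF]
        simp only
        rw [if_neg hD'.2.2]
      rw [h6, ← mul_assoc]
      apply mul_le_mul_of_nonneg_right _ (hP _)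
      have h7 : Wt h D' = (κ : ℝ) ^ D'.card / q := by
        unfold Wt
        rw [hh, hq]
        simp only
        rw [prod_div_distrib, prod_const]
        push_cast
        rfl
      rw [h7, div_le_iff₀ hqr]
      have h8 := pow_card_le κ hκ D' (fun l hl => (hp l hl).one_lt.le)
      rw [← hq] at h8
      refine h8.trans ?_
      have h9 : ((u * q : ℕ) : ℝ) ^ (-(3 / 4 : ℝ)) = (u : ℝ) ^ (-(3 / 4 : ℝ)) * (q : ℝ) ^ (-(3 / 4 : ℝ)) := by
        push_cast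
        rw [Real.mul_rpow (by linarith) hqr.le]
      have h10 : (q : ℝ) ^ (1 / 4 : ℝ) = (q : ℝ) ^ (-(3 / 4 : ℝ)) * q := by
        nth_rewrite 3 [← Real.rpow_one (q : ℝ)]
        rw [← Real.rpow_add hqr]
        norm_num
      have h11 : (1 : ℝ) ≤ M * (u : ℝ) ^ (-(3 / 4 : ℝ)) := by
        have h12 : (u : ℝ) ^ (-(3 / 4 : ℝ)) * (u : ℝ) ^ (3 / 4 : ℝ) = 1 := by
          rw [← Real.rpow_add (by linarith)]
          norm_num
        have h13 : (u : ℝ) ^ (3 / 4 : ℝ) ≤ M := by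
          refine le_trans ?_ huM
          calc (u : ℝ) ^ (3 / 4 : ℝ) ≤ (u : ℝ) ^ (1 : ℝ) :=
                Real.rpow_le_rpow_of_exponent_le hur (by norm_num)
            _ = u := Real.rpow_one _
        rw [← h12, mul_comm (M : ℝ)]
        exact mul_le_mul_of_nonneg_left h13 (by positivity)
      rw [h9, h10]
      calc (κ : ℝ) ^ (κ ^ 4) * ((q : ℝ) ^ (-(3 / 4 : ℝ)) * q) =
          ((κ : ℝ) ^ (κ ^ 4) * ((q : ℝ) ^ (-(3 / 4 : ℝ)) * q)) * 1 := (mul_one _).symm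
        _ ≤ ((κ : ℝ) ^ (κ ^ 4) * ((q : ℝ) ^ (-(3 / 4 : ℝ)) * q)) * (M * (u : ℝ) ^ (-(3 / 4 : ℝ))) :=
            mul_le_mul_of_nonneg_left h11 (by positivity)
        _ = _ := by ring
    refine (sum_le_sum h5).trans ?_
    rw [← mul_sum]
    apply mul_le_mul_of_nonneg_left _ (by positivity)
    have hinj : Set.InjOn (fun D' : Finset ℕ => u * ∏ l ∈ D', l) (R : Set (Finset ℕ)) := by
      intro D' hD' D'' hD'' heq
      simp only at heq
      have h6 := Nat.eq_of_mul_eq_mul_left hu0 heq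
      rw [← Nat.primeFactors_prod (hRp D' hD'), ← Nat.primeFactors_prod (hRp D'' hD''), h6]
    rw [← sum_image (f := fun e : ℕ => (e : ℝ) ^ (-(3 / 4 : ℝ)) * P e) hinj]
    unfold HP
    apply sum_le_sum_of_subset_of_nonneg
    · intro e he
      obtain ⟨D', hD', rfl⟩ := mem_image.1 he
      have hp := hRp D' hD'
      rw [hR, mem_filter] at hD'
      have hq0 : 0 < ∏ l ∈ D', l := prod_pos fun l' h => (hp l' h).pos
      rw [mem_filter, mem_Icc]
      refine ⟨⟨?_, ?_⟩, ?_⟩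
      · have h6 := Nat.mul_pos hu0 hq0
        have h7 := hD'.2.2
        omega
      · refine le_trans ?_ hY
        exact Nat.mul_le_mul (Nat.le_of_dvd hM hu.1) hD'.2.1.1
      · apply Nat.Coprime.mul_left (Nat.Coprime.coprime_dvd_left hu.1 hMb)
        apply Nat.Coprime.prod_left
        intro l hl
        exact ((hp l hl).coprime_iff_not_dvd).2 (hD'.2.1.2 l hl)
    · intro e _ _
      exact mul_nonneg (Real.rpow_nonneg (Nat.cast_nonneg _) _) (hP _)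
  have h6 : ∑ D' ∈ (Pr κ J).powerset, Wt h D' * φ D' ≤ M * ((κ : ℝ) ^ (κ ^ 4) * M * HP b Y' P) := by
    have h7 : ∑ D' ∈ (Pr κ J).powerset, Wt h D' * φ D' = ∑ u ∈ M.divisors, ∑ D' ∈ (Pr κ J).powerset,
        (if (∏ l ∈ D', l ≤ Y ∧ ∀ l ∈ D', ¬ l ∣ b) then Wt h D' * F (u * ∏ l ∈ D', l) else 0) := by
      rw [sum_comm]
      apply sum_congr rfl
      intro D' _
      rw [hφ]
      simp only
      split_ifs
      · rw [mul_sum]
      · simp
    rw [h7]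
    refine (sum_le_sum h3).trans ?_
    rw [sum_const, nsmul_eq_mul]
    apply mul_le_mul_of_nonneg_right
    · exact_mod_cast Nat.card_divisors_le_self M
    · exact mul_nonneg (by positivity) (HP_nonneg _ _ _ hP)
  refine h2.trans ?_
  calc X / M * ((∏ l ∈ Pr κ J, (1 + h l)) * ∑ D' ∈ (Pr κ J).powerset, Wt h D' * φ D') ≤
      X / M * ((∏ l ∈ Pr κ J, (1 + h l)) * (M * ((κ : ℝ) ^ (κ ^ 4) * M * HP b Y' P))) := by
        apply mul_le_mul_of_nonneg_left _ (by positivity)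
        exact mul_le_mul_of_nonneg_left h6 hZ0
    _ = _ := by
        rw [hh]
        field_simp

/-- the product of the `1 + κ / l` is a small power of a logarithm -/
lemma Z_le (κ : ℕ) : ∃ n1 : ℕ, ∀ J : ℕ, ∏ l ∈ Pr κ J, (1 + (κ : ℝ) / l) ≤ ((2 : ℝ) ^ J) ^ n1 := by
  obtain ⟨CM, hCM, hM⟩ := mertens_group
  set L : ℝ := Real.log 2 + CM with hLdef
  have hlog2 : 0 < Real.log 2 := Real.log_pos (by norm_num)
  have hLs : ∀ i : ℕ, ∑ l ∈ Gj (i + 1), (1 : ℝ) / l ≤ L := by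
    intro i
    have h1 := (abs_le.1 (hM (i + 1) (by omega))).2
    have h2 : CM / 2 ^ (i + 1) ≤ CM := div_le_self hCM.le (one_le_pow₀ (by norm_num))
    rw [hLdef]; linarith
  obtain ⟨n1, hn1⟩ := exists_nat_ge (κ * L / Real.log 2)
  rw [div_le_iff₀ hlog2] at hn1
  refine ⟨n1, fun J => ?_⟩
  have h1 := bh_pT_eq (fun i : Fin J => Gk κ (i : ℕ)) (fun i => Gk_sub κ i) (fun l => 1 + (κ : ℝ) / l)
  rw [Pr_eq] at h1
  rw [← h1]
  have h2 : ∀ i : Fin J, ∏ l ∈ Gk κ (i : ℕ), (1 + (κ : ℝ) / l) ≤ 2 ^ n1 := by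
    intro i
    calc ∏ l ∈ Gk κ (i : ℕ), (1 + (κ : ℝ) / l) ≤ ∏ l ∈ Gk κ (i : ℕ), Real.exp ((κ : ℝ) * (1 / l)) := by
          apply prod_le_prod
          · intro l _; positivity
          · intro l _
            have := Real.add_one_le_exp ((κ : ℝ) * (1 / l))
            rw [mul_one_div] at this ⊢
            linarith
      _ = Real.exp (κ * ∑ l ∈ Gk κ (i : ℕ), 1 / (l : ℝ)) := by rw [← Real.exp_sum, mul_sum]
      _ ≤ Real.exp (κ * L) := by
          apply Real.exp_le_exp.2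
          apply mul_le_mul_of_nonneg_left _ (Nat.cast_nonneg _)
          refine le_trans ?_ (hLs i)
          apply sum_le_sum_of_subset_of_nonneg (Gk_sub κ i)
          intro l _ _
          positivity
      _ ≤ Real.exp (n1 * Real.log 2) := Real.exp_le_exp.2 hn1
      _ = 2 ^ n1 := by rw [Real.exp_nat_mul, Real.exp_log (by norm_num)]
  calc ∏ i : Fin J, ∏ l ∈ Gk κ (i : ℕ), (1 + (κ : ℝ) / l) ≤ ∏ i : Fin J, (2 : ℝ) ^ n1 :=
        prod_le_prod (fun i _ => prod_nonneg fun l _ => by positivity) (fun i _ => h2 i)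
    _ = ((2 : ℝ) ^ J) ^ n1 := by
        rw [prod_const, card_univ, Fintype.card_fin, ← pow_mul, ← pow_mul, mul_comm]

open Classical in
/-- **The sieve** -/
theorem sv (κ : ℕ) (hκ : 1 ≤ κ) : ∃ c : ℕ, 1 ≤ c ∧ ∃ n1 : ℕ, ∀ b : ℕ, ∀ M : ℕ, 0 < M →
    M.Coprime b → (∀ p : ℕ, p.Prime → p ∣ M → p ≤ 2 * κ) → ∃ C : ℝ, 0 < C ∧
    ∀ Q : ℕ → ℕ → Prop, PerB Q κ → ∀ (n0 J Y' : ℕ) (S : Finset ℕ) (X : ℝ) (P : ℕ → ℝ), Dst b S X P →
    M * (2 ^ 2 ^ J) ^ c ≤ Y' →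
    (X / M / 2 * (∏ l ∈ (Pr κ J).filter (fun l => ¬ l ∣ b), (1 - (nuB Q l : ℝ) / l)) -
      C * X * ((2 : ℝ) ^ J) ^ n1 * HP b Y' P ≤
      ((S.filter (fun n => n % M = n0 % M ∧ ∀ l ∈ Pr κ J, ¬ l ∣ b → ¬ Q l n)).card : ℝ)) ∧
    (((S.filter (fun n => n % M = n0 % M ∧ ∀ l ∈ Pr κ J, ¬ l ∣ b → ¬ Q l n)).card : ℝ) ≤
      2 * (X / M) *
        (∏ l ∈ (Pr κ J).filter (fun l => ¬ l ∣ b), (1 - (nuB Q l : ℝ) / l)) +
      C * X * ((2 : ℝ) ^ J) ^ n1 * HP b Y' P) := by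
  obtain ⟨c, hc, hbh⟩ := bh2 κ hκ
  obtain ⟨n1, hn1⟩ := Z_le κ
  refine ⟨c, hc, n1 + 1, ?_⟩
  intro b M hM hMb hMs
  have hM1 : (1 : ℝ) ≤ M := by exact_mod_cast hM
  have hκ1 : (1 : ℝ) ≤ κ := by exact_mod_cast hκ
  refine ⟨(κ : ℝ) ^ (κ ^ 4) * M, by positivity, ?_⟩
  intro Q hQ n0 J Y' S X P hS hY
  have hP := hS.nonneg
  have hX := hS.pos
  have hPp : ∀ l ∈ Pr κ J, l.Prime := fun l hl => (mem_filter.1 hl).2.1
  have hPk : ∀ l ∈ Pr κ J, 2 * κ < l := fun l hl => (mem_filter.1 hl).2.2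
  obtain ⟨f, hf⟩ : ∃ f : ℕ → ℕ, f = fun n => ∏ l ∈ (Pr κ J).filter (fun l => ¬ l ∣ b ∧ Q l n), l := ⟨_, rfl⟩
  have hfd : ∀ l ∈ Pr κ J, ∀ n, l ∣ f n ↔ (¬ l ∣ b ∧ Q l n) := by
    intro l hl n
    rw [hf]
    simp only
    constructor
    · intro h
      obtain ⟨l', hl', hd⟩ := (Nat.Prime.prime (hPp l hl)).exists_mem_finset_dvd h
      rw [mem_filter] at hl'
      have := (Nat.prime_dvd_prime_iff_eq (hPp l hl) (hPp l' hl'.1)).1 hd
      rw [this]
      exact hl'.2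
    · intro h
      exact dvd_prod_of_mem (fun l => l) (mem_filter.2 ⟨hl, h⟩)
  obtain ⟨g, hg⟩ : ∃ g : ℕ → ℝ, g = fun l => if l ∣ b then 0 else (nuB Q l : ℝ) / l := ⟨_, rfl⟩
  have hmain := hbh g (by
    intro l hl hl2
    have hl0 : (0 : ℝ) < l := by exact_mod_cast hl.pos
    rw [hg]
    simp only
    split_ifs
    · exact ⟨le_rfl, by positivity⟩
    · refine ⟨by positivity, div_le_div_of_nonneg_right ?_ hl0.le⟩
      exact_mod_cast hQ.few l hl) J (S.filter (fun n => n % M = n0 % M)) f (fun _ => 1)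
    (X / M) (fun D => if ∀ l ∈ D, ¬ l ∣ b then X / M *
      Wt (fun l => (κ : ℝ) / l) D * UP P (M * ∏ l ∈ D, l) else 0) (by positivity)
    (fun _ _ => zero_le_one) (by
      intro D
      split_ifs
      · exact mul_nonneg (mul_nonneg (by positivity) (prod_nonneg fun l _ => by positivity))
          (UP_nonneg _ hP _)
      · exact le_rfl) (by
      intro D hD _
      have hDp : ∀ l ∈ D, l.Prime := fun l hl => hPp l (hD hl)
      rw [sum_const, nsmul_eq_mul, mul_one]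
      split_ifs with hDb
      · have h1 := local_count hS M n0 hM hMb Q hQ.per D hDp (by
          intro l hl hlM
          have := hMs l (hDp l hl) hlM
          have := hPk l (hD hl)
          omega) hDb
        have e1 : (S.filter (fun n => n % M = n0 % M)).filter (fun n => ∀ l ∈ D, l ∣ f n) =
            S.filter (fun n => n % M = n0 % M ∧ ∀ l ∈ D, Q l n) := by
          rw [filter_filter]
          apply filter_congr
          intro n _
          apply and_congr_right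
          intro _
          constructor
          · exact fun h l hl => ((hfd l (hD hl) n).1 (h l hl)).2
          · exact fun h l hl => (hfd l (hD hl) n).2 ⟨hDb l hl, h l hl⟩
        have e2 : ∏ l ∈ D, g l = ∏ l ∈ D, ((nuB Q l : ℝ) / l) := by
          apply prod_congr rfl
          intro l hl
          rw [hg]
          simp only
          rw [if_neg (hDb l hl)]
        rw [e1, e2]
        refine h1.trans ?_
        apply mul_le_mul_of_nonneg_right _ (UP_nonneg _ hP _)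
        apply mul_le_mul_of_nonneg_left _ (by positivity)
        unfold Wt
        apply prod_le_prod (fun l _ => by positivity)
        intro l hl
        apply div_le_div_of_nonneg_right _ (Nat.cast_nonneg _)
        exact_mod_cast hQ.few l (hDp l hl)
      · push Not at hDb
        obtain ⟨l, hl, hlb⟩ := hDb
        have e1 : (S.filter (fun n => n % M = n0 % M)).filter (fun n => ∀ l ∈ D, l ∣ f n) =
            ∅ := by
          rw [filter_eq_empty_iff]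
          intro n _ h
          exact ((hfd l (hD hl) n).1 (h l hl)).1 hlb
        have e2 : ∏ l ∈ D, g l = 0 := by
          apply prod_eq_zero hl
          rw [hg]
          simp only
          rw [if_pos hlb]
        rw [e1, e2]
        simp)
  obtain ⟨E, hE⟩ : ∃ E : ℝ, E = ∑ D ∈ (Pr κ J).powerset.filter (fun D => ∏ l ∈ D, l ≤ (2 ^ 2 ^ J) ^ c),
      (if ∀ l ∈ D, ¬ l ∣ b then X / M * Wt (fun l => (κ : ℝ) / l) D *
        UP P (M * ∏ l ∈ D, l) else 0) := ⟨_, rfl⟩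
  rw [← hE] at hmain
  have e3 : ∑ n ∈ (S.filter (fun n => n % M = n0 % M)).filter
      (fun n => ∀ l ∈ Pr κ J, ¬ l ∣ f n), (1 : ℝ) =
      ((S.filter (fun n => n % M = n0 % M ∧ ∀ l ∈ Pr κ J, ¬ l ∣ b → ¬ Q l n)).card : ℝ) := by
    rw [sum_const, nsmul_eq_mul, mul_one, filter_filter]
    congr 2
    apply filter_congr
    intro n _
    apply and_congr_right
    intro _
    constructor
    · exact fun h l hl hlb hq => h l hl ((hfd l hl n).2 ⟨hlb, hq⟩)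
    · exact fun h l hl hd => h l hl ((hfd l hl n).1 hd).1 ((hfd l hl n).1 hd).2
  have e4 : ∏ l ∈ Pr κ J, (1 - g l) =
      ∏ l ∈ (Pr κ J).filter (fun l => ¬ l ∣ b), (1 - (nuB Q l : ℝ) / l) := by
    rw [prod_filter]
    apply prod_congr rfl
    intro l _
    rw [hg]
    simp only
    split_ifs <;> simp
  rw [e3, e4] at hmain
  have hEle : E ≤ (κ : ℝ) ^ (κ ^ 4) * M * X * ((2 : ℝ) ^ J) ^ n1 * HP b Y' P := by
    rw [hE]
    refine (err_sum κ hκ M hM hMb J _ Y' X hX P hP hY).trans ?_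
    apply mul_le_mul_of_nonneg_right _ (HP_nonneg _ _ _ hP)
    exact mul_le_mul_of_nonneg_left (hn1 J) (by positivity)
  have hJ : (J : ℝ) + 1 ≤ 2 ^ J := by
    have : J + 1 ≤ 2 ^ J := Nat.lt_two_pow_self
    exact_mod_cast this
  have hB0 : 0 ≤ (κ : ℝ) ^ (κ ^ 4) * M * X * ((2 : ℝ) ^ J) ^ n1 * HP b Y' P :=
    mul_nonneg (by positivity) (HP_nonneg _ _ _ hP)
  have hEJ : ((J : ℝ) + 1) * E ≤ (κ : ℝ) ^ (κ ^ 4) * M * X * ((2 : ℝ) ^ J) ^ (n1 + 1) * HP b Y' P := by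
    calc ((J : ℝ) + 1) * E ≤ ((J : ℝ) + 1) * ((κ : ℝ) ^ (κ ^ 4) * M * X * ((2 : ℝ) ^ J) ^ n1 *
          HP b Y' P) := mul_le_mul_of_nonneg_left hEle (by positivity)
      _ ≤ 2 ^ J * ((κ : ℝ) ^ (κ ^ 4) * M * X * ((2 : ℝ) ^ J) ^ n1 * HP b Y' P) :=
          mul_le_mul_of_nonneg_right hJ hB0
      _ = _ := by ring
  have hE1 : E ≤ (κ : ℝ) ^ (κ ^ 4) * M * X * ((2 : ℝ) ^ J) ^ (n1 + 1) * HP b Y' P := by
    refine hEle.trans ?_
    have h1 : (1 : ℝ) ≤ 2 ^ J := one_le_pow₀ (by norm_num)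
    calc (κ : ℝ) ^ (κ ^ 4) * M * X * ((2 : ℝ) ^ J) ^ n1 * HP b Y' P =
        1 * ((κ : ℝ) ^ (κ ^ 4) * M * X * ((2 : ℝ) ^ J) ^ n1 * HP b Y' P) := (one_mul _).symm
      _ ≤ 2 ^ J * ((κ : ℝ) ^ (κ ^ 4) * M * X * ((2 : ℝ) ^ J) ^ n1 * HP b Y' P) :=
          mul_le_mul_of_nonneg_right h1 hB0
      _ = _ := by ring
  constructor
  · have := hmain.1
    linarith
  · have := hmain.2
    linarith

end Pool.Agent.H679.DC
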