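import Pool.Graph.R_seed8.Y816.PD.Fou
import Pool.Graph.R_seed8.Y816.PD.Orth
import Pool.Agent.H679.DC.Sv

/-!
# Integers with prescribed numbers of digits: generating function
-/

set_option autoImplicit false

namespace Pool.Agent.H679.DC

open Finset Pool.Agent.Helper112
open Pool.Agent.Y816.PD (dset sum_dset_succ dset_zero)

/-- the number of the places `i < L` at which the digit of `x` is `c` -/
def dc (b L x c : ℕ) : ℕ := ((range L).filter (fun i => x / b ^ i % b = c)).card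

/-- the integers `x < b ^ L` which have exactly `k c` digits `c` at the places `i < L`, for all `c < b` -/
def tc (b L : ℕ) (k : ℕ → ℕ) : Finset ℕ :=
  (range (b ^ L)).filter (fun x => ∀ c < b, dc b L x c = k c)

lemma dset_full (b L : ℕ) (hb : 0 < b) : dset b L (fun _ => range b) = range (b ^ L) := by
  unfold dset
  rw [filter_true_of_mem]
  intro n _ i _
  exact mem_range.2 (Nat.mod_lt _ hb)

lemma sum_succ {M : Type*} [AddCommMonoid M] {b : ℕ} (L : ℕ) (hb : 0 < b) (F : ℕ → M) :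
    ∑ n ∈ range (b ^ (L + 1)), F n = ∑ n ∈ range (b ^ L), ∑ d ∈ range b, F (n + d * b ^ L) := by
  have h := sum_dset_succ (b := b) L hb (A := fun _ => range b) subset_rfl F
  rwa [dset_full b (L + 1) hb, dset_full b L hb] at h

lemma gen {b : ℕ} (L : ℕ) (hb : 0 < b) (W : ℕ → ℂ) (θ : ℝ) :
    ∑ x ∈ range (b ^ L), (∏ i ∈ range L, W (x / b ^ i % b)) * ee (x * θ) =
      ∏ i ∈ range L, ∑ c ∈ range b, W c * ee (c * ((b : ℝ) ^ i * θ)) := by
  induction L with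
  | zero => simp [ls_ee_zero]
  | succ L ih =>
    rw [sum_succ L hb, prod_range_succ, ← ih, sum_mul_sum]
    apply sum_congr rfl
    intro n hn
    apply sum_congr rfl
    intro d hd
    rw [mem_range] at hn hd
    rw [prod_range_succ, Pool.Agent.Y816.PD.digit_top hb hn hd]
    have h1 : ∏ i ∈ range L, W ((n + d * b ^ L) / b ^ i % b) = ∏ i ∈ range L, W (n / b ^ i % b) := by
      apply prod_congr rfl
      intro i hi
      rw [Pool.Agent.Y816.PD.digit_low hb (mem_range.1 hi)]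
    rw [h1]
    have h2 : (((n + d * b ^ L : ℕ) : ℝ) * θ) = n * θ + d * ((b : ℝ) ^ L * θ) := by
      push_cast; ring
    rw [h2, ls_ee_add]
    ring

lemma prod_dc {b : ℕ} (L x : ℕ) (hb : 0 < b) (W : ℕ → ℂ) :
    ∏ i ∈ range L, W (x / b ^ i % b) = ∏ c ∈ range b, W c ^ dc b L x c := by
  rw [← prod_fiberwise_of_maps_to (s := range L) (t := range b) (g := fun i => x / b ^ i % b)
    (fun i _ => mem_range.2 (Nat.mod_lt _ hb))]
  apply prod_congr rfl
  intro c _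
  unfold dc
  rw [← prod_const]
  apply prod_congr rfl
  intro i hi
  rw [(mem_filter.1 hi).2]

lemma dc_le (b L x c : ℕ) : dc b L x c ≤ L := by
  unfold dc
  refine (card_filter_le _ _).trans ?_
  rw [card_range]

lemma sum_dc {b : ℕ} (L x : ℕ) (hb : 0 < b) : ∑ c ∈ range b, dc b L x c = L := by
  unfold dc
  rw [← card_eq_sum_card_fiberwise (s := range L) (t := range b) (f := fun i => x / b ^ i % b)
    (fun i _ => mem_coe.2 (mem_range.2 (Nat.mod_lt _ hb)))]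
  exact card_range L

/-- orthogonality -/
lemma orthL (L : ℕ) (n k : ℕ) (hn : n ≤ L) (hk : k ≤ L) :
    ∑ t ∈ range (L + 1), ee (((n : ℤ) - k : ℤ) * ((t : ℝ) / ((L + 1 : ℕ) : ℝ))) =
      if n = k then ((L + 1 : ℕ) : ℂ) else 0 := by
  rw [Pool.Agent.Y816.PD.sum_ee (L + 1) (Nat.succ_pos L)]
  by_cases h : n = k
  · rw [if_pos h, if_pos]
    subst h
    simp
  · rw [if_neg h, if_neg]
    intro hd
    obtain ⟨m, hm⟩ := hd
    have h1 : m = 0 := by
      by_contra hm0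
      have h2 : (1 : ℤ) ≤ |m| := Int.one_le_abs hm0
      have h3 : |(n : ℤ) - k| = ((L + 1 : ℕ) : ℤ) * |m| := by
        rw [hm, abs_mul, abs_of_nonneg (Int.natCast_nonneg (L + 1))]
      have h4 : |(n : ℤ) - k| ≤ L := by
        rw [abs_le]
        constructor <;> omega
      have h5 : ((L + 1 : ℕ) : ℤ) ≤ ((L + 1 : ℕ) : ℤ) * |m| := le_mul_of_one_le_right (by positivity) h2
      push_cast at h3 h4 h5
      linarith
    rw [h1, mul_zero] at hm
    omega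

/-- the weight of the digit `c` -/
noncomputable def wt (L : ℕ) (p : ℕ → ℝ) (t : ℕ → ℕ) (c : ℕ) : ℂ :=
  (p c : ℂ) * ee ((t c : ℝ) / ((L + 1 : ℕ) : ℝ))

/-- extension of a function on `Fin b` by zero -/
def ext {b : ℕ} (t : Fin b → ℕ) (c : ℕ) : ℕ := if h : c < b then t ⟨c, h⟩ else 0

lemma ext_fin {b : ℕ} (t : Fin b → ℕ) (c : Fin b) : ext t (c : ℕ) = t c := by
  unfold ext
  rw [dif_pos c.2]

theorem extract {b : ℕ} (L : ℕ) (hb : 0 < b) (k : ℕ → ℕ) (hk : ∀ c < b, k c ≤ L) (p : ℕ → ℝ) (θ : ℝ) :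
    ((L + 1 : ℕ) : ℂ) ^ b * (∏ c ∈ range b, (p c : ℂ) ^ k c) * ∑ x ∈ tc b L k, ee (x * θ) =
      ∑ t ∈ Fintype.piFinset (fun _ : Fin b => range (L + 1)),
        (∏ c : Fin b, ee (-((k c : ℝ) * ((t c : ℝ) / ((L + 1 : ℕ) : ℝ))))) *
        ∏ i ∈ range L, ∑ c ∈ range b, wt L p (ext t) c * ee (c * ((b : ℝ) ^ i * θ)) := by
  have h1 : ∀ t : Fin b → ℕ, (∏ c : Fin b, ee (-((k c : ℝ) * ((t c : ℝ) / ((L + 1 : ℕ) : ℝ))))) *
      ∏ i ∈ range L, ∑ c ∈ range b, wt L p (ext t) c * ee (c * ((b : ℝ) ^ i * θ)) =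
      ∑ x ∈ range (b ^ L), (∏ c : Fin b, (p c : ℂ) ^ dc b L x c) * ee (x * θ) *
        ∏ c : Fin b, ee ((((dc b L x c : ℕ) : ℤ) - (k c : ℕ) : ℤ) * ((t c : ℝ) / ((L + 1 : ℕ) : ℝ))) := by
    intro t
    rw [← gen L hb (wt L p (ext t)) θ, mul_sum]
    apply sum_congr rfl
    intro x _
    rw [prod_dc L x hb, prod_range]
    have h2 : ∏ c : Fin b, wt L p (ext t) c ^ dc b L x c =
        (∏ c : Fin b, (p c : ℂ) ^ dc b L x c) *
        ∏ c : Fin b, ee ((dc b L x c : ℝ) * ((t c : ℝ) / ((L + 1 : ℕ) : ℝ))) := by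
      rw [← prod_mul_distrib]
      apply prod_congr rfl
      intro c _
      unfold wt
      rw [ext_fin, mul_pow, ← ls_ee_nat_mul]
    have h3 : ∏ c : Fin b, ee ((((dc b L x c : ℕ) : ℤ) - (k c : ℕ) : ℤ) * ((t c : ℝ) / ((L + 1 : ℕ) : ℝ))) =
        (∏ c : Fin b, ee (-((k c : ℝ) * ((t c : ℝ) / ((L + 1 : ℕ) : ℝ))))) *
        ∏ c : Fin b, ee ((dc b L x c : ℝ) * ((t c : ℝ) / ((L + 1 : ℕ) : ℝ))) := by
      rw [← prod_mul_distrib]
      apply prod_congr rfl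
      intro c _
      rw [← ls_ee_add]
      congr 1
      push_cast
      ring
    rw [h2, h3]
    ring
  rw [sum_congr rfl fun t _ => h1 t, sum_comm]
  have h4 : ∀ x : ℕ, ∑ t ∈ Fintype.piFinset (fun _ : Fin b => range (L + 1)),
      (∏ c : Fin b, (p c : ℂ) ^ dc b L x c) * ee (x * θ) *
        ∏ c : Fin b, ee ((((dc b L x c : ℕ) : ℤ) - (k c : ℕ) : ℤ) * ((t c : ℝ) / ((L + 1 : ℕ) : ℝ))) =
      if (∀ c < b, dc b L x c = k c) then
        ((L + 1 : ℕ) : ℂ) ^ b * (∏ c ∈ range b, (p c : ℂ) ^ k c) * ee (x * θ) else 0 := by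
    intro x
    rw [← mul_sum, ← prod_univ_sum (fun _ : Fin b => range (L + 1)) (fun (c : Fin b) (τ : ℕ) =>
      ee ((((dc b L x c : ℕ) : ℤ) - (k c : ℕ) : ℤ) * ((τ : ℝ) / ((L + 1 : ℕ) : ℝ))))]
    have h5 : ∀ c : Fin b, ∑ τ ∈ range (L + 1),
        ee ((((dc b L x c : ℕ) : ℤ) - (k c : ℕ) : ℤ) * ((τ : ℝ) / ((L + 1 : ℕ) : ℝ))) =
        if dc b L x c = k c then ((L + 1 : ℕ) : ℂ) else 0 := fun c =>
      orthL L _ _ (dc_le b L x c) (hk c c.2)
    rw [prod_congr rfl fun c _ => h5 c]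
    split_ifs with h
    · have h6 : ∀ c : Fin b, (if dc b L x c = k c then ((L + 1 : ℕ) : ℂ) else 0) = ((L + 1 : ℕ) : ℂ) :=
        fun c => if_pos (h c c.2)
      rw [prod_congr rfl fun c _ => h6 c, prod_const, card_univ, Fintype.card_fin]
      have h7 : ∏ c : Fin b, (p c : ℂ) ^ dc b L x c = ∏ c ∈ range b, (p c : ℂ) ^ k c := by
        rw [prod_range]
        apply prod_congr rfl
        intro c _
        rw [h c c.2]
      rw [h7]
      ring
    · push Not at h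
      obtain ⟨c, hc, hne⟩ := h
      have h6 : ∏ c : Fin b, (if dc b L x c = k c then ((L + 1 : ℕ) : ℂ) else 0) = 0 :=
        prod_eq_zero (mem_univ (⟨c, hc⟩ : Fin b)) (if_neg hne)
      rw [h6, mul_zero]
  rw [sum_congr rfl fun x _ => h4 x, ← sum_filter, mul_sum]
  rfl

/-- the absolute value of the generating polynomial of one digit -/
noncomputable def ph (b : ℕ) (W : ℕ → ℂ) (β : ℝ) : ℝ := ‖∑ c ∈ range b, W c * ee (c * β)‖

/-- its product over the places `u, …, u + L - 1` -/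
noncomputable def GW (b : ℕ) (W : ℕ → ℂ) (u L : ℕ) (θ : ℝ) : ℝ := ∏ i ∈ range L, ph b W ((b : ℝ) ^ (u + i) * θ)

theorem extract_norm {b : ℕ} (L : ℕ) (hb : 0 < b) (k : ℕ → ℕ) (hk : ∀ c < b, k c ≤ L) (p : ℕ → ℝ)
    (hp : ∀ c, 0 ≤ p c) (θ : ℝ) :
    ((L + 1 : ℕ) : ℝ) ^ b * (∏ c ∈ range b, p c ^ k c) * ‖∑ x ∈ tc b L k, ee (x * θ)‖ ≤
      ∑ t ∈ Fintype.piFinset (fun _ : Fin b => range (L + 1)), GW b (wt L p (ext t)) 0 L θ := by
  have h := congrArg norm (extract L hb k hk p θ)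
  rw [norm_mul, norm_mul, norm_pow, Complex.norm_natCast, norm_prod] at h
  have h1 : ∏ c ∈ range b, ‖(p c : ℂ) ^ k c‖ = ∏ c ∈ range b, p c ^ k c := by
    apply prod_congr rfl
    intro c _
    rw [norm_pow, Complex.norm_real, Real.norm_eq_abs, abs_of_nonneg (hp c)]
  rw [h1] at h
  rw [h]
  refine (norm_sum_le _ _).trans (sum_le_sum fun t _ => ?_)
  rw [norm_mul, norm_prod, norm_prod]
  have h2 : ∏ c : Fin b, ‖ee (-((k c : ℝ) * ((t c : ℝ) / ((L + 1 : ℕ) : ℝ))))‖ = 1 :=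
    prod_eq_one fun c _ => ls_norm_ee _
  rw [h2, one_mul]
  apply le_of_eq
  unfold GW ph
  apply prod_congr rfl
  intro i _
  rw [Nat.zero_add]

end Pool.Agent.H679.DC
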