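import Pool.Agent.H679.DC.Blk
import Pool.Graph.R_seed8.Y816.PD.Lev

/-!
# The level of distribution
-/

set_option autoImplicit false

namespace Pool.Agent.H679.DC

open Finset Pool.Agent.Helper112

lemma exists_u {b : ℕ} {ε : ℝ} (hb : 2 ≤ b) (hε : 0 < ε) (hε1 : ε ≤ 1) :
    ∃ u : ℕ, 1 ≤ u ∧ AA b ε u ^ 8 ≤ b := by
  have het := et_pos hb hε
  have het1 := et_le hb hε hε1
  have hb2 : (2 : ℝ) ≤ b := by exact_mod_cast hb
  have h1 : Filter.Tendsto (fun u : ℕ => AA b ε u ^ 8) Filter.atTop (nhds ((1 + (b : ℝ) * 0) ^ 8)) := by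
    unfold AA
    apply Filter.Tendsto.pow
    apply Filter.Tendsto.const_add
    apply Filter.Tendsto.const_mul
    exact tendsto_pow_atTop_nhds_zero_of_lt_one (by linarith) (by linarith)
  rw [mul_zero, add_zero, one_pow] at h1
  have h2 := h1.eventually (gt_mem_nhds (show (1 : ℝ) < 2 by norm_num))
  obtain ⟨u, hu1, hu2⟩ := (h2.and (Filter.eventually_ge_atTop 1)).exists
  exact ⟨u, hu2, hu1.le.trans hb2⟩

lemma PG_small {b L : ℕ} {W : ℕ → ℂ} {e : ℕ} {x : ℝ} (hx : 0 ≤ x)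
    (h : ∀ a : ℕ, a.Coprime e → GW b W 0 L ((a : ℝ) / e) ≤ x) : PG b W L e ≤ e * x := by
  unfold PG
  calc ∑ a ∈ (range e).filter (fun a => a.Coprime e), GW b W 0 L ((a : ℝ) / e) ≤
      ∑ a ∈ (range e).filter (fun a => a.Coprime e), x := by
        apply sum_le_sum
        intro a ha
        rw [mem_filter] at ha
        exact h a ha.2
    _ = ((range e).filter (fun a => a.Coprime e)).card * x := by rw [sum_const, nsmul_eq_mul]
    _ ≤ e * x := by
        apply mul_le_mul_of_nonneg_right _ hx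
        have := card_filter_le (range e) (fun a => a.Coprime e)
        rw [card_range] at this
        exact_mod_cast this

/-- the part with large denominators -/
lemma large {b : ℕ} {ε : ℝ} (hb : 2 ≤ b) (hε : 0 < ε) {W : ℕ → ℂ} (h : WS b ε W) {u : ℕ} (hu : 1 ≤ u)
    (hA : AA b ε u ^ 8 ≤ b) (L w : ℕ) :
    ∑ e ∈ (Icc 2 (b ^ (L / (2 * u)))).filter (fun e => e.Coprime (b * (b - 1)) ∧ b ^ (2 * w) < e),
      (e : ℝ) ^ (-(3 / 4 : ℝ)) * PG b W L e ≤ (u * C1 b u) * b * L / (b : ℝ) ^ w := by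
  have hb2 : (2 : ℝ) ≤ b := by exact_mod_cast hb
  have hb0 : (0 : ℝ) < b := by linarith
  have hC1 : 0 < C1 b u := Real.exp_pos _
  have hA1 := AA_one hb hε h.le_one u
  have hmaps : ∀ e ∈ (Icc 2 (b ^ (L / (2 * u)))).filter (fun e => e.Coprime (b * (b - 1)) ∧ b ^ (2 * w) < e),
      Nat.clog b e ∈ Icc (2 * w + 1) (L / (2 * u)) := by
    intro e he
    rw [mem_filter, mem_Icc] at he
    rw [mem_Icc]
    constructor
    · by_contra h
      have h1 : Nat.clog b e ≤ 2 * w := by omega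
      have h2 := Nat.le_pow_clog (b := b) (by omega) e
      have h3 : b ^ Nat.clog b e ≤ b ^ (2 * w) := Nat.pow_le_pow_right (by omega) h1
      omega
    · exact (Nat.clog_le_iff_le_pow (by omega)).2 he.1.2
  rw [← sum_fiberwise_of_maps_to hmaps]
  have hterm : ∀ m ∈ Icc (2 * w + 1) (L / (2 * u)),
      ∑ e ∈ ((Icc 2 (b ^ (L / (2 * u)))).filter (fun e => e.Coprime (b * (b - 1)) ∧ b ^ (2 * w) < e)).filter
        (fun e => Nat.clog b e = m), (e : ℝ) ^ (-(3 / 4 : ℝ)) * PG b W L e ≤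
        (u * C1 b u) * b / (b : ℝ) ^ w := by
    intro m hm
    rw [mem_Icc] at hm
    have hmL : u * (2 * m) ≤ L := by
      have := (Nat.le_div_iff_mul_le (by omega)).1 hm.2
      calc u * (2 * m) = m * (2 * u) := by ring
        _ ≤ L := this
    have h1 := mom (F := b ^ m) (N := 2 * m) hb hε h hu (by rw [← pow_mul, mul_comm]) hmL
    have h2 : ∀ e ∈ ((Icc 2 (b ^ (L / (2 * u)))).filter
        (fun e => e.Coprime (b * (b - 1)) ∧ b ^ (2 * w) < e)).filter
        (fun e => Nat.clog b e = m), (e : ℝ) ^ (-(3 / 4 : ℝ)) * PG b W L e ≤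
        (((b : ℝ) ^ (m - 1)) ^ (-(3 / 4 : ℝ))) * PG b W L e := by
      intro e he
      rw [mem_filter, mem_filter, mem_Icc] at he
      apply mul_le_mul_of_nonneg_right _ (PG_nonneg _ _ _ _)
      apply Real.rpow_le_rpow_of_nonpos (by positivity) _ (by norm_num)
      have h3 := Nat.pow_pred_clog_lt_self (b := b) (by omega) (x := e) (by omega)
      rw [he.2] at h3
      have h4 : b ^ (m - 1) ≤ e := by
        rw [← Nat.pred_eq_sub_one]
        exact h3.le
      exact_mod_cast h4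
    refine (sum_le_sum h2).trans ?_
    rw [← mul_sum]
    have h5 : ∑ e ∈ ((Icc 2 (b ^ (L / (2 * u)))).filter
        (fun e => e.Coprime (b * (b - 1)) ∧ b ^ (2 * w) < e)).filter
        (fun e => Nat.clog b e = m), PG b W L e ≤ (u * C1 b u) * (b : ℝ) ^ ((m : ℝ) / 4) := by
      have h6 : AA b ε u ^ (2 * m) ≤ (b : ℝ) ^ ((m : ℝ) / 4) := by
        have h7 : AA b ε u ^ (2 * m) = (AA b ε u ^ 8) ^ ((m : ℝ) / 4) := by
          rw [← Real.rpow_natCast, ← Real.rpow_natCast (AA b ε u) 8, ← Real.rpow_mul (by linarith)]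
          congr 1
          push_cast
          ring
        rw [h7]
        exact Real.rpow_le_rpow (by positivity) hA (by positivity)
      calc ∑ e ∈ ((Icc 2 (b ^ (L / (2 * u)))).filter
            (fun e => e.Coprime (b * (b - 1)) ∧ b ^ (2 * w) < e)).filter
            (fun e => Nat.clog b e = m), PG b W L e ≤
            ∑ e ∈ (Icc 1 (b ^ m)).filter (fun e => e.Coprime b), PG b W L e := by
            apply sum_le_sum_of_subset_of_nonneg
            · intro e he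
              rw [mem_filter, mem_filter, mem_Icc] at he
              rw [mem_filter, mem_Icc]
              refine ⟨⟨by omega, ?_⟩, Nat.Coprime.coprime_dvd_right (Dvd.intro _ rfl) he.1.2.1⟩
              have := Nat.le_pow_clog (b := b) (by omega) e
              rwa [he.2] at this
            · intro e _ _
              exact PG_nonneg _ _ _ _
        _ ≤ u * (C1 b u * AA b ε u ^ (2 * m)) := h1
        _ = (u * C1 b u) * AA b ε u ^ (2 * m) := by ring
        _ ≤ _ := mul_le_mul_of_nonneg_left h6 (by positivity)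
    calc ((b : ℝ) ^ (m - 1)) ^ (-(3 / 4 : ℝ)) * _ ≤
        ((b : ℝ) ^ (m - 1)) ^ (-(3 / 4 : ℝ)) * ((u * C1 b u) * (b : ℝ) ^ ((m : ℝ) / 4)) :=
          mul_le_mul_of_nonneg_left h5 (by positivity)
      _ ≤ (u * C1 b u) * (b : ℝ) ^ ((1 : ℝ) - w) := by
          have h6 : ((b : ℝ) ^ (m - 1)) ^ (-(3 / 4 : ℝ)) = (b : ℝ) ^ (((m : ℝ) - 1) * (-(3 / 4 : ℝ))) := by
            rw [Real.rpow_mul hb0.le, ← Real.rpow_natCast]
            congr 2
            rw [Nat.cast_sub (by omega)]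
            push_cast
            rfl
          rw [h6, mul_left_comm, ← Real.rpow_add hb0]
          apply mul_le_mul_of_nonneg_left _ (by positivity)
          apply Real.rpow_le_rpow_of_exponent_le (by linarith)
          have h7 : 2 * (w : ℝ) + 1 ≤ m := by exact_mod_cast hm.1
          linarith
      _ = (u * C1 b u) * b / (b : ℝ) ^ w := by
          rw [Real.rpow_sub hb0, Real.rpow_one, Real.rpow_natCast]
          ring
  refine (sum_le_sum hterm).trans ?_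
  rw [sum_const, nsmul_eq_mul, Nat.card_Icc]
  have h9 : ((L / (2 * u) + 1 - (2 * w + 1) : ℕ) : ℝ) ≤ L := by
    have h10 : L / (2 * u) ≤ L := Nat.div_le_self _ _
    have : L / (2 * u) + 1 - (2 * w + 1) ≤ L := by omega
    exact_mod_cast this
  calc ((L / (2 * u) + 1 - (2 * w + 1) : ℕ) : ℝ) * ((u * C1 b u) * b / (b : ℝ) ^ w) ≤
        L * ((u * C1 b u) * b / (b : ℝ) ^ w) := mul_le_mul_of_nonneg_right h9 (by positivity)
    _ = _ := by ring

/-- **Level of distribution** -/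
theorem lev {b : ℕ} {ε : ℝ} (hb : 2 ≤ b) (hε : 0 < ε) (hε1 : ε ≤ 1) : ∃ u : ℕ, 1 ≤ u ∧ ∀ a : ℕ,
    ∃ C : ℝ, 0 < C ∧ ∃ L0 : ℕ, ∀ L : ℕ, L0 ≤ L → ∀ W : ℕ → ℂ, WS b ε W →
    HP (b * (b - 1)) (b ^ (L / (2 * u))) (PG b W L) ≤ C / (L : ℝ) ^ a := by
  obtain ⟨u, hu, hA⟩ := exists_u hb hε hε1
  refine ⟨u, hu, fun a => ?_⟩
  have hb2 : (2 : ℝ) ≤ b := by exact_mod_cast hb
  have hb0 : (0 : ℝ) < b := by linarith
  have hC1 : 0 < C1 b u := Real.exp_pos _
  have hur : (0 : ℝ) < u := by exact_mod_cast hu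
  obtain ⟨s, hs⟩ : ∃ s : ℕ, s = 2 * (a + 1) := ⟨_, rfl⟩
  obtain ⟨L1, hL1⟩ := small hb hε s
  obtain ⟨L2, hL2⟩ := Filter.eventually_atTop.1 (Pool.Agent.Y816.PD.exp_sqrt (2 * s + a) ((b : ℝ) ^ (2 * s)))
  refine ⟨u * C1 b u * b + 1, by positivity, max (max L1 L2) 1, ?_⟩
  intro L hL W h
  have hLL1 : L1 ≤ L := le_trans (le_trans (le_max_left _ _) (le_max_left _ _)) hL
  have hLL2 : L2 ≤ L := le_trans (le_trans (le_max_right _ _) (le_max_left _ _)) hL
  have hLge : 1 ≤ L := le_trans (le_max_right _ _) hL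
  have hLr : (1 : ℝ) ≤ L := by exact_mod_cast hLge
  obtain ⟨t, ht⟩ : ∃ t, t = Nat.log b L := ⟨_, rfl⟩
  obtain ⟨w, hw⟩ : ∃ w, w = (a + 1) * (t + 1) := ⟨_, rfl⟩
  have hbt : b ^ t ≤ L := by rw [ht]; exact Nat.pow_log_le_self b (by omega)
  have hbt1 : L ≤ b ^ (t + 1) := by rw [ht]; exact (Nat.lt_pow_succ_log_self (by omega) L).le
  have hb2w : (b : ℝ) ^ (2 * w) ≤ ((b : ℝ) * L) ^ s := by
    have h1 : 2 * w = (t + 1) * s := by rw [hw, hs]; ring
    rw [h1, pow_mul]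
    apply pow_le_pow_left₀ (by positivity)
    rw [pow_succ, mul_comm]
    apply mul_le_mul_of_nonneg_left _ hb0.le
    exact_mod_cast hbt
  have hsplit : HP (b * (b - 1)) (b ^ (L / (2 * u))) (PG b W L) =
      ∑ e ∈ (Icc 2 (b ^ (L / (2 * u)))).filter (fun e => e.Coprime (b * (b - 1)) ∧ b ^ (2 * w) < e),
      (e : ℝ) ^ (-(3 / 4 : ℝ)) * PG b W L e +
      ∑ e ∈ (Icc 2 (b ^ (L / (2 * u)))).filter (fun e => e.Coprime (b * (b - 1)) ∧ ¬ b ^ (2 * w) < e),
      (e : ℝ) ^ (-(3 / 4 : ℝ)) * PG b W L e := by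
    unfold HP
    rw [← sum_filter_add_sum_filter_not _ (fun e => b ^ (2 * w) < e), filter_filter, filter_filter]
  rw [hsplit]
  have hbig := large hb hε h hu hA L w
  have hbw : (L : ℝ) ^ (a + 1) ≤ (b : ℝ) ^ w := by
    have h2 : (L : ℝ) ≤ (b : ℝ) ^ (t + 1) := by exact_mod_cast hbt1
    calc (L : ℝ) ^ (a + 1) ≤ ((b : ℝ) ^ (t + 1)) ^ (a + 1) := pow_le_pow_left₀ (by linarith) h2 _
      _ = (b : ℝ) ^ w := by rw [← pow_mul, hw]; congr 1; ring
  have hbig2 : (u * C1 b u) * b * L / (b : ℝ) ^ w ≤ (u * C1 b u * b) / (L : ℝ) ^ a := by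
    rw [div_le_div_iff₀ (by positivity) (by positivity)]
    calc (u * C1 b u) * (b : ℝ) * L * (L : ℝ) ^ a = (u * C1 b u * b) * (L : ℝ) ^ (a + 1) := by ring
      _ ≤ (u * C1 b u * b) * (b : ℝ) ^ w := mul_le_mul_of_nonneg_left hbw (by positivity)
  have hS : ∑ e ∈ (Icc 2 (b ^ (L / (2 * u)))).filter
      (fun e => e.Coprime (b * (b - 1)) ∧ ¬ b ^ (2 * w) < e),
      (e : ℝ) ^ (-(3 / 4 : ℝ)) * PG b W L e ≤ 1 / (L : ℝ) ^ a := by
    have h1 : ∀ e ∈ (Icc 2 (b ^ (L / (2 * u)))).filter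
        (fun e => e.Coprime (b * (b - 1)) ∧ ¬ b ^ (2 * w) < e),
        (e : ℝ) ^ (-(3 / 4 : ℝ)) * PG b W L e ≤ (b : ℝ) ^ (2 * w) * Real.exp (-Real.sqrt L) := by
      intro e he
      rw [mem_filter, mem_Icc, not_lt] at he
      have he1 : (1 : ℝ) ≤ e := by exact_mod_cast (by omega : 1 ≤ e)
      have h4 : (e : ℝ) ≤ (b : ℝ) ^ (2 * w) := by exact_mod_cast he.2.2
      have h2 : PG b W L e ≤ e * Real.exp (-Real.sqrt L) :=
        PG_small (Real.exp_pos _).le (fun a' ha' =>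
          hL1 L hLL1 W h e a' (by omega) he.2.1 (h4.trans hb2w) ha')
      have h3 : (e : ℝ) ^ (-(3 / 4 : ℝ)) ≤ 1 := Real.rpow_le_one_of_one_le_of_nonpos he1 (by norm_num)
      calc (e : ℝ) ^ (-(3 / 4 : ℝ)) * PG b W L e ≤ 1 * (e * Real.exp (-Real.sqrt L)) :=
            mul_le_mul h3 h2 (PG_nonneg _ _ _ _) (by norm_num)
        _ ≤ _ := by
            rw [one_mul]
            exact mul_le_mul_of_nonneg_right h4 (Real.exp_pos _).le
    refine (sum_le_card_nsmul _ _ _ h1).trans ?_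
    rw [nsmul_eq_mul]
    have h5 : (((Icc 2 (b ^ (L / (2 * u)))).filter
        (fun e => e.Coprime (b * (b - 1)) ∧ ¬ b ^ (2 * w) < e)).card : ℝ) ≤ (b : ℝ) ^ (2 * w) := by
      have h6 : (Icc 2 (b ^ (L / (2 * u)))).filter
          (fun e => e.Coprime (b * (b - 1)) ∧ ¬ b ^ (2 * w) < e) ⊆ Icc 1 (b ^ (2 * w)) := by
        intro e he
        rw [mem_filter, mem_Icc, not_lt] at he
        rw [mem_Icc]
        omega
      have h7 := card_le_card h6
      rw [Nat.card_Icc, Nat.add_sub_cancel] at h7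
      exact_mod_cast h7
    have h12 := hL2 L hLL2
    rw [le_div_iff₀ (by positivity)]
    calc (((Icc 2 (b ^ (L / (2 * u)))).filter
          (fun e => e.Coprime (b * (b - 1)) ∧ ¬ b ^ (2 * w) < e)).card : ℝ) *
        ((b : ℝ) ^ (2 * w) * Real.exp (-Real.sqrt L)) * (L : ℝ) ^ a ≤
        ((b : ℝ) * L) ^ s * (((b : ℝ) * L) ^ s * Real.exp (-Real.sqrt L)) * (L : ℝ) ^ a := by
          have := h5.trans hb2w
          gcongr
      _ = (b : ℝ) ^ (2 * s) * (L : ℝ) ^ (2 * s + a) * Real.exp (-Real.sqrt L) := by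
          rw [mul_pow]
          ring
      _ ≤ 1 := h12
  calc _ ≤ (u * C1 b u * b) / (L : ℝ) ^ a + 1 / (L : ℝ) ^ a := add_le_add (hbig.trans hbig2) hS
    _ = _ := by ring

end Pool.Agent.H679.DC
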