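import Pool.Agent.H679.DC.Pn

/-!
# Palindromes with digits 0 and 1 only
-/

set_option autoImplicit false

namespace Pool.Agent.H679.DC

open Finset Filter

/-- the numbers of digits: `k` ones, `M - k` zeros -/
def k01 (M k c : ℕ) : ℕ := if c = 0 then M - k else if c = 1 then k else 0

lemma cnt01 {b : ℕ} {ε : ℝ} (hb : 2 ≤ b) {M k : ℕ} (h1 : ε * M ≤ k) (h2 : (k : ℝ) ≤ (1 - ε) * M) (hk : k ≤ M) :
    Cnt b ε M (k01 M k) := by
  constructor
  · rw [sum_two hb (k01 M k) (fun n hn => by unfold k01; rw [if_neg (by omega), if_neg (by omega)])]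
    unfold k01
    simp
    omega
  · refine ⟨0, by omega, ?_, ?_⟩
    · unfold k01
      rw [if_pos rfl, Nat.cast_sub hk]
      linarith
    · unfold k01
      rw [Nat.zero_add, if_neg (by norm_num), if_pos rfl]
      exact h1

lemma sum_k01 {b : ℕ} (hb : 2 ≤ b) (M k : ℕ) : ∑ c ∈ range b, c * k01 M k c = k := by
  rw [sum_two hb (fun c => c * k01 M k c) (fun n hn => by
    unfold k01; rw [if_neg (by omega), if_neg (by omega), mul_zero])]
  unfold k01
  simp

lemma mem_tc01 {b : ℕ} (hb : 2 ≤ b) {M k x : ℕ} (hk : k ≤ M) : x ∈ tc b M (k01 M k) ↔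
    x < b ^ M ∧ (∀ i < M, x / b ^ i % b ≤ 1) ∧ dc b M x 1 = k := by
  unfold tc
  rw [mem_filter, mem_range]
  constructor
  · rintro ⟨h1, h2⟩
    refine ⟨h1, fun i hi => ?_, ?_⟩
    · by_contra hcon
      push Not at hcon
      have h3 := h2 (x / b ^ i % b) (Nat.mod_lt _ (by omega))
      unfold k01 at h3
      rw [if_neg (by omega), if_neg (by omega)] at h3
      unfold dc at h3
      rw [card_eq_zero, filter_eq_empty_iff] at h3
      exact h3 (mem_range.2 hi) rfl
    · have h3 := h2 1 (by omega)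
      unfold k01 at h3
      rwa [if_neg (by norm_num), if_pos rfl] at h3
  · rintro ⟨h1, h2, h3⟩
    refine ⟨h1, fun c hc => ?_⟩
    have h4 : ∀ c, 2 ≤ c → dc b M x c = 0 := by
      intro c hc
      unfold dc
      rw [card_eq_zero, filter_eq_empty_iff]
      intro i hi h5
      have := h2 i (mem_range.1 hi)
      omega
    have h5 := sum_dc (b := b) M x (by omega)
    rw [sum_two hb _ (fun n hn => h4 n hn), h3] at h5
    unfold k01
    split_ifs with h6 h7
    · rw [h6]; omega
    · rw [h7]; exact h3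
    · exact h4 c (by omega)

lemma card_tc01 {b : ℕ} (hb : 2 ≤ b) {M k : ℕ} (hk : k ≤ M) : (tc b M (k01 M k)).card = M.choose k := by
  classical
  rw [← card_range M, ← card_powersetCard, card_range]
  symm
  apply card_bij (fun (s : Finset ℕ) _ => cv b M (fun i => if i ∈ s then 1 else 0))
  · intro s hs
    rw [mem_powersetCard] at hs
    have ha : ∀ i, (fun i => if i ∈ s then 1 else 0) i < b := by
      intro i
      simp only
      split_ifs <;> omega
    rw [mem_tc01 hb hk]
    refine ⟨cv_lt ha M, fun i hi => ?_, ?_⟩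
    · rw [cv_dig (by omega) ha M i hi]
      split_ifs <;> omega
    · rw [dc_cv (by omega) ha, ← hs.2]
      congr 1
      ext i
      rw [mem_filter, mem_range]
      constructor
      · rintro ⟨_, h⟩
        by_contra hcon
        rw [if_neg hcon] at h
        omega
      · intro h
        exact ⟨mem_range.1 (hs.1 h), if_pos h⟩
  · intro s hs s' hs' h
    rw [mem_powersetCard] at hs hs'
    have ha : ∀ s : Finset ℕ, ∀ i, (fun i => if i ∈ s then 1 else 0) i < b := by
      intro s i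
      simp only
      split_ifs <;> omega
    have key : ∀ i < M, (i ∈ s ↔ i ∈ s') := by
      intro i hi
      have h1 := cv_dig (by omega : 0 < b) (ha s) M i hi
      have h2 := cv_dig (by omega : 0 < b) (ha s') M i hi
      rw [h] at h1
      rw [h1] at h2
      by_cases c1 : i ∈ s <;> by_cases c2 : i ∈ s'
      · exact ⟨fun _ => c2, fun _ => c1⟩
      · rw [if_pos c1, if_neg c2] at h2; omega
      · rw [if_neg c1, if_pos c2] at h2; omega
      · exact ⟨fun h3 => absurd h3 c1, fun h3 => absurd h3 c2⟩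
    ext i
    constructor
    · intro hi
      exact (key i (mem_range.1 (hs.1 hi))).1 hi
    · intro hi
      exact (key i (mem_range.1 (hs'.1 hi))).2 hi
  · intro x hx
    rw [mem_tc01 hb hk] at hx
    obtain ⟨h1, h2, h3⟩ := hx
    refine ⟨(range M).filter (fun i => x / b ^ i % b = 1), ?_, ?_⟩
    · rw [mem_powersetCard]
      exact ⟨filter_subset _ _, h3⟩
    · conv_rhs => rw [← cv_self (by omega : 0 < b) M x h1]
      unfold cv
      apply sum_congr rfl
      intro i hi
      congr 1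
      have := h2 i (mem_range.1 hi)
      beta_reduce
      split_ifs with h4
      · exact (mem_filter.1 h4).2.symm
      · rw [mem_filter, not_and] at h4
        have h5 := h4 hi
        omega

/-- the palindromes with exactly `4 M + 3` digits in base `b`, all of them `0` or `1`, middle digit `e`, `k` digits `1` at
the places `N + j`, `j < 2 M` odd, and `l` digits `1` at the places `N + j`, `j ≤ 2 M` even, `j ≠ 0`; here `N = 2 M + 1` -/
def Cl (b M e k l : ℕ) : Set ℕ :=
  {n | n ∈ Pal b (2 * M + 1) ∧ (∀ d ∈ Nat.digits b n, d ≤ 1) ∧ n / b ^ (2 * M + 1) % b = e ∧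
    cO b (2 * M + 1) M n 1 = k ∧ cE b (2 * M + 1) M n 1 = l}

lemma digits_le_iff {b n : ℕ} (hb : 2 ≤ b) : (∀ d ∈ Nat.digits b n, d ≤ 1) ↔ ∀ i, n / b ^ i % b ≤ 1 := by
  constructor
  · intro h i
    rcases Nat.lt_or_ge i (Nat.digits b n).length with hi | hi
    · rw [← Nat.getD_digits n i hb, List.getD_eq_getElem _ _ hi]
      exact h _ (List.getElem_mem hi)
    · rw [← Nat.getD_digits n i hb, List.getD_eq_default _ _ hi]
      omega
  · intro h d hd
    obtain ⟨i, hi, rfl⟩ := List.mem_iff_getElem.1 hd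
    rw [← List.getD_eq_getElem _ 0 hi, Nat.getD_digits n i hb]
    exact h i

/-- the fixed digits -/
def Q01 (e j : ℕ) : ℕ := if j = 0 then e else 1

lemma fx01 (b M : ℕ) (P : ℕ → ℕ) : fx b (2 * M + 1) M P = P 0 * b ^ (2 * M + 1) + P (2 * M + 1) * pp b (2 * M + 1) (2 * M + 1) := by
  unfold fx
  rw [Nat.Ico_succ_singleton, sum_singleton]

lemma PalS_congr {b N M : ℕ} {P P' kO kO' kE kE' : ℕ → ℕ} (h1 : fx b N M P = fx b N M P') (h2 : ∀ c < b, kO c = kO' c)
    (h3 : ∀ c < b, kE c = kE' c) : PalS b N M P kO kE = PalS b N M P' kO' kE' := by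
  have h4 : ∀ k k' : ℕ → ℕ, (∀ c < b, k c = k' c) → tc b M k = tc b M k' := by
    intro k k' h
    unfold tc
    apply filter_congr
    intro x _
    exact ⟨fun h5 c hc => (h5 c hc).trans (h c hc), fun h5 c hc => (h5 c hc).trans (h c hc).symm⟩
  unfold PalS
  rw [h1, h4 _ _ h2, h4 _ _ h3]

lemma cO_01 {b N M n : ℕ} (hn : ∀ i, n / b ^ i % b ≤ 1) (hb : 2 ≤ b) (c : ℕ) :
    cO b N M n c = k01 M (cO b N M n 1) c ∧ cE b N M n c = k01 M (cE b N M n 1) c := by
  have h4 : ∀ c, 2 ≤ c → cO b N M n c = 0 ∧ cE b N M n c = 0 := by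
    intro c hc
    constructor
    · unfold cO
      rw [card_eq_zero, filter_eq_empty_iff]
      intro i _ h5
      have := hn (N + (2 * i + 1))
      omega
    · unfold cE
      rw [card_eq_zero, filter_eq_empty_iff]
      intro i _ h5
      have := hn (N + (2 * i + 2))
      omega
  have h5 : cO b N M n 0 + cO b N M n 1 = M := by
    have : ∑ c ∈ range b, cO b N M n c = M :=
      sum_fiber (b := b) M (fun i => n / b ^ (N + (2 * i + 1)) % b) (fun _ => Nat.mod_lt _ (by omega))
    rw [sum_two hb _ (fun m hm => (h4 m hm).1)] at this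
    exact this
  have h6 : cE b N M n 0 + cE b N M n 1 = M := by
    have : ∑ c ∈ range b, cE b N M n c = M :=
      sum_fiber (b := b) M (fun i => n / b ^ (N + (2 * i + 2)) % b) (fun _ => Nat.mod_lt _ (by omega))
    rw [sum_two hb _ (fun m hm => (h4 m hm).2)] at this
    exact this
  unfold k01
  split_ifs with c0 c1
  · subst c0
    omega
  · subst c1
    exact ⟨rfl, rfl⟩
  · exact h4 c (by omega)

lemma Cl_eq {b M e k l : ℕ} (hb : 2 ≤ b) (he : e ≤ 1) (hk : k ≤ M) (hl : l ≤ M) :
    Cl b M e k l = (PalS b (2 * M + 1) M (Q01 e) (k01 M k) (k01 M l) : Set ℕ) := by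
  have hb0 : 0 < b := by omega
  obtain ⟨N, hN⟩ : ∃ N, N = 2 * M + 1 := ⟨_, rfl⟩
  have hQb : ∀ j, Q01 e j < b := by
    intro j
    unfold Q01
    split_ifs <;> omega
  unfold Cl
  rw [← hN]
  ext n
  rw [Set.mem_ofPred_eq, mem_coe]
  constructor
  · rintro ⟨h1, h2, h3, h4, h5⟩
    rw [digits_le_iff hb] at h2
    have hEq := PermPal_eq hb (by omega : 2 * M < N) h1
    have hself := self_mem_Perm (M := M) h1
    rw [hEq, mem_coe] at hself
    have htop : n / b ^ (2 * N) % b = 1 := by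
      have h6 := h2 (2 * N)
      have h7 : n / b ^ (2 * N) < b := by
        rw [Nat.div_lt_iff_lt_mul (Nat.pow_pos hb0), ← pow_succ']
        exact h1.2.1
      have h8 : 0 < n / b ^ (2 * N) := Nat.div_pos h1.1 (Nat.pow_pos hb0)
      rw [Nat.mod_eq_of_lt h7] at h6 ⊢
      omega
    rw [PalS_congr (P' := Q01 e) (kO' := k01 M k) (kE' := k01 M l) _ (fun c _ => by rw [(cO_01 h2 hb c).1, h4])
      (fun c _ => by rw [(cO_01 h2 hb c).2, h5])] at hself
    · exact hself
    · rw [hN, fx01, fx01, ← hN]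
      have e1 : N + N = 2 * N := by ring
      rw [h3, e1, htop]
      unfold Q01
      rw [if_pos rfl, if_neg (by omega)]
  · intro hn
    have hn' := hn
    unfold PalS at hn
    rw [mem_image] at hn
    obtain ⟨⟨z, y⟩, hw, hn⟩ := hn
    rw [mem_product, mem_tc01 hb hk, mem_tc01 hb hl] at hw
    obtain ⟨⟨hz1, hz2, hz3⟩, ⟨hy1, hy2, hy3⟩⟩ := hw
    simp only at hz1 hz2 hz3 hy1 hy2 hy3 hn
    have hM : 2 * M ≤ N := by omega
    have hdig : ∀ i ≤ 2 * N, n / b ^ i % b = az b N M (Q01 e) z y i := by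
      intro i hi
      rw [← hn]
      exact dig_az hb0 hM hQb z y i hi
    have hdj : ∀ j ≤ N, n / b ^ (N + j) % b = gz b M (Q01 e) z y j := by
      intro j hj
      rw [hdig _ (by omega), az_add]
    have hgz : ∀ j ≤ N, gz b M (Q01 e) z y j ≤ 1 := by
      intro j hj
      unfold gz
      split_ifs with c1 c2
      · unfold Q01
        split_ifs <;> omega
      · exact hz2 _ (by omega)
      · exact hy2 _ (by omega)
    have hn1 : n < b ^ (2 * N + 1) := PalS_lt hb0 hM hQb hn'
    have htop : n / b ^ (2 * N) % b = 1 := by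
      have h1 := hdj N le_rfl
      have e1 : N + N = 2 * N := by ring
      rw [e1] at h1
      rw [h1]
      unfold gz Q01
      rw [if_pos (Or.inr (by omega)), if_neg (by omega)]
    have hn0 : b ^ (2 * N) ≤ n := by
      by_contra hcon
      push Not at hcon
      rw [Nat.div_eq_of_lt hcon, Nat.zero_mod] at htop
      omega
    have hle : ∀ i, n / b ^ i % b ≤ 1 := by
      intro i
      rcases Nat.lt_or_ge (2 * N) i with hi | hi
      · rw [Nat.div_eq_of_lt (lt_of_lt_of_le hn1 (Nat.pow_le_pow_right hb0 (by omega))), Nat.zero_mod]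
        omega
      · rw [hdig i hi]
        unfold az
        split_ifs
        · exact hgz _ (by omega)
        · exact hgz _ (by omega)
    refine ⟨⟨hn0, hn1, ?_⟩, ?_, ?_, ?_, ?_⟩
    · rw [pal_iff hb hn0 hn1]
      intro j hj
      rw [hdig _ (by omega), hdig _ (by omega)]
      exact az_symm b N M (Q01 e) z y j hj
    · rw [digits_le_iff hb]
      exact hle
    · have h1 := hdj 0 (by omega)
      rw [Nat.add_zero] at h1
      rw [h1]
      unfold gz Q01
      rw [if_pos (Or.inl rfl), if_pos rfl]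
    · rw [← hz3]
      unfold cO dc
      congr 1
      apply filter_congr
      intro i hi
      rw [mem_range] at hi
      rw [hdj _ (by omega)]
      unfold gz
      rw [if_neg (by omega), if_pos (by omega)]
      have e1 : (2 * i + 1 - 1) / 2 = i := by omega
      rw [e1]
    · rw [← hy3]
      unfold cE dc
      congr 1
      apply filter_congr
      intro i hi
      rw [mem_range] at hi
      rw [hdj _ (by omega)]
      unfold gz
      rw [if_neg (by omega), if_neg (by omega)]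
      have e1 : (2 * i + 2 - 2) / 2 = i := by omega
      rw [e1]

lemma Cl_card {b M e k l : ℕ} (hb : 2 ≤ b) (he : e ≤ 1) (hk : k ≤ M) (hl : l ≤ M) :
    (Cl b M e k l).ncard = M.choose k * M.choose l := by
  have hQb : ∀ j, Q01 e j < b := by
    intro j
    unfold Q01
    split_ifs <;> omega
  rw [Cl_eq hb he hk hl, Set.ncard_coe_finset, card_PalS (by omega) (by omega) hQb, card_tc01 hb hk, card_tc01 hb hl]

/-- the residue class modulo `b ^ 2 - 1` -/
lemma Cl_mod {b M e k l n : ℕ} (hb : 2 ≤ b) (he : e ≤ 1) (hk : k ≤ M) (hl : l ≤ M) (hn : n ∈ Cl b M e k l) :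
    n ≡ 2 * k + 2 * b * l + b * e + 2 [MOD b ^ 2 - 1] ∧ n ≡ 1 [MOD b] := by
  rw [Cl_eq hb he hk hl, mem_coe] at hn
  unfold PalS at hn
  rw [mem_image] at hn
  obtain ⟨⟨z, y⟩, hw, hn⟩ := hn
  rw [mem_product] at hw
  simp only at hn hw
  rw [fx01] at hn
  have hQ0 : Q01 e 0 = e := by unfold Q01; rw [if_pos rfl]
  have hQ1 : Q01 e (2 * M + 1) = 1 := by unfold Q01; rw [if_neg (by omega)]
  rw [hQ0, hQ1, one_mul] at hn
  have hN1 : b ^ (2 * M + 1) ≡ b [MOD b ^ 2 - 1] := by
    have := pow_sq_mod (b := b) (by omega) 1 M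
    rw [pow_one, add_comm] at this
    exact this
  have hN2 : b ^ (2 * M + 1 + 1) ≡ 1 [MOD b ^ 2 - 1] := by
    have := pow_sq_mod (b := b) (by omega) 0 (M + 1)
    rw [pow_zero, zero_add] at this
    exact this
  have hN3 : b ^ (2 * M + 1 + (2 * M + 1)) ≡ 1 [MOD b ^ 2 - 1] := by
    have := pow_sq_mod (b := b) (by omega) 0 (2 * M + 1)
    rw [pow_zero, zero_add] at this
    have e1 : 2 * M + 1 + (2 * M + 1) = 2 * (2 * M + 1) := by ring
    rw [e1]
    exact this
  constructor
  · rw [← hn]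
    have h1 := pv_mod (by omega : 1 ≤ b) (by omega : 2 * M ≤ 2 * M + 1) hw.1 hw.2
    rw [sum_k01 hb, sum_k01 hb] at h1
    have h2 : pp b (2 * M + 1) (2 * M + 1) ≡ 1 + 1 [MOD b ^ 2 - 1] := by
      unfold pp
      rw [Nat.sub_self, pow_zero]
      exact hN3.add_left 1
    have h3 := ((hN1.mul_left e).add h2).add (h1.trans (((hN2.mul_left 2).mul_left k).add ((hN1.mul_left 2).mul_left l)))
    refine h3.trans ?_
    have e1 : e * b + (1 + 1) + (k * (2 * 1) + l * (2 * b)) = 2 * k + 2 * b * l + b * e + 2 := by ring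
    rw [e1]
  · rw [← hn]
    have h1 : b ∣ pv b (2 * M + 1) M z y := pv_mod_b (by omega) z y
    have h2 : b ∣ e * b ^ (2 * M + 1) := (dvd_pow_self b (by omega)).mul_left e
    have h3 : pp b (2 * M + 1) (2 * M + 1) ≡ 1 + 0 [MOD b] := by
      unfold pp
      rw [Nat.sub_self, pow_zero]
      exact ((Nat.modEq_zero_iff_dvd).2 (dvd_pow_self b (by omega))).add_left 1
    have h4 := (((Nat.modEq_zero_iff_dvd).2 h2).add h3).add ((Nat.modEq_zero_iff_dvd).2 h1)
    simpa using h4

/-- **Almost prime tuples at the palindromes with digits `0`, `1` and exactly prescribed numbers of ones** -/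
theorem cl_bounds {b : ℕ} {ε : ℝ} (hb : 2 ≤ b) (hε : 0 < ε) (hε1 : ε ≤ 1) :
    ∃ r : ℕ, 2 ≤ r ∧ ∃ κ C : ℝ, 0 < κ ∧ 0 < C ∧ ∀ᶠ M : ℕ in atTop, ∀ e k l : ℕ, e ≤ 1 → ε * M ≤ k →
      (k : ℝ) ≤ (1 - ε) * M → ε * M ≤ l → (l : ℝ) ≤ (1 - ε) * M → (2 * k + 2 * b * l + b * e + 2).Coprime (b ^ 2 - 1) →
      κ * (M.choose k * M.choose l) / (M : ℝ) ≤ (Set.ncard {n | n ∈ Cl b M e k l ∧
        (∀ p : ℕ, p.Prime → p ∣ n → b ^ M < p ^ r) ∧ n.primeFactorsList.length ≤ r} : ℝ) ∧
      (Set.ncard {n | n ∈ Cl b M e k l ∧ n.Prime} : ℝ) ≤ C * (M.choose k * M.choose l) / (M : ℝ) := by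
  classical
  have hcard : ({0} : Finset ℕ).card = 1 := by decide
  have hadm : ∀ p : ℕ, p.Prime → ∃ m : ℕ, ∀ h ∈ ({0} : Finset ℕ), ¬ p ∣ m + h := by
    intro p hp
    refine ⟨1, fun h hh => ?_⟩
    rw [mem_singleton] at hh
    rw [hh]
    exact fun hd => hp.one_lt.ne' (Nat.dvd_one.1 hd)
  obtain ⟨r, hr, κ, hκ, hlow⟩ := pal_lower hb hε hε1 {0} (by rw [hcard]) hadm 3
  obtain ⟨C, hC, hup⟩ := pal_upper hb hε hε1 {0} (by rw [hcard]) hadm 1 (le_refl 1)
  rw [hcard] at hlow hup
  refine ⟨r, hr, κ, C, hκ, hC, ?_⟩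
  filter_upwards [hlow, hup, eventually_ge_atTop 1] with M h1 h2 hM1
  intro e k l he hk1 hk2 hl1 hl2 hcop
  have hMr : (1 : ℝ) ≤ M := by exact_mod_cast hM1
  have hkM : k ≤ M := by
    have : (k : ℝ) ≤ M := hk2.trans (by nlinarith)
    exact_mod_cast this
  have hlM : l ≤ M := by
    have : (l : ℝ) ≤ M := hl2.trans (by nlinarith)
    exact_mod_cast this
  have hQb : ∀ j, Q01 e j < b := by
    intro j
    unfold Q01
    split_ifs <;> omega
  have hcO := cnt01 hb hk1 hk2 hkM
  have hcE := cnt01 hb hl1 hl2 hlM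
  have hEq := Cl_eq hb he hkM hlM
  have hcd := Cl_card hb he hkM hlM
  have hpos : 0 < (Cl b M e k l).ncard := by
    rw [hcd]
    exact Nat.mul_pos (Nat.choose_pos hkM) (Nat.choose_pos hlM)
  obtain ⟨n0, hn0⟩ := Set.nonempty_of_ncard_ne_zero hpos.ne'
  have hn0' := hn0
  rw [hEq, mem_coe] at hn0'
  have hcop0 : n0.Coprime (b * (b ^ 2 - 1)) := by
    obtain ⟨m1, m2⟩ := Cl_mod hb he hkM hlM hn0
    apply Nat.Coprime.mul_right
    · unfold Nat.Coprime
      rw [m2.gcd_eq]
      exact Nat.gcd_one_left b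
    · unfold Nat.Coprime
      rw [m1.gcd_eq]
      exact hcop
  have h3 := h1 (2 * M + 1) (Q01 e) (k01 M k) (k01 M l) (by omega) (by omega) hQb hcO hcE ⟨n0, hn0', fun h hh => by
    rw [mem_singleton] at hh
    rw [hh, Nat.add_zero]
    exact hcop0⟩
  have h4 := h2 (2 * M + 1) (Q01 e) (k01 M k) (k01 M l) (by omega) hQb hcO hcE
  have hc2 : ((PalS b (2 * M + 1) M (Q01 e) (k01 M k) (k01 M l)).card : ℝ) = M.choose k * M.choose l := by
    rw [hEq, Set.ncard_coe_finset] at hcd
    rw [hcd]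
    push_cast
    rfl
  rw [hc2, pow_one] at h3 h4
  constructor
  · refine h3.trans (le_of_eq ?_)
    rw [← Set.ncard_coe_finset]
    congr 2
    ext n
    rw [mem_coe, mem_filter, Set.mem_ofPred_eq, hEq, mem_coe]
    simp only [mem_singleton, forall_eq, Nat.add_zero]
  · refine le_trans ?_ h4
    rw [← Set.ncard_coe_finset, Nat.cast_le]
    apply Set.ncard_le_ncard _ (finite_toSet _)
    rintro n ⟨hn1, hn2⟩
    rw [mem_coe, mem_filter]
    have hn3 := hn1
    rw [hEq, mem_coe] at hn3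
    refine ⟨hn3, fun h hh p hp hd => ?_⟩
    rw [mem_singleton] at hh
    rw [hh, Nat.add_zero] at hd
    have h5 := (Nat.prime_dvd_prime_iff_eq hp hn2).1 hd
    rw [h5, pow_one]
    have h6 := hn1.1.1
    calc b ^ M < b ^ (2 * (2 * M + 1)) := Nat.pow_lt_pow_right (by omega) (by omega)
      _ ≤ n := h6

end Pool.Agent.H679.DC
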