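import Pool.Agent.H679.DC.Bin
import Pool.Agent.H679.DC.Pb

/-!
# Almost primes `p`, `(p + 1) / 2` with prescribed binary digit sums in all intervals `[N, 2 N]`
-/

set_option autoImplicit false

namespace Pool.Agent.H679.DC

open Finset Filter
open Pool.Agent.H373R2.T7 Pool.Agent.H410R2.ED Pool.Agent.W123.RP

/-- `p` is odd and divides `m + 1` or `2 m + 1`, where `m = β x + c` -/
def QL (β c p x : ℕ) : Prop := ¬ p ∣ 2 ∧ (p ∣ (β * x + c) + 1 ∨ p ∣ 2 * (β * x + c) + 1)

lemma QL_per (β c p x : ℕ) : QL β c p x ↔ QL β c p (x % p) := by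
  unfold QL
  apply and_congr_right
  intro _
  have h : (β * x + c) ≡ (β * (x % p) + c) [MOD p] :=
    ((Nat.mod_modEq x p).symm.mul_left β).add_right c
  rw [(h.add_right 1).dvd_iff dvd_rfl, ((h.mul_left 2).add_right 1).dvd_iff dvd_rfl]

lemma nuH02 {p : ℕ} (hp : p.Prime) : nuH {0, 2} p = if p = 2 then 1 else 2 := by
  classical
  unfold nuH
  split_ifs with h
  · subst h
    decide
  · have hp3 : 3 ≤ p := by
      have := hp.two_le
      omega
    have : (range p).filter (fun n => ∃ h ∈ ({0, 2} : Finset ℕ), p ∣ n + h) = {0, p - 2} := by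
      ext n
      rw [mem_filter, mem_range, mem_insert, mem_singleton]
      constructor
      · rintro ⟨h1, h2, h3, h4⟩
        rw [mem_insert, mem_singleton] at h3
        rcases h3 with rfl | rfl
        · left
          rw [Nat.add_zero] at h4
          exact Nat.eq_zero_of_dvd_of_lt h4 h1
        · right
          obtain ⟨q, hq⟩ := h4
          have hq2 : q < 2 := by
            by_contra hcon
            have : p * 2 ≤ p * q := Nat.mul_le_mul_left _ (by omega)
            omega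
          interval_cases q
          · omega
          · omega
      · rintro (rfl | rfl)
        · exact ⟨by omega, 0, by simp, by simp⟩
        · refine ⟨by omega, 2, by simp, ?_⟩
          rw [Nat.sub_add_cancel (by omega)]
    rw [this, card_pair (by omega)]

lemma nuL {p : ℕ} (hp : p.Prime) [DecidablePred (fun n => p ∣ n + 1 ∨ p ∣ 2 * n + 1)] :
    ((range p).filter (fun n => p ∣ n + 1 ∨ p ∣ 2 * n + 1)).card = if p = 2 then 1 else 2 := by
  split_ifs with h
  · subst h
    have : (range 2).filter (fun n => 2 ∣ n + 1 ∨ 2 ∣ 2 * n + 1) = {1} := by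
      ext n
      rw [mem_filter, mem_range, mem_singleton]
      omega
    rw [this, card_singleton]
  · have hp3 : 3 ≤ p := by
      have := hp.two_le
      omega
    have hodd : p % 2 = 1 := by
      rcases hp.eq_two_or_odd with h2 | h2
      · exact absurd h2 h
      · exact h2
    have : (range p).filter (fun n => p ∣ n + 1 ∨ p ∣ 2 * n + 1) = {p - 1, (p - 1) / 2} := by
      ext n
      rw [mem_filter, mem_range, mem_insert, mem_singleton]
      constructor
      · rintro ⟨h1, h4 | h4⟩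
        · left
          have := Nat.le_of_dvd (by omega) h4
          omega
        · right
          obtain ⟨q, hq⟩ := h4
          have hq2 : q < 2 := by
            by_contra hcon
            have : p * 2 ≤ p * q := Nat.mul_le_mul_left _ (by omega)
            omega
          interval_cases q
          · omega
          · omega
      · rintro (rfl | rfl)
        · refine ⟨by omega, Or.inl ?_⟩
          rw [Nat.sub_add_cancel (by omega)]
        · refine ⟨by omega, Or.inr ?_⟩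
          have : 2 * ((p - 1) / 2) + 1 = p := by omega
          rw [this]
    rw [this, card_pair (by omega)]

lemma nuB_QL {t : ℕ} (c : ℕ) {p : ℕ} (hp : p.Prime) :
    nuB (QL (2 ^ t) c) p = nuB (QT 2 {0, 2} (2 ^ t) c) p := by
  classical
  rw [nuB_QT {0, 2} c hp]
  unfold nuB
  split_ifs with h
  · rw [card_eq_zero, filter_eq_empty_iff]
    intro x _ hx
    exact hx.1 h
  · have hp2 : p ≠ 2 := by
      rintro rfl
      exact h dvd_rfl
    rw [nuH02 hp, ← nuL hp, ← nu_affine hp (2 ^ t) c (fun hd => h (hp.dvd_of_dvd_pow hd))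
      (fun n => p ∣ n + 1 ∨ p ∣ 2 * n + 1)
      (fun n => by
        have h1 : n ≡ n % p [MOD p] := (Nat.mod_modEq n p).symm
        rw [(h1.add_right 1).dvd_iff dvd_rfl, ((h1.mul_left 2).add_right 1).dvd_iff dvd_rfl])]
    congr 1
    apply filter_congr
    intro x _
    unfold QL
    exact ⟨fun hx => hx.2, fun hx => ⟨h, hx⟩⟩

lemma QL_B {t : ℕ} (c : ℕ) : PerB (QL (2 ^ t) c) 2 :=
  ⟨fun p n => QL_per _ _ _ _, fun p hp => by
    rw [nuB_QL c hp, nuB_QT {0, 2} c hp]
    split_ifs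
    · exact Nat.zero_le _
    · rw [nuH02 hp]
      split_ifs <;> omega⟩

lemma QL_lt {t : ℕ} (c : ℕ) {p : ℕ} (hp : p.Prime) : nuB (QL (2 ^ t) c) p < p := by
  rw [nuB_QL c hp]
  exact QT_lt adm02 c hp

lemma Vq_QL (t c N : ℕ) : Vq (QL (2 ^ t) c) N = Vq (QT 2 {0, 2} (2 ^ t) c) N := by
  unfold Vq
  apply prod_congr rfl
  intro p hp
  rw [nuB_QL c (mem_pz.1 hp).2]

open Classical in
/-- **Lower bound** -/
theorem lin_lower {ε : ℝ} (hε : 0 < ε) (hε1 : ε ≤ 1) (D : ℕ) :
    ∃ r : ℕ, 2 ≤ r ∧ ∃ κ : ℝ, 0 < κ ∧ ∀ᶠ L : ℕ in atTop, ∀ k : ℕ → ℕ, Cnt 2 ε L k → ∀ t c : ℕ,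
      1 ≤ t → t ≤ D * L → c ≤ 2 ^ (D * L) → Even c →
      κ * (tc 2 L k).card / (L : ℝ) ^ 2 ≤
        (((tc 2 L k).filter (fun x =>
          (∀ p : ℕ, p.Prime → p ∣ (2 ^ t * x + c) + 1 ∨ p ∣ 2 * (2 ^ t * x + c) + 1 → 2 ^ L < p ^ r) ∧
          ((2 ^ t * x + c) + 1).primeFactorsList.length ≤ r ∧
          (2 * (2 ^ t * x + c) + 1).primeFactorsList.length ≤ r)).card : ℝ) := by
  obtain ⟨E0, hE0, κ, hκ, hlow⟩ := uni_lower (le_refl 2) hε hε1 2 (by norm_num)
  obtain ⟨v, Cv, hv, hCv, hV⟩ := V_bds {0, 2} adm02 (le_refl 2)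
  have hcard : ({0, 2} : Finset ℕ).card = 2 := by decide
  rw [hcard] at hV
  obtain ⟨r, hr⟩ : ∃ r, r = (D + 3) * E0 + 2 := ⟨_, rfl⟩
  refine ⟨r, by omega, κ * v, by positivity, ?_⟩
  filter_upwards [hlow, hV, eventually_ge_atTop 3] with L hL1 hL2 hL3
  intro k hk t c ht htD hc hcE
  have h1 := hL1 (QL (2 ^ t) c) (QL_B c) (fun p hp => QL_lt c hp) k hk (by
    intro p hp hpb x hx hq
    have h2 : 2 * (2 - 1) = 2 := by norm_num
    rw [h2] at hpb
    exact hq.1 hpb)
  have h2 := (hL2 t c).1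
  rw [← Vq_QL] at h2
  have hX : (0 : ℝ) ≤ (tc 2 L k).card := Nat.cast_nonneg _
  calc κ * v * (tc 2 L k).card / (L : ℝ) ^ 2 = κ * (tc 2 L k).card * (v / (L : ℝ) ^ 2) := by ring
    _ ≤ κ * (tc 2 L k).card * Vq (QL (2 ^ t) c) (2 ^ L) :=
        mul_le_mul_of_nonneg_left h2 (by positivity)
    _ ≤ _ := h1
    _ ≤ _ := by
        rw [Nat.cast_le]
        apply card_le_card
        intro x hx
        rw [mem_filter] at hx ⊢
        have hxb : x < 2 ^ L := tc_lt hx.1
        obtain ⟨m, hm⟩ : ∃ m, m = 2 ^ t * x + c := ⟨_, rfl⟩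
        have hmE : m % 2 = 0 := by
          obtain ⟨s, rfl⟩ := Nat.exists_eq_add_of_le ht
          rw [hm, pow_add, pow_one, mul_assoc]
          have := Nat.even_iff.1 hcE
          omega
        have hpr : ∀ p : ℕ, p.Prime → p ∣ m + 1 ∨ p ∣ 2 * m + 1 → 2 ^ L < p ^ E0 := by
          intro p hp hd
          by_contra hcon
          push Not at hcon
          apply hx.2 p hp hcon
          refine ⟨fun hpb => ?_, by rw [← hm]; exact hd⟩
          have hp2 : p = 2 := (Nat.prime_dvd_prime_iff_eq hp Nat.prime_two).1 hpb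
          subst hp2
          rcases hd with hd | hd <;> omega
        have hsize : 2 * m + 1 ≤ 2 ^ ((D + 3) * L) := by
          have h3 : 2 ^ t * x ≤ 2 ^ (D * L) * 2 ^ L :=
            Nat.mul_le_mul (Nat.pow_le_pow_right (by norm_num) htD) hxb.le
          have h6 : 8 ≤ 2 ^ L := by
            calc 8 = 2 ^ 3 := by norm_num
              _ ≤ 2 ^ L := Nat.pow_le_pow_right (by norm_num) (by omega)
          have h7 : 1 ≤ 2 ^ (D * L) := Nat.one_le_pow _ _ (by norm_num)
          have h8 : 2 ^ ((D + 3) * L) = 2 ^ (D * L) * 2 ^ L * (2 ^ L * 2 ^ L) := by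
            rw [← pow_add, ← pow_add, ← pow_add]; congr 1; ring
          rw [h8, hm]
          obtain ⟨Y, hY⟩ : ∃ Y, Y = 2 ^ (D * L) := ⟨_, rfl⟩
          obtain ⟨Z, hZ⟩ : ∃ Z, Z = 2 ^ L := ⟨_, rfl⟩
          rw [← hY] at h3 h7 hc ⊢
          rw [← hZ] at h3 h6 ⊢
          have h9 : Y * Z * 64 ≤ Y * Z * (Z * Z) := Nat.mul_le_mul_left _ (by nlinarith)
          have h10 : Y ≤ Y * Z := Nat.le_mul_of_pos_right _ (by omega)
          have h11 : Z ≤ Y * Z := Nat.le_mul_of_pos_left _ (by omega)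
          omega
        rw [← hm]
        refine ⟨hx.1, fun p hp hd => ?_, ?_, ?_⟩
        · refine lt_of_lt_of_le (hpr p hp hd) (Nat.pow_le_pow_right hp.pos ?_)
          rw [hr]
          nlinarith
        · have h3 := length_le (le_refl 2) (by omega) (by omega : m + 1 ≠ 0) (le_trans (by omega) hsize)
            (fun p hp hd => hpr p hp (Or.inl hd))
          omega
        · have h3 := length_le (le_refl 2) (by omega) (by omega : 2 * m + 1 ≠ 0) hsize
            (fun p hp hd => hpr p hp (Or.inr hd))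
          omega

open Classical in
/-- **Upper bound** -/
theorem lin_upper {ε : ℝ} (hε : 0 < ε) (hε1 : ε ≤ 1) (r : ℕ) (hr : 1 ≤ r) :
    ∃ C : ℝ, 0 < C ∧ ∀ᶠ L : ℕ in atTop, ∀ k : ℕ → ℕ, Cnt 2 ε L k → ∀ t c : ℕ,
      (((tc 2 L k).filter (fun x => ∀ p : ℕ, p.Prime → p ∣ (2 ^ t * x + c) + 1 ∨ p ∣ 2 * (2 ^ t * x + c) + 1 →
        2 ^ L < p ^ r)).card : ℝ) ≤ C * (tc 2 L k).card / (L : ℝ) ^ 2 := by
  obtain ⟨C, hC, hup⟩ := uni_upper (le_refl 2) hε hε1 2 (by norm_num) r hr
  obtain ⟨v, Cv, hv, hCv, hV⟩ := V_bds {0, 2} adm02 (le_refl 2)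
  have hcard : ({0, 2} : Finset ℕ).card = 2 := by decide
  rw [hcard] at hV
  refine ⟨C * Cv, by positivity, ?_⟩
  filter_upwards [hup, hV] with L hL1 hL2
  intro k hk t c
  have h1 := hL1 (QL (2 ^ t) c) (QL_B c) (fun p hp => QL_lt c hp) k hk
  have h2 := (hL2 t c).2
  rw [← Vq_QL] at h2
  calc _ ≤ (((tc 2 L k).filter (fun x => ∀ p : ℕ, p.Prime → p ^ r ≤ 2 ^ L → ¬ QL (2 ^ t) c p x)).card : ℝ) := by
        rw [Nat.cast_le]
        apply card_le_card
        intro x hx
        rw [mem_filter] at hx ⊢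
        refine ⟨hx.1, fun p hp hpr hq => ?_⟩
        have := hx.2 p hp hq.2
        omega
    _ ≤ C * (tc 2 L k).card * Vq (QL (2 ^ t) c) (2 ^ L) := h1
    _ ≤ C * (tc 2 L k).card * (Cv / (L : ℝ) ^ 2) := mul_le_mul_of_nonneg_left h2 (by positivity)
    _ = _ := by ring

end Pool.Agent.H679.DC
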