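import Pool.Agent.H679.DC.Li

/-!
# Almost primes `p`, `(p + 1) / 2` with prescribed binary digit sums in all intervals `[N, 2 N]`
-/

set_option autoImplicit false

namespace Pool.Agent.H679.DC

open Finset Filter

lemma s2_split (a : ℕ) : ∀ y z : ℕ, z < 2 ^ a → s2 (2 ^ a * y + z) = s2 y + s2 z := by
  induction a with
  | zero =>
    intro y z hz
    have : z = 0 := by rw [pow_zero] at hz; omega
    subst this
    simp [s2]
  | succ a ih =>
    intro y z hz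
    have h1 : z = 2 * (z / 2) + z % 2 := (Nat.div_add_mod z 2).symm
    have h2 : z / 2 < 2 ^ a := by rw [pow_succ] at hz; omega
    have h3 : 2 ^ (a + 1) * y + z = 2 * (2 ^ a * y + z / 2) + z % 2 := by
      rw [pow_succ]
      have : 2 ^ a * 2 * y = 2 * (2 ^ a * y) := by ring
      omega
    have h4 : s2 z = s2 (z / 2) + z % 2 := by
      conv_lhs => rw [h1]
      exact s2_add (Nat.mod_lt _ (by norm_num))
    rw [h3, s2_add (Nat.mod_lt _ (by norm_num)), ih y _ h2, h4]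
    ring

lemma s2_one : s2 1 = 1 := by simp [s2]

lemma s2_three : s2 3 = 2 := by
  have := s2_add (m := 1) (e := 1) (by norm_num)
  rw [s2_one] at this
  exact this

lemma choose_step {n k : ℕ} {δ : ℝ} (hδ : 0 < δ) (hn : 1 ≤ n) (hk : 1 ≤ k) (h : δ * n ≤ k) :
    (n.choose k : ℝ) ≤ 1 / δ * ((n - 1).choose (k - 1) : ℝ) := by
  obtain ⟨n', rfl⟩ := Nat.exists_eq_add_of_le' hn
  obtain ⟨k', rfl⟩ := Nat.exists_eq_add_of_le' hk
  have h1 := Nat.add_one_mul_choose_eq n' k'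
  have h2 : ((n' + 1 : ℕ) : ℝ) * (n'.choose k' : ℝ) = ((n' + 1).choose (k' + 1) : ℝ) * ((k' + 1 : ℕ) : ℝ) := by
    exact_mod_cast h1
  rw [Nat.add_sub_cancel, Nat.add_sub_cancel]
  have hn0 : (0 : ℝ) < ((n' + 1 : ℕ) : ℝ) := by positivity
  rw [one_div, ← div_eq_inv_mul, le_div_iff₀ hδ]
  have h3 : ((n' + 1).choose (k' + 1) : ℝ) * (δ * ((n' + 1 : ℕ) : ℝ)) ≤
      ((n' + 1).choose (k' + 1) : ℝ) * ((k' + 1 : ℕ) : ℝ) := mul_le_mul_of_nonneg_left h (Nat.cast_nonneg _)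
  rw [← h2] at h3
  have h4 : ((n' + 1).choose (k' + 1) : ℝ) * δ * ((n' + 1 : ℕ) : ℝ) ≤ (n'.choose k' : ℝ) * ((n' + 1 : ℕ) : ℝ) := by
    linarith
  exact le_of_mul_le_mul_right h4 hn0

lemma choose_back {n k : ℕ} {ε : ℝ} (hε : 0 < ε) (hn : 1 ≤ n) (hk : 1 ≤ k) (hk2 : (k : ℝ) ≤ (1 - ε) * n) :
    (n.choose (k - 1) : ℝ) ≤ 1 / ε * (n.choose k : ℝ) := by
  obtain ⟨k', rfl⟩ := Nat.exists_eq_add_of_le' hk
  rw [Nat.add_sub_cancel]
  have hn0 : (0 : ℝ) < n := by exact_mod_cast hn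
  have hkn : k' + 1 ≤ n := by
    have : ((k' + 1 : ℕ) : ℝ) ≤ n := hk2.trans (by nlinarith)
    exact_mod_cast this
  have h1 := Nat.choose_succ_right_eq n k'
  have h2 : (n.choose (k' + 1) : ℝ) * ((k' + 1 : ℕ) : ℝ) = (n.choose k' : ℝ) * ((n : ℝ) - k') := by
    rw [← Nat.cast_sub (by omega)]
    exact_mod_cast h1
  rw [one_div, ← div_eq_inv_mul, le_div_iff₀ hε]
  have h3 : ε * n ≤ (n : ℝ) - k' := by
    push_cast at hk2
    linarith
  have h4 : ((k' + 1 : ℕ) : ℝ) ≤ n := by exact_mod_cast hkn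
  have h5 : (n.choose k' : ℝ) * (ε * n) ≤ (n.choose k' : ℝ) * ((n : ℝ) - k') :=
    mul_le_mul_of_nonneg_left h3 (Nat.cast_nonneg _)
  have h6 : (n.choose (k' + 1) : ℝ) * ((k' + 1 : ℕ) : ℝ) ≤ (n.choose (k' + 1) : ℝ) * n :=
    mul_le_mul_of_nonneg_left h4 (Nat.cast_nonneg _)
  have h7 : (n.choose k' : ℝ) * ε * n ≤ (n.choose (k' + 1) : ℝ) * n := by linarith
  exact le_of_mul_le_mul_right h7 hn0

lemma s2_tc {L k x : ℕ} (hk : k ≤ L) (hx : x ∈ tc 2 L (k01 L k)) : s2 x = k := by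
  rw [mem_tc01 (le_refl 2) hk] at hx
  rw [s2_eq L x hx.1]
  exact hx.2.2

/-- `n` has at most `r` prime factors, all of them greater than `Y ^ (1 / r)` -/
def APr (Y r n : ℕ) : Prop := (∀ p : ℕ, p.Prime → p ∣ n → Y < p ^ r) ∧ n.primeFactorsList.length ≤ r

/-- the block -/
lemma block {N n : ℕ} (h1 : 2 ^ n ≤ N) (h2 : N < 2 ^ (n + 1)) (hn : 4 ≤ n) :
    ∃ L c j : ℕ, (L = n - j) ∧ (j = 2 ∨ j = 3) ∧ Even c ∧ c ≤ 2 ^ n ∧
      ∀ x < 2 ^ L, N ≤ 2 * (2 ^ 1 * x + c) + 1 ∧ 2 * (2 ^ 1 * x + c) + 1 ≤ 2 * N ∧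
        s2 (2 * (2 ^ 1 * x + c) + 1) = s2 x + j ∧ s2 ((2 ^ 1 * x + c) + 1) = s2 x + j := by
  obtain ⟨a, rfl⟩ := Nat.exists_eq_add_of_le' hn
  have e4 : 2 ^ (a + 4) = 16 * 2 ^ a := by rw [pow_add]; ring
  have e5 : 2 ^ (a + 4 + 1) = 32 * 2 ^ a := by rw [pow_succ, e4]; ring
  have ha : 0 < 2 ^ a := by positivity
  rw [e4] at h1
  rw [e5] at h2
  obtain ⟨A, hA⟩ : ∃ A, A = 2 ^ a := ⟨_, rfl⟩
  have e1 : 2 ^ (a + 1) = 2 * A := by rw [pow_succ, hA]; ring
  have e2 : 2 ^ (a + 2) = 4 * A := by rw [pow_add, hA]; ring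
  have e3 : 2 ^ (a + 3) = 8 * A := by rw [pow_add, hA]; ring
  rw [← hA] at ha h1 h2 e4 e5
  have h21 : (2 : ℕ) ^ 1 = 2 := pow_one 2
  rcases Nat.lt_or_ge (3 * 16 * A) (2 * N) with h | h
  · refine ⟨a + 2, 16 * A, 2, by omega, Or.inl rfl, ⟨8 * A, by ring⟩, by rw [e4], ?_⟩
    intro x hx
    rw [e2] at hx
    rw [h21]
    have hs : s2 (2 * x) = s2 x := by
      have := s2_add (m := x) (e := 0) (by norm_num)
      simpa using this
    refine ⟨by omega, by omega, ?_, ?_⟩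
    · have k1 : 2 * (2 * x + 16 * A) + 1 = 2 ^ (a + 4 + 1) * 1 + (2 * (2 * x) + 1) := by rw [e5]; ring
      rw [k1, s2_split _ _ _ (by rw [e5]; omega), s2_one, s2_add (by norm_num), hs]
      ring
    · have k1 : (2 * x + 16 * A) + 1 = 2 ^ (a + 4) * 1 + (2 * x + 1) := by rw [e4]; ring
      rw [k1, s2_split _ _ _ (by rw [e4]; omega), s2_one, s2_add (by norm_num)]
      ring
  · refine ⟨a + 1, 12 * A, 3, by omega, Or.inr rfl, ⟨6 * A, by ring⟩, by rw [e4]; omega, ?_⟩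
    intro x hx
    rw [e1] at hx
    rw [h21]
    have hs : s2 (2 * x) = s2 x := by
      have := s2_add (m := x) (e := 0) (by norm_num)
      simpa using this
    refine ⟨by omega, by omega, ?_, ?_⟩
    · have k1 : 2 * (2 * x + 12 * A) + 1 = 2 ^ (a + 3) * 3 + (2 * (2 * x) + 1) := by rw [e3]; ring
      rw [k1, s2_split _ _ _ (by rw [e3]; omega), s2_three, s2_add (by norm_num), hs]
      ring
    · have k1 : (2 * x + 12 * A) + 1 = 2 ^ (a + 2) * 3 + (2 * x + 1) := by rw [e2]; ring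
      rw [k1, s2_split _ _ _ (by rw [e2]; omega), s2_three, s2_add (by norm_num)]
      ring

/-- **Almost primes `p`, `(p + 1) / 2` with the same prescribed digit sum in every interval `[N, 2 N]`** -/
theorem half_primes (ε : ℝ) (hε : 0 < ε) (hε1 : ε ≤ 1) : ∃ r : ℕ, ∃ κ C : ℝ, 0 < κ ∧ 0 < C ∧
    ∀ᶠ N : ℕ in atTop, ∀ k : ℕ, ε * Nat.log 2 N ≤ k → (k : ℝ) ≤ (1 - ε) * Nat.log 2 N →
      κ * (Nat.log 2 N).choose k / (Nat.log 2 N : ℝ) ^ 2 ≤
        (Set.ncard {p | N ≤ p ∧ p ≤ 2 * N ∧ s2 p = k ∧ s2 ((p + 1) / 2) = k ∧ APr N r p ∧ APr N r ((p + 1) / 2)} : ℝ) ∧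
      (Set.ncard {p | N ≤ p ∧ p ≤ 2 * N ∧ s2 p = k ∧ p.Prime ∧ ((p + 1) / 2).Prime} : ℝ) ≤
        C * (Nat.log 2 N).choose k / (Nat.log 2 N : ℝ) ^ 2 := by
  classical
  have hε2 : 0 < ε / 2 := by positivity
  obtain ⟨r1, hr1, κ, hκ, hlow⟩ := lin_lower hε2 (by linarith) 2
  obtain ⟨C, hC, hup⟩ := lin_upper hε2 (by linarith) 2 (by norm_num)
  obtain ⟨L0, hL0⟩ := eventually_atTop.1 (hlow.and hup)
  obtain ⟨r, hr⟩ : ∃ r, r = 2 * r1 := ⟨_, rfl⟩
  refine ⟨r, κ * (ε / 2) ^ 3, C * (1 / ε), by positivity, by positivity, ?_⟩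
  have hlog : Tendsto (fun N : ℕ => Nat.log 2 N) atTop atTop := by
    apply Filter.tendsto_atTop.2
    intro b
    filter_upwards [eventually_ge_atTop (2 ^ b)] with N hN
    exact (Nat.le_log_iff_pow_le (by norm_num) (by
      have : 0 < 2 ^ b := by positivity
      omega)).2 hN
  filter_upwards [hlog.eventually (eventually_ge_atTop (L0 + 10)),
    (tendsto_natCast_atTop_atTop.comp hlog).eventually_ge_atTop (12 / ε), eventually_ge_atTop 1] with N hn1 hn2 hN1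
  intro k hk1 hk2
  obtain ⟨n, hn⟩ : ∃ n, n = Nat.log 2 N := ⟨_, rfl⟩
  simp only [Function.comp] at hn2
  rw [← hn] at hn1 hn2 hk1 hk2 ⊢
  have hn2' : 12 ≤ ε * n := by
    rw [div_le_iff₀ hε] at hn2
    linarith
  have hnr : (10 : ℝ) ≤ n := by exact_mod_cast (by omega : 10 ≤ n)
  have hNlo : 2 ^ n ≤ N := by rw [hn]; exact Nat.pow_log_le_self 2 (by omega)
  have hNhi : N < 2 ^ (n + 1) := by rw [hn]; exact Nat.lt_pow_succ_log_self (by norm_num) N
  have hk12 : 12 ≤ k := by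
    have : (12 : ℝ) ≤ k := by linarith
    exact_mod_cast this
  have hkn : k ≤ n := by
    have : (k : ℝ) ≤ n := hk2.trans (by nlinarith)
    exact_mod_cast this
  constructor
  · obtain ⟨L, c, j, hL, hj, hcE, hcn, hx⟩ := block hNlo hNhi (by omega)
    have hj3 : j ≤ 3 := by omega
    have hj2 : 2 ≤ j := by omega
    have hLn : L ≤ n := by omega
    have hLr : (L : ℝ) = n - j := by rw [hL, Nat.cast_sub (by omega)]
    have hjr : (j : ℝ) ≤ 3 := by exact_mod_cast hj3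
    have hj0 : (0 : ℝ) ≤ j := Nat.cast_nonneg _
    have hkj : ((k - j : ℕ) : ℝ) = k - j := by rw [Nat.cast_sub (by omega)]
    have hkL : k - j ≤ L := by omega
    have hcnt : Cnt 2 (ε / 2) L (k01 L (k - j)) := cnt01 (le_refl 2)
      (by rw [hkj, hLr]; nlinarith) (by rw [hkj, hLr]; nlinarith) hkL
    have h3 := (hL0 L (by omega)).1 (k01 L (k - j)) hcnt 1 c (le_refl 1) (by omega)
      (hcn.trans (Nat.pow_le_pow_right (by norm_num) (by omega))) hcE
    rw [card_tc01 (le_refl 2) hkL] at h3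
    have hLpos : (0 : ℝ) < L := by
      have : 0 < L := by omega
      exact_mod_cast this
    -- the binomial coefficients
    have hbin : (n.choose k : ℝ) * (ε / 2) ^ 3 ≤ (L.choose (k - j) : ℝ) := by
      have s1 := choose_step (n := n) (k := k) hε2 (by omega) (by omega) (by linarith)
      have s2 := choose_step (n := n - 1) (k := k - 1) hε2 (by omega) (by omega) (by
        rw [Nat.cast_sub (by omega), Nat.cast_sub (by omega)]
        push_cast
        nlinarith)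
      have s3 := choose_step (n := n - 1 - 1) (k := k - 1 - 1) hε2 (by omega) (by omega) (by
        rw [Nat.sub_sub, Nat.sub_sub, Nat.cast_sub (by omega), Nat.cast_sub (by omega)]
        push_cast
        nlinarith)
      have hi : 0 < 1 / (ε / 2) := by positivity
      have hi1 : ε / 2 ≤ 1 := by linarith
      have t1 : (n.choose k : ℝ) * (ε / 2) ≤ ((n - 1).choose (k - 1) : ℝ) := by
        rw [one_div, ← div_eq_inv_mul, le_div_iff₀ hε2] at s1
        exact s1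
      have t2 : ((n - 1).choose (k - 1) : ℝ) * (ε / 2) ≤ ((n - 1 - 1).choose (k - 1 - 1) : ℝ) := by
        rw [one_div, ← div_eq_inv_mul, le_div_iff₀ hε2] at s2
        exact s2
      have t3 : ((n - 1 - 1).choose (k - 1 - 1) : ℝ) * (ε / 2) ≤ ((n - 1 - 1 - 1).choose (k - 1 - 1 - 1) : ℝ) := by
        rw [one_div, ← div_eq_inv_mul, le_div_iff₀ hε2] at s3
        exact s3
      have u2 : (n.choose k : ℝ) * (ε / 2) ^ 2 ≤ ((n - 1 - 1).choose (k - 1 - 1) : ℝ) := by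
        calc (n.choose k : ℝ) * (ε / 2) ^ 2 = ((n.choose k : ℝ) * (ε / 2)) * (ε / 2) := by ring
          _ ≤ ((n - 1).choose (k - 1) : ℝ) * (ε / 2) := mul_le_mul_of_nonneg_right t1 hε2.le
          _ ≤ _ := t2
      rcases hj with rfl | rfl
      · have e1 : L = n - 1 - 1 := by omega
        have e2 : k - 2 = k - 1 - 1 := by omega
        rw [e1, e2]
        refine le_trans ?_ u2
        apply mul_le_mul_of_nonneg_left _ (Nat.cast_nonneg _)
        nlinarith [pow_pos hε2 2]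
      · have e1 : L = n - 1 - 1 - 1 := by omega
        have e2 : k - 3 = k - 1 - 1 - 1 := by omega
        rw [e1, e2]
        calc (n.choose k : ℝ) * (ε / 2) ^ 3 = ((n.choose k : ℝ) * (ε / 2) ^ 2) * (ε / 2) := by ring
          _ ≤ ((n - 1 - 1).choose (k - 1 - 1) : ℝ) * (ε / 2) := mul_le_mul_of_nonneg_right u2 hε2.le
          _ ≤ _ := t3
    -- comparison of the sets
    obtain ⟨T, hT⟩ : ∃ T, T = (tc 2 L (k01 L (k - j))).filter (fun x =>
          (∀ p : ℕ, p.Prime → p ∣ (2 ^ 1 * x + c) + 1 ∨ p ∣ 2 * (2 ^ 1 * x + c) + 1 → 2 ^ L < p ^ r1) ∧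
          ((2 ^ 1 * x + c) + 1).primeFactorsList.length ≤ r1 ∧
          (2 * (2 ^ 1 * x + c) + 1).primeFactorsList.length ≤ r1) := ⟨_, rfl⟩
    rw [← hT] at h3
    have hsub : (T.image (fun x => 2 * (2 ^ 1 * x + c) + 1) : Set ℕ) ⊆
        {p | N ≤ p ∧ p ≤ 2 * N ∧ s2 p = k ∧ s2 ((p + 1) / 2) = k ∧ APr N r p ∧ APr N r ((p + 1) / 2)} := by
      intro p hp
      rw [mem_coe, mem_image] at hp
      obtain ⟨x, hxT, rfl⟩ := hp
      rw [hT, mem_filter] at hxT
      obtain ⟨hx1, hx2, hx3, hx4⟩ := hxT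
      have hxL := tc_lt hx1
      obtain ⟨y1, y2, y3, y4⟩ := hx x hxL
      have hsx := s2_tc hkL hx1
      have hhalf : (2 * (2 ^ 1 * x + c) + 1 + 1) / 2 = (2 ^ 1 * x + c) + 1 := by omega
      have hbig : ∀ q : ℕ, 2 ^ L < q ^ r1 → N < q ^ r := by
        intro q hq
        calc N < 2 ^ (n + 1) := hNhi
          _ ≤ 2 ^ (L * 2) := Nat.pow_le_pow_right (by norm_num) (by omega)
          _ = (2 ^ L) ^ 2 := pow_mul _ _ _
          _ < (q ^ r1) ^ 2 := Nat.pow_lt_pow_left hq (by norm_num)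
          _ = q ^ r := by rw [← pow_mul, hr, mul_comm]
      refine ⟨y1, y2, by rw [y3, hsx]; omega, by rw [hhalf, y4, hsx]; omega, ⟨fun q hq hd => ?_, by omega⟩, ?_⟩
      · exact hbig q (hx2 q hq (Or.inr hd))
      · rw [hhalf]
        exact ⟨fun q hq hd => hbig q (hx2 q hq (Or.inl hd)), by omega⟩
    have hfin : {p | N ≤ p ∧ p ≤ 2 * N ∧ s2 p = k ∧ s2 ((p + 1) / 2) = k ∧ APr N r p ∧
        APr N r ((p + 1) / 2)}.Finite := (Set.finite_le_nat (2 * N)).subset (fun p hp => hp.2.1)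
    have hcardle := Set.ncard_le_ncard hsub hfin
    rw [Set.ncard_coe_finset, card_image_of_injective _ (fun x y hxy => by
      have hxy' : 2 * (2 ^ 1 * x + c) + 1 = 2 * (2 ^ 1 * y + c) + 1 := hxy
      omega)] at hcardle
    have hcardle' : (T.card : ℝ) ≤ (Set.ncard {p | N ≤ p ∧ p ≤ 2 * N ∧ s2 p = k ∧ s2 ((p + 1) / 2) = k ∧ APr N r p ∧
        APr N r ((p + 1) / 2)} : ℝ) := by exact_mod_cast hcardle
    refine le_trans ?_ (h3.trans hcardle')
    have hnpos : (0 : ℝ) < n := by linarith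
    have hLn' : (L : ℝ) ^ 2 ≤ (n : ℝ) ^ 2 := pow_le_pow_left₀ hLpos.le (by exact_mod_cast hLn) 2
    calc κ * (ε / 2) ^ 3 * (n.choose k : ℝ) / (n : ℝ) ^ 2 = κ * ((n.choose k : ℝ) * (ε / 2) ^ 3) / (n : ℝ) ^ 2 := by ring
      _ ≤ κ * (L.choose (k - j) : ℝ) / (n : ℝ) ^ 2 := by gcongr
      _ ≤ κ * (L.choose (k - j) : ℝ) / (L : ℝ) ^ 2 :=
          div_le_div_of_nonneg_left (by positivity) (by positivity) hLn'
  · have hcnt : Cnt 2 (ε / 2) n (k01 n (k - 1)) := cnt01 (le_refl 2)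
      (by rw [Nat.cast_sub (by omega)]; push_cast; nlinarith)
      (by rw [Nat.cast_sub (by omega)]; push_cast; nlinarith) (by omega)
    have h3 := (hL0 n (by omega)).2 (k01 n (k - 1)) hcnt 1 0
    rw [card_tc01 (le_refl 2) (by omega)] at h3
    obtain ⟨T, hT⟩ : ∃ T, T = (tc 2 n (k01 n (k - 1))).filter (fun x => ∀ p : ℕ, p.Prime →
      p ∣ (2 ^ 1 * x + 0) + 1 ∨ p ∣ 2 * (2 ^ 1 * x + 0) + 1 → 2 ^ n < p ^ 2) := ⟨_, rfl⟩
    rw [← hT] at h3
    have hN16 : 2 ^ 10 ≤ N := le_trans (Nat.pow_le_pow_right (by norm_num) (by omega)) hNlo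
    have hsub : {p | N ≤ p ∧ p ≤ 2 * N ∧ s2 p = k ∧ p.Prime ∧ ((p + 1) / 2).Prime} ⊆
        (T.image (fun x => 4 * x + 1) : Set ℕ) := by
      rintro p ⟨hp1, hp2, hp3, hp4, hp5⟩
      have hpodd : p % 2 = 1 := by
        rcases hp4.eq_two_or_odd with h | h
        · omega
        · exact h
      have hqodd : (p + 1) / 2 % 2 = 1 := by
        rcases hp5.eq_two_or_odd with h | h
        · omega
        · exact h
      rw [mem_coe, mem_image]
      refine ⟨p / 4, ?_, by omega⟩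
      have hp4x : p = 2 * (2 * (p / 4)) + 1 := by omega
      have hs1 : s2 p = s2 (p / 4) + 1 := by
        conv_lhs => rw [hp4x]
        rw [s2_add (by norm_num)]
        have := s2_add (m := p / 4) (e := 0) (by norm_num)
        simp only [Nat.add_zero] at this
        rw [this]
      have hxn : p / 4 < 2 ^ n := by
        have e1 : 2 ^ (n + 1) = 2 * 2 ^ n := by ring
        omega
      rw [hT, mem_filter, mem_tc01 (le_refl 2) (by omega)]
      refine ⟨⟨hxn, fun i _ => ?_, ?_⟩, fun q hq hd => ?_⟩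
      · have := Nat.mod_lt (p / 4 / 2 ^ i) (show 2 > 0 by norm_num)
        omega
      · rw [← s2_eq n _ hxn]
        omega
      · have e1 : (2 ^ 1 * (p / 4) + 0) + 1 = (p + 1) / 2 := by rw [pow_one]; omega
        have e2 : 2 * (2 ^ 1 * (p / 4) + 0) + 1 = p := by rw [pow_one]; omega
        rw [e1, e2] at hd
        have hqbig : 2 ^ n ≤ 2 * q := by
          rcases hd with hd | hd
          · have := (Nat.prime_dvd_prime_iff_eq hq hp5).1 hd
            omega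
          · have := (Nat.prime_dvd_prime_iff_eq hq hp4).1 hd
            omega
        have hqbig2 : 5 ≤ q := by
          have : 2 ^ 10 ≤ 2 ^ n := Nat.pow_le_pow_right (by norm_num) (by omega)
          omega
        nlinarith
    have hcardle := Set.ncard_le_ncard hsub (finite_toSet _)
    rw [Set.ncard_coe_finset] at hcardle
    have hcardle' : (Set.ncard {p | N ≤ p ∧ p ≤ 2 * N ∧ s2 p = k ∧ p.Prime ∧ ((p + 1) / 2).Prime} : ℝ) ≤ T.card := by
      exact_mod_cast hcardle.trans card_image_le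
    refine hcardle'.trans (h3.trans ?_)
    have hb := choose_back hε (by omega : 1 ≤ n) (by omega : 1 ≤ k) hk2
    have hnpos : (0 : ℝ) < n := by linarith
    calc C * (n.choose (k - 1) : ℝ) / (n : ℝ) ^ 2 ≤ C * (1 / ε * (n.choose k : ℝ)) / (n : ℝ) ^ 2 := by gcongr
      _ = _ := by ring

end Pool.Agent.H679.DC
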