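import Pool.Agent.H679.DC.Tup

/-!
# Almost prime tuples in the affine images of the sets of integers with prescribed numbers of digits
-/

set_option autoImplicit false

namespace Pool.Agent.H679.DC

open Finset Filter
open Pool.Agent.H373R2.T7 Pool.Agent.H410R2.ED Pool.Agent.W123.RP

/-! ### digit sums -/

lemma pow_mod_one {b p : ℕ} (hb : 1 ≤ b) (hp : p ∣ b - 1) (i : ℕ) : b ^ i ≡ 1 [MOD p] := by
  have h1 : b ≡ 1 [MOD p] := ((Nat.modEq_iff_dvd' hb).2 hp).symm
  have := h1.pow i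
  rwa [one_pow] at this

lemma mod_digits {b p : ℕ} (hb : 1 ≤ b) (hp : p ∣ b - 1) (x L : ℕ) :
    x % b ^ L ≡ ∑ i ∈ range L, x / b ^ i % b [MOD p] := by
  induction L with
  | zero => simp [Nat.mod_one]; rfl
  | succ L ih =>
    rw [Nat.mod_pow_succ, sum_range_succ]
    apply Nat.ModEq.add ih
    have := (pow_mod_one hb hp L).mul_right (x / b ^ L % b)
    rwa [one_mul] at this

lemma sum_digits_dc {b : ℕ} (hb : 0 < b) (x L : ℕ) :
    ∑ i ∈ range L, x / b ^ i % b = ∑ c ∈ range b, c * dc b L x c := by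
  rw [← sum_fiberwise_of_maps_to (s := range L) (t := range b) (g := fun i => x / b ^ i % b)
    (fun i _ => mem_range.2 (Nat.mod_lt _ hb))]
  apply sum_congr rfl
  intro c _
  unfold dc
  rw [mul_comm, ← smul_eq_mul, ← sum_const]
  apply sum_congr rfl
  intro i hi
  exact (mem_filter.1 hi).2

lemma mem_tc_mod {b p L : ℕ} (hb : 1 ≤ b) (hp : p ∣ b - 1) {k : ℕ → ℕ} {x : ℕ} (hx : x ∈ tc b L k) :
    x ≡ ∑ c ∈ range b, c * k c [MOD p] := by
  unfold tc at hx
  rw [mem_filter, mem_range] at hx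
  have h1 := mod_digits hb hp x L
  rw [Nat.mod_eq_of_lt hx.1, sum_digits_dc (by omega)] at h1
  have h2 : ∑ c ∈ range b, c * dc b L x c = ∑ c ∈ range b, c * k c := by
    apply sum_congr rfl
    intro c hc
    rw [hx.2 c (mem_range.1 hc)]
  rwa [h2] at h1

/-! ### the number of prime factors -/

lemma pow_length_le {y E : ℕ} (l : List ℕ) (h : ∀ p ∈ l, y ≤ p ^ E) : y ^ l.length ≤ l.prod ^ E := by
  induction l with
  | nil => simp
  | cons a l ih =>
    rw [List.length_cons, List.prod_cons, pow_succ, mul_pow, mul_comm]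
    exact Nat.mul_le_mul (h a (by simp)) (ih fun p hp => h p (by simp [hp]))

lemma length_le {b L D E n : ℕ} (hb : 2 ≤ b) (hL : 1 ≤ L) (hn : n ≠ 0) (hnb : n ≤ b ^ (D * L))
    (h : ∀ p : ℕ, p.Prime → p ∣ n → b ^ L < p ^ E) : n.primeFactorsList.length ≤ D * E := by
  have h1 := pow_length_le (y := b ^ L) (E := E) n.primeFactorsList (fun p hp => by
    have := Nat.prime_of_mem_primeFactorsList hp
    exact (h p this (Nat.dvd_of_mem_primeFactorsList hp)).le)
  rw [Nat.prod_primeFactorsList hn] at h1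
  have h2 : b ^ (L * n.primeFactorsList.length) ≤ b ^ (L * (D * E)) := by
    calc b ^ (L * n.primeFactorsList.length) = (b ^ L) ^ n.primeFactorsList.length := pow_mul _ _ _
      _ ≤ n ^ E := h1
      _ ≤ (b ^ (D * L)) ^ E := Nat.pow_le_pow_left hnb E
      _ = b ^ (L * (D * E)) := by rw [← pow_mul]; congr 1; ring
  have h3 := (Nat.pow_le_pow_iff_right (by omega : 1 < b)).1 h2
  exact Nat.le_of_mul_le_mul_left h3 (by omega)

open Classical in
/-- **Lower bound for almost prime tuples** -/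
theorem tuple_lower {b : ℕ} {ε : ℝ} (hb : 2 ≤ b) (hε : 0 < ε) (hε1 : ε ≤ 1) (H : Finset ℕ) (hH : 1 ≤ H.card)
    (hadm : ∀ p : ℕ, p.Prime → ∃ m : ℕ, ∀ h ∈ H, ¬ p ∣ m + h) (D : ℕ) :
    ∃ r : ℕ, 2 ≤ r ∧ ∃ κ : ℝ, 0 < κ ∧ ∀ᶠ L : ℕ in atTop, ∀ k : ℕ → ℕ, Cnt b ε L k → ∀ t c : ℕ,
      1 ≤ t → t ≤ D * L → c ≤ b ^ (D * L) → (∀ h ∈ H, (c + h).Coprime b) →
      (∀ h ∈ H, (∑ i ∈ range b, i * k i + c + h).Coprime (b - 1)) →
      κ * (tc b L k).card / (L : ℝ) ^ H.card ≤
        (((tc b L k).filter (fun x => ∀ h ∈ H, (∀ p : ℕ, p.Prime → p ∣ b ^ t * x + c + h → b ^ L < p ^ r) ∧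
          (b ^ t * x + c + h).primeFactorsList.length ≤ r)).card : ℝ) := by
  obtain ⟨E0, hE0, κ, hκ, hlow⟩ := uni_lower hb hε hε1 H.card hH
  obtain ⟨v, Cv, hv, hCv, hV⟩ := V_bds H hadm hb
  obtain ⟨r, hr⟩ : ∃ r, r = (D + 2) * E0 + 2 := ⟨_, rfl⟩
  refine ⟨r, by omega, κ * v, by positivity, ?_⟩
  obtain ⟨h0, hh0⟩ : ∃ h0, ∀ h ∈ H, h ≤ h0 := ⟨H.sup id, fun h hh => le_sup (f := id) hh⟩
  filter_upwards [hlow, hV, eventually_ge_atTop (h0 + 2)] with L hL1 hL2 hL3
  intro k hk t c ht htD hc hcb hcs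
  have hLpos : 0 < L := by omega
  have h1 := hL1 (QT b H (b ^ t) c) (QT_B H c) (fun p hp => QT_lt hadm c hp) k hk (by
    intro p hp hpb x hx hq
    obtain ⟨hpn, h, hh, hd⟩ := hq
    have hpb1 : p ∣ b - 1 := by
      rcases (hp.dvd_mul).1 hpb with h2 | h2
      · exact absurd h2 hpn
      · exact h2
    have h3 : b ^ t * x + c + h ≡ ∑ i ∈ range b, i * k i + c + h [MOD p] := by
      apply Nat.ModEq.add_right
      apply Nat.ModEq.add_right
      have h4 := (pow_mod_one (by omega) hpb1 t).mul (mem_tc_mod (by omega) hpb1 hx)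
      rwa [one_mul] at h4
    have h5 : p ∣ ∑ i ∈ range b, i * k i + c + h := (Nat.ModEq.dvd_iff h3 dvd_rfl).1 hd
    have h6 := Nat.dvd_gcd h5 hpb1
    rw [Nat.Coprime.gcd_eq_one (hcs h hh)] at h6
    exact hp.one_lt.ne' (Nat.dvd_one.1 h6))
  have h2 := (hL2 t c).1
  have hX : (0 : ℝ) ≤ (tc b L k).card := Nat.cast_nonneg _
  calc κ * v * (tc b L k).card / (L : ℝ) ^ H.card = κ * (tc b L k).card * (v / (L : ℝ) ^ H.card) := by ring
    _ ≤ κ * (tc b L k).card * Vq (QT b H (b ^ t) c) (b ^ L) :=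
        mul_le_mul_of_nonneg_left h2 (by positivity)
    _ ≤ _ := h1
    _ ≤ _ := by
        rw [Nat.cast_le]
        apply card_le_card
        intro x hx
        rw [mem_filter] at hx ⊢
        refine ⟨hx.1, fun h hh => ?_⟩
        have hxb : x < b ^ L := by
          have := hx.1
          unfold tc at this
          exact mem_range.1 (mem_filter.1 this).1
        have hpr : ∀ p : ℕ, p.Prime → p ∣ b ^ t * x + c + h → b ^ L < p ^ E0 := by
          intro p hp hd
          by_contra hcon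
          push Not at hcon
          apply hx.2 p hp hcon
          refine ⟨fun hpb => ?_, h, hh, hd⟩
          have h3 : p ∣ b ^ t * x := (dvd_pow hpb (by omega)).mul_right _
          have h4 : p ∣ c + h := by
            rw [add_assoc] at hd
            exact (Nat.dvd_add_right h3).1 hd
          have h5 := Nat.dvd_gcd h4 hpb
          rw [Nat.Coprime.gcd_eq_one (hcb h hh)] at h5
          exact hp.one_lt.ne' (Nat.dvd_one.1 h5)
        have hne : b ^ t * x + c + h ≠ 0 := by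
          intro h0
          have h3 := hcb h hh
          have h4 : c + h = 0 := by omega
          rw [h4, Nat.coprime_zero_left] at h3
          omega
        have hsize : b ^ t * x + c + h ≤ b ^ ((D + 2) * L) := by
          have h3 : b ^ t * x ≤ b ^ (D * L) * b ^ L :=
            Nat.mul_le_mul (Nat.pow_le_pow_right (by omega) htD) hxb.le
          have h4 : h < b ^ L := by
            have h5 : h ≤ L := by have := hh0 h hh; omega
            exact lt_of_le_of_lt h5 (Nat.lt_pow_self (by omega))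
          have h6 : 4 ≤ b ^ L := by
            calc 4 = 2 ^ 2 := by norm_num
              _ ≤ 2 ^ L := Nat.pow_le_pow_right (by norm_num) (by omega)
              _ ≤ b ^ L := Nat.pow_le_pow_left hb L
          have h7 : 1 ≤ b ^ (D * L) := Nat.one_le_pow _ _ (by omega)
          have h8 : b ^ ((D + 2) * L) = b ^ (D * L) * b ^ L * b ^ L := by
            rw [← pow_add, ← pow_add]; congr 1; ring
          rw [h8]
          obtain ⟨Y, hY⟩ : ∃ Y, Y = b ^ (D * L) := ⟨_, rfl⟩
          obtain ⟨Z, hZ⟩ : ∃ Z, Z = b ^ L := ⟨_, rfl⟩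
          rw [← hY] at h3 h7 hc ⊢
          rw [← hZ] at h3 h4 h6 ⊢
          have h9 : Y * Z * 4 ≤ Y * Z * Z := Nat.mul_le_mul_left _ h6
          have h10 : Y ≤ Y * Z := Nat.le_mul_of_pos_right _ (by omega)
          have h11 : Z ≤ Y * Z := Nat.le_mul_of_pos_left _ (by omega)
          omega
        refine ⟨fun p hp hd => ?_, ?_⟩
        · refine lt_of_lt_of_le (hpr p hp hd) (Nat.pow_le_pow_right hp.pos ?_)
          rw [hr]
          nlinarith
        · have h3 := length_le hb (by omega) hne hsize hpr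
          omega

open Classical in
/-- **Upper bound for rough tuples** -/
theorem tuple_upper {b : ℕ} {ε : ℝ} (hb : 2 ≤ b) (hε : 0 < ε) (hε1 : ε ≤ 1) (H : Finset ℕ) (hH : 1 ≤ H.card)
    (hadm : ∀ p : ℕ, p.Prime → ∃ m : ℕ, ∀ h ∈ H, ¬ p ∣ m + h) (r : ℕ) (hr : 1 ≤ r) :
    ∃ C : ℝ, 0 < C ∧ ∀ᶠ L : ℕ in atTop, ∀ k : ℕ → ℕ, Cnt b ε L k → ∀ t c : ℕ,
      (((tc b L k).filter (fun x => ∀ h ∈ H, ∀ p : ℕ, p.Prime → ¬ p ∣ b → p ∣ b ^ t * x + c + h →
        b ^ L < p ^ r)).card : ℝ) ≤ C * (tc b L k).card / (L : ℝ) ^ H.card := by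
  obtain ⟨C, hC, hup⟩ := uni_upper hb hε hε1 H.card hH r hr
  obtain ⟨v, Cv, hv, hCv, hV⟩ := V_bds H hadm hb
  refine ⟨C * Cv, by positivity, ?_⟩
  filter_upwards [hup, hV] with L hL1 hL2
  intro k hk t c
  have h1 := hL1 (QT b H (b ^ t) c) (QT_B H c) (fun p hp => QT_lt hadm c hp) k hk
  have h2 := (hL2 t c).2
  calc _ ≤ (((tc b L k).filter (fun x => ∀ p : ℕ, p.Prime → p ^ r ≤ b ^ L → ¬ QT b H (b ^ t) c p x)).card : ℝ) := by
        rw [Nat.cast_le]
        apply card_le_card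
        intro x hx
        rw [mem_filter] at hx ⊢
        refine ⟨hx.1, fun p hp hpr hq => ?_⟩
        obtain ⟨hpn, h, hh, hd⟩ := hq
        have := hx.2 h hh p hp hpn hd
        omega
    _ ≤ C * (tc b L k).card * Vq (QT b H (b ^ t) c) (b ^ L) := h1
    _ ≤ C * (tc b L k).card * (Cv / (L : ℝ) ^ H.card) := mul_le_mul_of_nonneg_left h2 (by positivity)
    _ = _ := by ring

/-- the sets with prescribed numbers of digits are exponentially large -/
theorem tc_big {b : ℕ} {ε : ℝ} (hb : 2 ≤ b) (hε : 0 < ε) {L : ℕ} (hL : 0 < L) {k : ℕ → ℕ} (h : Cnt b ε L k) :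
    Real.exp (ε ^ 2 * L) ≤ ((L + 1 : ℕ) : ℝ) ^ b * (tc b L k).card := by
  have hLr : (0 : ℝ) < L := by exact_mod_cast hL
  have h1 := size (by omega : 0 < b) hL h.sum
  obtain ⟨d, hd, h2, h3⟩ := h.two
  have h4 : ∏ c ∈ range b, (((k c : ℝ) / L) ^ k c) ≤ Real.exp (-(ε ^ 2 * L)) := by
    rw [← mul_prod_erase _ _ (mem_range.2 (by omega : d < b))]
    have h5 : ∏ c ∈ (range b).erase d, (((k c : ℝ) / L) ^ k c) ≤ 1 := by
      apply Finset.prod_le_one
      · intro c _; positivity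
      · intro c hc
        apply pow_le_one₀ (by positivity)
        rw [div_le_one hLr]
        exact_mod_cast h.le c (mem_range.1 (mem_of_mem_erase hc))
    have h6 : (k d : ℝ) / L ≤ 1 - ε := by
      rw [div_le_iff₀ hLr]
      have h7 : k d + k (d + 1) ≤ L := by
        rw [← h.sum, ← sum_pair (by omega : d ≠ d + 1)]
        apply sum_le_sum_of_subset
        intro x hx
        rw [mem_insert, mem_singleton] at hx
        rw [mem_range]
        omega
      have h8 : (k d : ℝ) + k (d + 1) ≤ L := by exact_mod_cast h7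
      linarith
    calc ((k d : ℝ) / L) ^ k d * ∏ c ∈ (range b).erase d, (((k c : ℝ) / L) ^ k c) ≤ ((k d : ℝ) / L) ^ k d * 1 :=
          mul_le_mul_of_nonneg_left h5 (by positivity)
      _ ≤ (Real.exp (-ε)) ^ k d := by
          rw [mul_one]
          apply pow_le_pow_left₀ (by positivity)
          have := Real.add_one_le_exp (-ε)
          linarith
      _ = Real.exp (-(ε * k d)) := by
          rw [← Real.exp_nat_mul]; congr 1; ring
      _ ≤ _ := by
          apply Real.exp_le_exp.2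
          have := mul_le_mul_of_nonneg_left h2 hε.le
          nlinarith
  have h5 : 1 ≤ ((L + 1 : ℕ) : ℝ) ^ b * Real.exp (-(ε ^ 2 * L)) * (tc b L k).card := by
    refine h1.trans ?_
    apply mul_le_mul_of_nonneg_right _ (Nat.cast_nonneg _)
    exact mul_le_mul_of_nonneg_left h4 (by positivity)
  calc Real.exp (ε ^ 2 * L) = Real.exp (ε ^ 2 * L) * 1 := (mul_one _).symm
    _ ≤ Real.exp (ε ^ 2 * L) * (((L + 1 : ℕ) : ℝ) ^ b * Real.exp (-(ε ^ 2 * L)) * (tc b L k).card) :=
        mul_le_mul_of_nonneg_left h5 (Real.exp_pos _).le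
    _ = (Real.exp (ε ^ 2 * L) * Real.exp (-(ε ^ 2 * L))) * (((L + 1 : ℕ) : ℝ) ^ b * (tc b L k).card) := by ring
    _ = _ := by rw [← Real.exp_add, add_neg_cancel, Real.exp_zero, one_mul]

end Pool.Agent.H679.DC
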