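import Pool.Agent.H679.DC.Bd

/-!
# Moments over the reduced fractions
-/

set_option autoImplicit false

namespace Pool.Agent.H679.DC

open Finset Pool.Agent.Helper112

/-- sums over a grid -/
lemma grid {b : ℕ} (hb : 0 < b) (N : ℕ) : ∀ (h : ℕ → ℝ → ℝ) (M : ℕ → ℝ), (∀ i x, 0 ≤ h i x) →
    (∀ i x (m : ℤ), h i (x + m) = h i x) → (∀ i x, ∑ c ∈ range b, h i (x + (c : ℝ) / b) ≤ M i) →
    ∑ j ∈ range (b ^ N), ∏ i ∈ range N, h i ((b : ℝ) ^ i * ((j : ℝ) / (b : ℝ) ^ N)) ≤ ∏ i ∈ range N, M i := by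
  have hb0 : (b : ℝ) ≠ 0 := by exact_mod_cast hb.ne'
  induction N with
  | zero => intro h M _ _ _; simp
  | succ N ih =>
    intro h M h0 hper hM
    rw [sum_succ N hb, prod_range_succ']
    have h1 : ∀ n d : ℕ, ∏ i ∈ range (N + 1), h i ((b : ℝ) ^ i * (((n + d * b ^ N : ℕ) : ℝ) / (b : ℝ) ^ (N + 1))) =
        (∏ i ∈ range N, h (i + 1) ((b : ℝ) ^ i * ((n : ℝ) / (b : ℝ) ^ N))) *
        h 0 ((n : ℝ) / (b : ℝ) ^ (N + 1) + (d : ℝ) / b) := by
      intro n d
      rw [prod_range_succ']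
      congr 1
      · apply prod_congr rfl
        intro i _
        have h2 : (b : ℝ) ^ (i + 1) * (((n + d * b ^ N : ℕ) : ℝ) / (b : ℝ) ^ (N + 1)) =
            (b : ℝ) ^ i * ((n : ℝ) / (b : ℝ) ^ N) + (((b : ℤ) ^ i * d : ℤ) : ℝ) := by
          push_cast
          rw [pow_succ, pow_succ]
          field_simp
        rw [h2, hper]
      · congr 1
        push_cast
        rw [pow_zero, pow_succ]
        field_simp
    simp only [h1]
    have h3 : ∀ n ∈ range (b ^ N), ∑ d ∈ range b, (∏ i ∈ range N, h (i + 1) ((b : ℝ) ^ i * ((n : ℝ) / (b : ℝ) ^ N))) *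
        h 0 ((n : ℝ) / (b : ℝ) ^ (N + 1) + (d : ℝ) / b) ≤
        (∏ i ∈ range N, h (i + 1) ((b : ℝ) ^ i * ((n : ℝ) / (b : ℝ) ^ N))) * M 0 := by
      intro n _
      rw [← mul_sum]
      exact mul_le_mul_of_nonneg_left (hM 0 _) (prod_nonneg fun i _ => h0 _ _)
    refine (sum_le_sum h3).trans ?_
    rw [← sum_mul]
    have hM0 : 0 ≤ M 0 := le_trans (sum_nonneg fun c _ => h0 _ _) (hM 0 0)
    exact mul_le_mul_of_nonneg_right (ih (fun i => h (i + 1)) (fun i => M (i + 1)) (fun i x => h0 _ _)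
      (fun i x m => hper _ _ _) (fun i x => hM _ _)) hM0

lemma ee_lip (x y : ℝ) : ‖ee x - ee y‖ ≤ 2 * Real.pi * |x - y| := by
  have h1 : ee x - ee y = ee y * (ee (x - y) - 1) := by
    have : ee x = ee y * ee (x - y) := by rw [← ls_ee_add]; congr 1; ring
    rw [this]; ring
  rw [h1, norm_mul, ls_norm_ee, one_mul, ls_norm_ee_sub_one, abs_mul, abs_of_pos (by norm_num : (0 : ℝ) < 2),
    mul_assoc]
  apply mul_le_mul_of_nonneg_left _ (by norm_num)
  refine (Real.abs_sin_le_abs).trans ?_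
  rw [abs_mul, abs_of_pos Real.pi_pos]

lemma ph_lip {b : ℕ} {ε : ℝ} {W : ℕ → ℂ} (h : WS b ε W) (x y : ℝ) :
    ph b W x ≤ ph b W y + 2 * Real.pi * b * |x - y| := by
  unfold ph
  have h1 : ∑ c ∈ range b, W c * ee (c * x) = ∑ c ∈ range b, W c * ee (c * y) +
      ∑ c ∈ range b, W c * (ee (c * x) - ee (c * y)) := by
    rw [← sum_add_distrib]
    apply sum_congr rfl
    intro c _
    ring
  rw [h1]
  refine (norm_add_le _ _).trans ?_
  apply add_le_add_right
  refine (norm_sum_le _ _).trans ?_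
  calc ∑ c ∈ range b, ‖W c * (ee (c * x) - ee (c * y))‖ ≤
      ∑ c ∈ range b, ‖W c‖ * (2 * Real.pi * b * |x - y|) := by
        apply sum_le_sum
        intro c hc
        rw [mem_range] at hc
        rw [norm_mul]
        apply mul_le_mul_of_nonneg_left _ (norm_nonneg _)
        refine (ee_lip _ _).trans ?_
        rw [← mul_sub, abs_mul, Nat.abs_cast]
        have h2 : (c : ℝ) ≤ b := by exact_mod_cast hc.le
        have h3 : 0 ≤ |x - y| := abs_nonneg _
        have h4 := Real.pi_pos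
        calc 2 * Real.pi * ((c : ℝ) * |x - y|) ≤ 2 * Real.pi * ((b : ℝ) * |x - y|) := by gcongr
          _ = _ := by ring
    _ = _ := by rw [← sum_mul, h.mass, one_mul]

lemma pow_add_le {x η : ℝ} (hx : 0 ≤ x) (hx1 : x ≤ 1) (hη : 0 ≤ η) (u : ℕ) :
    (x + η) ^ u ≤ x ^ u + ((1 + η) ^ u - 1) := by
  induction u with
  | zero => simp
  | succ u ih =>
    have h1 : 1 ≤ (1 + η) ^ u := one_le_pow₀ (by linarith)
    have h2 : x ^ u ≤ 1 := pow_le_one₀ hx hx1
    rw [pow_succ, pow_succ, pow_succ]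
    calc (x + η) ^ u * (x + η) ≤ (x ^ u + ((1 + η) ^ u - 1)) * (x + η) :=
          mul_le_mul_of_nonneg_right ih (by linarith)
      _ = x ^ u * x + η * x ^ u + (x + η) * ((1 + η) ^ u - 1) := by ring
      _ ≤ x ^ u * x + η * 1 + (1 + η) * ((1 + η) ^ u - 1) := by
          have h3 := mul_le_mul_of_nonneg_left h2 hη
          have h4 := mul_le_mul_of_nonneg_right (show x + η ≤ 1 + η by linarith) (sub_nonneg.2 h1)
          linarith
      _ = _ := by ring

lemma pow_sub_le {η D : ℝ} (hη : 0 ≤ η) (hD : η ≤ D) (u : ℕ) : (1 + η) ^ u - 1 ≤ u * (1 + D) ^ u * η := by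
  have h1 := geom_sum_mul (1 + η) u
  rw [add_sub_cancel_left] at h1
  rw [← h1]
  apply mul_le_mul_of_nonneg_right _ hη
  calc ∑ i ∈ range u, (1 + η) ^ i ≤ ∑ i ∈ range u, (1 + D) ^ u := by
        apply sum_le_sum
        intro i hi
        rw [mem_range] at hi
        calc (1 + η) ^ i ≤ (1 + D) ^ i := pow_le_pow_left₀ (by linarith) (by linarith) i
          _ ≤ (1 + D) ^ u := pow_le_pow_right₀ (by linarith) hi.le
    _ = _ := by rw [sum_const, card_range, nsmul_eq_mul]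

/-- the growth rate of the moments -/
noncomputable def AA (b : ℕ) (ε : ℝ) (u : ℕ) : ℝ := 1 + b * (1 - et b ε) ^ u

/-- a constant -/
noncomputable def C1 (b u : ℕ) : ℝ := Real.exp (b * (u * (1 + 2 * Real.pi * b) ^ u) * (2 * Real.pi * b))

lemma AA_one {b : ℕ} {ε : ℝ} (hb : 2 ≤ b) (hε : 0 < ε) (hε1 : ε ≤ 1) (u : ℕ) : 1 ≤ AA b ε u := by
  have := et_le hb hε hε1
  unfold AA
  have h1 : 0 ≤ (b : ℝ) * (1 - et b ε) ^ u := mul_nonneg (Nat.cast_nonneg _) (pow_nonneg (by linarith) _)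
  linarith

lemma geo {b : ℕ} (hb : 2 ≤ b) (N : ℕ) : ∑ i ∈ range N, (b : ℝ) ^ i / (b : ℝ) ^ N ≤ 1 := by
  have hb2 : (2 : ℝ) ≤ b := by exact_mod_cast hb
  rw [← sum_div, div_le_one (by positivity)]
  have h1 := geom_sum_mul (b : ℝ) N
  have h2 : 0 ≤ ∑ i ∈ range N, (b : ℝ) ^ i := sum_nonneg fun _ _ => by positivity
  nlinarith

lemma grid_sum {b : ℕ} {ε : ℝ} (hb : 2 ≤ b) (hε : 0 < ε) {W : ℕ → ℂ} (h : WS b ε W) (u N : ℕ) :
    ∑ j ∈ range (b ^ N), ∏ i ∈ range N, (ph b W ((b : ℝ) ^ i * ((j : ℝ) / (b : ℝ) ^ N)) +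
      2 * Real.pi * b * ((b : ℝ) ^ i / (b : ℝ) ^ N)) ^ u ≤ C1 b u * AA b ε u ^ N := by
  have hb2 : (2 : ℝ) ≤ b := by exact_mod_cast hb
  have hb0 : (0 : ℝ) < b := by linarith
  have hpi := Real.pi_pos
  have hA := AA_one hb hε h.le_one u
  have het := et_le hb hε h.le_one
  obtain ⟨Kc, hKc⟩ : ∃ Kc : ℝ, Kc = u * (1 + 2 * Real.pi * b) ^ u := ⟨_, rfl⟩
  have hKc0 : 0 ≤ Kc := by rw [hKc]; positivity
  obtain ⟨η, hη⟩ : ∃ η : ℕ → ℝ, η = fun i => 2 * Real.pi * b * ((b : ℝ) ^ i / (b : ℝ) ^ N) := ⟨_, rfl⟩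
  have hη0 : ∀ i, 0 ≤ η i := fun i => by rw [hη]; positivity
  have h1 := grid (by omega : 0 < b) N (fun i x => (ph b W x + η i) ^ u)
    (fun i => AA b ε u + b * ((1 + η i) ^ u - 1)) (fun i x => pow_nonneg (add_nonneg (ph_nonneg _ _ _) (hη0 i)) _)
    (fun i x m => by simp only [ph_add_int]) (fun i x => by
      calc ∑ c ∈ range b, (ph b W (x + (c : ℝ) / b) + η i) ^ u ≤
          ∑ c ∈ range b, (ph b W (x + (c : ℝ) / b) ^ u + ((1 + η i) ^ u - 1)) :=
            sum_le_sum fun c _ => pow_add_le (ph_nonneg _ _ _) (ph_le_one h _) (hη0 i) u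
        _ = ∑ c ∈ range b, ph b W (x + (c : ℝ) / b) ^ u + b * ((1 + η i) ^ u - 1) := by
            rw [sum_add_distrib, sum_const, card_range, nsmul_eq_mul]
        _ ≤ _ := by
            have := ph_fibre hb hε h u x
            unfold AA
            linarith)
  rw [hη] at h1
  refine h1.trans ?_
  have h2 : ∀ i ∈ range N, AA b ε u + b * ((1 + 2 * Real.pi * b * ((b : ℝ) ^ i / (b : ℝ) ^ N)) ^ u - 1) ≤
      AA b ε u * Real.exp (b * Kc * (2 * Real.pi * b * ((b : ℝ) ^ i / (b : ℝ) ^ N))) := by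
    intro i hi
    rw [mem_range] at hi
    have h3 : 2 * Real.pi * b * ((b : ℝ) ^ i / (b : ℝ) ^ N) ≤ 2 * Real.pi * b := by
      apply mul_le_of_le_one_right (by positivity)
      rw [div_le_one (by positivity)]
      exact pow_le_pow_right₀ (by linarith) hi.le
    have h4 := pow_sub_le (show 0 ≤ 2 * Real.pi * b * ((b : ℝ) ^ i / (b : ℝ) ^ N) by positivity) h3 u
    rw [← hKc] at h4
    obtain ⟨y, hy⟩ : ∃ y, y = 2 * Real.pi * b * ((b : ℝ) ^ i / (b : ℝ) ^ N) := ⟨_, rfl⟩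
    have hy0 : 0 ≤ y := by rw [hy]; positivity
    rw [← hy] at h4 ⊢
    have h5 := Real.add_one_le_exp (b * Kc * y)
    calc AA b ε u + b * ((1 + y) ^ u - 1) ≤ AA b ε u + b * (Kc * y) := by
          have := mul_le_mul_of_nonneg_left h4 hb0.le
          linarith
      _ ≤ AA b ε u + AA b ε u * (b * Kc * y) := by
          have : 1 * (b * Kc * y) ≤ AA b ε u * (b * Kc * y) :=
            mul_le_mul_of_nonneg_right hA (by positivity)
          linarith
      _ = AA b ε u * (b * Kc * y + 1) := by ring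
      _ ≤ _ := mul_le_mul_of_nonneg_left h5 (by linarith)
  refine (prod_le_prod (fun i _ => ?_) h2).trans ?_
  · have h6 : 1 ≤ (1 + 2 * Real.pi * b * ((b : ℝ) ^ i / (b : ℝ) ^ N)) ^ u :=
      one_le_pow₀ (by
        have : 0 ≤ 2 * Real.pi * b * ((b : ℝ) ^ i / (b : ℝ) ^ N) := by positivity
        linarith)
    have h7 : 0 ≤ (b : ℝ) * ((1 + 2 * Real.pi * b * ((b : ℝ) ^ i / (b : ℝ) ^ N)) ^ u - 1) :=
      mul_nonneg hb0.le (by linarith)
    linarith
  · rw [prod_mul_distrib, prod_const, card_range, ← Real.exp_sum, mul_comm]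
    apply mul_le_mul_of_nonneg_right _ (by positivity)
    unfold C1
    apply Real.exp_le_exp.2
    rw [← hKc, ← mul_sum, ← mul_sum]
    apply mul_le_mul_of_nonneg_left _ (by positivity)
    exact mul_le_of_le_one_right (by positivity) (geo hb N)

/-- **Moments over the reduced fractions** -/
theorem farey {b : ℕ} {ε : ℝ} (hb : 2 ≤ b) (hε : 0 < ε) {W : ℕ → ℂ} (h : WS b ε W) (u N F : ℕ)
    (hF : F ^ 2 ≤ b ^ N) :
    ∑ e ∈ Icc 1 F, ∑ a ∈ (range e).filter (fun a => a.Coprime e), GW b W 0 N ((a : ℝ) / e) ^ u ≤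
      C1 b u * AA b ε u ^ N := by
  classical
  have hb2 : (2 : ℝ) ≤ b := by exact_mod_cast hb
  have hb0 : (0 : ℝ) < b := by linarith
  obtain ⟨g, hg⟩ : ∃ g : ℕ → ℝ, g = fun j : ℕ => ∏ i ∈ range N, (ph b W ((b : ℝ) ^ i * ((j : ℝ) / (b : ℝ) ^ N)) +
      2 * Real.pi * b * ((b : ℝ) ^ i / (b : ℝ) ^ N)) ^ u := ⟨_, rfl⟩
  have hg0 : ∀ j, 0 ≤ g j := fun j => by
    rw [hg]
    exact prod_nonneg fun i _ => pow_nonneg (add_nonneg (ph_nonneg _ _ _) (by have := Real.pi_pos; positivity)) _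
  refine le_trans ?_ (grid_sum hb hε h u N)
  obtain ⟨R, hR⟩ : ∃ R, R = (Icc 1 F).sigma (fun e => (range e).filter (fun a => a.Coprime e)) := ⟨_, rfl⟩
  rw [sum_sigma' (Icc 1 F) (fun e => (range e).filter (fun a => a.Coprime e))
    (fun e a => GW b W 0 N ((a : ℝ) / e) ^ u), ← hR]
  have hmem : ∀ r ∈ R, (1 ≤ r.1 ∧ r.1 ≤ F) ∧ r.2 < r.1 ∧ r.2.Coprime r.1 := by
    intro r hr
    rw [hR, mem_sigma, mem_Icc, mem_filter, mem_range] at hr
    exact ⟨hr.1, hr.2.1, hr.2.2⟩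
  have h1 : ∀ r ∈ R, GW b W 0 N ((r.2 : ℝ) / r.1) ^ u ≤ g (b ^ N * r.2 / r.1) := by
    rintro ⟨e, a⟩ hr
    obtain ⟨⟨h2, h3⟩, h4, h5⟩ := hmem _ hr
    simp only at h2 h3 h4 h5 ⊢
    have he0 : (0 : ℝ) < e := by exact_mod_cast h2
    obtain ⟨j, hj⟩ : ∃ j, j = b ^ N * a / e := ⟨_, rfl⟩
    rw [← hj]
    have h6 := Nat.div_add_mod (b ^ N * a) e
    have h7 := Nat.mod_lt (b ^ N * a) (by omega : e > 0)
    rw [← hj] at h6
    generalize (b ^ N * a) % e = ρ at h6 h7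
    have h8 : (e : ℝ) * j + ρ = (b : ℝ) ^ N * a := by exact_mod_cast h6
    have h9 : (a : ℝ) / e - (j : ℝ) / (b : ℝ) ^ N = ρ / (e * (b : ℝ) ^ N) := by
      rw [div_sub_div _ _ he0.ne' (by positivity)]
      congr 1
      linarith
    unfold GW
    rw [← prod_pow, hg]
    apply prod_le_prod
    · intro i _
      exact pow_nonneg (ph_nonneg _ _ _) _
    · intro i _
      apply pow_le_pow_left₀ (ph_nonneg _ _ _)
      rw [Nat.zero_add]
      refine (ph_lip h _ ((b : ℝ) ^ i * ((j : ℝ) / (b : ℝ) ^ N))).trans ?_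
      apply add_le_add_right
      apply mul_le_mul_of_nonneg_left _ (by have := Real.pi_pos; positivity)
      rw [← mul_sub, h9, abs_of_nonneg (by positivity), mul_div_assoc']
      rw [div_le_div_iff₀ (by positivity) (by positivity)]
      have h10 : (ρ : ℝ) ≤ e := by exact_mod_cast h7.le
      calc (b : ℝ) ^ i * ρ * (b : ℝ) ^ N ≤ (b : ℝ) ^ i * e * (b : ℝ) ^ N := by gcongr
        _ = _ := by ring
  refine (sum_le_sum h1).trans ?_
  have hinj : Set.InjOn (fun r : (_ : ℕ) × ℕ => b ^ N * r.2 / r.1) (R : Set ((_ : ℕ) × ℕ)) := by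
    rintro ⟨e, a⟩ hr ⟨e', a'⟩ hr' heq
    obtain ⟨⟨h2, h3⟩, h4, h5⟩ := hmem _ (mem_coe.1 hr)
    obtain ⟨⟨h2', h3'⟩, h4', h5'⟩ := hmem _ (mem_coe.1 hr')
    simp only at h2 h3 h4 h5 h2' h3' h4' h5' heq
    have h6 := Nat.div_add_mod (b ^ N * a) e
    have h7 := Nat.mod_lt (b ^ N * a) (by omega : e > 0)
    have h6' := Nat.div_add_mod (b ^ N * a') e'
    have h7' := Nat.mod_lt (b ^ N * a') (by omega : e' > 0)
    rw [← heq] at h6'
    generalize (b ^ N * a) % e = ρ at h6 h7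
    generalize (b ^ N * a') % e' = ρ' at h6' h7'
    generalize b ^ N * a / e = j at h6 h6'
    have hee : e * e' ≤ b ^ N := by
      calc e * e' ≤ F * F := Nat.mul_le_mul h3 h3'
        _ = F ^ 2 := by ring
        _ ≤ b ^ N := hF
    have h8 : a * e' = a' * e := by
      rcases lt_trichotomy (a * e') (a' * e) with hlt | heq' | hgt
      · exfalso
        have h9 : b ^ N * a * e' + b ^ N ≤ b ^ N * a' * e := by
          have : b ^ N * (a * e' + 1) ≤ b ^ N * (a' * e) := Nat.mul_le_mul_left _ hlt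
          nlinarith
        have h10 : b ^ N * a * e' = e * j * e' + ρ * e' := by rw [← h6]; ring
        have h11 : b ^ N * a' * e = e' * j * e + ρ' * e := by rw [← h6']; ring
        have h12 : ρ' * e < e' * e := Nat.mul_lt_mul_of_pos_right h7' (by omega)
        nlinarith
      · exact heq'
      · exfalso
        have h9 : b ^ N * a' * e + b ^ N ≤ b ^ N * a * e' := by
          have : b ^ N * (a' * e + 1) ≤ b ^ N * (a * e') := Nat.mul_le_mul_left _ hgt
          nlinarith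
        have h10 : b ^ N * a * e' = e * j * e' + ρ * e' := by rw [← h6]; ring
        have h11 : b ^ N * a' * e = e' * j * e + ρ' * e := by rw [← h6']; ring
        have h12 : ρ * e' < e * e' := Nat.mul_lt_mul_of_pos_right h7 (by omega)
        nlinarith
    have h13 : e ∣ e' := by
      have : e ∣ a * e' := ⟨a', by rw [h8]; ring⟩
      exact (Nat.Coprime.symm h5).dvd_of_dvd_mul_left this
    have h14 : e' ∣ e := by
      have : e' ∣ a' * e := ⟨a, by rw [← h8]; ring⟩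
      exact (Nat.Coprime.symm h5').dvd_of_dvd_mul_left this
    have h15 := Nat.dvd_antisymm h13 h14
    subst h15
    have h16 := Nat.eq_of_mul_eq_mul_right (by omega : 0 < e) h8
    subst h16
    rfl
  have hgr : ∑ j ∈ range (b ^ N), ∏ i ∈ range N, (ph b W ((b : ℝ) ^ i * ((j : ℝ) / (b : ℝ) ^ N)) +
      2 * Real.pi * b * ((b : ℝ) ^ i / (b : ℝ) ^ N)) ^ u = ∑ j ∈ range (b ^ N), g j := by rw [hg]
  rw [hgr, ← sum_image (f := g) hinj]
  apply sum_le_sum_of_subset_of_nonneg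
  · intro j hj
    obtain ⟨⟨e, a⟩, hr, rfl⟩ := mem_image.1 hj
    obtain ⟨⟨h2, h3⟩, h4, h5⟩ := hmem _ hr
    simp only at h2 h3 h4 h5 ⊢
    rw [mem_range, Nat.div_lt_iff_lt_mul (by omega)]
    exact Nat.mul_lt_mul_of_pos_left h4 (by positivity)
  · intro j _ _
    exact hg0 j

end Pool.Agent.H679.DC
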