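import Pool.Agent.H679.DC.Pb

/-!
# The number of almost prime palindromes with digits 0 and 1 only
-/

set_option autoImplicit false

namespace Pool.Agent.H679.DC

open Finset Filter

/-! ### binomial coefficients -/

lemma var_choose (M : ℕ) : ∑ k ∈ range (M + 1), ((M : ℝ) / 2 - k) ^ 2 * (M.choose k : ℝ) = (M : ℝ) / 4 * 2 ^ M := by
  have h := congrArg (Polynomial.eval (1 / 2 : ℝ)) (bernsteinPolynomial.variance ℝ M)
  rw [Polynomial.eval_finsetSum] at h
  have h1 : ∀ k ∈ range (M + 1), Polynomial.eval (1 / 2 : ℝ)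
      ((M • Polynomial.X - (k : Polynomial ℝ)) ^ 2 * bernsteinPolynomial ℝ M k) =
      ((M : ℝ) / 2 - k) ^ 2 * (M.choose k : ℝ) / 2 ^ M := by
    intro k hk
    rw [mem_range] at hk
    unfold bernsteinPolynomial
    simp only [Polynomial.eval_mul, Polynomial.eval_pow, Polynomial.eval_sub, Polynomial.eval_natCast,
      Polynomial.eval_X, Polynomial.eval_one, nsmul_eq_mul]
    have h2 : (1 / 2 : ℝ) ^ k * (1 - 1 / 2) ^ (M - k) = 1 / 2 ^ M := by
      have h3 : (1 - 1 / 2 : ℝ) = 1 / 2 := by norm_num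
      rw [h3, ← pow_add, Nat.add_sub_cancel' (by omega), div_pow, one_pow]
    have h4 : (M.choose k : ℝ) * (1 / 2) ^ k * (1 - 1 / 2) ^ (M - k) = M.choose k * (1 / 2 ^ M) := by
      rw [← h2]; ring
    rw [h4]
    ring
  rw [sum_congr rfl h1, ← sum_div] at h
  simp only [Polynomial.eval_mul, Polynomial.eval_sub, Polynomial.eval_natCast,
      Polynomial.eval_X, Polynomial.eval_one, nsmul_eq_mul] at h
  rw [div_eq_iff (by positivity)] at h
  rw [h]
  ring

/-- the tail -/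
def tail (M : ℕ) : Finset ℕ := (range (M + 1)).filter (fun k => 4 * k < M ∨ 3 * M < 4 * k)

lemma tail_sum {M : ℕ} (hM : 1 ≤ M) : ∑ k ∈ tail M, (M.choose k : ℝ) ≤ 4 / M * 2 ^ M := by
  have hM0 : (0 : ℝ) < M := by exact_mod_cast hM
  have h1 : ∑ k ∈ tail M, (M : ℝ) ^ 2 / 16 * (M.choose k : ℝ) ≤ (M : ℝ) / 4 * 2 ^ M := by
    rw [← var_choose]
    refine le_trans ?_ (sum_le_sum_of_subset_of_nonneg (show tail M ⊆ range (M + 1) from filter_subset _ _)
      (fun k _ _ => by positivity))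
    apply sum_le_sum
    intro k hk
    unfold tail at hk
    rw [mem_filter] at hk
    apply mul_le_mul_of_nonneg_right _ (Nat.cast_nonneg _)
    rcases hk.2 with h | h
    · have h2 : 4 * (k : ℝ) ≤ M := by exact_mod_cast h.le
      nlinarith
    · have h2 : 3 * (M : ℝ) ≤ 4 * k := by exact_mod_cast h.le
      nlinarith
  rw [← mul_sum] at h1
  have h2 : (M : ℝ) ^ 2 / 16 * ∑ k ∈ tail M, (M.choose k : ℝ) ≤ (M : ℝ) ^ 2 / 16 * (4 / M * 2 ^ M) := by
    refine h1.trans (le_of_eq ?_)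
    field_simp
    ring
  exact le_of_mul_le_mul_left h2 (by positivity)

lemma sum_choose (M : ℕ) : ∑ k ∈ range (M + 1), (M.choose k : ℝ) = 2 ^ M := by
  have := Nat.sum_range_choose M
  exact_mod_cast this

lemma choose_ratio {M k : ℕ} (h : 8 * (k + 1) ≤ 7 * M) : M.choose k ≤ 8 * M.choose (k + 1) := by
  have h1 := Nat.choose_succ_right_eq M k
  have h2 : M ≤ 8 * (M - k) := by omega
  have h3 : (k + 1) * M.choose k ≤ (k + 1) * (8 * M.choose (k + 1)) := by
    calc (k + 1) * M.choose k ≤ (8 * (M - k)) * M.choose k := Nat.mul_le_mul_right _ (by omega)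
      _ = 8 * (M.choose k * (M - k)) := by ring
      _ = (k + 1) * (8 * M.choose (k + 1)) := by rw [← h1]; ring
  exact Nat.le_of_mul_le_mul_left h3 (by omega)

lemma choose_ratio_pow {M k : ℕ} (j : ℕ) (h : 8 * (k + j) ≤ 7 * M) : M.choose k ≤ 8 ^ j * M.choose (k + j) := by
  induction j with
  | zero => simp
  | succ j ih =>
    have h1 := ih (by omega)
    have h2 := choose_ratio (M := M) (k := k + j) (by omega)
    calc M.choose k ≤ 8 ^ j * M.choose (k + j) := h1
      _ ≤ 8 ^ j * (8 * M.choose (k + j + 1)) := Nat.mul_le_mul_left _ h2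
      _ = _ := by rw [pow_succ, add_assoc]; ring

/-- the integers in the central range and in a residue class -/
def gd (M m x : ℕ) : Finset ℕ := (range (M + 1)).filter (fun k => M ≤ 8 * k ∧ 8 * k ≤ 7 * M ∧ k % m = x % m)

lemma gd_sum {M m : ℕ} (x : ℕ) (hm : 1 ≤ m) (hM : 8 * (m + 1) ≤ M) :
    2 ^ M / (2 * m * 8 ^ m) ≤ ∑ k ∈ gd M m x, (M.choose k : ℝ) := by
  have hMr : (8 : ℝ) ≤ M := by exact_mod_cast (by omega : 8 ≤ M)
  have hm0 : (0 : ℝ) < m := by exact_mod_cast hm
  have h1 : ∑ k ∈ (range (M + 1)).filter (fun k => ¬ (4 * k < M ∨ 3 * M < 4 * k)), (M.choose k : ℝ) ≥ 2 ^ M / 2 := by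
    have h2 := sum_filter_add_sum_filter_not (range (M + 1)) (fun k => 4 * k < M ∨ 3 * M < 4 * k)
      (fun k => (M.choose k : ℝ))
    rw [sum_choose] at h2
    have h3 := tail_sum (M := M) (by omega)
    unfold tail at h3
    have h4 : 4 / (M : ℝ) * 2 ^ M ≤ 2 ^ M / 2 := by
      rw [div_mul_eq_mul_div, div_le_div_iff₀ (by linarith) (by norm_num)]
      have : (0 : ℝ) < 2 ^ M := by positivity
      nlinarith
    linarith
  obtain ⟨S, hS⟩ : ∃ S : ℝ, S = ∑ k ∈ gd M m x, (M.choose k : ℝ) := ⟨_, rfl⟩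
  have hS0 : 0 ≤ S := by rw [hS]; exact sum_nonneg fun _ _ => Nat.cast_nonneg _
  have h2 : ∑ k ∈ (range (M + 1)).filter (fun k => ¬ (4 * k < M ∨ 3 * M < 4 * k)), (M.choose k : ℝ) ≤
      8 ^ m * (m * S) := by
    have h3 : ∀ k ∈ (range (M + 1)).filter (fun k => ¬ (4 * k < M ∨ 3 * M < 4 * k)), (M.choose k : ℝ) ≤
        8 ^ m * ∑ j ∈ range m, (if k + j ∈ gd M m x then (M.choose (k + j) : ℝ) else 0) := by
      intro k hk
      rw [mem_filter, mem_range] at hk
      obtain ⟨hk1, hk2⟩ := hk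
      push Not at hk2
      -- the offset
      obtain ⟨j, hj⟩ : ∃ j, j = (x % m + m - k % m) % m := ⟨_, rfl⟩
      have hjm : j < m := by rw [hj]; exact Nat.mod_lt _ hm
      have hjx : (k + j) % m = x % m := by
        have e1 : x % m < m := Nat.mod_lt _ hm
        have e2 : k % m < m := Nat.mod_lt _ hm
        have e3 : k + (x % m + m - k % m) = x % m + m * (1 + k / m) := by
          have := Nat.div_add_mod k m
          have e4 : m * (1 + k / m) = m + m * (k / m) := by ring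
          omega
        rw [hj, Nat.add_mod_mod, e3, Nat.add_mul_mod_self_left, Nat.mod_mod]
      have hg : k + j ∈ gd M m x := by
        unfold gd
        rw [mem_filter, mem_range]
        exact ⟨by omega, by omega, by omega, hjx⟩
      have h4 := choose_ratio_pow (M := M) (k := k) j (by omega)
      have h5 : (8 : ℕ) ^ j ≤ 8 ^ m := Nat.pow_le_pow_right (by norm_num) hjm.le
      have h6 : (M.choose k : ℝ) ≤ 8 ^ m * (M.choose (k + j) : ℝ) := by
        have h7 : M.choose k ≤ 8 ^ m * M.choose (k + j) := h4.trans (Nat.mul_le_mul_right _ h5)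
        exact_mod_cast h7
      refine h6.trans (mul_le_mul_of_nonneg_left ?_ (by positivity))
      have h8 := single_le_sum (f := fun j => if k + j ∈ gd M m x then (M.choose (k + j) : ℝ) else 0)
        (s := range m) (fun i _ => by split_ifs <;> positivity) (mem_range.2 hjm)
      refine le_trans ?_ h8
      rw [if_pos hg]
    refine (sum_le_sum h3).trans ?_
    rw [← mul_sum, sum_comm]
    apply mul_le_mul_of_nonneg_left _ (by positivity)
    have h4 : ∀ j ∈ range m, ∑ k ∈ (range (M + 1)).filter (fun k => ¬ (4 * k < M ∨ 3 * M < 4 * k)),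
        (if k + j ∈ gd M m x then (M.choose (k + j) : ℝ) else 0) ≤ S := by
      intro j _
      rw [← sum_filter, hS]
      have h5 := sum_image (f := fun k => (M.choose k : ℝ)) (s := ((range (M + 1)).filter
        (fun k => ¬ (4 * k < M ∨ 3 * M < 4 * k))).filter (fun k => k + j ∈ gd M m x)) (g := fun k => k + j)
        (fun a _ b _ h => by simpa using h)
      rw [← h5]
      apply sum_le_sum_of_subset_of_nonneg
      · intro k hk
        rw [mem_image] at hk
        obtain ⟨a, ha, rfl⟩ := hk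
        exact (mem_filter.1 ha).2
      · intro k _ _
        exact Nat.cast_nonneg _
    refine (sum_le_sum h4).trans (le_of_eq ?_)
    rw [sum_const, card_range, nsmul_eq_mul]
  rw [← hS, div_le_iff₀ (by positivity)]
  have h5 : (2 : ℝ) ^ M ≤ 2 * (8 ^ m * (m * S)) := by linarith
  calc (2 : ℝ) ^ M ≤ 2 * (8 ^ m * (m * S)) := h5
    _ = _ := by ring

/-! ### the total number -/

/-- the palindromes with exactly `4 M + 3` digits in base `b`, all of them `0` or `1` -/
def Z1 (b M : ℕ) : Set ℕ := {n | n ∈ Pal b (2 * M + 1) ∧ ∀ d ∈ Nat.digits b n, d ≤ 1}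

lemma Z1_finite (b M : ℕ) : (Z1 b M).Finite := (Pal_finite b _).subset (fun _ hn => hn.1)

lemma cO_le (b N M n c : ℕ) : cO b N M n c ≤ M ∧ cE b N M n c ≤ M := by
  unfold cO cE
  constructor
  · exact (card_filter_le _ _).trans (by rw [card_range])
  · exact (card_filter_le _ _).trans (by rw [card_range])

/-- a good residue class -/
lemma exists_good {b : ℕ} (hb : 2 ≤ b) : ∃ e x : ℕ, e ≤ 1 ∧ ∀ k l : ℕ, k % (b ^ 2 - 1) = x % (b ^ 2 - 1) →
    l % (b ^ 2 - 1) = 0 → (2 * k + 2 * b * l + b * e + 2).Coprime (b ^ 2 - 1) := by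
  have hb4 : 4 ≤ b ^ 2 := by nlinarith
  have hbb : b + 1 ≤ b ^ 2 - 1 := by
    have : b * 2 ≤ b * b := Nat.mul_le_mul_left _ hb
    rw [sq]
    omega
  obtain ⟨m, hm⟩ : ∃ m, m = b ^ 2 - 1 := ⟨_, rfl⟩
  have key : ∀ e x : ℕ, 2 * x + b * e + 2 = m + 1 → ∀ k l : ℕ, k % m = x % m → l % m = 0 →
      (2 * k + 2 * b * l + b * e + 2).Coprime m := by
    intro e x hx k l hk hl
    have h1 : k ≡ x [MOD m] := hk
    have h2 : l ≡ 0 [MOD m] := by rw [Nat.ModEq, Nat.zero_mod]; exact hl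
    have h3 : 2 * k + 2 * b * l + b * e + 2 ≡ 2 * x + 2 * b * 0 + b * e + 2 [MOD m] :=
      (((h1.mul_left 2).add (h2.mul_left (2 * b))).add_right _).add_right _
    have h4 : 2 * x + 2 * b * 0 + b * e + 2 = 1 + m := by omega
    rw [h4] at h3
    have h5 : 2 * k + 2 * b * l + b * e + 2 ≡ 1 [MOD m] := h3.trans (Nat.add_modEq_right)
    unfold Nat.Coprime
    rw [h5.gcd_eq]
    exact Nat.gcd_one_left m
  rw [← hm] at hbb ⊢
  rcases Nat.even_or_odd b with hbe | hbo
  · have hmo : m % 2 = 1 := by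
      have : b ^ 2 % 2 = 0 := by
        obtain ⟨t, ht⟩ := hbe
        rw [ht, sq]
        have : (t + t) * (t + t) = 2 * (2 * t * t) := by ring
        omega
      omega
    exact ⟨0, (m - 1) / 2, by norm_num, key 0 _ (by omega)⟩
  · have hmo : m % 2 = 0 := by
      have : b ^ 2 % 2 = 1 := by
        obtain ⟨t, ht⟩ := hbo
        rw [ht, sq]
        have : (2 * t + 1) * (2 * t + 1) = 2 * (2 * t * t + 2 * t) + 1 := by ring
        omega
      omega
    have hb2 : b % 2 = 1 := Nat.odd_iff.1 hbo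
    exact ⟨1, (m - (b + 1)) / 2, le_rfl, key 1 _ (by omega)⟩

theorem z1_lower {b : ℕ} (hb : 2 ≤ b) : ∃ r : ℕ, 2 ≤ r ∧ ∃ κ : ℝ, 0 < κ ∧ ∀ᶠ M : ℕ in atTop,
    κ * 4 ^ M / (M : ℝ) ≤ (Set.ncard {n | n ∈ Z1 b M ∧ (∀ p : ℕ, p.Prime → p ∣ n → b ^ M < p ^ r) ∧
      n.primeFactorsList.length ≤ r} : ℝ) := by
  classical
  have hb4 : 4 ≤ b ^ 2 := by nlinarith
  obtain ⟨r, hr, κ, C, hκ, hC, hcl⟩ := cl_bounds (b := b) (ε := 1 / 8) hb (by norm_num) (by norm_num)
  obtain ⟨e, x, he, hgood⟩ := exists_good hb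
  obtain ⟨m, hm⟩ : ∃ m, m = b ^ 2 - 1 := ⟨_, rfl⟩
  rw [← hm] at hgood
  have hm1 : 1 ≤ m := by omega
  have hm0 : (0 : ℝ) < m := by exact_mod_cast hm1
  refine ⟨r, hr, κ / (2 * m * 8 ^ m) ^ 2, by positivity, ?_⟩
  filter_upwards [hcl, eventually_ge_atTop (8 * (m + 1))] with M h1 h2
  obtain ⟨P, hP⟩ : ∃ P : ℕ → Prop, P = fun n => (∀ p : ℕ, p.Prime → p ∣ n → b ^ M < p ^ r) ∧
      n.primeFactorsList.length ≤ r := ⟨_, rfl⟩
  have hMr : (1 : ℝ) ≤ M := by exact_mod_cast (by omega : 1 ≤ M)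
  -- the finite set
  obtain ⟨U, hU⟩ : ∃ U : Finset ℕ, U = (range (b ^ (2 * (2 * M + 1) + 1))).filter
      (fun n => n ∈ Z1 b M ∧ P n ∧ n / b ^ (2 * M + 1) % b = e ∧
        (cO b (2 * M + 1) M n 1, cE b (2 * M + 1) M n 1) ∈ gd M m x ×ˢ gd M m 0) := ⟨_, rfl⟩
  have hUle : (U.card : ℝ) ≤ (Set.ncard {n | n ∈ Z1 b M ∧ P n} : ℝ) := by
    rw [← Set.ncard_coe_finset, Nat.cast_le]
    apply Set.ncard_le_ncard _ ((Z1_finite b M).subset (fun _ hn => hn.1))
    intro n hn
    rw [mem_coe, hU, mem_filter] at hn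
    exact ⟨hn.2.1, hn.2.2.1⟩
  have hfib : U.card = ∑ g ∈ gd M m x ×ˢ gd M m 0,
      (U.filter (fun n => (cO b (2 * M + 1) M n 1, cE b (2 * M + 1) M n 1) = g)).card := by
    apply card_eq_sum_card_fiberwise
    intro n hn
    rw [mem_coe, hU, mem_filter] at hn
    exact hn.2.2.2.2
  have hterm : ∀ g ∈ gd M m x ×ˢ gd M m 0, κ / M * ((M.choose g.1 : ℝ) * M.choose g.2) ≤
      ((U.filter (fun n => (cO b (2 * M + 1) M n 1, cE b (2 * M + 1) M n 1) = g)).card : ℝ) := by
    rintro ⟨k, l⟩ hg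
    have hg' := hg
    rw [mem_product] at hg
    simp only at hg ⊢
    obtain ⟨hk, hl⟩ := hg
    unfold gd at hk hl
    rw [mem_filter, mem_range] at hk hl
    have hk1 : (M : ℝ) ≤ 8 * k := by exact_mod_cast hk.2.1
    have hk2 : 8 * (k : ℝ) ≤ 7 * M := by exact_mod_cast hk.2.2.1
    have hl1 : (M : ℝ) ≤ 8 * l := by exact_mod_cast hl.2.1
    have hl2 : 8 * (l : ℝ) ≤ 7 * M := by exact_mod_cast hl.2.2.1
    have h3 := (h1 e k l he (by linarith) (by linarith) (by linarith) (by linarith)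
      (by rw [← hm]; exact hgood k l hk.2.2.2 (by rw [hl.2.2.2, Nat.zero_mod]))).1
    calc κ / M * ((M.choose k : ℝ) * M.choose l) = κ * (M.choose k * M.choose l) / (M : ℝ) := by ring
      _ ≤ _ := h3
      _ ≤ _ := by
          rw [← Set.ncard_coe_finset, Nat.cast_le]
          apply Set.ncard_le_ncard _ (finite_toSet _)
          rintro n ⟨⟨hn1, hn2, hn3, hn4, hn5⟩, hn6⟩
          rw [mem_coe, mem_filter, hU, mem_filter, mem_range, hn4, hn5, hP]
          exact ⟨⟨hn1.2.1, ⟨hn1, hn2⟩, hn6, hn3, hg'⟩, rfl⟩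
  have hg1 := gd_sum x hm1 h2
  have hg2 := gd_sum 0 hm1 h2
  have hsum : κ / M * ((2 ^ M / (2 * m * 8 ^ m)) * (2 ^ M / (2 * m * 8 ^ m))) ≤ U.card := by
    rw [hfib]
    push_cast
    refine le_trans ?_ (sum_le_sum hterm)
    rw [← mul_sum, sum_product]
    dsimp only
    rw [← sum_mul_sum]
    apply mul_le_mul_of_nonneg_left _ (by positivity)
    exact mul_le_mul hg1 hg2 (by positivity) (le_trans (by positivity) hg1)
  have hfin := hsum.trans hUle
  rw [hP] at hfin
  refine le_trans (le_of_eq ?_) hfin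
  have h4 : (4 : ℝ) ^ M = 2 ^ M * 2 ^ M := by rw [← mul_pow]; norm_num
  rw [h4]
  field_simp

theorem z1_upper {b : ℕ} (hb : 2 ≤ b) : ∃ C : ℝ, 0 < C ∧ ∀ᶠ M : ℕ in atTop,
    (Set.ncard {n | n ∈ Z1 b M ∧ n.Prime} : ℝ) ≤ C * 4 ^ M / (M : ℝ) := by
  classical
  have hb4 : 4 ≤ b ^ 2 := by nlinarith
  obtain ⟨r, hr, κ, C, hκ, hC, hcl⟩ := cl_bounds (b := b) (ε := 1 / 8) hb (by norm_num) (by norm_num)
  refine ⟨2 * (C + 8), by positivity, ?_⟩
  filter_upwards [hcl, eventually_ge_atTop 1] with M h1 h2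
  have hMr : (1 : ℝ) ≤ M := by exact_mod_cast h2
  obtain ⟨U, hU⟩ : ∃ U : Finset ℕ, U = (range (b ^ (2 * (2 * M + 1) + 1))).filter
      (fun n => n ∈ Z1 b M ∧ n.Prime) := ⟨_, rfl⟩
  have hUeq : (Set.ncard {n | n ∈ Z1 b M ∧ n.Prime} : ℝ) = U.card := by
    rw [← Set.ncard_coe_finset]
    congr 2
    ext n
    rw [mem_coe, hU, mem_filter, mem_range]
    exact ⟨fun h => ⟨h.1.1.2.1, h⟩, fun h => h.2⟩
  obtain ⟨G, hG⟩ : ∃ G, G = range 2 ×ˢ (range (M + 1) ×ˢ range (M + 1)) := ⟨_, rfl⟩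
  obtain ⟨f, hf⟩ : ∃ f : ℕ → ℕ × (ℕ × ℕ), f = fun n => (n / b ^ (2 * M + 1) % b,
      (cO b (2 * M + 1) M n 1, cE b (2 * M + 1) M n 1)) := ⟨_, rfl⟩
  have hfib : U.card = ∑ g ∈ G, (U.filter (fun n => f n = g)).card := by
    apply card_eq_sum_card_fiberwise
    intro n hn
    rw [mem_coe, hU, mem_filter] at hn
    rw [mem_coe, hG, hf, mem_product, mem_product, mem_range, mem_range, mem_range]
    have h3 := (digits_le_iff hb).1 hn.2.1.2 (2 * M + 1)
    have h4 := cO_le b (2 * M + 1) M n 1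
    simp only
    omega
  obtain ⟨ind, hindd⟩ : ∃ ind : ℕ → ℝ, ind = fun k => if k ∈ tail M then (1 : ℝ) else 0 := ⟨_, rfl⟩
  have hind1 : ∀ k, k ∈ tail M → ind k = 1 := fun k hk => by rw [hindd]; exact if_pos hk
  have hind0 : ∀ k, k ∉ tail M → ind k = 0 := fun k hk => by rw [hindd]; exact if_neg hk
  have hindn : ∀ k, 0 ≤ ind k := fun k => by rw [hindd]; beta_reduce; split_ifs <;> norm_num
  have hterm : ∀ g ∈ G, ((U.filter (fun n => f n = g)).card : ℝ) ≤
      (C / M + (ind g.2.1 + ind g.2.2)) * ((M.choose g.2.1 : ℝ) * M.choose g.2.2) := by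
    rintro ⟨e, k, l⟩ hg
    rw [hG, mem_product, mem_product, mem_range, mem_range, mem_range] at hg
    simp only at hg ⊢
    obtain ⟨he, hk, hl⟩ := hg
    have hCC : (0 : ℝ) ≤ (M.choose k : ℝ) * M.choose l := by positivity
    have hCM : 0 ≤ C / M := by positivity
    have hle1 : ((U.filter (fun n => f n = (e, k, l))).card : ℝ) ≤
        (Set.ncard {n | n ∈ Cl b M e k l ∧ n.Prime} : ℝ) := by
      rw [← Set.ncard_coe_finset, Nat.cast_le]
      apply Set.ncard_le_ncard _ ((Z1_finite b M).subset (fun _ hn => ⟨hn.1.1, hn.1.2.1⟩))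
      intro n hn
      rw [mem_coe, mem_filter, hU, mem_filter, hf] at hn
      obtain ⟨⟨_, hn1, hn2⟩, hn3⟩ := hn
      simp only [Prod.mk.injEq] at hn3
      exact ⟨⟨hn1.1, hn1.2, hn3.1, hn3.2.1, hn3.2.2⟩, hn2⟩
    have hle2 : (Set.ncard {n | n ∈ Cl b M e k l ∧ n.Prime} : ℝ) ≤ (M.choose k : ℝ) * M.choose l := by
      have h3 := Cl_card hb (by omega : e ≤ 1) (by omega : k ≤ M) (by omega : l ≤ M)
      have h4 : Set.ncard {n | n ∈ Cl b M e k l ∧ n.Prime} ≤ (Cl b M e k l).ncard :=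
        Set.ncard_le_ncard (fun n hn => hn.1) ((Z1_finite b M).subset (fun _ hn => ⟨hn.1, hn.2.1⟩))
      rw [h3] at h4
      exact_mod_cast h4
    by_cases ck : k ∈ tail M
    · rw [hind1 k ck]
      have h5 := hindn l
      nlinarith
    · by_cases cl : l ∈ tail M
      · rw [hind0 k ck, hind1 l cl]
        nlinarith
      · rw [hind0 k ck, hind0 l cl, add_zero, add_zero]
        unfold tail at ck cl
        rw [mem_filter, mem_range, not_and] at ck cl
        have ck2 := ck (by omega)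
        have cl2 := cl (by omega)
        push Not at ck2 cl2
        have hk1 : (M : ℝ) ≤ 4 * k := by exact_mod_cast ck2.1
        have hk2 : 4 * (k : ℝ) ≤ 3 * M := by exact_mod_cast ck2.2
        have hl1 : (M : ℝ) ≤ 4 * l := by exact_mod_cast cl2.1
        have hl2 : 4 * (l : ℝ) ≤ 3 * M := by exact_mod_cast cl2.2
        by_cases hcop : (2 * k + 2 * b * l + b * e + 2).Coprime (b ^ 2 - 1)
        · have h3 := (h1 e k l (by omega) (by linarith) (by linarith) (by linarith) (by linarith) hcop).2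
          refine hle1.trans (h3.trans (le_of_eq ?_))
          ring
        · have h3 : {n | n ∈ Cl b M e k l ∧ n.Prime} = ∅ := by
            rw [Set.eq_empty_iff_forall_notMem]
            rintro n ⟨hn1, hn2⟩
            apply hcop
            obtain ⟨m1, _⟩ := Cl_mod hb (by omega) (by omega) (by omega) hn1
            unfold Nat.Coprime
            rw [← m1.gcd_eq]
            apply (Nat.Prime.coprime_iff_not_dvd hn2).2
            intro hd
            have h4 := Nat.le_of_dvd (by omega) hd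
            have h5 := hn1.1.1
            have h6 : b ^ 2 ≤ b ^ (2 * (2 * M + 1)) := Nat.pow_le_pow_right (by omega) (by omega)
            omega
          rw [h3, Set.ncard_empty, Nat.cast_zero] at hle1
          refine hle1.trans (by positivity)
  rw [hUeq, hfib]
  push_cast
  refine (sum_le_sum hterm).trans ?_
  rw [hG, sum_product]
  simp only
  rw [sum_const, card_range, nsmul_eq_mul, sum_product]
  simp only
  have ht := tail_sum (M := M) h2
  have hind : ∀ g : ℕ → ℝ, ∑ k ∈ range (M + 1), ind k * g k = ∑ k ∈ tail M, g k := by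
    intro g
    have h3 : tail M = (range (M + 1)).filter (fun k => k ∈ tail M) := by
      ext k
      rw [mem_filter]
      constructor
      · intro h
        refine ⟨?_, h⟩
        unfold tail at h
        exact (mem_filter.1 h).1
      · exact fun h => h.2
    conv_rhs => rw [h3, sum_filter]
    apply sum_congr rfl
    intro k _
    split_ifs with h
    · rw [hind1 k h, one_mul]
    · rw [hind0 k h, zero_mul]
  have hsum : ∑ k ∈ range (M + 1), ∑ l ∈ range (M + 1),
      (C / M + (ind k + ind l)) * ((M.choose k : ℝ) * M.choose l) =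
      C / M * (2 ^ M * 2 ^ M) + (∑ k ∈ tail M, (M.choose k : ℝ)) * 2 ^ M +
        2 ^ M * ∑ l ∈ tail M, (M.choose l : ℝ) := by
    rw [← hind (fun k => (M.choose k : ℝ)), ← sum_choose M, sum_mul_sum, sum_mul_sum, sum_mul_sum, mul_sum,
      ← sum_add_distrib, ← sum_add_distrib]
    apply sum_congr rfl
    intro k _
    rw [mul_sum, ← sum_add_distrib, ← sum_add_distrib]
    apply sum_congr rfl
    intro l _
    ring
  rw [hsum]
  have h4 : (4 : ℝ) ^ M = 2 ^ M * 2 ^ M := by rw [← mul_pow]; norm_num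
  have h2M : (0 : ℝ) < 2 ^ M := by positivity
  calc ((2 : ℕ) : ℝ) * (C / M * (2 ^ M * 2 ^ M) + (∑ k ∈ tail M, (M.choose k : ℝ)) * 2 ^ M +
        2 ^ M * ∑ l ∈ tail M, (M.choose l : ℝ)) ≤
      ((2 : ℕ) : ℝ) * (C / M * (2 ^ M * 2 ^ M) + (4 / M * 2 ^ M) * 2 ^ M + 2 ^ M * (4 / M * 2 ^ M)) := by
        gcongr
    _ = 2 * (C + 8) * 4 ^ M / (M : ℝ) := by
        rw [h4]
        push_cast
        ring

end Pool.Agent.H679.DC
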