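import Pool.Agent.H679.DC.Dis

/-!
# Prescribed numbers of digits: general phases
-/

set_option autoImplicit false

namespace Pool.Agent.H679.DC

open Finset Pool.Agent.Helper112

lemma genP {b : ℕ} (L : ℕ) (hb : 0 < b) (W : ℕ → ℂ) (s : ℕ → ℝ) :
    ∑ x ∈ range (b ^ L), (∏ i ∈ range L, W (x / b ^ i % b)) * (∏ i ∈ range L, ee (((x / b ^ i % b : ℕ) : ℝ) * s i)) =
      ∏ i ∈ range L, ∑ c ∈ range b, W c * ee (c * s i) := by
  induction L with
  | zero => simp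
  | succ L ih =>
    rw [sum_succ L hb, prod_range_succ, ← ih, sum_mul_sum]
    apply sum_congr rfl
    intro n hn
    apply sum_congr rfl
    intro d hd
    rw [mem_range] at hn hd
    rw [prod_range_succ, prod_range_succ, Pool.Agent.Y816.PD.digit_top hb hn hd]
    have h1 : ∏ i ∈ range L, W ((n + d * b ^ L) / b ^ i % b) = ∏ i ∈ range L, W (n / b ^ i % b) := by
      apply prod_congr rfl
      intro i hi
      rw [Pool.Agent.Y816.PD.digit_low hb (mem_range.1 hi)]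
    have h2 : ∏ i ∈ range L, ee ((((n + d * b ^ L) / b ^ i % b : ℕ) : ℝ) * s i) =
        ∏ i ∈ range L, ee (((n / b ^ i % b : ℕ) : ℝ) * s i) := by
      apply prod_congr rfl
      intro i hi
      rw [Pool.Agent.Y816.PD.digit_low hb (mem_range.1 hi)]
    rw [h1, h2]
    ring

/-- the exponential of the linear form of the digits -/
noncomputable def eP (b L : ℕ) (s : ℕ → ℝ) (x : ℕ) : ℂ := ∏ i ∈ range L, ee (((x / b ^ i % b : ℕ) : ℝ) * s i)

theorem extractP {b : ℕ} (L : ℕ) (hb : 0 < b) (k : ℕ → ℕ) (hk : ∀ c < b, k c ≤ L) (p : ℕ → ℝ) (s : ℕ → ℝ) :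
    ((L + 1 : ℕ) : ℂ) ^ b * (∏ c ∈ range b, (p c : ℂ) ^ k c) * ∑ x ∈ tc b L k, eP b L s x =
      ∑ t ∈ Fintype.piFinset (fun _ : Fin b => range (L + 1)),
        (∏ c : Fin b, ee (-((k c : ℝ) * ((t c : ℝ) / ((L + 1 : ℕ) : ℝ))))) *
        ∏ i ∈ range L, ∑ c ∈ range b, wt L p (ext t) c * ee (c * s i) := by
  have h1 : ∀ t : Fin b → ℕ, (∏ c : Fin b, ee (-((k c : ℝ) * ((t c : ℝ) / ((L + 1 : ℕ) : ℝ))))) *
      ∏ i ∈ range L, ∑ c ∈ range b, wt L p (ext t) c * ee (c * s i) =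
      ∑ x ∈ range (b ^ L), (∏ c : Fin b, (p c : ℂ) ^ dc b L x c) * eP b L s x *
        ∏ c : Fin b, ee ((((dc b L x c : ℕ) : ℤ) - (k c : ℕ) : ℤ) * ((t c : ℝ) / ((L + 1 : ℕ) : ℝ))) := by
    intro t
    rw [← genP L hb (wt L p (ext t)) s, mul_sum]
    apply sum_congr rfl
    intro x _
    rw [prod_dc L x hb, prod_range]
    have h2 : ∏ c : Fin b, wt L p (ext t) c ^ dc b L x c =
        (∏ c : Fin b, (p c : ℂ) ^ dc b L x c) *
        ∏ c : Fin b, ee ((dc b L x c : ℝ) * ((t c : ℝ) / ((L + 1 : ℕ) : ℝ))) := by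
      rw [← prod_mul_distrib]
      apply prod_congr rfl
      intro c _
      unfold wt
      rw [ext_fin, mul_pow, ← ls_ee_nat_mul]
    have h3 : ∏ c : Fin b, ee ((((dc b L x c : ℕ) : ℤ) - (k c : ℕ) : ℤ) * ((t c : ℝ) / ((L + 1 : ℕ) : ℝ))) =
        (∏ c : Fin b, ee (-((k c : ℝ) * ((t c : ℝ) / ((L + 1 : ℕ) : ℝ))))) *
        ∏ c : Fin b, ee ((dc b L x c : ℝ) * ((t c : ℝ) / ((L + 1 : ℕ) : ℝ))) := by
      rw [← prod_mul_distrib]
      apply prod_congr rfl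
      intro c _
      rw [← ls_ee_add]
      congr 1
      push_cast
      ring
    rw [h2, h3]
    unfold eP
    ring
  rw [sum_congr rfl fun t _ => h1 t, sum_comm]
  have h4 : ∀ x : ℕ, ∑ t ∈ Fintype.piFinset (fun _ : Fin b => range (L + 1)),
      (∏ c : Fin b, (p c : ℂ) ^ dc b L x c) * eP b L s x *
        ∏ c : Fin b, ee ((((dc b L x c : ℕ) : ℤ) - (k c : ℕ) : ℤ) * ((t c : ℝ) / ((L + 1 : ℕ) : ℝ))) =
      if (∀ c < b, dc b L x c = k c) then
        ((L + 1 : ℕ) : ℂ) ^ b * (∏ c ∈ range b, (p c : ℂ) ^ k c) * eP b L s x else 0 := by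
    intro x
    rw [← mul_sum, ← prod_univ_sum (fun _ : Fin b => range (L + 1)) (fun (c : Fin b) (τ : ℕ) =>
      ee ((((dc b L x c : ℕ) : ℤ) - (k c : ℕ) : ℤ) * ((τ : ℝ) / ((L + 1 : ℕ) : ℝ))))]
    have h5 : ∀ c : Fin b, ∑ τ ∈ range (L + 1),
        ee ((((dc b L x c : ℕ) : ℤ) - (k c : ℕ) : ℤ) * ((τ : ℝ) / ((L + 1 : ℕ) : ℝ))) =
        if dc b L x c = k c then ((L + 1 : ℕ) : ℂ) else 0 := fun c =>
      orthL L _ _ (dc_le b L x c) (hk c c.2)
    rw [prod_congr rfl fun c _ => h5 c]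
    split_ifs with h
    · have h6 : ∀ c : Fin b, (if dc b L x c = k c then ((L + 1 : ℕ) : ℂ) else 0) = ((L + 1 : ℕ) : ℂ) :=
        fun c => if_pos (h c c.2)
      rw [prod_congr rfl fun c _ => h6 c, prod_const, card_univ, Fintype.card_fin]
      have h7 : ∏ c : Fin b, (p c : ℂ) ^ dc b L x c = ∏ c ∈ range b, (p c : ℂ) ^ k c := by
        rw [prod_range]
        apply prod_congr rfl
        intro c _
        rw [h c c.2]
      rw [h7]
      ring
    · push Not at h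
      obtain ⟨c, hc, hne⟩ := h
      have h6 : ∏ c : Fin b, (if dc b L x c = k c then ((L + 1 : ℕ) : ℂ) else 0) = 0 :=
        prod_eq_zero (mem_univ (⟨c, hc⟩ : Fin b)) (if_neg hne)
      rw [h6, mul_zero]
  rw [sum_congr rfl fun x _ => h4 x, ← sum_filter, mul_sum]
  rfl

/-- the normalised exponential sum -/
noncomputable def FP (b L : ℕ) (k : ℕ → ℕ) (s : ℕ → ℝ) : ℝ := ‖∑ x ∈ tc b L k, eP b L s x‖ / (tc b L k).card

lemma FP_nonneg (b L : ℕ) (k : ℕ → ℕ) (s : ℕ → ℝ) : 0 ≤ FP b L k s := div_nonneg (norm_nonneg _) (Nat.cast_nonneg _)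

lemma FP_le {b : ℕ} (hb : 2 ≤ b) {ε : ℝ} {L : ℕ} (hL : 0 < L) {k : ℕ → ℕ} (h : Cnt b ε L k) (s : ℕ → ℝ) :
    FP b L k s ≤ ∑ t ∈ Fintype.piFinset (fun _ : Fin b => range (L + 1)),
      ∏ i ∈ range L, ph b (wt L (fun c => (k c : ℝ) / L) (ext t)) (s i) := by
  have hp : ∀ c, 0 ≤ (k c : ℝ) / L := fun c => by positivity
  have h0 := congrArg norm (extractP L (by omega : 0 < b) k (h.le) (fun c => (k c : ℝ) / L) s)
  rw [norm_mul, norm_mul, norm_pow, Complex.norm_natCast, norm_prod] at h0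
  have h1 : ∏ c ∈ range b, ‖(((k c : ℝ) / L : ℝ) : ℂ) ^ k c‖ = ∏ c ∈ range b, ((k c : ℝ) / L) ^ k c := by
    apply prod_congr rfl
    intro c _
    rw [norm_pow, Complex.norm_real, Real.norm_eq_abs, abs_of_nonneg (hp c)]
  rw [h1] at h0
  have h2 := size (by omega : 0 < b) hL h.sum
  have h3 : (0 : ℝ) < (tc b L k).card := by exact_mod_cast tc_pos (by omega) hL h
  have h4 : 0 ≤ ‖∑ x ∈ tc b L k, eP b L s x‖ := norm_nonneg _
  unfold FP
  rw [div_le_iff₀ h3]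
  calc ‖∑ x ∈ tc b L k, eP b L s x‖ = 1 * ‖∑ x ∈ tc b L k, eP b L s x‖ := (one_mul _).symm
    _ ≤ (((L + 1 : ℕ) : ℝ) ^ b * (∏ c ∈ range b, (((k c : ℝ) / L) ^ k c)) * (tc b L k).card) *
        ‖∑ x ∈ tc b L k, eP b L s x‖ := mul_le_mul_of_nonneg_right h2 h4
    _ = (((L + 1 : ℕ) : ℝ) ^ b * (∏ c ∈ range b, (((k c : ℝ) / L) ^ k c)) *
        ‖∑ x ∈ tc b L k, eP b L s x‖) * (tc b L k).card := by ring
    _ ≤ _ := by
        apply mul_le_mul_of_nonneg_right _ h3.le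
        rw [h0]
        refine (norm_sum_le _ _).trans (sum_le_sum fun t _ => ?_)
        rw [norm_mul, norm_prod, norm_prod]
        have h5 : ∏ c : Fin b, ‖ee (-((k c : ℝ) * ((t c : ℝ) / ((L + 1 : ℕ) : ℝ))))‖ = 1 :=
          prod_eq_one fun c _ => ls_norm_ee _
        rw [h5, one_mul]
        rfl

end Pool.Agent.H679.DC
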