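import Pool.Agent.H679.DC.Pw
import Pool.Agent.H679.DC.Ug

/-!
# The level of distribution of palindromes with prescribed numbers of digits
-/

set_option autoImplicit false

namespace Pool.Agent.H679.DC

open Finset Pool.Agent.Helper112

/-! ### coefficients -/

/-- the integer with given digits -/
def cv (b K : ℕ) (a : ℕ → ℕ) : ℕ := ∑ i ∈ range K, a i * b ^ i

lemma cv_lt {b : ℕ} {a : ℕ → ℕ} (ha : ∀ i, a i < b) (K : ℕ) : cv b K a < b ^ K := by
  induction K with
  | zero => simp [cv]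
  | succ K ih =>
    unfold cv at ih ⊢
    rw [sum_range_succ, pow_succ]
    have h1 : a K * b ^ K + b ^ K ≤ b ^ K * b := by
      calc a K * b ^ K + b ^ K = (a K + 1) * b ^ K := by ring
        _ ≤ b * b ^ K := Nat.mul_le_mul_right _ (ha K)
        _ = _ := mul_comm _ _
    omega

lemma cv_dig {b : ℕ} (hb : 0 < b) {a : ℕ → ℕ} (ha : ∀ i, a i < b) (K i : ℕ) (hi : i < K) :
    cv b K a / b ^ i % b = a i := by
  induction K with
  | zero => omega
  | succ K ih =>
    have h1 : cv b (K + 1) a = cv b K a + a K * b ^ K := by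
      unfold cv; rw [sum_range_succ]
    rw [h1]
    rcases Nat.lt_or_ge i K with h | h
    · rw [Pool.Agent.Y816.PD.digit_low hb h]
      exact ih h
    · have : i = K := by omega
      subst this
      exact Pool.Agent.Y816.PD.digit_top hb (cv_lt ha _) (ha _)

lemma cv_self {b : ℕ} (hb : 0 < b) (K n : ℕ) (hn : n < b ^ K) : cv b K (fun i => n / b ^ i % b) = n := by
  induction K generalizing n with
  | zero =>
    have : n = 0 := by rw [pow_zero] at hn; omega
    subst this
    simp [cv]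
  | succ K ih =>
    have h1 : n = n % b ^ K + n / b ^ K * b ^ K := by
      rw [mul_comm]; exact (Nat.mod_add_div _ _).symm
    have h2 : n / b ^ K < b := by
      rw [Nat.div_lt_iff_lt_mul (Nat.pow_pos hb), ← pow_succ']
      exact hn
    have h3 := ih (n % b ^ K) (Nat.mod_lt _ (Nat.pow_pos hb))
    unfold cv at h3 ⊢
    simp only at h3 ⊢
    rw [sum_range_succ, Nat.mod_eq_of_lt h2]
    have h4 : ∑ i ∈ range K, n / b ^ i % b * b ^ i = ∑ i ∈ range K, n % b ^ K / b ^ i % b * b ^ i := by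
      apply sum_congr rfl
      intro i hi
      congr 1
      conv_lhs => rw [h1]
      exact Pool.Agent.Y816.PD.digit_low hb (mem_range.1 hi)
    rw [h4, h3]
    exact h1.symm

/-! ### palindromes -/

/-- the place value of the two places at distance `j` from the middle -/
def pp (b N j : ℕ) : ℕ := b ^ (N - j) + b ^ (N + j)

lemma sv2_eq (b N j : ℕ) : sv2 b N j = (pp b N j : ℝ) := by
  unfold sv2 pp; push_cast; rfl

/-- the variable part -/
def pv (b N M z y : ℕ) : ℕ :=
  (∑ i ∈ range M, z / b ^ i % b * pp b N (2 * i + 1)) + ∑ i ∈ range M, y / b ^ i % b * pp b N (2 * i + 2)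

lemma sum_two_step {A : Type*} [AddCommMonoid A] (M : ℕ) (f : ℕ → A) :
    ∑ j ∈ range (2 * M), f j = (∑ i ∈ range M, f (2 * i)) + ∑ i ∈ range M, f (2 * i + 1) := by
  induction M with
  | zero => simp
  | succ M ih =>
    have h1 : 2 * (M + 1) = 2 * M + 1 + 1 := by ring
    rw [h1, sum_range_succ, sum_range_succ, ih, sum_range_succ, sum_range_succ]
    abel

lemma cv_pal (b N : ℕ) (a : ℕ → ℕ) (ha : ∀ j ≤ N, a (N - j) = a (N + j)) :
    cv b (2 * N + 1) a = a N * b ^ N + ∑ j ∈ range N, a (N + (j + 1)) * pp b N (j + 1) := by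
  have h1 : 2 * N + 1 = N + (N + 1) := by ring
  unfold cv
  rw [h1, sum_range_add, sum_range_succ' (fun j => a (N + j) * b ^ (N + j))]
  have h2 : ∑ i ∈ range N, a i * b ^ i = ∑ j ∈ range N, a (N + (j + 1)) * b ^ (N - (j + 1)) := by
    rw [← sum_range_reflect]
    apply sum_congr rfl
    intro j hj
    rw [mem_range] at hj
    have h3 : N - 1 - j = N - (j + 1) := by omega
    rw [h3, ha (j + 1) (by omega)]
  rw [h2, ← add_assoc, ← sum_add_distrib, Nat.add_zero, add_comm]
  congr 1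
  apply sum_congr rfl
  intro j _
  unfold pp
  ring

/-- the digits at the places `N + j` -/
def gz (b M : ℕ) (P : ℕ → ℕ) (z y j : ℕ) : ℕ :=
  if j = 0 ∨ 2 * M < j then P j else if j % 2 = 1 then z / b ^ ((j - 1) / 2) % b else y / b ^ ((j - 2) / 2) % b

/-- all digits -/
def az (b N M : ℕ) (P : ℕ → ℕ) (z y i : ℕ) : ℕ := gz b M P z y (if i ≤ N then N - i else i - N)

/-- the fixed part -/
def fx (b N M : ℕ) (P : ℕ → ℕ) : ℕ := P 0 * b ^ N + ∑ j ∈ Ico (2 * M) N, P (j + 1) * pp b N (j + 1)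

lemma az_symm (b N M : ℕ) (P : ℕ → ℕ) (z y j : ℕ) (hj : j ≤ N) : az b N M P z y (N - j) = az b N M P z y (N + j) := by
  unfold az
  rw [if_pos (by omega)]
  by_cases h : N + j ≤ N
  · rw [if_pos h]
    have : j = 0 := by omega
    subst this
    simp
  · rw [if_neg h]
    congr 1
    omega

lemma az_add (b N M : ℕ) (P : ℕ → ℕ) (z y j : ℕ) : az b N M P z y (N + j) = gz b M P z y j := by
  unfold az
  by_cases h : N + j ≤ N
  · rw [if_pos h]
    have : j = 0 := by omega
    subst this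
    simp
  · rw [if_neg h]
    congr 1
    omega

lemma gz_lt {b : ℕ} (hb : 0 < b) (M : ℕ) {P : ℕ → ℕ} (hP : ∀ j, P j < b) (z y j : ℕ) : gz b M P z y j < b := by
  unfold gz
  split_ifs
  · exact hP j
  · exact Nat.mod_lt _ hb
  · exact Nat.mod_lt _ hb

lemma az_lt {b : ℕ} (hb : 0 < b) (N M : ℕ) {P : ℕ → ℕ} (hP : ∀ j, P j < b) (z y i : ℕ) : az b N M P z y i < b :=
  gz_lt hb M hP z y _

lemma cv_az {b N M : ℕ} (hM : 2 * M ≤ N) (P : ℕ → ℕ) (z y : ℕ) :
    cv b (2 * N + 1) (az b N M P z y) = fx b N M P + pv b N M z y := by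
  rw [cv_pal b N _ (az_symm b N M P z y)]
  have h0 : az b N M P z y N = P 0 := by
    have := az_add b N M P z y 0
    rw [Nat.add_zero] at this
    rw [this]
    unfold gz
    rw [if_pos (Or.inl rfl)]
  have h1 : ∑ j ∈ range N, az b N M P z y (N + (j + 1)) * pp b N (j + 1) =
      (∑ j ∈ range (2 * M), gz b M P z y (j + 1) * pp b N (j + 1)) +
      ∑ j ∈ Ico (2 * M) N, P (j + 1) * pp b N (j + 1) := by
    rw [← sum_range_add_sum_Ico _ hM]
    congr 1
    · apply sum_congr rfl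
      intro j _
      rw [az_add]
    · apply sum_congr rfl
      intro j hj
      rw [mem_Ico] at hj
      rw [az_add]
      unfold gz
      rw [if_pos (Or.inr (by omega))]
  have h2 : ∑ j ∈ range (2 * M), gz b M P z y (j + 1) * pp b N (j + 1) = pv b N M z y := by
    rw [sum_two_step]
    unfold pv
    congr 1
    · apply sum_congr rfl
      intro i hi
      rw [mem_range] at hi
      unfold gz
      rw [if_neg (by omega), if_pos (by omega)]
      have : (2 * i + 1 - 1) / 2 = i := by omega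
      rw [this]
    · apply sum_congr rfl
      intro i hi
      rw [mem_range] at hi
      unfold gz
      rw [if_neg (by omega), if_neg (by omega)]
      have : (2 * i + 1 + 1 - 2) / 2 = i := by omega
      rw [this]
  rw [h0, h1, h2]
  unfold fx
  ring

/-- the digits of the palindromes -/
lemma dig_az {b N M : ℕ} (hb : 0 < b) (hM : 2 * M ≤ N) {P : ℕ → ℕ} (hP : ∀ j, P j < b) (z y i : ℕ) (hi : i ≤ 2 * N) :
    (fx b N M P + pv b N M z y) / b ^ i % b = az b N M P z y i := by
  rw [← cv_az hM]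
  exact cv_dig hb (az_lt hb N M hP z y) _ _ (by omega)

lemma pv_inj {b N M : ℕ} (hb : 0 < b) (hM : 2 * M ≤ N) {P : ℕ → ℕ} (hP : ∀ j, P j < b) {z y z' y' : ℕ}
    (hz : z < b ^ M) (hy : y < b ^ M) (hz' : z' < b ^ M) (hy' : y' < b ^ M)
    (h : fx b N M P + pv b N M z y = fx b N M P + pv b N M z' y') : z = z' ∧ y = y' := by
  have h1 : ∀ j ≤ N, gz b M P z y j = gz b M P z' y' j := by
    intro j hj
    rw [← az_add b N M P z y j, ← az_add b N M P z' y' j, ← dig_az hb hM hP z y (N + j) (by omega),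
      ← dig_az hb hM hP z' y' (N + j) (by omega), h]
  constructor
  · rw [← cv_self hb M z hz, ← cv_self hb M z' hz']
    unfold cv
    apply sum_congr rfl
    intro i hi
    rw [mem_range] at hi
    have h2 := h1 (2 * i + 1) (by omega)
    unfold gz at h2
    rw [if_neg (by omega), if_pos (by omega), if_neg (by omega), if_pos (by omega)] at h2
    have h3 : (2 * i + 1 - 1) / 2 = i := by omega
    rw [h3] at h2
    simp only [h2]
  · rw [← cv_self hb M y hy, ← cv_self hb M y' hy']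
    unfold cv
    apply sum_congr rfl
    intro i hi
    rw [mem_range] at hi
    have h2 := h1 (2 * i + 2) (by omega)
    unfold gz at h2
    rw [if_neg (by omega), if_neg (by omega), if_neg (by omega), if_neg (by omega)] at h2
    have h3 : (2 * i + 2 - 2) / 2 = i := by omega
    rw [h3] at h2
    simp only [h2]

/-- the palindromes with `2 N + 1` digits, fixed digits at the places `N` and beyond `N + 2 M`, and prescribed numbers of
digits at the places `N + j` with odd `j ≤ 2 M`, and with even `j`, `2 ≤ j ≤ 2 M` -/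
def PalS (b N M : ℕ) (P : ℕ → ℕ) (kO kE : ℕ → ℕ) : Finset ℕ :=
  (tc b M kO ×ˢ tc b M kE).image (fun w => fx b N M P + pv b N M w.1 w.2)

lemma tc_lt {b L : ℕ} {k : ℕ → ℕ} {x : ℕ} (hx : x ∈ tc b L k) : x < b ^ L := by
  unfold tc at hx
  exact mem_range.1 (mem_filter.1 hx).1

lemma PalS_inj {b N M : ℕ} (hb : 0 < b) (hM : 2 * M ≤ N) {P : ℕ → ℕ} (hP : ∀ j, P j < b) (kO kE : ℕ → ℕ) :
    Set.InjOn (fun w : ℕ × ℕ => fx b N M P + pv b N M w.1 w.2) (tc b M kO ×ˢ tc b M kE : Finset (ℕ × ℕ)) := by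
  rintro ⟨z, y⟩ h1 ⟨z', y'⟩ h2 h
  rw [mem_coe, mem_product] at h1 h2
  obtain ⟨h3, h4⟩ := pv_inj hb hM hP (tc_lt h1.1) (tc_lt h1.2) (tc_lt h2.1) (tc_lt h2.2) h
  rw [Prod.mk.injEq]
  exact ⟨h3, h4⟩

lemma card_PalS {b N M : ℕ} (hb : 0 < b) (hM : 2 * M ≤ N) {P : ℕ → ℕ} (hP : ∀ j, P j < b) (kO kE : ℕ → ℕ) :
    (PalS b N M P kO kE).card = (tc b M kO).card * (tc b M kE).card := by
  unfold PalS
  rw [card_image_of_injOn (PalS_inj hb hM hP kO kE), card_product]

lemma FS_PalS {b N M : ℕ} (hb : 0 < b) (hM : 2 * M ≤ N) {P : ℕ → ℕ} (hP : ∀ j, P j < b) (kO kE : ℕ → ℕ) (θ : ℝ) :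
    FS (PalS b N M P kO kE) θ = FP b M kO (fun i => sv2 b N (2 * i + 1) * θ) *
      FP b M kE (fun i => sv2 b N (2 * i + 2) * θ) := by
  unfold FS FP
  rw [card_PalS hb hM hP, div_mul_div_comm, ← norm_mul]
  push_cast
  congr 1
  unfold PalS
  rw [sum_image (PalS_inj hb hM hP kO kE)]
  have h1 : ∀ w ∈ tc b M kO ×ˢ tc b M kE, ee (((fx b N M P + pv b N M w.1 w.2 : ℕ) : ℝ) * θ) =
      ee ((fx b N M P : ℝ) * θ) * (eP b M (fun i => sv2 b N (2 * i + 1) * θ) w.1 *
        eP b M (fun i => sv2 b N (2 * i + 2) * θ) w.2) := by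
    intro w _
    unfold pv eP
    have hs : ∀ (f : ℕ → ℝ) (K : ℕ), ee (∑ i ∈ range K, f i) = ∏ i ∈ range K, ee (f i) := by
      intro f K
      induction K with
      | zero => simp [ls_ee_zero]
      | succ K ih => rw [sum_range_succ, prod_range_succ, ls_ee_add, ih]
    rw [← hs, ← hs, ← ls_ee_add, ← ls_ee_add]
    congr 1
    push_cast
    rw [add_mul, add_mul, sum_mul, sum_mul]
    congr 1
    congr 1
    · apply sum_congr rfl
      intro i _
      rw [sv2_eq]
      ring
    · apply sum_congr rfl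
      intro i _
      rw [sv2_eq]
      ring
  rw [sum_congr rfl h1, ← mul_sum, norm_mul, ls_norm_ee, one_mul, sum_product, sum_mul_sum]

/-- multiplication permutes the reduced fractions -/
lemma sum_perm {e u : ℕ} (he : 0 < e) (hu : u.Coprime e) (F : ℝ → ℝ) (hF : ∀ (x : ℝ) (m : ℤ), F (x + m) = F x) :
    ∑ a ∈ (range e).filter (fun a => a.Coprime e), F ((u : ℝ) * ((a : ℝ) / e)) =
      ∑ a ∈ (range e).filter (fun a => a.Coprime e), F ((a : ℝ) / e) := by
  have he0 : (e : ℝ) ≠ 0 := by exact_mod_cast he.ne'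
  obtain ⟨T, hT⟩ : ∃ T, T = (range e).filter (fun a => a.Coprime e) := ⟨_, rfl⟩
  have hmaps : ∀ a ∈ T, u * a % e ∈ T := by
    intro a ha
    rw [hT, mem_filter, mem_range] at ha ⊢
    refine ⟨Nat.mod_lt _ he, ?_⟩
    have h1 : (u * a).Coprime e := Nat.Coprime.mul_left hu ha.2
    unfold Nat.Coprime at h1 ⊢
    rw [← Nat.gcd_rec, Nat.gcd_comm]
    exact h1
  have hinj : Set.InjOn (fun a => u * a % e) (T : Set ℕ) := by
    intro a ha a' ha' h
    rw [mem_coe, hT, mem_filter, mem_range] at ha ha'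
    have h1 : u * a ≡ u * a' [MOD e] := h
    have h2 : a ≡ a' [MOD e] := Nat.ModEq.cancel_left_of_coprime (by rw [Nat.gcd_comm]; exact hu) h1
    rwa [Nat.ModEq, Nat.mod_eq_of_lt ha.1, Nat.mod_eq_of_lt ha'.1] at h2
  have himg : T.image (fun a => u * a % e) = T :=
    eq_of_subset_of_card_le (fun x hx => by
      obtain ⟨a, ha, rfl⟩ := mem_image.1 hx
      exact hmaps a ha) (by rw [card_image_of_injOn hinj])
  rw [← hT]
  conv_rhs => rw [← himg, sum_image hinj]
  apply sum_congr rfl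
  intro a _
  have h1 : u * a = u * a % e + e * (u * a / e) := (Nat.mod_add_div _ _).symm
  obtain ⟨Q, hQ⟩ : ∃ Q, Q = u * a / e := ⟨_, rfl⟩
  obtain ⟨R, hR⟩ : ∃ R, R = u * a % e := ⟨_, rfl⟩
  rw [← hQ, ← hR] at h1
  rw [← hR]
  have h2 : (u : ℝ) * ((a : ℝ) / e) = (R : ℝ) / e + ((Q : ℤ) : ℝ) := by
    have h3 : ((u * a : ℕ) : ℝ) = ((R + e * Q : ℕ) : ℝ) := by rw [h1]
    push_cast at h3 ⊢
    field_simp
    linear_combination h3
  rw [h2, hF]

end Pool.Agent.H679.DC
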