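import Pool.Agent.H679.DC.Pv
import Pool.Agent.H679.DC.Main

/-!
# Almost prime tuples at palindromes with prescribed numbers of digits
-/

set_option autoImplicit false

namespace Pool.Agent.H679.DC

open Finset Filter
open Pool.Agent.H373R2.T7 Pool.Agent.H410R2.ED Pool.Agent.W123.RP

lemma pow_sq_mod {b : ℕ} (hb : 1 ≤ b) (m k : ℕ) : b ^ (m + 2 * k) ≡ b ^ m [MOD b ^ 2 - 1] := by
  have h1 : b ^ 2 ≡ 1 [MOD b ^ 2 - 1] := ((Nat.modEq_iff_dvd' (Nat.one_le_pow _ _ hb)).2 dvd_rfl).symm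
  have h2 : b ^ m * (b ^ 2) ^ k ≡ b ^ m * 1 ^ k [MOD b ^ 2 - 1] := Nat.ModEq.mul_left _ (h1.pow k)
  rw [one_pow, mul_one, ← pow_mul, ← pow_add] at h2
  exact h2

lemma pp_odd {b : ℕ} (hb : 1 ≤ b) {N i : ℕ} (hi : 2 * i + 1 ≤ N) :
    pp b N (2 * i + 1) ≡ 2 * b ^ (N + 1) [MOD b ^ 2 - 1] := by
  unfold pp
  have h1 := pow_sq_mod hb (N - (2 * i + 1)) (i + 1)
  have h2 := pow_sq_mod hb (N + 1) i
  have e1 : N - (2 * i + 1) + 2 * (i + 1) = N + 1 := by omega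
  have e2 : N + 1 + 2 * i = N + (2 * i + 1) := by ring
  rw [e1] at h1
  rw [e2] at h2
  have h3 := h1.symm.add h2
  rwa [← two_mul] at h3

lemma pp_even {b : ℕ} (hb : 1 ≤ b) {N i : ℕ} (hi : 2 * i + 2 ≤ N) :
    pp b N (2 * i + 2) ≡ 2 * b ^ N [MOD b ^ 2 - 1] := by
  unfold pp
  have h1 := pow_sq_mod hb (N - (2 * i + 2)) (i + 1)
  have h2 := pow_sq_mod hb N (i + 1)
  have e1 : N - (2 * i + 2) + 2 * (i + 1) = N := by omega
  have e2 : N + 2 * (i + 1) = N + (2 * i + 2) := by ring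
  rw [e1] at h1
  rw [e2] at h2
  have h3 := h1.symm.add h2
  rwa [← two_mul] at h3

lemma sum_modEq {n : ℕ} {ι : Type*} (s : Finset ι) (f g : ι → ℕ) (h : ∀ i ∈ s, f i ≡ g i [MOD n]) :
    ∑ i ∈ s, f i ≡ ∑ i ∈ s, g i [MOD n] := by
  classical
  induction s using Finset.induction_on with
  | empty => rfl
  | insert a s ha ih =>
    rw [sum_insert ha, sum_insert ha]
    exact (h a (mem_insert_self _ _)).add (ih fun i hi => h i (mem_insert_of_mem hi))

lemma sum_dig_tc {b L : ℕ} (hb : 0 < b) {k : ℕ → ℕ} {x : ℕ} (hx : x ∈ tc b L k) :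
    ∑ i ∈ range L, x / b ^ i % b = ∑ c ∈ range b, c * k c := by
  rw [sum_digits_dc hb]
  unfold tc at hx
  rw [mem_filter, mem_range] at hx
  apply sum_congr rfl
  intro c hc
  rw [hx.2 c (mem_range.1 hc)]

lemma pv_mod {b N M : ℕ} (hb : 1 ≤ b) (hM : 2 * M ≤ N) {kO kE : ℕ → ℕ} {z y : ℕ} (hz : z ∈ tc b M kO)
    (hy : y ∈ tc b M kE) : pv b N M z y ≡ (∑ c ∈ range b, c * kO c) * (2 * b ^ (N + 1)) +
      (∑ c ∈ range b, c * kE c) * (2 * b ^ N) [MOD b ^ 2 - 1] := by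
  unfold pv
  rw [← sum_dig_tc (by omega) hz, ← sum_dig_tc (by omega) hy, sum_mul, sum_mul]
  apply Nat.ModEq.add
  · apply sum_modEq
    intro i hi
    rw [mem_range] at hi
    exact Nat.ModEq.mul_left _ (pp_odd hb (by omega))
  · apply sum_modEq
    intro i hi
    rw [mem_range] at hi
    exact Nat.ModEq.mul_left _ (pp_even hb (by omega))

lemma pv_mod_b {b N M : ℕ} (hM : 2 * M < N) (z y : ℕ) : b ∣ pv b N M z y := by
  unfold pv
  apply dvd_add
  · apply dvd_sum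
    intro i hi
    rw [mem_range] at hi
    apply Dvd.dvd.mul_left
    unfold pp
    exact dvd_add (dvd_pow_self b (by omega)) (dvd_pow_self b (by omega))
  · apply dvd_sum
    intro i hi
    rw [mem_range] at hi
    apply Dvd.dvd.mul_left
    unfold pp
    exact dvd_add (dvd_pow_self b (by omega)) (dvd_pow_self b (by omega))

/-- all elements of the set are congruent to each other -/
lemma PalS_mod {b N M : ℕ} (hb : 1 ≤ b) (hM : 2 * M < N) {P kO kE : ℕ → ℕ} {n n' : ℕ}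
    (hn : n ∈ PalS b N M P kO kE) (hn' : n' ∈ PalS b N M P kO kE) :
    n ≡ n' [MOD b ^ 2 - 1] ∧ n ≡ n' [MOD b] := by
  unfold PalS at hn hn'
  rw [mem_image] at hn hn'
  obtain ⟨⟨z, y⟩, hw, rfl⟩ := hn
  obtain ⟨⟨z', y'⟩, hw', rfl⟩ := hn'
  rw [mem_product] at hw hw'
  constructor
  · apply Nat.ModEq.add_left
    exact (pv_mod hb hM.le hw.1 hw.2).trans (pv_mod hb hM.le hw'.1 hw'.2).symm
  · apply Nat.ModEq.add_left
    exact ((Nat.modEq_zero_iff_dvd).2 (pv_mod_b hM z y)).trans ((Nat.modEq_zero_iff_dvd).2 (pv_mod_b hM z' y')).symm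

lemma PalS_cop {b N M : ℕ} (hb : 1 ≤ b) (hM : 2 * M < N) {P kO kE : ℕ → ℕ} {n n' h : ℕ}
    (hn : n ∈ PalS b N M P kO kE) (hn' : n' ∈ PalS b N M P kO kE) (hc : (n + h).Coprime (b * (b ^ 2 - 1))) :
    (n' + h).Coprime (b * (b ^ 2 - 1)) := by
  obtain ⟨h1, h2⟩ := PalS_mod hb hM hn hn'
  apply Nat.Coprime.mul_right
  · have h3 : (n + h).Coprime b := Nat.Coprime.coprime_dvd_right (Dvd.intro _ rfl) hc
    unfold Nat.Coprime at h3 ⊢
    rw [← (h2.add_right h).gcd_eq]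
    exact h3
  · have h3 : (n + h).Coprime (b ^ 2 - 1) := Nat.Coprime.coprime_dvd_right (Dvd.intro_left _ rfl) hc
    unfold Nat.Coprime at h3 ⊢
    rw [← (h1.add_right h).gcd_eq]
    exact h3

lemma PalS_lt {b N M : ℕ} (hb : 0 < b) (hM : 2 * M ≤ N) {P kO kE : ℕ → ℕ} (hP : ∀ j, P j < b) {n : ℕ}
    (hn : n ∈ PalS b N M P kO kE) : n < b ^ (2 * N + 1) := by
  unfold PalS at hn
  rw [mem_image] at hn
  obtain ⟨⟨z, y⟩, hw, rfl⟩ := hn
  rw [← cv_az hM]
  exact cv_lt (az_lt hb N M hP z y) _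

open Classical in
/-- **Lower bound for almost prime tuples at palindromes** -/
theorem pal_lower {b : ℕ} {ε : ℝ} (hb : 2 ≤ b) (hε : 0 < ε) (hε1 : ε ≤ 1) (H : Finset ℕ) (hH : 1 ≤ H.card)
    (hadm : ∀ p : ℕ, p.Prime → ∃ m : ℕ, ∀ h ∈ H, ¬ p ∣ m + h) (D : ℕ) :
    ∃ r : ℕ, 2 ≤ r ∧ ∃ κ : ℝ, 0 < κ ∧ ∀ᶠ M : ℕ in atTop, ∀ (N : ℕ) (P kO kE : ℕ → ℕ), 2 * M < N → N ≤ D * M →
      (∀ j, P j < b) → Cnt b ε M kO → Cnt b ε M kE →
      (∃ n ∈ PalS b N M P kO kE, ∀ h ∈ H, (n + h).Coprime (b * (b ^ 2 - 1))) →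
      κ * (PalS b N M P kO kE).card / (M : ℝ) ^ H.card ≤
        (((PalS b N M P kO kE).filter (fun n => ∀ h ∈ H, (∀ p : ℕ, p.Prime → p ∣ n + h → b ^ M < p ^ r) ∧
          (n + h).primeFactorsList.length ≤ r)).card : ℝ) := by
  have hb4 : 4 ≤ b ^ 2 := by nlinarith
  obtain ⟨E0, hE0, κ, hκ, hlow⟩ := gen_lower (b := b ^ 2) (by omega) (lev_pal hb hε hε1) H.card hH
  obtain ⟨v, Cv, hv, hCv, hV⟩ := V_bds H hadm (b := b ^ 2) (by omega)
  obtain ⟨r, hr⟩ : ∃ r, r = (2 * D + 2) * E0 + 2 := ⟨_, rfl⟩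
  refine ⟨r, by omega, κ * v, by positivity, ?_⟩
  obtain ⟨h0, hh0⟩ : ∃ h0, ∀ h ∈ H, h ≤ h0 := ⟨H.sup id, fun h hh => le_sup (f := id) hh⟩
  obtain ⟨L0, hL0⟩ := eventually_atTop.1 (hlow.and hV)
  refine eventually_atTop.2 ⟨L0 + h0 + 3, fun M hM => ?_⟩
  obtain ⟨L, rfl⟩ : ∃ L, M = L + 1 := ⟨M - 1, by omega⟩
  obtain ⟨hL1, hL2⟩ := hL0 L (by omega)
  intro N P kO kE hN hND hP hO hE hloc
  obtain ⟨n0, hn0, hcop0⟩ := hloc
  obtain ⟨S, hS⟩ : ∃ S, S = PalS b N (L + 1) P kO kE := ⟨_, rfl⟩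
  have hcop : ∀ n ∈ S, ∀ h ∈ H, (n + h).Coprime (b * (b ^ 2 - 1)) := by
    intro n hn h hh
    rw [hS] at hn
    exact PalS_cop (by omega) hN hn0 hn (hcop0 h hh)
  have hQ1 : (b ^ 2) ^ 0 = 1 := pow_zero _
  have h1 := hL1 (QT (b ^ 2) H ((b ^ 2) ^ 0) 0) (QT_B H 0) (fun p hp => QT_lt hadm 0 hp) S
    ⟨N, P, kO, kE, hN.le, hP, hO, hE, hS⟩ (by
    intro p hp hpB n hn hq
    obtain ⟨hpn, h, hh, hd⟩ := hq
    rw [hQ1, one_mul, add_zero] at hd
    have hpB' : p ∣ b ^ 2 - 1 := by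
      rcases (hp.dvd_mul).1 hpB with h2 | h2
      · exact absurd h2 hpn
      · exact h2
    have h3 := Nat.dvd_gcd hd (hpB'.mul_left b)
    rw [Nat.Coprime.gcd_eq_one (hcop n hn h hh)] at h3
    exact hp.one_lt.ne' (Nat.dvd_one.1 h3))
  have h2 := (hL2 0 0).1
  rw [← hS]
  have hLr : (0 : ℝ) < L := by exact_mod_cast (by omega : 0 < L)
  have hM1 : (L : ℝ) ^ H.card ≤ ((L + 1 : ℕ) : ℝ) ^ H.card := by
    apply pow_le_pow_left₀ hLr.le
    push_cast
    linarith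
  calc κ * v * S.card / ((L + 1 : ℕ) : ℝ) ^ H.card ≤ κ * v * S.card / (L : ℝ) ^ H.card :=
        div_le_div_of_nonneg_left (by positivity) (by positivity) hM1
    _ = κ * S.card * (v / (L : ℝ) ^ H.card) := by ring
    _ ≤ κ * S.card * Vq (QT (b ^ 2) H ((b ^ 2) ^ 0) 0) ((b ^ 2) ^ L) :=
        mul_le_mul_of_nonneg_left h2 (by positivity)
    _ ≤ _ := h1
    _ ≤ _ := by
        rw [Nat.cast_le]
        apply card_le_card
        intro n hn
        rw [mem_filter] at hn ⊢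
        refine ⟨hn.1, fun h hh => ?_⟩
        have hcb := hcop n hn.1 h hh
        have hnb : (n + h).Coprime b := Nat.Coprime.coprime_dvd_right (Dvd.intro _ rfl) hcb
        have hbM : b ^ (L + 1) ≤ (b ^ 2) ^ L := by
          rw [← pow_mul]
          exact Nat.pow_le_pow_right (by omega) (by omega)
        have hpr : ∀ p : ℕ, p.Prime → p ∣ n + h → b ^ (L + 1) < p ^ E0 := by
          intro p hp hd
          by_contra hcon
          push Not at hcon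
          apply hn.2 p hp (hcon.trans hbM)
          refine ⟨fun hpb => ?_, h, hh, by rw [hQ1, one_mul, add_zero]; exact hd⟩
          have h5 := Nat.dvd_gcd hd (hp.dvd_of_dvd_pow hpb)
          rw [Nat.Coprime.gcd_eq_one hnb] at h5
          exact hp.one_lt.ne' (Nat.dvd_one.1 h5)
        have hne : n + h ≠ 0 := by
          intro h4
          rw [h4, Nat.coprime_zero_left] at hnb
          omega
        have hsize : n + h ≤ b ^ ((2 * D + 2) * (L + 1)) := by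
          have hn1 := hn.1
          rw [hS] at hn1
          have h3 := PalS_lt (by omega) hN.le hP hn1
          have h4 : b ^ (2 * N + 1) ≤ b ^ (2 * D * (L + 1) + 1) := by
            apply Nat.pow_le_pow_right (by omega)
            have h41 : 2 * N ≤ 2 * (D * (L + 1)) := Nat.mul_le_mul_left 2 hND
            have h42 : 2 * D * (L + 1) = 2 * (D * (L + 1)) := by ring
            omega
          have h5 : h < b ^ (L + 1) := by
            have h6 : h ≤ L + 1 := by have := hh0 h hh; omega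
            exact lt_of_le_of_lt h6 (Nat.lt_pow_self (by omega))
          have h7 : b ^ (2 * D * (L + 1) + 1) ≤ b ^ (2 * D * (L + 1) + (L + 1)) :=
            Nat.pow_le_pow_right (by omega) (by omega)
          have h8 : b ^ (L + 1) ≤ b ^ (2 * D * (L + 1) + (L + 1)) := Nat.pow_le_pow_right (by omega) (by omega)
          have h9 : b ^ ((2 * D + 2) * (L + 1)) = b ^ (2 * D * (L + 1) + (L + 1)) * b ^ (L + 1) := by
            rw [← pow_add]; congr 1; ring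
          have h10 : 2 ≤ b ^ (L + 1) := by
            calc 2 ≤ b := hb
              _ = b ^ 1 := (pow_one b).symm
              _ ≤ b ^ (L + 1) := Nat.pow_le_pow_right (by omega) (by omega)
          rw [h9]
          obtain ⟨Y, hY⟩ : ∃ Y, Y = b ^ (2 * D * (L + 1) + (L + 1)) := ⟨_, rfl⟩
          rw [← hY] at h7 h8 ⊢
          have h11 : Y * 2 ≤ Y * b ^ (L + 1) := Nat.mul_le_mul_left _ h10
          omega
        refine ⟨fun p hp hd => ?_, ?_⟩
        · refine lt_of_lt_of_le (hpr p hp hd) (Nat.pow_le_pow_right hp.pos ?_)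
          rw [hr]
          nlinarith
        · have h3 := length_le hb (Nat.succ_pos L) hne hsize hpr
          omega

open Classical in
/-- **Upper bound for tuples without small prime factors at palindromes** -/
theorem pal_upper {b : ℕ} {ε : ℝ} (hb : 2 ≤ b) (hε : 0 < ε) (hε1 : ε ≤ 1) (H : Finset ℕ) (hH : 1 ≤ H.card)
    (hadm : ∀ p : ℕ, p.Prime → ∃ m : ℕ, ∀ h ∈ H, ¬ p ∣ m + h) (r : ℕ) (hr : 1 ≤ r) :
    ∃ C : ℝ, 0 < C ∧ ∀ᶠ M : ℕ in atTop, ∀ (N : ℕ) (P kO kE : ℕ → ℕ), 2 * M ≤ N →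
      (∀ j, P j < b) → Cnt b ε M kO → Cnt b ε M kE →
      (((PalS b N M P kO kE).filter (fun n => ∀ h ∈ H, ∀ p : ℕ, p.Prime → p ∣ n + h → b ^ M < p ^ r)).card : ℝ) ≤
        C * (PalS b N M P kO kE).card / (M : ℝ) ^ H.card := by
  have hb4 : 4 ≤ b ^ 2 := by nlinarith
  have hBpos : 0 < b ^ 2 * (b ^ 2 - 1) := Nat.mul_pos (by omega) (by omega)
  obtain ⟨C, hC, hup⟩ := gen_upper (b := b ^ 2) (by omega) hBpos (lev_pal hb hε hε1) H.card hH (2 * r) (by omega)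
  obtain ⟨v, Cv, hv, hCv, hV⟩ := V_bds H hadm (b := b ^ 2) (by omega)
  refine ⟨C * Cv * 2 ^ H.card, by positivity, ?_⟩
  obtain ⟨L0, hL0⟩ := eventually_atTop.1 (hup.and hV)
  refine eventually_atTop.2 ⟨L0 + 3, fun M hM => ?_⟩
  obtain ⟨L, rfl⟩ : ∃ L, M = L + 1 := ⟨M - 1, by omega⟩
  obtain ⟨hL1, hL2⟩ := hL0 L (by omega)
  intro N P kO kE hN hP hO hE
  obtain ⟨S, hS⟩ : ∃ S, S = PalS b N (L + 1) P kO kE := ⟨_, rfl⟩
  have hQ1 : (b ^ 2) ^ 0 = 1 := pow_zero _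
  have h1 := hL1 (QT (b ^ 2) H ((b ^ 2) ^ 0) 0) (QT_B H 0) (fun p hp => QT_lt hadm 0 hp) S
    ⟨N, P, kO, kE, hN, hP, hO, hE, hS⟩
  have h2 := (hL2 0 0).2
  rw [← hS]
  have hLr : (1 : ℝ) ≤ L := by exact_mod_cast (by omega : 1 ≤ L)
  have hM1 : ((L + 1 : ℕ) : ℝ) ^ H.card ≤ 2 ^ H.card * (L : ℝ) ^ H.card := by
    rw [← mul_pow]
    apply pow_le_pow_left₀ (by positivity)
    push_cast
    linarith
  calc _ ≤ ((S.filter (fun x => ∀ p : ℕ, p.Prime → p ^ (2 * r) ≤ (b ^ 2) ^ L →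
        ¬ QT (b ^ 2) H ((b ^ 2) ^ 0) 0 p x)).card : ℝ) := by
        rw [Nat.cast_le]
        apply card_le_card
        intro n hn
        rw [mem_filter] at hn ⊢
        refine ⟨hn.1, fun p hp hpr hq => ?_⟩
        obtain ⟨hpn, h, hh, hd⟩ := hq
        rw [hQ1, one_mul, add_zero] at hd
        have h3 := hn.2 h hh p hp hd
        have h4 : (b ^ 2) ^ L < p ^ (2 * r) := by
          calc (b ^ 2) ^ L = b ^ (2 * L) := (pow_mul _ _ _).symm
            _ ≤ b ^ (2 * (L + 1)) := Nat.pow_le_pow_right (by omega) (by omega)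
            _ = (b ^ (L + 1)) ^ 2 := by rw [← pow_mul]; congr 1; ring
            _ < (p ^ r) ^ 2 := Nat.pow_lt_pow_left h3 (by norm_num)
            _ = p ^ (2 * r) := by rw [← pow_mul]; congr 1; ring
        omega
    _ ≤ C * S.card * Vq (QT (b ^ 2) H ((b ^ 2) ^ 0) 0) ((b ^ 2) ^ L) := h1
    _ ≤ C * S.card * (Cv / (L : ℝ) ^ H.card) := mul_le_mul_of_nonneg_left h2 (by positivity)
    _ ≤ _ := by
        rw [mul_div_assoc', div_le_div_iff₀ (by positivity) (by positivity)]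
        calc C * S.card * Cv * ((L + 1 : ℕ) : ℝ) ^ H.card ≤ C * S.card * Cv * (2 ^ H.card * (L : ℝ) ^ H.card) :=
              mul_le_mul_of_nonneg_left hM1 (by positivity)
          _ = _ := by ring

end Pool.Agent.H679.DC
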