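import Pool.Agent.H679.DC.Pm

/-!
# Palindromes obtained from a given palindrome by permuting digits
-/

set_option autoImplicit false

namespace Pool.Agent.H679.DC

open Finset Filter

/-- the palindromes with exactly `2 N + 1` digits in base `b` -/
def Pal (b N : ℕ) : Set ℕ := {n | b ^ (2 * N) ≤ n ∧ n < b ^ (2 * N + 1) ∧ (Nat.digits b n).reverse = Nat.digits b n}

/-- the number of the odd `j < 2 M` for which the digit at the place `N + j` is `c` -/
def cO (b N M n c : ℕ) : ℕ := ((range M).filter (fun i => n / b ^ (N + (2 * i + 1)) % b = c)).card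

/-- the number of the even `j`, `2 ≤ j ≤ 2 M`, for which the digit at the place `N + j` is `c` -/
def cE (b N M n c : ℕ) : ℕ := ((range M).filter (fun i => n / b ^ (N + (2 * i + 2)) % b = c)).card

/-- the palindromes which arise from the palindrome `P` by permuting the digits at the places `N + j` with odd `j < 2 M`,
and the digits at the places `N + j` with even `j`, `2 ≤ j ≤ 2 M` (and likewise at the places `N - j`) -/
def PermPal (b N M P : ℕ) : Set ℕ :=
  {n | n ∈ Pal b N ∧ (∀ j, j = 0 ∨ 2 * M < j → n / b ^ (N + j) % b = P / b ^ (N + j) % b) ∧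
    (∀ c, cO b N M n c = cO b N M P c) ∧ ∀ c, cE b N M n c = cE b N M P c}

lemma pal_iff {b N n : ℕ} (hb : 2 ≤ b) (h0 : b ^ (2 * N) ≤ n) (h1 : n < b ^ (2 * N + 1)) :
    (Nat.digits b n).reverse = Nat.digits b n ↔ ∀ j ≤ N, n / b ^ (N - j) % b = n / b ^ (N + j) % b := by
  obtain ⟨l, hl⟩ : ∃ l, l = Nat.digits b n := ⟨_, rfl⟩
  have hn0 : n ≠ 0 := by
    have : 0 < b ^ (2 * N) := Nat.pow_pos (by omega)
    omega
  have hlen : l.length = 2 * N + 1 := by
    rw [hl, Nat.length_digits b n (by omega) hn0, Nat.log_eq_of_pow_le_of_lt_pow h0 h1]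
  have hget : ∀ i (hi : i < l.length), l[i] = n / b ^ i % b := by
    intro i hi
    rw [← List.getD_eq_getElem l 0 hi]
    subst hl
    exact Nat.getD_digits n i hb
  rw [← hl]
  constructor
  · intro h j hj
    have h2 : N + j < l.length := by omega
    have h3 : N - j < l.length := by omega
    have h4 : l.reverse[N + j]'(by rw [List.length_reverse]; exact h2) = l[N + j] := by
      simp only [h]
    rw [List.getElem_reverse] at h4
    rw [← hget _ h2, ← hget _ h3, ← h4]
    congr 1
    omega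
  · intro h
    apply List.ext_getElem (by rw [List.length_reverse])
    intro i hi1 hi2
    rw [List.getElem_reverse, hget, hget]
    rcases Nat.lt_or_ge i N with hi | hi
    · have h2 := h (N - i) (by omega)
      have e1 : N - (N - i) = i := by omega
      have e2 : l.length - 1 - i = N + (N - i) := by omega
      rw [e1] at h2
      rw [e2, h2]
    · have h2 := h (i - N) (by omega)
      have e1 : N + (i - N) = i := by omega
      have e2 : l.length - 1 - i = N - (i - N) := by omega
      rw [e1] at h2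
      rw [e2, h2]

lemma dc_cv {b : ℕ} (hb : 0 < b) {a : ℕ → ℕ} (ha : ∀ i, a i < b) (M c : ℕ) :
    dc b M (cv b M a) c = ((range M).filter (fun i => a i = c)).card := by
  unfold dc
  congr 1
  apply filter_congr
  intro i hi
  rw [cv_dig hb ha M i (mem_range.1 hi)]

lemma PermPal_eq {b N M P : ℕ} (hb : 2 ≤ b) (hM : 2 * M < N) (hP : P ∈ Pal b N) :
    PermPal b N M P = (PalS b N M (fun j => P / b ^ (N + j) % b) (cO b N M P) (cE b N M P) : Set ℕ) := by
  have hb0 : 0 < b := by omega
  obtain ⟨Q, hQ⟩ : ∃ Q : ℕ → ℕ, Q = fun j => P / b ^ (N + j) % b := ⟨_, rfl⟩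
  have hQb : ∀ j, Q j < b := fun j => by rw [hQ]; exact Nat.mod_lt _ hb0
  rw [← hQ]
  obtain ⟨hP0, hP1, hP2⟩ := hP
  ext n
  rw [mem_coe]
  unfold PalS
  rw [mem_image]
  constructor
  · rintro ⟨⟨hn0, hn1, hn2⟩, hn3, hn4, hn5⟩
    rw [pal_iff hb hn0 hn1] at hn2
    obtain ⟨z, hz⟩ : ∃ z, z = cv b M (fun i => n / b ^ (N + (2 * i + 1)) % b) := ⟨_, rfl⟩
    obtain ⟨y, hy⟩ : ∃ y, y = cv b M (fun i => n / b ^ (N + (2 * i + 2)) % b) := ⟨_, rfl⟩
    have hzl : z < b ^ M := by rw [hz]; exact cv_lt (fun i => Nat.mod_lt _ hb0) M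
    have hyl : y < b ^ M := by rw [hy]; exact cv_lt (fun i => Nat.mod_lt _ hb0) M
    refine ⟨(z, y), ?_, ?_⟩
    · rw [mem_product]
      constructor
      · unfold tc
        rw [mem_filter, mem_range]
        refine ⟨hzl, fun c _ => ?_⟩
        rw [hz, dc_cv hb0 (fun i => Nat.mod_lt _ hb0), ← hn4 c]
        rfl
      · unfold tc
        rw [mem_filter, mem_range]
        refine ⟨hyl, fun c _ => ?_⟩
        rw [hy, dc_cv hb0 (fun i => Nat.mod_lt _ hb0), ← hn5 c]
        rfl
    · simp only
      rw [← cv_az hM.le]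
      have h1 := cv_self hb0 (2 * N + 1) n hn1
      conv_rhs => rw [← h1]
      unfold cv
      apply sum_congr rfl
      intro i hi
      rw [mem_range] at hi
      congr 1
      -- the digits
      have key : ∀ j ≤ N, gz b M Q z y j = n / b ^ (N + j) % b := by
        intro j hj
        unfold gz
        split_ifs with h2 h3
        · rw [hQ, hn3 j h2]
        · push Not at h2
          have e1 : 2 * ((j - 1) / 2) + 1 = j := by omega
          rw [hz, cv_dig hb0 (fun i => Nat.mod_lt _ hb0) M _ (by omega), e1]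
        · push Not at h2
          have e1 : 2 * ((j - 2) / 2) + 2 = j := by omega
          rw [hy, cv_dig hb0 (fun i => Nat.mod_lt _ hb0) M _ (by omega), e1]
      unfold az
      split_ifs with h2
      · rw [key (N - i) (by omega), ← hn2 (N - i) (by omega)]
        have e1 : N - (N - i) = i := by omega
        rw [e1]
      · rw [key (i - N) (by omega)]
        have e1 : N + (i - N) = i := by omega
        rw [e1]
  · rintro ⟨⟨z, y⟩, hw, rfl⟩
    rw [mem_product] at hw
    obtain ⟨hz, hy⟩ := hw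
    simp only at hz hy ⊢
    obtain ⟨n, hn⟩ : ∃ n, n = fx b N M Q + pv b N M z y := ⟨_, rfl⟩
    rw [← hn]
    have hdig : ∀ i ≤ 2 * N, n / b ^ i % b = az b N M Q z y i := by
      intro i hi
      rw [hn]
      exact dig_az hb0 hM.le hQb z y i hi
    have hdj : ∀ j ≤ N, n / b ^ (N + j) % b = gz b M Q z y j := by
      intro j hj
      rw [hdig _ (by omega), az_add]
    have hn1 : n < b ^ (2 * N + 1) := by
      rw [hn, ← cv_az hM.le]
      exact cv_lt (az_lt hb0 N M hQb z y) _
    have htop : P / b ^ (2 * N) % b ≠ 0 := by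
      have h1 : P / b ^ (2 * N) < b := by
        rw [Nat.div_lt_iff_lt_mul (Nat.pow_pos hb0), ← pow_succ']
        exact hP1
      rw [Nat.mod_eq_of_lt h1]
      have : 0 < P / b ^ (2 * N) := Nat.div_pos hP0 (Nat.pow_pos hb0)
      omega
    have hn0 : b ^ (2 * N) ≤ n := by
      by_contra hcon
      push Not at hcon
      have h1 := hdj N le_rfl
      have e1 : N + N = 2 * N := by ring
      rw [e1, Nat.div_eq_of_lt hcon, Nat.zero_mod] at h1
      unfold gz at h1
      rw [if_pos (Or.inr hM), hQ] at h1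
      simp only at h1
      rw [e1] at h1
      exact htop h1.symm
    refine ⟨⟨hn0, hn1, ?_⟩, ?_, ?_, ?_⟩
    · rw [pal_iff hb hn0 hn1]
      intro j hj
      rw [hdig _ (by omega), hdig _ (by omega)]
      exact az_symm b N M Q z y j hj
    · intro j hj
      rcases Nat.lt_or_ge N j with h2 | h2
      · have h3 : ∀ m, m < b ^ (2 * N + 1) → m / b ^ (N + j) % b = 0 := by
          intro m hm
          rw [Nat.div_eq_of_lt (lt_of_lt_of_le hm (Nat.pow_le_pow_right hb0 (by omega))), Nat.zero_mod]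
        rw [h3 n hn1, h3 P hP1]
      · rw [hdj j h2]
        unfold gz
        rw [if_pos hj, hQ]
    · intro c
      have h1 : cO b N M n c = dc b M z c := by
        unfold cO dc
        congr 1
        apply filter_congr
        intro i hi
        rw [mem_range] at hi
        rw [hdj _ (by omega)]
        unfold gz
        rw [if_neg (by omega), if_pos (by omega)]
        have e1 : (2 * i + 1 - 1) / 2 = i := by omega
        rw [e1]
      rw [h1]
      by_cases hc : c < b
      · unfold tc at hz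
        exact (mem_filter.1 hz).2 c hc
      · unfold dc cO
        rw [filter_eq_empty_iff.2, filter_eq_empty_iff.2]
        · intro i _ h2
          have := Nat.mod_lt (P / b ^ (N + (2 * i + 1))) hb0
          omega
        · intro i _ h2
          have := Nat.mod_lt (z / b ^ i) hb0
          omega
    · intro c
      have h1 : cE b N M n c = dc b M y c := by
        unfold cE dc
        congr 1
        apply filter_congr
        intro i hi
        rw [mem_range] at hi
        rw [hdj _ (by omega)]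
        unfold gz
        rw [if_neg (by omega), if_neg (by omega)]
        have e1 : (2 * i + 2 - 2) / 2 = i := by omega
        rw [e1]
      rw [h1]
      by_cases hc : c < b
      · unfold tc at hy
        exact (mem_filter.1 hy).2 c hc
      · unfold dc cE
        rw [filter_eq_empty_iff.2, filter_eq_empty_iff.2]
        · intro i _ h2
          have := Nat.mod_lt (P / b ^ (N + (2 * i + 2))) hb0
          omega
        · intro i _ h2
          have := Nat.mod_lt (y / b ^ i) hb0
          omega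

lemma sum_fiber {b : ℕ} (M : ℕ) (a : ℕ → ℕ) (ha : ∀ i, a i < b) :
    ∑ c ∈ range b, ((range M).filter (fun i => a i = c)).card = M := by
  rw [← card_eq_sum_card_fiberwise (s := range M) (t := range b) (f := a)
    (fun i _ => mem_coe.2 (mem_range.2 (ha i)))]
  exact card_range M

/-- two consecutive digits occur often at the odd places, and two consecutive digits occur often at the even places -/
def RichPal (b : ℕ) (ε : ℝ) (N M P : ℕ) : Prop :=
  (∃ d : ℕ, d + 1 < b ∧ ε * M ≤ cO b N M P d ∧ ε * M ≤ cO b N M P (d + 1)) ∧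
  ∃ d : ℕ, d + 1 < b ∧ ε * M ≤ cE b N M P d ∧ ε * M ≤ cE b N M P (d + 1)

lemma RichPal.cnt {b : ℕ} {ε : ℝ} {N M P : ℕ} (hb : 0 < b) (h : RichPal b ε N M P) :
    Cnt b ε M (cO b N M P) ∧ Cnt b ε M (cE b N M P) :=
  ⟨⟨sum_fiber M _ (fun _ => Nat.mod_lt _ hb), h.1⟩, ⟨sum_fiber M _ (fun _ => Nat.mod_lt _ hb), h.2⟩⟩

lemma self_mem_Perm {b N M P : ℕ} (hP : P ∈ Pal b N) : P ∈ PermPal b N M P :=
  ⟨hP, fun _ _ => rfl, fun _ => rfl, fun _ => rfl⟩

lemma Pal_finite (b N : ℕ) : (Pal b N).Finite := (Set.finite_lt_nat (b ^ (2 * N + 1))).subset (fun _ hn => hn.2.1)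

lemma PermPal_finite (b N M P : ℕ) : (PermPal b N M P).Finite := (Pal_finite b N).subset (fun _ hn => hn.1)

lemma PermPal_mod {b N M P n : ℕ} (hb : 2 ≤ b) (hM : 2 * M < N) (hP : P ∈ Pal b N) (hn : n ∈ PermPal b N M P) :
    n ≡ P [MOD b ^ 2 - 1] ∧ n ≡ P [MOD b] := by
  have hEq := PermPal_eq hb hM hP
  have hself := self_mem_Perm (M := M) hP
  rw [hEq, mem_coe] at hn hself
  exact PalS_mod (by omega) hM hn hself

/-- **Almost prime tuples and prime tuples at palindromes with permuted digits** -/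
theorem perm_pal {b : ℕ} {ε : ℝ} (hb : 2 ≤ b) (hε : 0 < ε) (hε1 : ε ≤ 1) (H : Finset ℕ) (hH : 1 ≤ H.card)
    (hadm : ∀ p : ℕ, p.Prime → ∃ m : ℕ, ∀ h ∈ H, ¬ p ∣ m + h) (D : ℕ) :
    ∃ r : ℕ, 2 ≤ r ∧ ∃ κ C : ℝ, 0 < κ ∧ 0 < C ∧ ∀ᶠ M : ℕ in atTop, ∀ N P : ℕ, 2 * M < N → N ≤ D * M → P ∈ Pal b N →
      RichPal b ε N M P → (∀ h ∈ H, (P + h).Coprime (b * (b ^ 2 - 1))) →
      0 < (PermPal b N M P).ncard ∧
      κ * (PermPal b N M P).ncard / (M : ℝ) ^ H.card ≤ (Set.ncard {n | n ∈ PermPal b N M P ∧ ∀ h ∈ H,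
        (∀ p : ℕ, p.Prime → p ∣ n + h → b ^ M < p ^ r) ∧ (n + h).primeFactorsList.length ≤ r} : ℝ) ∧
      (Set.ncard {n | n ∈ PermPal b N M P ∧ ∀ h ∈ H, (n + h).Prime} : ℝ) ≤
        C * (PermPal b N M P).ncard / (M : ℝ) ^ H.card := by
  classical
  obtain ⟨r, hr, κ, hκ, hlow⟩ := pal_lower hb hε hε1 H hH hadm D
  obtain ⟨C, hC, hup⟩ := pal_upper hb hε hε1 H hH hadm 1 (le_refl 1)
  refine ⟨r, hr, κ, C, hκ, hC, ?_⟩
  filter_upwards [hlow, hup] with M h1 h2
  intro N P hM hND hP hrich hcop
  obtain ⟨hO, hE⟩ := hrich.cnt (by omega : 0 < b)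
  have hQb : ∀ j, (fun j => P / b ^ (N + j) % b) j < b := fun j => Nat.mod_lt _ (by omega)
  have hEq := PermPal_eq hb hM hP
  have hself := self_mem_Perm (M := M) hP
  have hmem : P ∈ PalS b N M (fun j => P / b ^ (N + j) % b) (cO b N M P) (cE b N M P) := by
    rw [hEq] at hself
    exact hself
  have h3 := h1 N (fun j => P / b ^ (N + j) % b) (cO b N M P) (cE b N M P) hM hND hQb hO hE ⟨P, hmem, hcop⟩
  have h4 := h2 N (fun j => P / b ^ (N + j) % b) (cO b N M P) (cE b N M P) hM.le hQb hO hE
  have hcard : (PermPal b N M P).ncard =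
      (PalS b N M (fun j => P / b ^ (N + j) % b) (cO b N M P) (cE b N M P)).card := by
    rw [hEq, Set.ncard_coe_finset]
  refine ⟨(Set.ncard_pos (PermPal_finite b N M P)).2 ⟨P, hself⟩, ?_, ?_⟩
  · rw [hcard]
    refine h3.trans (le_of_eq ?_)
    rw [← Set.ncard_coe_finset]
    congr 2
    ext n
    rw [mem_coe, mem_filter, Set.mem_ofPred_eq, hEq, mem_coe]
  · rw [hcard]
    refine le_trans ?_ h4
    rw [← Set.ncard_coe_finset, Nat.cast_le]
    apply Set.ncard_le_ncard _ (finite_toSet _)
    rintro n ⟨hn1, hn2⟩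
    rw [mem_coe, mem_filter]
    have hn3 := hn1
    rw [hEq, mem_coe] at hn3
    refine ⟨hn3, fun h hh p hp hd => ?_⟩
    have h5 := (Nat.prime_dvd_prime_iff_eq hp (hn2 h hh)).1 hd
    rw [h5, pow_one]
    have h6 := hn1.1.1
    calc b ^ M < b ^ (2 * N) := Nat.pow_lt_pow_right (by omega) (by omega)
      _ ≤ n := h6
      _ ≤ n + h := Nat.le_add_right _ _

end Pool.Agent.H679.DC
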