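import Pool.Agent.H679.DC.Pl

/-!
# The level of distribution of palindromes with prescribed numbers of digits
-/

set_option autoImplicit false

namespace Pool.Agent.H679.DC

open Finset Pool.Agent.Helper112

/-- the sets of palindromes -/
def PalF (b : ℕ) (ε : ℝ) (L : ℕ) : Set (Finset ℕ) :=
  {S | ∃ (N : ℕ) (P kO kE : ℕ → ℕ), 2 * (L + 1) ≤ N ∧ (∀ j, P j < b) ∧ Cnt b ε (L + 1) kO ∧ Cnt b ε (L + 1) kE ∧
    S = PalS b N (L + 1) P kO kE}

lemma FS_pal_le {b : ℕ} {ε : ℝ} (hb : 2 ≤ b) (hε : 0 < ε) {L : ℕ} {kO kE : ℕ → ℕ}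
    (hO : Cnt b ε (L + 1) kO) (hE : Cnt b ε (L + 1) kE) :
    ∃ V : (Fin b → ℕ) → (Fin b → ℕ) → ℕ → ℂ, (∀ t t', WS (b ^ 2) (pc b ε) (V t t')) ∧
      ∀ (N : ℕ) (P : ℕ → ℕ) (θ : ℝ), 2 * (L + 1) ≤ N → (∀ j, P j < b) →
        FS (PalS b N (L + 1) P kO kE) θ ≤ ∑ t ∈ Fintype.piFinset (fun _ : Fin b => range (L + 1 + 1)),
          ∑ t' ∈ Fintype.piFinset (fun _ : Fin b => range (L + 1 + 1)),
          GW (b ^ 2) (V t t') 0 L (((b : ℝ) ^ 2 - 1) * (b : ℝ) ^ (N - 2 * (L + 1)) * θ) := by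
  choose V hV1 hV2 using fun t t' : Fin b → ℕ => pal_prod hb hε
    (ws_wt (L := L + 1) (Nat.succ_pos L) hO (ext t)) (ws_wt (L := L + 1) (Nat.succ_pos L) hE (ext t'))
  refine ⟨V, hV1, fun N P θ hN hP => ?_⟩
  rw [FS_PalS (by omega) hN hP]
  have h1 := FP_le hb (Nat.succ_pos L) hO (fun i => sv2 b N (2 * i + 1) * θ)
  have h2 := FP_le hb (Nat.succ_pos L) hE (fun i => sv2 b N (2 * i + 2) * θ)
  refine (mul_le_mul h1 h2 (FP_nonneg _ _ _ _) (sum_nonneg fun t _ => prod_nonneg fun i _ => ph_nonneg _ _ _)).trans ?_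
  rw [sum_mul_sum]
  exact sum_le_sum fun t _ => sum_le_sum fun t' _ => hV2 t t' N L θ hN

lemma PS_pal_le {b : ℕ} {ε : ℝ} (hb : 2 ≤ b) (hε : 0 < ε) {L : ℕ} {kO kE : ℕ → ℕ}
    (hO : Cnt b ε (L + 1) kO) (hE : Cnt b ε (L + 1) kE) :
    ∃ V : (Fin b → ℕ) → (Fin b → ℕ) → ℕ → ℂ, (∀ t t', WS (b ^ 2) (pc b ε) (V t t')) ∧
      ∀ (N : ℕ) (P : ℕ → ℕ), 2 * (L + 1) ≤ N → (∀ j, P j < b) → ∀ e : ℕ, 0 < e → e.Coprime (b ^ 2 * (b ^ 2 - 1)) →
        PS (PalS b N (L + 1) P kO kE) e ≤ ∑ t ∈ Fintype.piFinset (fun _ : Fin b => range (L + 1 + 1)),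
          ∑ t' ∈ Fintype.piFinset (fun _ : Fin b => range (L + 1 + 1)), PG (b ^ 2) (V t t') L e := by
  obtain ⟨V, hV1, hV2⟩ := FS_pal_le hb hε hO hE
  refine ⟨V, hV1, fun N P hN hP e he hcop => ?_⟩
  have hb4 : 4 ≤ b ^ 2 := by nlinarith
  obtain ⟨u, hu⟩ : ∃ u, u = (b ^ 2 - 1) * b ^ (N - 2 * (L + 1)) := ⟨_, rfl⟩
  have hur : ((b : ℝ) ^ 2 - 1) * (b : ℝ) ^ (N - 2 * (L + 1)) = (u : ℝ) := by
    rw [hu, Nat.cast_mul, Nat.cast_sub (by omega)]
    push_cast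
    rfl
  have hcu : u.Coprime e := by
    rw [hu]
    apply Nat.Coprime.mul_left
    · exact (Nat.Coprime.coprime_dvd_right (Dvd.intro_left _ rfl) hcop).symm
    · apply Nat.Coprime.pow_left
      have h1 : e.Coprime (b ^ 2) := Nat.Coprime.coprime_dvd_right (Dvd.intro _ rfl) hcop
      exact (Nat.Coprime.coprime_dvd_right (dvd_pow_self b (by norm_num)) h1).symm
  unfold PS
  have h1 : ∀ a ∈ (range e).filter (fun a => a.Coprime e), FS (PalS b N (L + 1) P kO kE) ((a : ℝ) / e) ≤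
      ∑ t ∈ Fintype.piFinset (fun _ : Fin b => range (L + 1 + 1)),
          ∑ t' ∈ Fintype.piFinset (fun _ : Fin b => range (L + 1 + 1)),
          GW (b ^ 2) (V t t') 0 L ((u : ℝ) * ((a : ℝ) / e)) := by
    intro a _
    have := hV2 N P ((a : ℝ) / e) hN hP
    rwa [hur] at this
  refine (sum_le_sum h1).trans (le_of_eq ?_)
  rw [sum_comm]
  apply sum_congr rfl
  intro t _
  rw [sum_comm]
  apply sum_congr rfl
  intro t' _
  unfold PG
  exact sum_perm he hcu (GW (b ^ 2) (V t t') 0 L) (fun x m => GW_add_int _ _ _ _ _ _)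

/-- **Level of distribution of the palindromes with prescribed numbers of digits** -/
theorem lev_pal {b : ℕ} {ε : ℝ} (hb : 2 ≤ b) (hε : 0 < ε) (hε1 : ε ≤ 1) :
    Lv (b ^ 2) (b ^ 2 * (b ^ 2 - 1)) (PalF b ε) := by
  have hb4 : 4 ≤ b ^ 2 := by nlinarith
  obtain ⟨u, hu, h⟩ := lev (b := b ^ 2) (ε := pc b ε) (by omega) (pc_pos hε) ((pc_le hb hε hε1).trans (by norm_num))
  refine ⟨u, hu, fun a => ?_⟩
  obtain ⟨C, hC, L0, hL0⟩ := h (a + 2 * b)
  refine ⟨3 ^ (2 * b) * C, by positivity, max L0 1, ?_⟩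
  rintro L hL S ⟨N, P, kO, kE, hN, hP, hO, hE, rfl⟩
  have hL1 : 1 ≤ L := (le_max_right _ _).trans hL
  have hLr : (1 : ℝ) ≤ L := by exact_mod_cast hL1
  have hLL0 : L0 ≤ L := (le_max_left _ _).trans hL
  constructor
  · rw [← card_pos, card_PalS (by omega) hN hP]
    exact Nat.mul_pos (tc_pos (by omega) (Nat.succ_pos L) hO) (tc_pos (by omega) (Nat.succ_pos L) hE)
  · obtain ⟨V, hV1, hV2⟩ := PS_pal_le hb hε hO hE
    have h1 : HP (b ^ 2 * (b ^ 2 - 1)) ((b ^ 2) ^ (L / (2 * u))) (PS (PalS b N (L + 1) P kO kE)) ≤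
        ∑ t ∈ Fintype.piFinset (fun _ : Fin b => range (L + 1 + 1)),
          ∑ t' ∈ Fintype.piFinset (fun _ : Fin b => range (L + 1 + 1)),
          HP (b ^ 2 * (b ^ 2 - 1)) ((b ^ 2) ^ (L / (2 * u))) (PG (b ^ 2) (V t t') L) := by
      unfold HP
      have h2 : ∀ e ∈ (Icc 2 ((b ^ 2) ^ (L / (2 * u)))).filter (fun e => e.Coprime (b ^ 2 * (b ^ 2 - 1))),
          (e : ℝ) ^ (-(3 / 4 : ℝ)) * PS (PalS b N (L + 1) P kO kE) e ≤
          ∑ t ∈ Fintype.piFinset (fun _ : Fin b => range (L + 1 + 1)),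
          ∑ t' ∈ Fintype.piFinset (fun _ : Fin b => range (L + 1 + 1)),
            (e : ℝ) ^ (-(3 / 4 : ℝ)) * PG (b ^ 2) (V t t') L e := by
        intro e he
        rw [mem_filter, mem_Icc] at he
        refine (mul_le_mul_of_nonneg_left (hV2 N P hN hP e (by omega) he.2)
          (Real.rpow_nonneg (Nat.cast_nonneg _) _)).trans (le_of_eq ?_)
        rw [mul_sum]
        apply sum_congr rfl
        intro t _
        rw [mul_sum]
      refine (sum_le_sum h2).trans (le_of_eq ?_)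
      rw [sum_comm]
      apply sum_congr rfl
      intro t _
      rw [sum_comm]
    refine h1.trans ?_
    have h2 : ∀ t ∈ Fintype.piFinset (fun _ : Fin b => range (L + 1 + 1)),
        ∑ t' ∈ Fintype.piFinset (fun _ : Fin b => range (L + 1 + 1)),
          HP (b ^ 2 * (b ^ 2 - 1)) ((b ^ 2) ^ (L / (2 * u))) (PG (b ^ 2) (V t t') L) ≤
        ((L + 1 + 1 : ℕ) : ℝ) ^ b * (C / (L : ℝ) ^ (a + 2 * b)) := by
      intro t _
      refine (sum_le_sum (fun t' _ => hL0 L hLL0 _ (hV1 t t'))).trans (le_of_eq ?_)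
      rw [sum_const, Fintype.card_piFinset]
      simp only [card_range, prod_const, card_univ, Fintype.card_fin, nsmul_eq_mul]
      push_cast
      rfl
    refine (sum_le_sum h2).trans ?_
    rw [sum_const, Fintype.card_piFinset]
    simp only [card_range, prod_const, card_univ, Fintype.card_fin, nsmul_eq_mul]
    have h3 : ((L + 1 + 1 : ℕ) : ℝ) ≤ 3 * L := by push_cast; linarith
    have h4 : ((L + 1 + 1 : ℕ) : ℝ) ^ b ≤ (3 * L) ^ b := pow_le_pow_left₀ (by positivity) h3 b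
    calc (((L + 1 + 1) ^ b : ℕ) : ℝ) * (((L + 1 + 1 : ℕ) : ℝ) ^ b * (C / (L : ℝ) ^ (a + 2 * b))) ≤
          (3 * (L : ℝ)) ^ b * ((3 * (L : ℝ)) ^ b * (C / (L : ℝ) ^ (a + 2 * b))) := by
          rw [Nat.cast_pow]
          gcongr
      _ = _ := by
          rw [mul_pow, pow_add, two_mul, pow_add, pow_add]
          field_simp

end Pool.Agent.H679.DC
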