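import Pool.Agent.H679.DC.Pg

/-!
# The exponential sums over palindromes
-/

set_option autoImplicit false

namespace Pool.Agent.H679.DC

open Finset Pool.Agent.Helper112

/-- the saving for two consecutive places of a palindrome -/
noncomputable def pc (b : ℕ) (ε : ℝ) : ℝ := ε ^ 2 / 2 / ((b : ℝ) + 1) ^ 2

lemma pc_pos {b : ℕ} {ε : ℝ} (hε : 0 < ε) : 0 < pc b ε := by
  unfold pc; positivity

lemma pc_le {b : ℕ} {ε : ℝ} (hb : 2 ≤ b) (hε : 0 < ε) (hε1 : ε ≤ 1) : pc b ε ≤ 1 / 18 := by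
  have hb2 : (2 : ℝ) ≤ b := by exact_mod_cast hb
  unfold pc
  rw [div_div, div_le_div_iff₀ (by positivity) (by norm_num)]
  nlinarith

lemma one_sub_pow (u : ℂ) (hu : ‖u‖ = 1) (n : ℕ) : ‖1 - u ^ n‖ ≤ n * ‖1 - u‖ := by
  induction n with
  | zero => simp
  | succ n ih =>
    have h1 : 1 - u ^ (n + 1) = (1 - u ^ n) + u ^ n * (1 - u) := by ring
    rw [h1]
    refine (norm_add_le _ _).trans ?_
    rw [norm_mul, norm_pow, hu, one_pow, one_mul]
    push_cast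
    linarith

lemma two_places {b : ℕ} {ε : ℝ} (hb : 2 ≤ b) (hε : 0 < ε) {W W' : ℕ → ℂ} (h : WS b ε W) (h' : WS b ε W') :
    ∃ ω : ℂ, ‖ω‖ = 1 ∧ ∀ x y : ℝ, ph b W x * ph b W' y ≤ 1 - pc b ε * ‖1 - ω * ee (b * x - y)‖ ^ 2 := by
  obtain ⟨w, hw, hk⟩ := ph_key hε h
  obtain ⟨w', hw', hk'⟩ := ph_key hε h'
  have hb2 : (2 : ℝ) ≤ b := by exact_mod_cast hb
  have hw'0 : w' ≠ 0 := by
    intro h0
    rw [h0, norm_zero] at hw'
    norm_num at hw'
  refine ⟨w ^ b / w', by rw [norm_div, norm_pow, hw, hw', one_pow, div_one], fun x y => ?_⟩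
  obtain ⟨u, hu⟩ : ∃ u, u = w * ee x := ⟨_, rfl⟩
  obtain ⟨v, hv⟩ : ∃ v, v = w' * ee y := ⟨_, rfl⟩
  have hun : ‖u‖ = 1 := by rw [hu, norm_mul, hw, ls_norm_ee, one_mul]
  have hvn : ‖v‖ = 1 := by rw [hv, norm_mul, hw', ls_norm_ee, one_mul]
  have h1 : ‖1 - w ^ b / w' * ee (b * x - y)‖ = ‖v - u ^ b‖ := by
    have h2 : v - u ^ b = v * (1 - w ^ b / w' * ee (b * x - y)) := by
      have h3 : ee (b * x - y) * ee y = ee x ^ b := by
        rw [← ls_ee_add, sub_add_cancel, ls_ee_nat_mul]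
      have h4 : v * (w ^ b / w' * ee (b * x - y)) = w ^ b * (ee (b * x - y) * ee y) := by
        rw [hv]
        field_simp
      rw [mul_sub, mul_one, h4, h3, hu, mul_pow]
    rw [h2, norm_mul, hvn, one_mul]
  have h5 : ‖v - u ^ b‖ ≤ b * ‖1 - u‖ + ‖1 - v‖ := by
    have h6 : v - u ^ b = (1 - u ^ b) - (1 - v) := by ring
    rw [h6]
    exact (norm_sub_le _ _).trans (add_le_add (one_sub_pow u hun b) le_rfl)
  rw [h1]
  have hp1 := ph_nonneg b W x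
  have hp2 := ph_nonneg b W' y
  have hq1 := ph_le_one h x
  have hq2 := ph_le_one h' y
  have hk1 := hk x
  have hk2 := hk' y
  rw [← hu] at hk1
  rw [← hv] at hk2
  obtain ⟨s, hs⟩ : ∃ s, s = ‖v - u ^ b‖ := ⟨_, rfl⟩
  rw [← hs] at h5 ⊢
  have hs0 : 0 ≤ s := by rw [hs]; exact norm_nonneg _
  have hu0 := norm_nonneg (1 - u)
  have hv0 := norm_nonneg (1 - v)
  have hcase : s / (b + 1) ≤ ‖1 - u‖ ∨ s / (b + 1) ≤ ‖1 - v‖ := by
    by_contra hcon
    push Not at hcon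
    obtain ⟨h7, h8⟩ := hcon
    have h9 : (b : ℝ) * ‖1 - u‖ + ‖1 - v‖ < b * (s / (b + 1)) + s / (b + 1) := by nlinarith
    have h10 : (b : ℝ) * (s / (b + 1)) + s / (b + 1) = s := by field_simp
    linarith
  have hpc : pc b ε * s ^ 2 = ε ^ 2 / 2 * (s / (b + 1)) ^ 2 := by
    unfold pc
    field_simp
  rw [hpc]
  have hs1 : 0 ≤ s / (b + 1) := by positivity
  rcases hcase with hc | hc
  · have h11 : (s / (b + 1)) ^ 2 ≤ ‖1 - u‖ ^ 2 := pow_le_pow_left₀ hs1 hc 2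
    calc ph b W x * ph b W' y ≤ ph b W x * 1 := mul_le_mul_of_nonneg_left hq2 hp1
      _ ≤ _ := by nlinarith [mul_le_mul_of_nonneg_left h11 (show 0 ≤ ε ^ 2 / 2 by positivity)]
  · have h11 : (s / (b + 1)) ^ 2 ≤ ‖1 - v‖ ^ 2 := pow_le_pow_left₀ hs1 hc 2
    calc ph b W x * ph b W' y ≤ 1 * ph b W' y := mul_le_mul_of_nonneg_right hq1 hp2
      _ ≤ _ := by nlinarith [mul_le_mul_of_nonneg_left h11 (show 0 ≤ ε ^ 2 / 2 by positivity)]

/-- the weights on the digits in base `b ^ 2` -/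
noncomputable def W2 (b : ℕ) (p q : ℝ) (w0 w1 : ℂ) (c : ℕ) : ℂ :=
  (if c % b = 0 then (p : ℂ) else if c % b = 1 then q * w0 else 0) *
    (if c / b = 0 then (p : ℂ) else if c / b = 1 then q * w1 else 0)

lemma sum_sq {M : Type*} [AddCommMonoid M] {b : ℕ} (hb : 0 < b) (F : ℕ → M) :
    ∑ c ∈ range (b ^ 2), F c = ∑ n ∈ range b, ∑ d ∈ range b, F (n + d * b) := by
  have h := sum_succ 1 hb F
  rw [pow_one] at h
  exact h

lemma sum_two {b : ℕ} (hb : 2 ≤ b) {M : Type*} [AddCommMonoid M] (F : ℕ → M) (h : ∀ n, 2 ≤ n → F n = 0) :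
    ∑ n ∈ range b, F n = F 0 + F 1 := by
  obtain ⟨m, rfl⟩ := Nat.exists_eq_add_of_le hb
  rw [sum_range_add, sum_eq_zero (s := range m) (fun i _ => h (2 + i) (by omega)), add_zero, sum_range_succ,
    sum_range_one]

lemma W2_split {b : ℕ} (hb : 2 ≤ b) (p q : ℝ) (w0 w1 : ℂ) {n d : ℕ} (hn : n < b) :
    W2 b p q w0 w1 (n + d * b) = (if n = 0 then (p : ℂ) else if n = 1 then q * w0 else 0) *
      (if d = 0 then (p : ℂ) else if d = 1 then q * w1 else 0) := by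
  have h1 : (n + d * b) % b = n := by rw [Nat.add_mul_mod_self_right, Nat.mod_eq_of_lt hn]
  have h2 : (n + d * b) / b = d := by
    rw [Nat.add_mul_div_right _ _ (by omega), Nat.div_eq_of_lt hn, Nat.zero_add]
  unfold W2
  rw [h1, h2]

lemma ph_W2 {b : ℕ} (hb : 2 ≤ b) (p q : ℝ) (w0 w1 : ℂ) (β : ℝ) :
    ph (b ^ 2) (W2 b p q w0 w1) β = ‖(p : ℂ) + q * (w0 * ee β)‖ * ‖(p : ℂ) + q * (w1 * ee (b * β))‖ := by
  unfold ph
  rw [sum_sq (by omega), ← norm_mul]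
  congr 1
  have h1 : ∀ n ∈ range b, ∑ d ∈ range b, W2 b p q w0 w1 (n + d * b) * ee (((n + d * b : ℕ) : ℝ) * β) =
      ((if n = 0 then (p : ℂ) else if n = 1 then q * w0 else 0) * ee (n * β)) *
        ((p : ℂ) + q * (w1 * ee (b * β))) := by
    intro n hn
    rw [mem_range] at hn
    have h2 : ∀ d ∈ range b, W2 b p q w0 w1 (n + d * b) * ee (((n + d * b : ℕ) : ℝ) * β) =
        ((if n = 0 then (p : ℂ) else if n = 1 then q * w0 else 0) * ee (n * β)) *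
        ((if d = 0 then (p : ℂ) else if d = 1 then q * w1 else 0) * ee (d * (b * β))) := by
      intro d _
      rw [W2_split hb p q w0 w1 hn]
      have h3 : (((n + d * b : ℕ) : ℝ) * β) = n * β + d * (b * β) := by push_cast; ring
      rw [h3, ls_ee_add]
      ring
    rw [sum_congr rfl h2, ← mul_sum, sum_two hb _ (fun n hn => by
      rw [if_neg (by omega), if_neg (by omega), zero_mul])]
    congr 1
    simp [ls_ee_zero, mul_assoc]
  rw [sum_congr rfl h1, ← sum_mul, sum_two hb _ (fun n hn => by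
      rw [if_neg (by omega), if_neg (by omega), zero_mul])]
  congr 1
  simp [ls_ee_zero, mul_assoc]

lemma WS_W2 {b : ℕ} (hb : 2 ≤ b) {p q c : ℝ} {w0 w1 : ℂ} (hp : 1 / 2 ≤ p) (hq : 0 ≤ q) (hpq : p + q = 1)
    (hc : p * q = c) (hc1 : c ≤ 1 / 4) (h0 : ‖w0‖ = 1) (h1 : ‖w1‖ = 1) : WS (b ^ 2) c (W2 b p q w0 w1) := by
  have hp0 : 0 ≤ p := by linarith
  have hnA : ∀ (n : ℕ) (w : ℂ), ‖w‖ = 1 → ‖(if n = 0 then (p : ℂ) else if n = 1 then q * w else 0)‖ =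
      if n = 0 then p else if n = 1 then q else 0 := by
    intro n w hw
    split_ifs
    · rw [Complex.norm_real, Real.norm_eq_abs, abs_of_nonneg hp0]
    · rw [norm_mul, hw, mul_one, Complex.norm_real, Real.norm_eq_abs, abs_of_nonneg hq]
    · exact norm_zero
  constructor
  · rw [sum_sq (by omega)]
    have h2 : ∀ n ∈ range b, ∑ d ∈ range b, ‖W2 b p q w0 w1 (n + d * b)‖ =
        (if n = 0 then p else if n = 1 then q else 0) * 1 := by
      intro n hn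
      rw [mem_range] at hn
      have h3 : ∀ d ∈ range b, ‖W2 b p q w0 w1 (n + d * b)‖ =
          (if n = 0 then p else if n = 1 then q else 0) * (if d = 0 then p else if d = 1 then q else 0) := by
        intro d _
        rw [W2_split hb p q w0 w1 hn, norm_mul, hnA n w0 h0, hnA d w1 h1]
      rw [sum_congr rfl h3, ← mul_sum, sum_two hb _ (fun n hn => by
        rw [if_neg (by omega), if_neg (by omega)])]
      simp [hpq]
    rw [sum_congr rfl h2, ← sum_mul, sum_two hb _ (fun n hn => by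
        rw [if_neg (by omega), if_neg (by omega)])]
    simp [hpq]
  · refine ⟨0, ?_, ?_, ?_⟩
    · nlinarith
    · have h2 := W2_split (n := 0) (d := 0) hb p q w0 w1 (by omega)
      rw [Nat.zero_mul, Nat.add_zero] at h2
      rw [h2, norm_mul, hnA 0 w0 h0, hnA 0 w1 h1, if_pos rfl]
      nlinarith
    · have h2 := W2_split (n := 1) (d := 0) hb p q w0 w1 (by omega)
      rw [Nat.zero_mul, Nat.add_zero] at h2
      rw [Nat.zero_add, h2, norm_mul, hnA 1 w0 h0, hnA 0 w1 h1, if_pos rfl, if_neg (by norm_num), if_pos rfl]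
      linarith

lemma exists_pq {c : ℝ} (hc : 0 < c) (hc1 : c ≤ 1 / 4) : ∃ p q : ℝ, 1 / 2 ≤ p ∧ 0 ≤ q ∧ p + q = 1 ∧ p * q = c := by
  have h1 : 0 ≤ 1 - 4 * c := by linarith
  obtain ⟨r, hr⟩ : ∃ r, r = Real.sqrt (1 - 4 * c) := ⟨_, rfl⟩
  have hr0 : 0 ≤ r := by rw [hr]; exact Real.sqrt_nonneg _
  have hr2 : r ^ 2 = 1 - 4 * c := by rw [hr]; exact Real.sq_sqrt h1
  have hr1 : r ≤ 1 := by nlinarith
  exact ⟨(1 + r) / 2, (1 - r) / 2, by linarith, by linarith, by ring, by nlinarith⟩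

/-- the place values of a palindrome -/
noncomputable def sv2 (b N j : ℕ) : ℝ := (b : ℝ) ^ (N - j) + (b : ℝ) ^ (N + j)

lemma sv2_rel {b N j : ℕ} (hj : j + 1 ≤ N) :
    (b : ℝ) * sv2 b N j - sv2 b N (j + 1) = ((b : ℝ) ^ 2 - 1) * (b : ℝ) ^ (N - (j + 1)) := by
  unfold sv2
  have h1 : N - j = (N - (j + 1)) + 1 := by omega
  have h2 : N + (j + 1) = (N + j) + 1 := by omega
  rw [h1, h2, pow_succ, pow_succ]
  ring

/-- **The exponential sum over the palindromes is bounded by one over the integers in base `b ^ 2`.** -/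
theorem pal_prod {b : ℕ} {ε : ℝ} (hb : 2 ≤ b) (hε : 0 < ε) {W W' : ℕ → ℂ} (h : WS b ε W) (h' : WS b ε W') :
    ∃ W'' : ℕ → ℂ, WS (b ^ 2) (pc b ε) W'' ∧ ∀ (N M : ℕ) (θ : ℝ), 2 * (M + 1) ≤ N →
      (∏ i ∈ range (M + 1), ph b W (sv2 b N (2 * i + 1) * θ)) * (∏ i ∈ range (M + 1), ph b W' (sv2 b N (2 * i + 2) * θ)) ≤
        GW (b ^ 2) W'' 0 M (((b : ℝ) ^ 2 - 1) * (b : ℝ) ^ (N - 2 * (M + 1)) * θ) := by
  obtain ⟨w0, hw0, hk0⟩ := two_places hb hε h h'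
  obtain ⟨w1, hw1, hk1⟩ := two_places hb hε h' h
  have hc := pc_pos (b := b) hε
  have hc1 := pc_le hb hε h.le_one
  obtain ⟨p, q, hp, hq, hpq, hpc⟩ := exists_pq hc (by linarith)
  refine ⟨W2 b p q w0 w1, WS_W2 hb hp hq hpq hpc (by linarith) hw0 hw1, fun N M θ hN => ?_⟩
  obtain ⟨A, hA⟩ : ∃ A : ℕ → ℝ, A = fun i => ph b W (sv2 b N (2 * i + 1) * θ) := ⟨_, rfl⟩
  obtain ⟨B, hB⟩ : ∃ B : ℕ → ℝ, B = fun i => ph b W' (sv2 b N (2 * i + 2) * θ) := ⟨_, rfl⟩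
  have hA0 : ∀ i, 0 ≤ A i := fun i => by rw [hA]; exact ph_nonneg _ _ _
  have hB0 : ∀ i, 0 ≤ B i := fun i => by rw [hB]; exact ph_nonneg _ _ _
  have hA1 : ∀ i, A i ≤ 1 := fun i => by rw [hA]; exact ph_le_one h _
  have hB1 : ∀ i, B i ≤ 1 := fun i => by rw [hB]; exact ph_le_one h' _
  obtain ⟨β, hβ⟩ : ∃ β, β = ((b : ℝ) ^ 2 - 1) * (b : ℝ) ^ (N - 2 * (M + 1)) * θ := ⟨_, rfl⟩
  obtain ⟨G, hG⟩ : ∃ G : ℕ → ℝ, G = fun i => ph (b ^ 2) (W2 b p q w0 w1) (((b ^ 2 : ℕ) : ℝ) ^ i * β) := ⟨_, rfl⟩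
  have hsq : ∀ v : ℂ, ‖v‖ = 1 → 1 - pc b ε * ‖1 - v‖ ^ 2 = ‖(p : ℂ) + q * v‖ ^ 2 := by
    intro v hv
    rw [sq_id p q v hv, hpq, hpc]
    ring
  have hstep : ∀ i < M, (B i * A (i + 1)) * (A (i + 1) * B (i + 1)) ≤ G (M - 1 - i) ^ 2 := by
    intro i hi
    have e1 : B i * A (i + 1) ≤ 1 - pc b ε * ‖1 - w1 * ee ((b : ℝ) * (((b ^ 2 : ℕ) : ℝ) ^ (M - 1 - i) * β))‖ ^ 2 := by
      have h1 := hk1 (sv2 b N (2 * i + 2) * θ) (sv2 b N (2 * (i + 1) + 1) * θ)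
      have h2 : (b : ℝ) * (sv2 b N (2 * i + 2) * θ) - sv2 b N (2 * (i + 1) + 1) * θ =
          (b : ℝ) * (((b ^ 2 : ℕ) : ℝ) ^ (M - 1 - i) * β) := by
        have h3 := sv2_rel (b := b) (N := N) (j := 2 * i + 2) (by omega)
        have h4 : 2 * (i + 1) + 1 = 2 * i + 2 + 1 := by ring
        have h5 : N - (2 * i + 2 + 1) = 2 * (M - 1 - i) + 1 + (N - 2 * (M + 1)) := by omega
        rw [h5, pow_add, pow_add, pow_mul, pow_one] at h3
        rw [h4, hβ]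
        push_cast
        linear_combination θ * h3
      rw [h2] at h1
      rw [hA, hB]
      exact h1
    have e2 : A (i + 1) * B (i + 1) ≤ 1 - pc b ε * ‖1 - w0 * ee (((b ^ 2 : ℕ) : ℝ) ^ (M - 1 - i) * β)‖ ^ 2 := by
      have h1 := hk0 (sv2 b N (2 * (i + 1) + 1) * θ) (sv2 b N (2 * (i + 1) + 2) * θ)
      have h2 : (b : ℝ) * (sv2 b N (2 * (i + 1) + 1) * θ) - sv2 b N (2 * (i + 1) + 2) * θ =
          ((b ^ 2 : ℕ) : ℝ) ^ (M - 1 - i) * β := by
        have h3 := sv2_rel (b := b) (N := N) (j := 2 * (i + 1) + 1) (by omega)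
        have h4 : 2 * (i + 1) + 2 = 2 * (i + 1) + 1 + 1 := by ring
        have h5 : N - (2 * (i + 1) + 1 + 1) = 2 * (M - 1 - i) + (N - 2 * (M + 1)) := by omega
        rw [h5, pow_add, pow_mul] at h3
        rw [h4, hβ]
        push_cast
        linear_combination θ * h3
      rw [h2] at h1
      rw [hA, hB]
      exact h1
    rw [hsq _ (by rw [norm_mul, hw1, ls_norm_ee, one_mul])] at e1
    rw [hsq _ (by rw [norm_mul, hw0, ls_norm_ee, one_mul])] at e2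
    calc (B i * A (i + 1)) * (A (i + 1) * B (i + 1)) ≤ _ * _ :=
          mul_le_mul e1 e2 (mul_nonneg (hA0 _) (hB0 _)) (by positivity)
      _ = G (M - 1 - i) ^ 2 := by
          rw [hG]
          simp only
          rw [ph_W2 hb]
          ring
  have hmain : ((∏ i ∈ range (M + 1), A i) * ∏ i ∈ range (M + 1), B i) ^ 2 ≤ (∏ i ∈ range M, G i) ^ 2 := by
    have e1 : ((∏ i ∈ range (M + 1), A i) * ∏ i ∈ range (M + 1), B i) ^ 2 =
        (A 0 * A 0 * B 0 * B M) * ∏ i ∈ range M, (B i * A (i + 1)) * (A (i + 1) * B (i + 1)) := by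
      have f1 : ∏ i ∈ range (M + 1), A i = (∏ i ∈ range M, A (i + 1)) * A 0 := prod_range_succ' _ _
      have f2 : ∏ i ∈ range (M + 1), B i = (∏ i ∈ range M, B (i + 1)) * B 0 := prod_range_succ' _ _
      have f3 : ∏ i ∈ range (M + 1), B i = (∏ i ∈ range M, B i) * B M := prod_range_succ _ _
      rw [prod_mul_distrib, prod_mul_distrib, prod_mul_distrib, sq]
      nth_rewrite 2 [f3]
      rw [f1, f2]
      ring
    have e2 : A 0 * A 0 * B 0 * B M ≤ 1 :=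
      mul_le_one₀ (mul_le_one₀ (mul_le_one₀ (hA1 0) (hA0 0) (hA1 0)) (hB0 0) (hB1 0)) (hB0 M) (hB1 M)
    have e3 : 0 ≤ ∏ i ∈ range M, (B i * A (i + 1)) * (A (i + 1) * B (i + 1)) :=
      prod_nonneg fun i _ => mul_nonneg (mul_nonneg (hB0 _) (hA0 _)) (mul_nonneg (hA0 _) (hB0 _))
    calc _ = _ := e1
      _ ≤ 1 * ∏ i ∈ range M, (B i * A (i + 1)) * (A (i + 1) * B (i + 1)) :=
          mul_le_mul_of_nonneg_right e2 e3
      _ = ∏ i ∈ range M, (B i * A (i + 1)) * (A (i + 1) * B (i + 1)) := one_mul _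
      _ ≤ ∏ i ∈ range M, G (M - 1 - i) ^ 2 :=
          prod_le_prod (fun i _ => mul_nonneg (mul_nonneg (hB0 _) (hA0 _)) (mul_nonneg (hA0 _) (hB0 _)))
            (fun i hi => hstep i (mem_range.1 hi))
      _ = (∏ i ∈ range M, G i) ^ 2 := by
          rw [← prod_pow, ← prod_range_reflect (fun i => G i ^ 2) M]
  have hG0 : 0 ≤ ∏ i ∈ range M, G i := prod_nonneg fun i _ => by rw [hG]; exact ph_nonneg _ _ _
  have := le_of_sq_le_sq hmain hG0
  rw [hA, hB, hG] at this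
  refine this.trans (le_of_eq ?_)
  unfold GW
  rw [← hβ]
  apply prod_congr rfl
  intro i _
  rw [Nat.zero_add]

end Pool.Agent.H679.DC
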