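import Pool.Agent.H679.DC.Lj

/-!
# Almost prime tuples in arbitrary dyadic blocks with a prescribed number of binary digits `1`
-/

set_option autoImplicit false

namespace Pool.Agent.H679.DC

open Finset Filter

lemma tc_s2 {L k : ℕ} (hk : k ≤ L) : tc 2 L (k01 L k) = (range (2 ^ L)).filter (fun x => s2 x = k) := by
  ext x
  rw [mem_filter, mem_range]
  constructor
  · intro hx
    refine ⟨?_, s2_tc hk hx⟩
    rw [mem_tc01 (le_refl 2) hk] at hx
    exact hx.1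
  · rintro ⟨h1, h2⟩
    have h3 : dc 2 L x 1 = k := by rw [← s2_eq L x h1]; exact h2
    unfold tc
    rw [mem_filter, mem_range]
    refine ⟨h1, fun c hc => ?_⟩
    have hsum := sum_dc (b := 2) L x (by norm_num)
    rw [sum_range_succ, sum_range_one] at hsum
    unfold k01
    rcases (by omega : c = 0 ∨ c = 1) with rfl | rfl
    · rw [if_pos rfl]; omega
    · rw [if_neg (by norm_num), if_pos rfl]; exact h3

open Classical in
/-- **Lower bound in blocks** -/
theorem blk_lower {ε : ℝ} (hε : 0 < ε) (hε1 : ε ≤ 1) (H : Finset ℕ) (hH : 1 ≤ H.card)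
    (hadm : ∀ p : ℕ, p.Prime → ∃ m : ℕ, ∀ h ∈ H, ¬ p ∣ m + h) (hev : ∀ h ∈ H, Even h) (D : ℕ) :
    ∃ r : ℕ, 2 ≤ r ∧ ∃ κ : ℝ, 0 < κ ∧ ∀ᶠ L : ℕ in atTop, ∀ k c : ℕ, ε * L ≤ k → (k : ℝ) ≤ (1 - ε) * L →
      c ≤ 2 ^ (D * L) → Odd c →
      κ * (L.choose k) / (L : ℝ) ^ H.card ≤
        (((range (2 ^ L)).filter (fun x => s2 x = k ∧ ∀ h ∈ H, (∀ p : ℕ, p.Prime → p ∣ 2 * x + c + h → 2 ^ L < p ^ r) ∧
          (2 * x + c + h).primeFactorsList.length ≤ r)).card : ℝ) := by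
  obtain ⟨r, hr, κ, hκ, hlow⟩ := tuple_lower (b := 2) (le_refl 2) hε hε1 H hH hadm (D + 1)
  refine ⟨r, hr, κ, hκ, ?_⟩
  filter_upwards [hlow, eventually_ge_atTop 1] with L hL hL1
  intro k c hk1 hk2 hc hodd
  have hkL : k ≤ L := by
    have h1 : (k : ℝ) ≤ L := hk2.trans (by
      have : (0 : ℝ) ≤ L := Nat.cast_nonneg L
      nlinarith)
    exact_mod_cast h1
  have h3 := hL (k01 L k) (cnt01 (le_refl 2) hk1 hk2 hkL) 1 c (le_refl 1) (by nlinarith)
    (hc.trans (Nat.pow_le_pow_right (by norm_num) (Nat.mul_le_mul_right L (by omega))))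
    (fun h hh => by
      rw [Nat.coprime_two_right]
      exact hodd.add_even (hev h hh))
    (fun h hh => by simp)
  rw [card_tc01 (le_refl 2) hkL] at h3
  refine h3.trans (le_of_eq ?_)
  rw [tc_s2 hkL, filter_filter]
  simp only [pow_one]

open Classical in
/-- **Upper bound in blocks** -/
theorem blk_upper {ε : ℝ} (hε : 0 < ε) (hε1 : ε ≤ 1) (H : Finset ℕ) (hH : 1 ≤ H.card)
    (hadm : ∀ p : ℕ, p.Prime → ∃ m : ℕ, ∀ h ∈ H, ¬ p ∣ m + h) :
    ∃ C : ℝ, 0 < C ∧ ∀ᶠ L : ℕ in atTop, ∀ k c : ℕ, ε * L ≤ k → (k : ℝ) ≤ (1 - ε) * L → 2 ^ L < c →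
      (((range (2 ^ L)).filter (fun x => s2 x = k ∧ ∀ h ∈ H, (2 * x + c + h).Prime)).card : ℝ) ≤
        C * (L.choose k) / (L : ℝ) ^ H.card := by
  obtain ⟨C, hC, hup⟩ := tuple_upper (b := 2) (le_refl 2) hε hε1 H hH hadm 1 (le_refl 1)
  refine ⟨C, hC, ?_⟩
  filter_upwards [hup] with L hL
  intro k c hk1 hk2 hc
  have hkL : k ≤ L := by
    have h1 : (k : ℝ) ≤ L := hk2.trans (by
      have : (0 : ℝ) ≤ L := Nat.cast_nonneg L
      nlinarith)
    exact_mod_cast h1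
  have h3 := hL (k01 L k) (cnt01 (le_refl 2) hk1 hk2 hkL) 1 c
  rw [card_tc01 (le_refl 2) hkL] at h3
  refine le_trans ?_ h3
  rw [Nat.cast_le]
  apply card_le_card
  intro x hx
  rw [mem_filter, mem_range] at hx
  rw [tc_s2 hkL, mem_filter, mem_filter, mem_range]
  refine ⟨⟨hx.1, hx.2.1⟩, fun h hh p hp _ hd => ?_⟩
  rw [pow_one] at hd ⊢
  have h4 := (Nat.prime_dvd_prime_iff_eq hp (hx.2.2 h hh)).1 hd
  omega

lemma choose_keep {n k : ℕ} {δ : ℝ} (hn : 1 ≤ n) (hk : k ≤ n) (h : δ * n ≤ (n - k : ℕ)) :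
    (n.choose k : ℝ) * δ ≤ ((n - 1).choose k : ℝ) := by
  obtain ⟨m, rfl⟩ := Nat.exists_eq_add_of_le' hn
  rw [Nat.add_sub_cancel]
  have h1 := Nat.choose_mul_succ_eq m k
  have h2 : (m.choose k : ℝ) * ((m + 1 : ℕ) : ℝ) = ((m + 1).choose k : ℝ) * ((m + 1 - k : ℕ) : ℝ) := by
    exact_mod_cast h1
  have hn0 : (0 : ℝ) < ((m + 1 : ℕ) : ℝ) := by positivity
  have h3 : ((m + 1).choose k : ℝ) * (δ * ((m + 1 : ℕ) : ℝ)) ≤ ((m + 1).choose k : ℝ) * ((m + 1 - k : ℕ) : ℝ) :=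
    mul_le_mul_of_nonneg_left h (Nat.cast_nonneg _)
  rw [← h2] at h3
  have h4 : ((m + 1).choose k : ℝ) * δ * ((m + 1 : ℕ) : ℝ) ≤ (m.choose k : ℝ) * ((m + 1 : ℕ) : ℝ) := by linarith
  exact le_of_mul_le_mul_right h4 hn0

/-- removing `d` places, `e` of them with a digit `1` -/
lemma choose_drop {δ : ℝ} (hδ : 0 < δ) (d : ℕ) : ∀ n k e : ℕ, e ≤ d → δ * n + d ≤ k → δ * n + d + k ≤ n →
    (n.choose k : ℝ) * δ ^ d ≤ ((n - d).choose (k - e) : ℝ) := by
  induction d with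
  | zero =>
    intro n k e he _ _
    have : e = 0 := by omega
    subst this
    simp
  | succ d ih =>
    intro n k e he h1 h2
    push_cast at h1 h2
    have hn0 : (0 : ℝ) ≤ δ * n := by positivity
    have hd0 : (0 : ℝ) ≤ d := Nat.cast_nonneg d
    have hk1 : 1 ≤ k := by
      have : (1 : ℝ) ≤ k := by linarith
      exact_mod_cast this
    have hkn : k + 1 ≤ n := by
      have : ((k + 1 : ℕ) : ℝ) ≤ n := by push_cast; linarith
      exact_mod_cast this
    have hn1 : 1 ≤ n := by omega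
    have e1 : ((n - 1 : ℕ) : ℝ) = n - 1 := by rw [Nat.cast_sub hn1]; simp
    have e2 : ((k - 1 : ℕ) : ℝ) = k - 1 := by rw [Nat.cast_sub hk1]; simp
    rcases Nat.eq_zero_or_pos e with he0 | he0
    · subst he0
      have s1 := choose_keep (n := n) (k := k) hn1 (by omega) (by
        rw [Nat.cast_sub (by omega)]; linarith)
      have s2 := ih (n - 1) k 0 (by omega) (by rw [e1]; nlinarith) (by rw [e1]; nlinarith)
      calc (n.choose k : ℝ) * δ ^ (d + 1) = ((n.choose k : ℝ) * δ) * δ ^ d := by ring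
        _ ≤ ((n - 1).choose k : ℝ) * δ ^ d := mul_le_mul_of_nonneg_right s1 (by positivity)
        _ ≤ _ := s2
        _ = _ := by
          have : n - 1 - d = n - (d + 1) := by omega
          rw [this]
    · have s1 := choose_step (n := n) (k := k) hδ hn1 hk1 (by linarith)
      have s1' : (n.choose k : ℝ) * δ ≤ ((n - 1).choose (k - 1) : ℝ) := by
        rw [one_div, ← div_eq_inv_mul, le_div_iff₀ hδ] at s1
        exact s1
      have s2 := ih (n - 1) (k - 1) (e - 1) (by omega) (by rw [e1, e2]; nlinarith) (by rw [e1, e2]; nlinarith)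
      calc (n.choose k : ℝ) * δ ^ (d + 1) = ((n.choose k : ℝ) * δ) * δ ^ d := by ring
        _ ≤ ((n - 1).choose (k - 1) : ℝ) * δ ^ d := mul_le_mul_of_nonneg_right s1' (by positivity)
        _ ≤ _ := s2
        _ = _ := by
          have h1 : n - 1 - d = n - (d + 1) := by omega
          have h2 : k - 1 - (e - 1) = k - e := by omega
          rw [h1, h2]

/-- the converse inequality -/
lemma choose_add (n k d e : ℕ) (he : e ≤ d) : n.choose k ≤ (n + d).choose (k + e) := by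
  rw [Nat.add_choose_eq n d (k + e)]
  have h1 : (k, e) ∈ antidiagonal (k + e) := by rw [Finset.HasAntidiagonal.mem_antidiagonal]
  calc n.choose k ≤ n.choose k * d.choose e := Nat.le_mul_of_pos_right _ (Nat.choose_pos he)
    _ ≤ _ := single_le_sum (f := fun ij : ℕ × ℕ => n.choose ij.1 * d.choose ij.2) (fun _ _ => Nat.zero_le _) h1

end Pool.Agent.H679.DC
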