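import Pool.Agent.H679.DC.Uni
import Pool.Graph.R_seed8.Y816.PD.UniS

/-!
# Almost prime tuples in the affine images of the sets of integers with prescribed numbers of digits
-/

set_option autoImplicit false

namespace Pool.Agent.H679.DC

open Finset Filter
open Pool.Agent.H373R2.T7 Pool.Agent.H410R2.ED Pool.Agent.W123.RP
open Pool.Agent.Y816.PD (WG TP TP_dvd WG_bounds WG_nonneg)

lemma nu_affine {p : ℕ} (hp : p.Prime) (β c : ℕ) (hβ : ¬ p ∣ β) (S : ℕ → Prop) (hper : ∀ n, S n ↔ S (n % p))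
    [DecidablePred S] [DecidablePred (fun n => S (β * n + c))] :
    ((range p).filter (fun n => S (β * n + c))).card = ((range p).filter (fun n => S n)).card := by
  have h := Pool.Agent.Y816.PD.sum_perm_image (s := range p) (fun n => (β * n + c) % p)
    (fun n _ => mem_range.2 (Nat.mod_lt _ hp.pos)) (fun n hn m hm hnm => by
      rw [mem_range] at hn hm
      have h1 : β * n + c ≡ β * m + c [MOD p] := hnm
      have h2 := Nat.ModEq.add_right_cancel' c h1
      have h3 : n ≡ m [MOD p] := Nat.ModEq.cancel_left_of_coprime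
        (by rw [Nat.gcd_comm]; exact ((hp.coprime_iff_not_dvd).2 hβ).symm) h2
      rwa [Nat.ModEq, Nat.mod_eq_of_lt hn, Nat.mod_eq_of_lt hm] at h3)
    (fun n => if S n then (1 : ℝ) else 0)
  have h1 : ∑ n ∈ range p, (if S ((β * n + c) % p) then (1 : ℝ) else 0) =
      ∑ n ∈ range p, (if S (β * n + c) then (1 : ℝ) else 0) := by
    apply sum_congr rfl
    intro n _
    by_cases hs : S (β * n + c)
    · rw [if_pos hs, if_pos ((hper _).1 hs)]
    · rw [if_neg hs, if_neg (fun h2 => hs ((hper _).2 h2))]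
  rw [h1, sum_boole, sum_boole] at h
  exact_mod_cast h

open Classical in
/-- the number of the classes `n` modulo `p` with `p ∣ n + h` for some `h ∈ H` -/
noncomputable def nuH (H : Finset ℕ) (p : ℕ) : ℕ := ((range p).filter (fun n => ∃ h ∈ H, p ∣ n + h)).card

lemma perH (H : Finset ℕ) (p n : ℕ) : (∃ h ∈ H, p ∣ n + h) ↔ ∃ h ∈ H, p ∣ n % p + h := by
  apply exists_congr
  intro h
  apply and_congr_right
  intro _
  rw [Nat.dvd_iff_mod_eq_zero, Nat.dvd_iff_mod_eq_zero, Nat.mod_add_mod]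

lemma nuH_lt {H : Finset ℕ} {p : ℕ} (hp : p.Prime) (hadm : ∃ m : ℕ, ∀ h ∈ H, ¬ p ∣ m + h) : nuH H p < p := by
  classical
  obtain ⟨m, hm⟩ := hadm
  unfold nuH
  calc _ < (range p).card := by
        apply card_lt_card
        rw [ssubset_iff_of_subset (filter_subset _ _)]
        refine ⟨m % p, mem_range.2 (Nat.mod_lt _ hp.pos), fun h => ?_⟩
        rw [mem_filter, ← perH] at h
        obtain ⟨_, h', hh', hd⟩ := h
        exact hm h' hh' hd
    _ = p := card_range p

lemma nuH_le {H : Finset ℕ} {p : ℕ} (hp : p.Prime) : nuH H p ≤ H.card := by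
  classical
  unfold nuH
  have h1 : (range p).filter (fun n => ∃ h ∈ H, p ∣ n + h) ⊆ H.image (fun h => (p - h % p) % p) := by
    intro n hn
    rw [mem_filter, mem_range] at hn
    obtain ⟨hn1, h, hh, hd⟩ := hn
    rw [mem_image]
    refine ⟨h, hh, ?_⟩
    have h2 : p ∣ n + h % p := by
      rw [Nat.dvd_iff_mod_eq_zero] at hd ⊢
      rwa [Nat.add_mod_mod]
    have h3 : h % p < p := Nat.mod_lt _ hp.pos
    obtain ⟨q, hq⟩ := h2
    have hq2 : q < 2 := by
      by_contra hcon
      have : p * 2 ≤ p * q := Nat.mul_le_mul_left _ (by omega)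
      omega
    interval_cases q
    · have : n = 0 ∧ h % p = 0 := by omega
      rw [this.2, this.1, Nat.sub_zero, Nat.mod_self]
    · rw [mul_one] at hq
      have h4 : p - h % p = n := by omega
      rw [h4, Nat.mod_eq_of_lt hn1]
  exact (card_le_card h1).trans card_image_le

/-- `p` does not divide `b`, and divides one of the `β x + c + h` -/
def QT (b : ℕ) (H : Finset ℕ) (β c p x : ℕ) : Prop := ¬ p ∣ b ∧ ∃ h ∈ H, p ∣ β * x + c + h

lemma QT_per (b : ℕ) (H : Finset ℕ) (β c p x : ℕ) : QT b H β c p x ↔ QT b H β c p (x % p) := by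
  unfold QT
  apply and_congr_right
  intro _
  rw [perH H p (β * x + c), perH H p (β * (x % p) + c)]
  have : (β * x + c) % p = (β * (x % p) + c) % p := by
    rw [Nat.add_mod, Nat.mul_mod, Nat.add_mod (β * (x % p)), Nat.mul_mod β (x % p), Nat.mod_mod]
  rw [this]

lemma nuB_QT {b t : ℕ} (H : Finset ℕ) (c : ℕ) {p : ℕ} (hp : p.Prime) :
    nuB (QT b H (b ^ t) c) p = if p ∣ b then 0 else nuH H p := by
  classical
  unfold nuB
  split_ifs with h
  · rw [card_eq_zero, filter_eq_empty_iff]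
    intro x _ hx
    exact hx.1 h
  · unfold nuH
    rw [← nu_affine hp (b ^ t) c (fun hd => h (hp.dvd_of_dvd_pow hd)) (fun n => ∃ h ∈ H, p ∣ n + h)
      (fun n => perH H p n)]
    congr 1
    apply filter_congr
    intro x _
    unfold QT
    exact ⟨fun hx => hx.2, fun hx => ⟨h, hx⟩⟩

lemma QT_B {b t : ℕ} (H : Finset ℕ) (c : ℕ) : PerB (QT b H (b ^ t) c) H.card :=
  ⟨fun p n => QT_per _ _ _ _ _ _, fun p hp => by
    rw [nuB_QT H c hp]
    split_ifs
    · exact Nat.zero_le _
    · exact nuH_le hp⟩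

lemma QT_lt {b t : ℕ} {H : Finset ℕ} (hadm : ∀ p : ℕ, p.Prime → ∃ m : ℕ, ∀ h ∈ H, ¬ p ∣ m + h) (c : ℕ) {p : ℕ}
    (hp : p.Prime) : nuB (QT b H (b ^ t) c) p < p := by
  rw [nuB_QT H c hp]
  split_ifs
  · exact hp.pos
  · exact nuH_lt hp (hadm p hp)

lemma WG_eq (H : Finset ℕ) (x : ℕ) : WG (TP H 0) x = ∏ p ∈ pz x, (1 - (nuH H p : ℝ) / p) := by
  classical
  unfold WG pz
  apply prod_congr rfl
  intro p hp
  rw [mem_filter] at hp
  have h1 : ((range p).filter (fun n : ℕ => (p : ℤ) ∣ TP H 0 n)).card = nuH H p := by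
    unfold nuH
    congr 1
    apply filter_congr
    intro n _
    rw [TP_dvd H 0 n hp.2]
    simp only [Nat.zero_add]
  rw [← h1]

lemma V_bds (H : Finset ℕ) (hadm : ∀ p : ℕ, p.Prime → ∃ m : ℕ, ∀ h ∈ H, ¬ p ∣ m + h) {b : ℕ} (hb : 2 ≤ b) :
    ∃ v Cv : ℝ, 0 < v ∧ 0 < Cv ∧ ∀ᶠ L : ℕ in atTop, ∀ t c : ℕ,
      v / (L : ℝ) ^ H.card ≤ Vq (QT b H (b ^ t) c) (b ^ L) ∧
      Vq (QT b H (b ^ t) c) (b ^ L) ≤ Cv / (L : ℝ) ^ H.card := by
  classical
  obtain ⟨v, Cv, hv, hCv, h⟩ := WG_bounds H hadm H.card rfl b hb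
  obtain ⟨P, hP⟩ : ∃ P : ℝ, P = ∏ p ∈ pz b, (p : ℝ) := ⟨_, rfl⟩
  have hP0 : 0 < P := by
    rw [hP]
    exact prod_pos fun p hp => by exact_mod_cast (mem_pz.1 hp).2.pos
  refine ⟨v, P * Cv, hv, by positivity, ?_⟩
  filter_upwards [h] with L hL t c
  obtain ⟨h1, h2⟩ := hL 0
  rw [WG_eq] at h1 h2
  have hfac : ∀ p : ℕ, p.Prime → 0 ≤ 1 - (nuH H p : ℝ) / p ∧ 1 ≤ p * (1 - (nuH H p : ℝ) / p) := by
    intro p hp
    have hp0 : (0 : ℝ) < p := by exact_mod_cast hp.pos
    have h3 : (nuH H p : ℝ) + 1 ≤ p := by exact_mod_cast nuH_lt hp (hadm p hp)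
    constructor
    · rw [sub_nonneg, div_le_one hp0]
      linarith
    · rw [mul_sub, mul_one, mul_div_cancel₀ _ hp0.ne']
      linarith
  constructor
  · refine h1.trans ?_
    unfold Vq
    apply Finset.prod_le_prod
    · intro p hp
      exact (hfac p (mem_pz.1 hp).2).1
    · intro p hp
      have hpp := (mem_pz.1 hp).2
      rw [nuB_QT H c hpp]
      split_ifs
      · rw [Nat.cast_zero, zero_div, sub_zero]
        have : 0 ≤ (nuH H p : ℝ) / p := by positivity
        linarith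
      · exact le_rfl
  · have h3 : Vq (QT b H (b ^ t) c) (b ^ L) ≤ P * ∏ p ∈ pz (b ^ L), (1 - (nuH H p : ℝ) / p) := by
      unfold Vq
      calc ∏ p ∈ pz (b ^ L), (1 - (nuB (QT b H (b ^ t) c) p : ℝ) / p) ≤
          ∏ p ∈ pz (b ^ L), ((if p ∣ b then (p : ℝ) else 1) * (1 - (nuH H p : ℝ) / p)) := by
            apply Finset.prod_le_prod
            · intro p hp
              have hpp := (mem_pz.1 hp).2
              have hp0 : (0 : ℝ) < p := by exact_mod_cast hpp.pos
              rw [sub_nonneg, div_le_one hp0]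
              exact_mod_cast (QT_lt hadm c hpp).le
            · intro p hp
              have hpp := (mem_pz.1 hp).2
              rw [nuB_QT H c hpp]
              split_ifs
              · rw [Nat.cast_zero, zero_div, sub_zero]
                exact (hfac p hpp).2
              · rw [one_mul]
        _ = (∏ p ∈ pz (b ^ L), (if p ∣ b then (p : ℝ) else 1)) *
            ∏ p ∈ pz (b ^ L), (1 - (nuH H p : ℝ) / p) := prod_mul_distrib
        _ ≤ P * ∏ p ∈ pz (b ^ L), (1 - (nuH H p : ℝ) / p) := by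
            apply mul_le_mul_of_nonneg_right _ (prod_nonneg fun p hp => (hfac p (mem_pz.1 hp).2).1)
            rw [prod_ite, prod_const_one, mul_one, hP]
            have h4 : ∏ p ∈ (pz (b ^ L)).filter (fun p => p ∣ b), p ≤ ∏ p ∈ pz b, p := by
              apply prod_le_prod_of_subset_of_one_le'
              · intro p hp
                rw [mem_filter, mem_pz] at hp
                exact mem_pz.2 ⟨Nat.le_of_dvd (by omega) hp.2, hp.1.2⟩
              · intro p hp _
                exact (mem_pz.1 hp).2.one_le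
            have h5 : ((∏ p ∈ (pz (b ^ L)).filter (fun p => p ∣ b), p : ℕ) : ℝ) ≤ ((∏ p ∈ pz b, p : ℕ) : ℝ) :=
              Nat.cast_le.2 h4
            rw [Nat.cast_prod, Nat.cast_prod] at h5
            exact h5
    calc Vq (QT b H (b ^ t) c) (b ^ L) ≤ P * ∏ p ∈ pz (b ^ L), (1 - (nuH H p : ℝ) / p) := h3
      _ ≤ P * (Cv / (L : ℝ) ^ H.card) := mul_le_mul_of_nonneg_left h2 hP0.le
      _ = _ := by ring

end Pool.Agent.H679.DC
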