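import Pool.Agent.H679.DC.Bin

/-!
# Twins with permuted digits
-/

set_option autoImplicit false

namespace Pool.Agent.H679.DC

open Finset Filter

lemma Ana_finite {b : ℕ} (hb : 0 < b) (t L N : ℕ) : (Ana b t L N).Finite := by
  have h : Ana b t L N = ((tc b L (cw b t L N)).image (fun x => b ^ t * x + out b t L N) : Set ℕ) := by
    ext m
    rw [mem_Ana hb, mem_coe, mem_image]
    exact ⟨fun ⟨x, h1, h2⟩ => ⟨x, h1, h2.symm⟩, fun ⟨x, h1, h2⟩ => ⟨x, h1, h2.symm⟩⟩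
  rw [h]
  exact finite_toSet _

lemma self_mem (b t L N : ℕ) : N ∈ Ana b t L N := ⟨rfl, rfl, fun _ => rfl⟩

lemma Ana_pos {b : ℕ} (hb : 0 < b) (t L N : ℕ) : 0 < (Ana b t L N).ncard :=
  (Set.ncard_pos (Ana_finite hb t L N)).2 ⟨N, self_mem b t L N⟩

/-- twins with permuted digits -/
theorem twins {b : ℕ} {ε : ℝ} (hb : 2 ≤ b) (hε : 0 < ε) (hε1 : ε ≤ 1) (D : ℕ) :
    ∃ r : ℕ, 2 ≤ r ∧ ∃ κ C : ℝ, 0 < κ ∧ 0 < C ∧
      ∀ᶠ L : ℕ in atTop, ∀ t N : ℕ, 1 ≤ t → t ≤ D * L → N ≤ b ^ (D * L) → Rich b ε t L N →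
        N.Coprime (b * (b - 1)) → (N + 2).Coprime (b * (b - 1)) →
        0 < (Ana b t L N).ncard ∧
        κ * (Ana b t L N).ncard / (L : ℝ) ^ 2 ≤
          (Set.ncard {m | m ∈ Ana b t L N ∧ (∀ p : ℕ, p.Prime → p ∣ m ∨ p ∣ m + 2 → b ^ L < p ^ r) ∧
            m.primeFactorsList.length ≤ r ∧ (m + 2).primeFactorsList.length ≤ r} : ℝ) ∧
        (Set.ncard {m | m ∈ Ana b t L N ∧ m.Prime ∧ (m + 2).Prime} : ℝ) ≤ C * (Ana b t L N).ncard / (L : ℝ) ^ 2 := by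
  have hcard : ({0, 2} : Finset ℕ).card = 2 := by decide
  obtain ⟨r, hr, κ, hκ, hlow⟩ := ana_lower hb hε hε1 {0, 2} (by rw [hcard]; norm_num) adm02 D
  obtain ⟨C, hC, hup⟩ := ana_upper hb hε hε1 {0, 2} (by rw [hcard]; norm_num) adm02 1
  rw [hcard] at hlow hup
  refine ⟨r, hr, κ, C, hκ, hC, ?_⟩
  filter_upwards [hlow, hup] with L h1 h2
  intro t N ht htD hN hrich hc0 hc2
  have h3 := h1 t N ht htD hN hrich (by
    intro h hh
    rw [mem_insert, mem_singleton] at hh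
    rcases hh with rfl | rfl
    · exact hc0
    · exact hc2)
  have h4 := h2 t N hrich
  have hfin := Ana_finite (show 0 < b by omega) t L N
  refine ⟨Ana_pos (by omega) t L N, h3.trans ?_, le_trans ?_ h4⟩
  · have hle := Set.ncard_le_ncard (s := {m | m ∈ Ana b t L N ∧ ∀ h ∈ ({0, 2} : Finset ℕ),
        (∀ p : ℕ, p.Prime → p ∣ m + h → b ^ L < p ^ r) ∧ (m + h).primeFactorsList.length ≤ r})
      (t := {m | m ∈ Ana b t L N ∧ (∀ p : ℕ, p.Prime → p ∣ m ∨ p ∣ m + 2 → b ^ L < p ^ r) ∧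
            m.primeFactorsList.length ≤ r ∧ (m + 2).primeFactorsList.length ≤ r}) (by
        rintro m ⟨hm, hm2⟩
        have e0 := hm2 0 (by simp)
        have e2 := hm2 2 (by simp)
        rw [Nat.add_zero] at e0
        refine ⟨hm, fun p hp hd => ?_, e0.2, e2.2⟩
        rcases hd with hd | hd
        · exact e0.1 p hp hd
        · exact e2.1 p hp hd) (hfin.subset (fun m hm => hm.1))
    exact_mod_cast hle
  · have hle := Set.ncard_le_ncard (s := {m | m ∈ Ana b t L N ∧ m.Prime ∧ (m + 2).Prime})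
      (t := {m | m ∈ Ana b t L N ∧ ∀ h ∈ ({0, 2} : Finset ℕ), ∀ p : ℕ, p.Prime → p ∣ m + h → m + h ≤ p ^ 1}) (by
        rintro m ⟨hm, hm5, hm6⟩
        refine ⟨hm, fun h hh p hp hd => ?_⟩
        rw [mem_insert, mem_singleton] at hh
        rw [pow_one]
        rcases hh with rfl | rfl
        · rw [Nat.add_zero] at hd ⊢
          exact ((Nat.prime_dvd_prime_iff_eq hp hm5).1 hd).ge
        · exact ((Nat.prime_dvd_prime_iff_eq hp hm6).1 hd).ge) (hfin.subset (fun m hm => hm.1))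
    exact_mod_cast hle

end Pool.Agent.H679.DC
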