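import Pool.Agent.H679.DC.Dis
import Pool.Graph.R_seed8.Y816.PD.Uni

/-!
# The sieve for integers with prescribed numbers of digits
-/

set_option autoImplicit false

namespace Pool.Agent.H679.DC

open Finset Filter
open Pool.Agent.H373R2.T7 Pool.Agent.H410R2.ED Pool.Agent.W123.RP
open Pool.Agent.Y816.PD (chooseJ exists_class group_le WJ W_low WJ_pos V_le_WJ WJ_le_V fac_nuB)

/-- the choice of the sifting level -/
lemma levelJ {b u E M L : ℕ} (hb : 2 ≤ b) (hu : 1 ≤ u) (hE : 1 ≤ E) (h1 : 16 * E * (M + 1) ≤ L / (2 * u))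
    (h2 : 4 * u ≤ L) :
    ∃ J : ℕ, M * (2 ^ 2 ^ J) ^ E ≤ b ^ (L / (2 * u)) ∧ 4 ≤ 2 ^ 2 ^ J ∧ b ^ L ≤ (2 ^ 2 ^ J) ^ (64 * E * u) ∧
      (2 ^ 2 ^ J) ^ (4 * E) ≤ b ^ (L / (2 * u)) ∧ 2 ^ J ≤ 2 * b * L := by
  have h4 : 4 * (L / (2 * u)) / 4 = L / (2 * u) := by omega
  obtain ⟨J, hJ1, hJ2, hJ3, hJ4, hJ5⟩ := chooseJ (b := b) (E := E) (M := M) (K := 4 * (L / (2 * u))) hb hE
    (by rw [h4]; exact h1)
  rw [h4] at hJ1 hJ4
  have h5 : L ≤ 4 * (L / (2 * u)) * u := by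
    have h6 := Nat.lt_div_mul_add (a := L) (show 0 < 2 * u by omega)
    have h7 : 4 * (L / (2 * u)) * u = 2 * (L / (2 * u) * (2 * u)) := by ring
    omega
  refine ⟨J, hJ1, hJ2, ?_, hJ4, ?_⟩
  · calc b ^ L ≤ b ^ (4 * (L / (2 * u)) * u) := Nat.pow_le_pow_right (by omega) h5
      _ = (b ^ (4 * (L / (2 * u)))) ^ u := pow_mul _ _ _
      _ ≤ ((2 ^ 2 ^ J) ^ (64 * E)) ^ u := Nat.pow_le_pow_left hJ3 u
      _ = _ := (pow_mul _ _ _).symm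
  · refine hJ5.trans ?_
    have h6 : L / (2 * u) ≤ L / 2 := Nat.div_le_div_left (by omega) (by norm_num)
    have h7 : 4 * (L / (2 * u)) ≤ 2 * L := by omega
    calc b * (4 * (L / (2 * u))) ≤ b * (2 * L) := Nat.mul_le_mul_left _ h7
      _ = _ := by ring

open Classical in
/-- **Lower bound.** -/
theorem uni_lower {b : ℕ} {ε : ℝ} (hb : 2 ≤ b) (hε : 0 < ε) (hε1 : ε ≤ 1) (κ0 : ℕ) (hκ0 : 1 ≤ κ0) :
    ∃ E0 : ℕ, 1 ≤ E0 ∧ ∃ κ : ℝ, 0 < κ ∧ ∀ᶠ L : ℕ in atTop,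
      ∀ Q : ℕ → ℕ → Prop, PerB Q κ0 → (∀ p : ℕ, p.Prime → nuB Q p < p) →
      ∀ k : ℕ → ℕ, Cnt b ε L k →
      (∀ p : ℕ, p.Prime → p ∣ b * (b - 1) → ∀ x ∈ tc b L k, ¬ Q p x) →
      κ * (tc b L k).card * Vq Q (b ^ L) ≤
        (((tc b L k).filter (fun x => ∀ p : ℕ, p.Prime → p ^ E0 ≤ b ^ L → ¬ Q p x)).card : ℝ) := by
  obtain ⟨ng, hng⟩ := group_le κ0
  obtain ⟨c0, hc0, n1, hsv'⟩ := sv κ0 hκ0
  obtain ⟨k0, hk0⟩ : ∃ k0, k0 = 2 * ng := ⟨_, rfl⟩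
  obtain ⟨u, hu, hlev'⟩ := lev_tc hb hε hε1
  obtain ⟨C2, hC2, K0, hlev⟩ := hlev' (n1 + k0 + 1)
  refine ⟨64 * c0 * u + 1, by omega, ?_⟩
  obtain ⟨B, hB⟩ : ∃ B, B = b * (b - 1) := ⟨_, rfl⟩
  have hBpos : 0 < B := by
    rw [hB]
    exact Nat.mul_pos (by omega) (by omega)
  obtain ⟨D0, hD0⟩ : ∃ D0, D0 = (range (2 * κ0 + 1)).filter (fun p => p.Prime ∧ ¬ p ∣ B) := ⟨_, rfl⟩
  have hD0p : ∀ p ∈ D0, p.Prime := fun p hp => by
    rw [hD0, mem_filter] at hp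
    exact hp.2.1
  obtain ⟨M, hM⟩ : ∃ M, M = ∏ p ∈ D0, p := ⟨_, rfl⟩
  have hMpos : 0 < M := by rw [hM]; exact prod_pos fun p hp => (hD0p p hp).pos
  have hMb : M.Coprime B := by
    rw [hM]
    apply Nat.Coprime.prod_left
    intro p hp
    have h1 := hp
    rw [hD0, mem_filter] at h1
    exact ((hD0p p hp).coprime_iff_not_dvd).2 h1.2.2
  have hMs : ∀ p : ℕ, p.Prime → p ∣ M → p ≤ 2 * κ0 := by
    intro p hp hd
    rw [hM] at hd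
    obtain ⟨q, hq, hdq⟩ := hp.prime.exists_mem_finset_dvd hd
    have h1 := (Nat.prime_dvd_prime_iff_eq hp (hD0p q hq)).1 hdq
    rw [hD0, mem_filter, mem_range] at hq
    omega
  obtain ⟨C1, hC1, hsv1⟩ := hsv' B M hMpos hMb hMs
  have hM1 : (1 : ℝ) ≤ M := by exact_mod_cast hMpos
  have hM0 : (0 : ℝ) < M := by linarith
  have hb2 : (2 : ℝ) ≤ b := by exact_mod_cast hb
  have hb0 : (0 : ℝ) < b := by linarith
  refine ⟨1 / (4 * M), by positivity, ?_⟩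
  filter_upwards [eventually_ge_atTop K0, eventually_ge_atTop (2 * u * (16 * c0 * (M + 1))),
    eventually_ge_atTop (4 * u),
    tendsto_natCast_atTop_atTop.eventually_ge_atTop (C1 * C2 * (2 * (b : ℝ)) ^ (n1 + k0) * (4 * M))]
    with L hK1 hK2 hK3 hK5
  intro Q hQ hadm k hk hloc
  obtain ⟨n0, hn0⟩ := exists_class Q hQ.per hadm D0 hD0p
  have hK2' : 16 * c0 * (M + 1) ≤ L / (2 * u) := by
    rw [Nat.le_div_iff_mul_le (by omega)]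
    calc 16 * c0 * (M + 1) * (2 * u) = 2 * u * (16 * c0 * (M + 1)) := by ring
      _ ≤ L := hK2
  obtain ⟨J, hJ1, hJ2, hJ3, hJ4, hJ5⟩ := levelJ (b := b) hb hu hc0 hK2' hK3
  have hLpos : 0 < L := by omega
  have hLr : (0 : ℝ) < L := by exact_mod_cast hLpos
  obtain ⟨S, hS⟩ : ∃ S, S = tc b L k := ⟨_, rfl⟩
  obtain ⟨X, hX⟩ : ∃ X : ℝ, X = S.card := ⟨_, rfl⟩
  have hXpos : 0 < X := by
    rw [hX, hS]
    exact_mod_cast tc_pos (by omega) hLpos hk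
  have hH := hlev L hK1 k hk
  rw [← hB, ← hS] at hH
  have hmain := (hsv1 Q hQ n0 J (b ^ (L / (2 * u))) S S.card (PS S) (dst B S) hJ1).1
  rw [← hX] at hmain
  obtain ⟨T, hT⟩ : ∃ T, T = S.filter (fun n => n % M = n0 % M ∧
    ∀ l ∈ Pr κ0 J, ¬ l ∣ B → ¬ Q l n) := ⟨_, rfl⟩
  rw [← hT] at hmain
  have hTN : T.card ≤ ((tc b L k).filter (fun x => ∀ p : ℕ, p.Prime → p ^ (64 * c0 * u + 1) ≤ b ^ L →
      ¬ Q p x)).card := by
    rw [← hS]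
    apply card_le_card
    intro n hn
    rw [hT, mem_filter] at hn
    obtain ⟨hn1, hn2, hn3⟩ := hn
    rw [mem_filter]
    refine ⟨hn1, ?_⟩
    intro p hp hpE hq
    have hpy : p < 2 ^ 2 ^ J := by
      by_contra hcon
      push Not at hcon
      have h1 : (2 ^ 2 ^ J) ^ (64 * c0 * u + 1) ≤ p ^ (64 * c0 * u + 1) := Nat.pow_le_pow_left hcon _
      have h2 : (2 ^ 2 ^ J) ^ (64 * c0 * u) < (2 ^ 2 ^ J) ^ (64 * c0 * u + 1) :=
        Nat.pow_lt_pow_right (by omega) (by omega)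
      omega
    by_cases hpb : p ∣ B
    · rw [hB] at hpb
      rw [hS] at hn1
      exact hloc p hp hpb n hn1 hq
    · by_cases hpk : p ≤ 2 * κ0
      · have hpD : p ∈ D0 := by
          rw [hD0, mem_filter, mem_range]
          exact ⟨by omega, hp, hpb⟩
        have hpM : p ∣ M := by
          rw [hM]
          exact dvd_prod_of_mem (fun p => p) hpD
        apply hn0 p hpD
        rw [hQ.per, ← Nat.mod_mod_of_dvd n0 hpM, ← hn2, Nat.mod_mod_of_dvd n hpM, ← hQ.per]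
        exact hq
      · refine hn3 p ?_ hpb hq
        unfold Pr
        rw [mem_filter, mem_range]
        exact ⟨hpy, hp, by omega⟩
  have hTN' : (T.card : ℝ) ≤ (((tc b L k).filter (fun x => ∀ p : ℕ, p.Prime →
      p ^ (64 * c0 * u + 1) ≤ b ^ L → ¬ Q p x)).card : ℝ) := by exact_mod_cast hTN
  refine le_trans ?_ (hmain.trans hTN')
  have hφ := fac_nuB hQ hadm
  have hx : 2 ^ 2 ^ J ≤ b ^ L := by
    calc 2 ^ 2 ^ J ≤ (2 ^ 2 ^ J) ^ (4 * c0) := Nat.le_self_pow (by omega) _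
      _ ≤ b ^ (L / (2 * u)) := hJ4
      _ ≤ b ^ L := Nat.pow_le_pow_right (by omega) (Nat.div_le_self _ _)
  have hVW := V_le_WJ (κ := κ0) (b := B) hadm hx
  have hWl := W_low B hng hφ J
  have hW0 := WJ_pos B hφ J
  obtain ⟨W, hW⟩ : ∃ W, W = WJ κ0 B (fun p => 1 - (nuB Q p : ℝ) / p) J := ⟨_, rfl⟩
  have hWe : ∏ l ∈ (Pr κ0 J).filter (fun l => ¬ l ∣ B), (1 - (nuB Q l : ℝ) / l) = W := hW.symm
  rw [hWe]
  rw [← hW] at hVW hWl hW0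
  rw [← hS, ← hX]
  have h8 : ((2 : ℝ) ^ J) ≤ 2 * b * L := by exact_mod_cast hJ5
  have h6 : 1 / (4 * M) * X * Vq Q (b ^ L) ≤ X / M / 4 * W := by
    calc 1 / (4 * M) * X * Vq Q (b ^ L) ≤ 1 / (4 * M) * X * W :=
          mul_le_mul_of_nonneg_left hVW (by positivity)
      _ = _ := by field_simp
  have h7 : C1 * X * ((2 : ℝ) ^ J) ^ n1 * HP B (b ^ (L / (2 * u))) (PS S) ≤ X / M / 4 * W := by
    have hWl2 : 1 ≤ (2 * (b : ℝ) * L) ^ k0 * W := by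
      refine hWl.trans ?_
      rw [← hk0]
      apply mul_le_mul_of_nonneg_right _ hW0.le
      exact pow_le_pow_left₀ (by positivity) h8 k0
    have hHn := HP_nonneg B (b ^ (L / (2 * u))) (PS S) (PS_nonneg S)
    calc C1 * X * ((2 : ℝ) ^ J) ^ n1 * HP B (b ^ (L / (2 * u))) (PS S) ≤
        C1 * X * (2 * b * L) ^ n1 * (C2 / (L : ℝ) ^ (n1 + k0 + 1)) := by gcongr
      _ = (C1 * C2 * (2 * (b : ℝ)) ^ n1) * X / (L : ℝ) ^ (k0 + 1) * 1 := by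
          rw [mul_pow (2 * (b : ℝ)), pow_add, pow_add, pow_add, pow_one]
          field_simp
      _ ≤ (C1 * C2 * (2 * (b : ℝ)) ^ n1) * X / (L : ℝ) ^ (k0 + 1) * ((2 * (b : ℝ) * L) ^ k0 * W) := by
          apply mul_le_mul_of_nonneg_left hWl2 (by positivity)
      _ = (C1 * C2 * (2 * (b : ℝ)) ^ (n1 + k0) * (4 * M)) * (X / M / 4 * W) / L := by
          rw [mul_pow (2 * (b : ℝ)), pow_add, pow_add, pow_one]
          field_simp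
      _ ≤ L * (X / M / 4 * W) / L := by
          apply div_le_div_of_nonneg_right _ hLr.le
          exact mul_le_mul_of_nonneg_right hK5 (by positivity)
      _ = _ := by field_simp
  have h9 : X / M / 2 * W = X / M / 4 * W + X / M / 4 * W := by ring
  linarith

open Classical in
/-- **Upper bound.** -/
theorem uni_upper {b : ℕ} {ε : ℝ} (hb : 2 ≤ b) (hε : 0 < ε) (hε1 : ε ≤ 1) (κ0 : ℕ) (hκ0 : 1 ≤ κ0)
    (r : ℕ) (hr : 1 ≤ r) :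
    ∃ C : ℝ, 0 < C ∧ ∀ᶠ L : ℕ in atTop,
      ∀ Q : ℕ → ℕ → Prop, PerB Q κ0 → (∀ p : ℕ, p.Prime → nuB Q p < p) →
      ∀ k : ℕ → ℕ, Cnt b ε L k →
      (((tc b L k).filter (fun x => ∀ p : ℕ, p.Prime → p ^ r ≤ b ^ L → ¬ Q p x)).card : ℝ) ≤
        C * (tc b L k).card * Vq Q (b ^ L) := by
  obtain ⟨ng, hng⟩ := group_le κ0
  obtain ⟨c0, hc0, n1, hsv'⟩ := sv κ0 hκ0
  obtain ⟨k0, hk0⟩ : ∃ k0, k0 = 2 * ng := ⟨_, rfl⟩
  obtain ⟨u, hu, hlev'⟩ := lev_tc hb hε hε1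
  obtain ⟨C2, hC2, K0, hlev⟩ := hlev' (n1 + k0)
  obtain ⟨B, hB⟩ : ∃ B, B = b * (b - 1) := ⟨_, rfl⟩
  have hBpos : 0 < B := by
    rw [hB]
    exact Nat.mul_pos (by omega) (by omega)
  obtain ⟨C1, hC1, hsv1⟩ := hsv' B 1 one_pos (Nat.coprime_one_left B)
    (fun p hp hd => absurd (Nat.dvd_one.1 hd) hp.one_lt.ne')
  have hb2 : (2 : ℝ) ≤ b := by exact_mod_cast hb
  have hb0 : (0 : ℝ) < b := by linarith
  obtain ⟨E, hE⟩ : ∃ E, E = c0 + r := ⟨_, rfl⟩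
  have hE1 : 1 ≤ E := by omega
  obtain ⟨m, hm⟩ : ∃ m, 64 * E * u < 2 ^ m := ⟨64 * E * u, Nat.lt_two_pow_self⟩
  obtain ⟨C3, hC3⟩ : ∃ C3 : ℝ, C3 = (4 ^ ng) ^ m * (∏ p ∈ pz (2 * κ0 + B), (p : ℝ)) := ⟨_, rfl⟩
  have hC3pos : 0 < C3 := by
    rw [hC3]
    apply mul_pos (by positivity)
    exact prod_pos fun p hp => by exact_mod_cast (mem_pz.1 hp).2.pos
  refine ⟨(2 + C1 * C2 * (2 * (b : ℝ)) ^ (n1 + k0)) * C3, by positivity, ?_⟩
  filter_upwards [eventually_ge_atTop K0, eventually_ge_atTop (2 * u * (16 * E * (1 + 1))),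
    eventually_ge_atTop (4 * u)] with L hK1 hK2 hK3
  intro Q hQ hadm k hk
  have hK2' : 16 * E * (1 + 1) ≤ L / (2 * u) := by
    rw [Nat.le_div_iff_mul_le (by omega)]
    calc 16 * E * (1 + 1) * (2 * u) = 2 * u * (16 * E * (1 + 1)) := by ring
      _ ≤ L := hK2
  obtain ⟨J, hJ1, hJ2, hJ3, hJ4, hJ5⟩ := levelJ (b := b) (M := 1) hb hu hE1 hK2' hK3
  have hLpos : 0 < L := by omega
  have hLr : (0 : ℝ) < L := by exact_mod_cast hLpos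
  obtain ⟨S, hS⟩ : ∃ S, S = tc b L k := ⟨_, rfl⟩
  obtain ⟨X, hX⟩ : ∃ X : ℝ, X = S.card := ⟨_, rfl⟩
  have hXpos : 0 < X := by
    rw [hX, hS]
    exact_mod_cast tc_pos (by omega) hLpos hk
  have hH := hlev L hK1 k hk
  rw [← hB, ← hS] at hH
  have hmain := (hsv1 Q hQ 0 J (b ^ (L / (2 * u))) S S.card (PS S) (dst B S) (by
    rw [one_mul] at hJ1 ⊢
    refine le_trans ?_ hJ1
    exact Nat.pow_le_pow_right (by omega) (by omega))).2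
  rw [← hX] at hmain
  obtain ⟨T, hT⟩ : ∃ T, T = S.filter (fun n => n % 1 = 0 % 1 ∧
    ∀ l ∈ Pr κ0 J, ¬ l ∣ B → ¬ Q l n) := ⟨_, rfl⟩
  rw [← hT] at hmain
  have hcov : (tc b L k).filter (fun x => ∀ p : ℕ, p.Prime → p ^ r ≤ b ^ L → ¬ Q p x) ⊆ T := by
    intro n hn
    rw [mem_filter] at hn
    rw [hT, mem_filter, hS]
    refine ⟨hn.1, by omega, ?_⟩
    intro l hl _
    unfold Pr at hl
    rw [mem_filter, mem_range] at hl
    apply hn.2 l hl.2.1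
    calc l ^ r ≤ (2 ^ 2 ^ J) ^ r := Nat.pow_le_pow_left hl.1.le _
      _ ≤ (2 ^ 2 ^ J) ^ (4 * E) := Nat.pow_le_pow_right (by omega) (by omega)
      _ ≤ b ^ (L / (2 * u)) := hJ4
      _ ≤ b ^ L := Nat.pow_le_pow_right (by omega) (Nat.div_le_self _ _)
  have hSc : (((tc b L k).filter (fun x => ∀ p : ℕ, p.Prime → p ^ r ≤ b ^ L → ¬ Q p x)).card : ℝ) ≤ T.card := by
    exact_mod_cast card_le_card hcov
  have hφ := fac_nuB hQ hadm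
  have hx : b ^ L < 2 ^ 2 ^ (J + m) := by
    calc b ^ L ≤ (2 ^ 2 ^ J) ^ (64 * E * u) := hJ3
      _ < (2 ^ 2 ^ J) ^ (2 ^ m) := Nat.pow_lt_pow_right (by omega) hm
      _ = 2 ^ 2 ^ (J + m) := by rw [← pow_mul, ← pow_add]
  have hWV := WJ_le_V (b := B) hBpos hng hQ hadm hx
  rw [← hC3] at hWV
  have hWl := W_low B hng hφ J
  have hW0 := WJ_pos B hφ J
  obtain ⟨W, hW⟩ : ∃ W, W = WJ κ0 B (fun p => 1 - (nuB Q p : ℝ) / p) J := ⟨_, rfl⟩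
  have hWe : ∏ l ∈ (Pr κ0 J).filter (fun l => ¬ l ∣ B), (1 - (nuB Q l : ℝ) / l) = W := hW.symm
  rw [hWe] at hmain
  rw [← hW] at hWV hWl hW0
  have h8 : ((2 : ℝ) ^ J) ≤ 2 * b * L := by exact_mod_cast hJ5
  have hWl2 : 1 ≤ (2 * (b : ℝ) * L) ^ k0 * W := by
    refine hWl.trans ?_
    rw [← hk0]
    apply mul_le_mul_of_nonneg_right _ hW0.le
    exact pow_le_pow_left₀ (by positivity) h8 k0
  have h7 : C1 * X * ((2 : ℝ) ^ J) ^ n1 * HP B (b ^ (L / (2 * u))) (PS S) ≤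
      C1 * C2 * (2 * (b : ℝ)) ^ (n1 + k0) * (X * W) := by
    have hHn := HP_nonneg B (b ^ (L / (2 * u))) (PS S) (PS_nonneg S)
    calc C1 * X * ((2 : ℝ) ^ J) ^ n1 * HP B (b ^ (L / (2 * u))) (PS S) ≤
        C1 * X * (2 * b * L) ^ n1 * (C2 / (L : ℝ) ^ (n1 + k0)) := by gcongr
      _ = C1 * C2 * (2 * (b : ℝ)) ^ n1 * X / (L : ℝ) ^ k0 * 1 := by
          rw [mul_pow (2 * (b : ℝ)), pow_add]
          field_simp
      _ ≤ C1 * C2 * (2 * (b : ℝ)) ^ n1 * X / (L : ℝ) ^ k0 * ((2 * (b : ℝ) * L) ^ k0 * W) :=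
          mul_le_mul_of_nonneg_left hWl2 (by positivity)
      _ = _ := by
          rw [mul_pow (2 * (b : ℝ)), pow_add]
          field_simp
  rw [← hS, ← hX]
  rw [← hS] at hSc
  have h9 : 2 * (X / ((1 : ℕ) : ℝ)) * W = 2 * (X * W) := by
    rw [Nat.cast_one, div_one]; ring
  rw [h9] at hmain
  have h10 : (((S.filter (fun x => ∀ p : ℕ, p.Prime → p ^ r ≤ b ^ L → ¬ Q p x)).card : ℝ)) ≤
      (2 + C1 * C2 * (2 * (b : ℝ)) ^ (n1 + k0)) * (X * W) := by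
    calc _ ≤ (T.card : ℝ) := hSc
      _ ≤ 2 * (X * W) + C1 * X * ((2 : ℝ) ^ J) ^ n1 * HP B (b ^ (L / (2 * u))) (PS S) := hmain
      _ ≤ 2 * (X * W) + C1 * C2 * (2 * (b : ℝ)) ^ (n1 + k0) * (X * W) := by linarith
      _ = _ := by ring
  refine h10.trans ?_
  calc (2 + C1 * C2 * (2 * (b : ℝ)) ^ (n1 + k0)) * (X * W) ≤
      (2 + C1 * C2 * (2 * (b : ℝ)) ^ (n1 + k0)) * (X * (C3 * Vq Q (b ^ L))) := by
        apply mul_le_mul_of_nonneg_left _ (by positivity)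
        exact mul_le_mul_of_nonneg_left hWV hXpos.le
    _ = _ := by ring

end Pool.Agent.H679.DC
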